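import Pool.Agent.Lib.MP_a7239a_co.Lower

/-!
# Cyclic quotients, and explicit lower bounds
-/

open scoped Pointwise
open Finset

set_option linter.unusedSectionVars false

namespace Pool.Agent.Lib.MPa7239a

universe u v

/-- A finite abelian group has a cyclic quotient of every order dividing the exponent. -/
theorem exists_surj {G : Type u} [AddCommGroup G] [Finite G] {q : ℕ}
    (hq : q ∣ AddMonoid.exponent G) : ∃ π : G →+ ZMod q, Function.Surjective π := by
  classical
  have hexp : Monoid.exponent (Multiplicative G) = AddMonoid.exponent G :=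
    Monoid.exponent_multiplicative
  have hne : AddMonoid.exponent G ≠ 0 :=
    AddMonoid.exponent_ne_zero.2 (AddMonoid.ExponentExists.of_finite)
  have : NeZero (Monoid.exponent (Multiplicative G)) := ⟨by rw [hexp]; exact hne⟩
  obtain ⟨e⟩ := CommGroup.monoidHom_mulEquiv_of_hasEnoughRootsOfUnity (Multiplicative G) ℂ
  have hfin : Finite (Multiplicative G →* ℂˣ) := Finite.of_equiv _ e.symm.toEquiv
  have hexp2 : Monoid.exponent (Multiplicative G →* ℂˣ) = AddMonoid.exponent G := by
    rw [Monoid.exponent_eq_of_mulEquiv e, hexp]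
  obtain ⟨χ, hχ⟩ := Monoid.exists_orderOf_eq_exponent
    (Monoid.ExponentExists.of_finite (G := (Multiplicative G →* ℂˣ)))
  rw [hexp2] at hχ
  have hRfin : Finite χ.range := by
    have : Finite (Set.range χ) := Set.finite_range χ
    exact this
  have hcyc : IsCyclic χ.range := inferInstance
  have hcard : AddMonoid.exponent G ∣ Nat.card χ.range := by
    rw [← hχ]
    apply orderOf_dvd_of_pow_eq_one
    refine MonoidHom.ext (fun g => ?_)
    have h1 : (⟨χ g, ⟨g, rfl⟩⟩ : χ.range) ^ Nat.card χ.range = 1 := pow_card_eq_one'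
    have h2 := congrArg (fun r : χ.range => (r : ℂˣ)) h1
    have h3 : (χ g) ^ Nat.card χ.range = 1 := by simpa using h2
    rw [MonoidHom.pow_apply, h3]
    rfl
  let e2 : χ.range ≃* Multiplicative (ZMod (Nat.card χ.range)) := (zmodCyclicMulEquiv hcyc).symm
  let f1 : Multiplicative G →* Multiplicative (ZMod (Nat.card χ.range)) :=
    e2.toMonoidHom.comp χ.rangeRestrict
  have hf1 : Function.Surjective f1 := e2.surjective.comp χ.rangeRestrict_surjective
  let f2 : G →+ ZMod (Nat.card χ.range) := AddMonoidHom.toMultiplicative.symm f1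
  have hf2 : Function.Surjective f2 := hf1
  let f3 : ZMod (Nat.card χ.range) →+ ZMod q := (ZMod.castHom (hq.trans hcard) (ZMod q)).toAddMonoidHom
  have hf3 : Function.Surjective f3 := ZMod.castHom_surjective (hq.trans hcard)
  exact ⟨f3.comp f2, hf3.comp hf2⟩


/-- the residues `0, 1, ..., w - 1` -/
def lev (q w : ℕ) : Finset (ZMod q) := (range w).image (fun i : ℕ => (i : ZMod q))

theorem mem_lev {q w : ℕ} {x : ZMod q} : x ∈ lev q w ↔ ∃ i < w, (i : ZMod q) = x := by
  simp [lev]

theorem cast_inj_of_lt {q i j : ℕ} (hi : i < q) (hj : j < q) (h : (i : ZMod q) = (j : ZMod q)) :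
    i = j := by
  rw [ZMod.natCast_eq_natCast_iff] at h
  exact Nat.ModEq.eq_of_lt_of_lt h hi hj

theorem card_lev {q w : ℕ} (h : w ≤ q) : (lev q w).card = w := by
  unfold lev
  rw [card_image_of_injOn, card_range]
  intro i hi j hj hij
  have hi' : i ∈ range w := hi
  have hj' : j ∈ range w := hj
  rw [mem_range] at hi' hj'
  exact cast_inj_of_lt (by omega) (by omega) hij

theorem misses_lev {q w t : ℕ} (hq : t * (w - 1) + 2 ≤ q) : Misses (lev q w) t (-1) := by
  intro f hf hsum
  have h1 : ∀ i, ∃ j < w, (j : ZMod q) = f i := fun i => mem_lev.1 (hf i)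
  choose g hg1 hg2 using h1
  have h2 : ((∑ i, g i : ℕ) : ZMod q) = -1 := by
    rw [← hsum]
    push_cast
    exact sum_congr rfl (fun i _ => hg2 i)
  have h3 : ∑ i, g i ≤ t * (w - 1) := by
    calc ∑ i, g i ≤ ∑ _i : Fin t, (w - 1) := sum_le_sum (fun i _ => by
          have := hg1 i
          omega)
      _ = t * (w - 1) := by simp
  have h4 : ((∑ i, g i + 1 : ℕ) : ZMod q) = 0 := by
    push_cast at h2 ⊢
    rw [h2]
    ring
  rw [ZMod.natCast_eq_zero_iff] at h4
  have := Nat.le_of_dvd (by omega) h4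
  omega

theorem spans_lev {q w : ℕ} (hw : 2 ≤ w) : Spans (lev q w) := by
  intro N hN
  rw [eq_top_iff]
  intro x _
  have h1 : (1 : ZMod q) ∈ N := by
    have := hN (1 : ZMod q) (mem_lev.2 ⟨1, by omega, by simp⟩) (0 : ZMod q)
      (mem_lev.2 ⟨0, by omega, by simp⟩)
    simpa using this
  have h2 : x = (ZMod.cast x : ℤ) • (1 : ZMod q) := by
    rw [zsmul_one]
    simp
  rw [h2]
  exact N.zsmul_mem h1 _

section

variable {G : Type u} [AddCommGroup G] [Fintype G] [DecidableEq G]

theorem lower_cyclic {m κ t q w : ℕ} (hn : Fintype.card G = m * κ)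
    (hκe : κ = AddMonoid.exponent G) (hq : q ∣ κ) (ht : 1 ≤ t) (hw : 2 ≤ w)
    (h1 : t * (w - 1) + 2 ≤ q) (h2 : q < m * w) (hκ : 4 * q ^ 3 ≤ κ) :
    ∃ A : Finset G, A.card = κ + t ∧ WZF κ A := by
  obtain ⟨π, hπ⟩ := exists_surj (G := G) (q := q) (by rw [← hκe]; exact hq)
  have hqpos : q ≠ 0 := by omega
  have : NeZero q := ⟨hqpos⟩
  have htw : t ≤ t * (w - 1) := Nat.le_mul_of_pos_right _ (by omega)
  have hwt : w - 1 ≤ t * (w - 1) := Nat.le_mul_of_pos_left _ ht
  refine lower_general (Q := ZMod q) hn hπ (P := lev q w) (spans_lev hw) (y := -1)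
    (misses_lev h1) ?_ ?_ ?_
  · rw [ZMod.card, card_lev (by omega)]
    exact h2
  · rw [ZMod.card]
    omega
  · rw [ZMod.card]
    exact hκ

/-- fully explicit lower bound -/
theorem lower_explicit {m κ t q w c r₀ : ℕ} (hn : Fintype.card G = m * κ) [NeZero q]
    {π : G →+ ZMod q} (hπ : Function.Surjective π) (hc : c * q = m * κ) (hw : 2 ≤ w) (hwq : w ≤ q)
    (h1 : t * (w - 1) + 2 ≤ q) (hr : r₀ ≤ c) (hc1 : 1 ≤ c) (hsize : w * c = κ + t + r₀ + 1)
    (hdiv : q ∣ c * (w * (w - 1) / 2)) : ∃ A : Finset G, A.card = κ + t ∧ WZF κ A := by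
  classical
  have hqpos : 0 < q := Nat.pos_of_ne_zero (NeZero.ne q)
  have hcp : ∀ p : ZMod q, (fib π p).card = c := by
    intro p
    have h2 := card_fib hπ p
    rw [ZMod.card, hn, ← hc] at h2
    exact Nat.eq_of_mul_eq_mul_right hqpos h2
  obtain ⟨R₀, hR₀, hR₀c⟩ : ∃ R ⊆ fib π 0, R.card = r₀ := by
    apply exists_subset_card_eq
    rw [hcp]
    exact hr
  obtain ⟨v, hv⟩ : (fib π 1).Nonempty := by
    rw [← card_pos, hcp]
    exact hc1
  rw [mem_fib] at hv
  have h01 : (0 : ZMod q) ≠ 1 := by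
    intro h
    have := cast_inj_of_lt (q := q) (i := 0) (j := 1) (by omega) (by omega) (by simpa using h)
    omega
  have hdisjfib : ∀ p p' : ZMod q, p ≠ p' → Disjoint (fib π p) (fib π p') := by
    intro p p' hne
    rw [Finset.disjoint_left]
    intro x hx hx'
    rw [mem_fib] at hx hx'
    exact hne (hx.symm.trans hx')
  set X := (range w).biUnion (fun j : ℕ => fib π (j : ZMod q)) with hX
  have hpd : ∀ i ∈ range w, ∀ j ∈ range w, i ≠ j →
      Disjoint (fib π (i : ZMod q)) (fib π (j : ZMod q)) := by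
    intro i hi j hj hij
    rw [mem_range] at hi hj
    apply hdisjfib
    intro h
    exact hij (cast_inj_of_lt (by omega) (by omega) h)
  have hXc : X.card = w * c := by
    have e0 : ∀ j ∈ range w, (fib π (j : ZMod q)).card = c := fun j _ => hcp _
    rw [hX, card_biUnion hpd, sum_congr rfl e0, sum_const, card_range, smul_eq_mul]
  have hXs : ∑ x ∈ X, π x = 0 := by
    rw [hX, sum_biUnion hpd]
    have e1 : ∀ j ∈ range w, ∑ x ∈ fib π (j : ZMod q), π x = ((c * j : ℕ) : ZMod q) := by
      intro j _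
      rw [sum_congr rfl (fun x hx => mem_fib.1 hx), sum_const, hcp, nsmul_eq_mul]
      push_cast
      rfl
    rw [sum_congr rfl e1, ← Nat.cast_sum, ← mul_sum, sum_range_id]
    rw [ZMod.natCast_eq_zero_iff]
    exact hdiv
  have hR₀X : R₀ ⊆ X := by
    intro x hx
    rw [hX, mem_biUnion]
    exact ⟨0, mem_range.2 (by omega), by simpa using hR₀ hx⟩
  have hvX : v ∈ X := by
    rw [hX, mem_biUnion]
    refine ⟨1, mem_range.2 (by omega), ?_⟩
    rw [mem_fib, hv]
    simp
  have hvR : v ∉ R₀ := by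
    intro h
    have := hR₀ h
    rw [mem_fib, hv] at this
    exact h01 this.symm
  set A := X \ (insert v R₀) with hA
  have hins : insert v R₀ ⊆ X := insert_subset hvX hR₀X
  have hAc : A.card = κ + t := by
    have h2 := card_sdiff_add_card_eq_card hins
    rw [card_insert_of_notMem hvR, hR₀c, hXc, hsize] at h2
    rw [hA]
    omega
  refine ⟨A, hAc, ?_⟩
  apply WZF_of_misses (π := π) (P := lev q w) (t := t) hAc
  · intro a ha
    have := (mem_sdiff.1 ha).1
    rw [hX, mem_biUnion] at this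
    obtain ⟨j, hj, haj⟩ := this
    rw [mem_range] at hj
    rw [mem_fib] at haj
    rw [mem_lev]
    exact ⟨j, hj, haj.symm⟩
  · have h2 : π (∑ a ∈ A, a) = -1 := by
      rw [map_sum]
      have e1 := sum_sdiff hins (f := fun x => π x)
      rw [hXs, sum_insert hvR, hv, sum_congr rfl (fun x hx => mem_fib.1 (hR₀ hx)), sum_const_zero,
        add_zero] at e1
      exact eq_neg_of_add_eq_zero_left e1
    rw [h2]
    exact misses_lev h1

/-- if `m` divides the exponent `κ` then `κ + m - 1` elements are possible -/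
theorem lower_dvd {m k : ℕ} (hm : 2 ≤ m) (hk : 4 ≤ k) (hκe : AddMonoid.exponent G = m * k)
    (hn : Fintype.card G = m * (m * k)) :
    ∃ A : Finset G, A.card = m * k + (m - 1) ∧ WZF (m * k) A := by
  rcases Nat.even_or_odd' k with ⟨s, hs | hs⟩
  · -- `k = 2 s`
    have hs2 : 2 ≤ s := by omega
    have : NeZero (m * s) := ⟨by positivity⟩
    obtain ⟨π, hπ⟩ := exists_surj (G := G) (q := m * s) (by
      rw [hκe, hs]
      exact ⟨2, by ring⟩)
    have hms : s + 1 ≤ m * s := by nlinarith
    refine lower_explicit (q := m * s) (w := s + 1) (c := 2 * m) (r₀ := m) hn hπ ?_ ?_ hms ?_ ?_ ?_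
      ?_ ?_
    · rw [hs]
      ring
    · omega
    · obtain ⟨m', rfl⟩ : ∃ m', m = m' + 1 := ⟨m - 1, by omega⟩
      simp only [Nat.add_sub_cancel]
      nlinarith
    · omega
    · omega
    · obtain ⟨m', rfl⟩ : ∃ m', m = m' + 1 := ⟨m - 1, by omega⟩
      simp only [Nat.add_sub_cancel]
      rw [hs]
      ring
    · simp only [Nat.add_sub_cancel]
      have h1 : 2 * ((s + 1) * s / 2) = (s + 1) * s := by
        apply Nat.mul_div_cancel'
        have := Nat.even_mul_succ_self s
        rw [mul_comm]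
        exact this.two_dvd
      refine ⟨s + 1, ?_⟩
      calc 2 * m * ((s + 1) * s / 2) = m * (2 * ((s + 1) * s / 2)) := by ring
        _ = m * ((s + 1) * s) := by rw [h1]
        _ = m * s * (s + 1) := by ring
  · -- `k = 2 s + 1`
    have : NeZero (m * k) := ⟨by positivity⟩
    obtain ⟨π, hπ⟩ := exists_surj (G := G) (q := m * k) (by rw [hκe])
    have hmk : k + 1 ≤ m * k := by nlinarith
    refine lower_explicit (q := m * k) (w := k + 1) (c := m) (r₀ := 0) hn hπ ?_ ?_ hmk ?_ ?_ ?_ ?_ ?_
    · ring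
    · omega
    · obtain ⟨m', rfl⟩ : ∃ m', m = m' + 1 := ⟨m - 1, by omega⟩
      simp only [Nat.add_sub_cancel]
      nlinarith
    · omega
    · omega
    · obtain ⟨m', rfl⟩ : ∃ m', m = m' + 1 := ⟨m - 1, by omega⟩
      simp only [Nat.add_sub_cancel]
      ring
    · simp only [Nat.add_sub_cancel]
      have h1 : (k + 1) * k / 2 = k * (s + 1) := by
        rw [hs]
        have : (2 * s + 1 + 1) * (2 * s + 1) = 2 * ((2 * s + 1) * (s + 1)) := by ring
        rw [this]
        exact Nat.mul_div_cancel_left _ (by norm_num)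
      rw [h1]
      exact ⟨s + 1, by ring⟩

end

end Pool.Agent.Lib.MPa7239a
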