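import Pool.Agent.Lib.MP_a7239a_co.Flex

/-!
# The final theorem
-/

open scoped Pointwise
open Finset

set_option linter.unusedSectionVars false

namespace Pool.Agent.Lib.MPa7239a

universe u

/-- `τ^(G,h)`: the largest size of a set `A` such that no `h` distinct elements of `A` sum to
zero. -/
noncomputable def tauHat (G : Type*) [AddCommGroup G] (h : ℕ) : ℕ :=
  sSup {k | ∃ A : Finset G, A.card = k ∧ WZF h A}

/-- Some quotient `Q = G/K` has a subset `P` whose differences generate `Q`, whose `t`-fold sumset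
is not `Q`, and `t(|P|-1)+2 ≤ |Q| < m|P|`. -/
def Good (G : Type*) [AddCommGroup G] (m t : ℕ) : Prop :=
  ∃ (K : AddSubgroup G) (P : Finset (G ⧸ K)), Spans P ∧ (∃ y, Misses P t y) ∧
    t * (P.card - 1) + 2 ≤ Nat.card (G ⧸ K) ∧ Nat.card (G ⧸ K) < m * P.card

theorem le_tauHat_iff {G : Type u} [AddCommGroup G] [Finite G] {h : ℕ} (hh : 0 < h) (k : ℕ) :
    k ≤ tauHat G h ↔ ∃ A : Finset G, A.card = k ∧ WZF h A := by
  classical
  have := Fintype.ofFinite G
  set S := {k | ∃ A : Finset G, A.card = k ∧ WZF h A} with hS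
  have hbdd : BddAbove S := ⟨Fintype.card G, by
    rintro k ⟨A, rfl, _⟩
    exact card_le_univ A⟩
  have hne : S.Nonempty := ⟨0, ∅, card_empty, by
    intro T hT hTc
    have : T = ∅ := subset_empty.1 hT
    rw [this, card_empty] at hTc
    omega⟩
  constructor
  · intro hk
    obtain ⟨A, hAc, hA⟩ := Nat.sSup_mem hne hbdd
    obtain ⟨B, hBA, hBc⟩ := exists_subset_card_eq (s := A) (n := k) (by
      rw [hAc]
      exact hk)
    exact ⟨B, hBc, fun T hT => hA T (hT.trans hBA)⟩
  · intro hk
    exact le_csSup hbdd hk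

section

variable {G : Type u} [AddCommGroup G] [Fintype G] [DecidableEq G]

theorem sum_mem_ms {F : Finset G} : ∀ (t : ℕ) (f : Fin t → G), (∀ i, f i ∈ F) →
    ∑ i, f i ∈ ms F t := by
  intro t
  induction t with
  | zero =>
    intro f _
    simp [ms]
  | succ t ih =>
    intro f hf
    rw [Fin.sum_univ_castSucc]
    show _ ∈ ms F t + F
    exact add_mem_add (ih _ (fun i => hf _)) (hf _)

theorem good_of_periodic {m κ t : ℕ} (hn : Fintype.card G = m * κ) (hm : 1 ≤ m) (ht : 1 ≤ t)
    {M : AddSubgroup G} {F : Finset G} {x : G} (hMF : Per M F) (hFn : F.Nonempty)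
    (hx : x ∉ ms F t) (hc : t * F.card + (hs M).card ≤ Fintype.card G + (t - 1) * (hs M).card)
    (hκ : κ < F.card) (hnc : ∀ (K : AddSubgroup G) (g : G), F ⊆ cs K g → K = ⊤) :
    Good G m t := by
  classical
  let π : G →+ G ⧸ M := QuotientAddGroup.mk' M
  have hπ : Function.Surjective π := QuotientAddGroup.mk'_surjective M
  set P : Finset (G ⧸ M) := F.image π with hP
  have hnQ := card_eq_index_mul M
  set Q := Nat.card (G ⧸ M) with hQ
  have hMpos := card_hs_pos M
  have hQf : Fintype.card (G ⧸ M) = Q := by rw [hQ, Nat.card_eq_fintype_card]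
  have hQpos : 0 < Q := by
    rw [← hQf]
    exact Fintype.card_pos
  have hfibc : ∀ p, (fib π p).card = (hs M).card := by
    intro p
    have h1 := card_fib hπ p
    rw [hQf, hnQ, mul_comm Q] at h1
    exact Nat.eq_of_mul_eq_mul_right hQpos h1
  have hker : ∀ a b : G, π a = π b → b - a ∈ M := by
    intro a b hab
    have h1 : (QuotientAddGroup.mk a : G ⧸ M) = QuotientAddGroup.mk b := hab
    rw [QuotientAddGroup.eq] at h1
    have : b - a = -a + b := by abel
    rw [this]
    exact h1
  have hfilt : ∀ p ∈ P, F.filter (fun g => π g = p) = fib π p := by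
    intro p hp
    rw [hP, mem_image] at hp
    obtain ⟨g, hg, hgp⟩ := hp
    ext y
    rw [mem_filter, mem_fib]
    constructor
    · exact fun h => h.2
    · intro h
      refine ⟨?_, h⟩
      have h1 := hMF g hg _ (hker g y (hgp.trans h.symm))
      simpa using h1
  have hPF : P.card * (hs M).card = F.card := by
    have h1 : F.card = ∑ p ∈ P, (F.filter (fun g => π g = p)).card := by
      apply card_eq_sum_card_fiberwise
      intro g hg
      exact mem_coe.2 (mem_image_of_mem _ hg)
    rw [h1, sum_congr rfl (fun p hp => by rw [hfilt p hp, hfibc p]), sum_const, smul_eq_mul]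
  have hPn : 1 ≤ P.card := by
    rw [Nat.one_le_iff_ne_zero, Ne, card_eq_zero, hP, image_eq_empty]
    exact hFn.ne_empty
  refine ⟨M, P, ?_, ⟨π x, ?_⟩, ?_, ?_⟩
  · intro N hN
    obtain ⟨g, hg⟩ := hFn
    have h1 : N.comap π = ⊤ := by
      apply hnc (N.comap π) g
      intro a ha
      rw [mem_cs, AddSubgroup.mem_comap, map_sub]
      exact hN _ (mem_image_of_mem _ ha) _ (mem_image_of_mem _ hg)
    rw [eq_top_iff]
    intro y _
    obtain ⟨a, rfl⟩ := hπ y
    have : a ∈ N.comap π := by
      rw [h1]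
      trivial
    exact this
  · intro f hf hsum
    have h1 : ∀ i, ∃ g ∈ F, π g = f i := fun i => by
      have := hf i
      rw [hP, mem_image] at this
      exact this
    choose g hg1 hg2 using h1
    have h2 : π (∑ i, g i) = π x := by
      rw [map_sum, ← hsum]
      exact sum_congr rfl (fun i _ => hg2 i)
    have h3 := sum_mem_ms t g hg1
    apply hx
    obtain ⟨s, rfl⟩ : ∃ s, t = s + 1 := ⟨t - 1, by omega⟩
    have hper : Per M (ms F (s + 1)) := by
      show Per M (ms F s + F)
      exact hMF.add_left _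
    have := hper _ h3 _ (hker _ _ h2)
    simpa using this
  · have h1 : (t * P.card + 1) * (hs M).card ≤ (Q + (t - 1)) * (hs M).card := by
      calc (t * P.card + 1) * (hs M).card = t * (P.card * (hs M).card) + (hs M).card := by ring
        _ = t * F.card + (hs M).card := by rw [hPF]
        _ ≤ Fintype.card G + (t - 1) * (hs M).card := hc
        _ = (Q + (t - 1)) * (hs M).card := by rw [hnQ]; ring
    have h2 := Nat.le_of_mul_le_mul_right h1 hMpos
    obtain ⟨p, hp⟩ : ∃ p, P.card = p + 1 := ⟨P.card - 1, by omega⟩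
    rw [hp] at h2 ⊢
    simp only [Nat.add_sub_cancel]
    rw [Nat.mul_add, Nat.mul_one] at h2
    omega
  · have h1 : Q * (hs M).card < (m * P.card) * (hs M).card := by
      calc Q * (hs M).card = m * κ := by rw [← hnQ, hn]
        _ < m * F.card := Nat.mul_lt_mul_of_pos_left hκ (by omega)
        _ = (m * P.card) * (hs M).card := by rw [← hPF]; ring
    exact Nat.lt_of_mul_lt_mul_right h1

end

section

variable {G : Type u} [AddCommGroup G] [Finite G]

/-- a spanning set in a nontrivial group has at least two elements -/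
theorem two_le_card_of_spans {Q : Type*} [AddCommGroup Q] {P : Finset Q} (hP : Spans P)
    (hQ : 2 ≤ Nat.card Q) : 2 ≤ P.card := by
  by_contra hcon
  have h1 : (⊥ : AddSubgroup Q) = ⊤ := by
    apply hP
    intro a ha b hb
    have : a = b := by
      apply card_le_one.1 (by omega : P.card ≤ 1) a ha b hb
    rw [this, sub_self]
    exact AddSubgroup.zero_mem _
  have h2 : Nat.card (⊥ : AddSubgroup Q) = Nat.card (⊤ : AddSubgroup Q) := by rw [h1]
  rw [AddSubgroup.card_bot, AddSubgroup.card_top] at h2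
  omega

theorem good_arith {m t w Q : ℕ} (ht : m + 1 ≤ t) (hw : 2 ≤ w)
    (h1 : t * (w - 1) + 2 ≤ Q) (h2 : Q < m * w) : t + 3 ≤ 2 * m ∧ Q < m * m := by
  obtain ⟨w', rfl⟩ : ∃ w', w = w' + 2 := ⟨w - 2, by omega⟩
  obtain ⟨t', rfl⟩ : ∃ t', t = m + 1 + t' := ⟨t - (m + 1), by omega⟩
  have e : w' + 2 - 1 = w' + 1 := by omega
  rw [e] at h1
  have h3 : (m + 1 + t') * (w' + 1) = m * (w' + 1) + (1 + t') * (w' + 1) := by ring
  have h4 : m * (w' + 2) = m * (w' + 1) + m := by ring
  have h5 : (1 + t') * (w' + 1) + 3 ≤ m := by omega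
  have h6 : 1 + t' ≤ (1 + t') * (w' + 1) := Nat.le_mul_of_pos_right _ (by omega)
  have h7 : w' + 1 ≤ (1 + t') * (w' + 1) := Nat.le_mul_of_pos_left _ (by omega)
  constructor
  · omega
  · refine lt_of_lt_of_le h2 ?_
    exact Nat.mul_le_mul_left _ (by omega)

theorem good_bounds {m t : ℕ} (ht : m + 1 ≤ t) (hg : Good G m t) :
    t + 3 ≤ 2 * m := by
  obtain ⟨K, P, hP, -, h1, h2⟩ := hg
  have hw := two_le_card_of_spans hP (by omega)
  exact (good_arith ht hw h1 h2).1

/-- every quotient with a spanning set of two elements has order dividing the exponent -/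
theorem dvd_exponent_of_spans {K : AddSubgroup G} {P : Finset (G ⧸ K)} (hP : Spans P)
    (hw : P.card = 2) : Nat.card (G ⧸ K) ∣ AddMonoid.exponent G := by
  classical
  obtain ⟨a, b, -, hab⟩ := card_eq_two.1 hw
  have h1 : AddSubgroup.zmultiples (a - b) = ⊤ := by
    apply hP
    intro c hc d hd
    rw [hab, mem_insert, mem_singleton] at hc hd
    rcases hc with rfl | rfl
    · rcases hd with rfl | rfl
      · rw [sub_self]
        exact AddSubgroup.zero_mem _
      · exact AddSubgroup.mem_zmultiples _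
    · rcases hd with rfl | rfl
      · have h0 : c - d = -(d - c) := (neg_sub d c).symm
        rw [h0]
        exact AddSubgroup.neg_mem _ (AddSubgroup.mem_zmultiples _)
      · rw [sub_self]
        exact AddSubgroup.zero_mem _
  have h2 : addOrderOf (a - b) = Nat.card (G ⧸ K) := by
    rw [← Nat.card_zmultiples, h1, AddSubgroup.card_top]
  rw [← h2]
  apply addOrderOf_dvd_of_nsmul_eq_zero
  obtain ⟨g, hg⟩ := QuotientAddGroup.mk_surjective (a - b)
  rw [← hg, ← QuotientAddGroup.mk_nsmul, AddMonoid.exponent_nsmul_eq_zero]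
  rfl

/-- for prime `m` the order of the quotient divides the exponent -/
theorem dvd_exponent_of_prime {m t : ℕ} (hmp : m.Prime) (ht : m + 1 ≤ t)
    (hn : Nat.card G = m * AddMonoid.exponent G) {K : AddSubgroup G} {P : Finset (G ⧸ K)}
    (hw : 2 ≤ P.card) (h1 : t * (P.card - 1) + 2 ≤ Nat.card (G ⧸ K))
    (h2 : Nat.card (G ⧸ K) < m * P.card) : Nat.card (G ⧸ K) ∣ AddMonoid.exponent G := by
  have hcop : Nat.Coprime (Nat.card (G ⧸ K)) m := by
    rw [Nat.coprime_comm, Nat.Prime.coprime_iff_not_dvd hmp]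
    rintro ⟨s, hs⟩
    rw [hs] at h1 h2
    have h3 : s < P.card := Nat.lt_of_mul_lt_mul_left h2
    have h4 : m * s ≤ m * (P.card - 1) := Nat.mul_le_mul_left _ (by omega)
    have h5 : m * (P.card - 1) ≤ t * (P.card - 1) := Nat.mul_le_mul_right _ (by omega)
    omega
  have h3 : Nat.card (G ⧸ K) ∣ m * AddMonoid.exponent G := by
    rw [← hn, AddSubgroup.card_eq_card_quotient_mul_card_addSubgroup K]
    exact ⟨_, rfl⟩
  exact hcop.dvd_of_dvd_mul_left h3

/-- intervals in a cyclic quotient -/
theorem good_of_surj {m t q w : ℕ} (π : G →+ ZMod q) (hπ : Function.Surjective π) (hw : 2 ≤ w)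
    (hwq : w ≤ q) (h1 : t * (w - 1) + 2 ≤ q) (h2 : q < m * w) : Good G m t := by
  classical
  let e : G ⧸ π.ker ≃+ ZMod q := QuotientAddGroup.quotientKerEquivOfSurjective π hπ
  have hcard : Nat.card (G ⧸ π.ker) = q := by
    rw [Nat.card_congr e.toEquiv, Nat.card_zmod]
  have hmem : ∀ x : G ⧸ π.ker, x ∈ (lev q w).map e.symm.toEquiv.toEmbedding ↔ e x ∈ lev q w := by
    intro x
    rw [mem_map_equiv]
    rfl
  refine ⟨π.ker, (lev q w).map e.symm.toEquiv.toEmbedding, ?_, ⟨e.symm (-1), ?_⟩, ?_, ?_⟩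
  · intro N hN
    have h3 : N.comap e.symm.toAddMonoidHom = ⊤ := by
      apply spans_lev hw
      intro a ha b hb
      rw [AddSubgroup.mem_comap, map_sub]
      apply hN
      · rw [hmem]
        simpa using ha
      · rw [hmem]
        simpa using hb
    rw [eq_top_iff]
    intro x _
    have h4 : e x ∈ N.comap e.symm.toAddMonoidHom := by
      rw [h3]
      trivial
    rw [AddSubgroup.mem_comap] at h4
    simpa using h4
  · intro f hf hsum
    apply misses_lev h1 (fun i => e (f i)) (fun i => (hmem _).1 (hf i))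
    rw [← map_sum, hsum]
    simp
  · rw [card_map, card_lev hwq, hcard]
    exact h1
  · rw [card_map, card_lev hwq, hcard]
    exact h2

/-- lower bound from a quotient -/
theorem lower_quotient {m κ t : ℕ} (hn : Nat.card G = m * κ) {K : AddSubgroup G}
    {P : Finset (G ⧸ K)} (hP : Spans P) {y : G ⧸ K} (hy : Misses P t y)
    (hQ : Nat.card (G ⧸ K) < m * P.card) (ht : t ≤ Nat.card (G ⧸ K))
    (hκ : 4 * Nat.card (G ⧸ K) ^ 3 ≤ κ) : κ + t ≤ tauHat G κ := by
  classical
  have := Fintype.ofFinite G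
  have hQf : Fintype.card (G ⧸ K) = Nat.card (G ⧸ K) := by rw [Nat.card_eq_fintype_card]
  have hκpos : 0 < κ := by
    have h1 : 0 < Nat.card (G ⧸ K) := Nat.card_pos
    have h2 : 0 < Nat.card (G ⧸ K) ^ 3 := pow_pos h1 3
    omega
  rw [le_tauHat_iff hκpos]
  apply lower_general (m := m) (Q := G ⧸ K) (π := QuotientAddGroup.mk' K)
    (by rw [← Nat.card_eq_fintype_card]; exact hn) (QuotientAddGroup.mk'_surjective K) hP hy
  · rw [hQf]
    exact hQ
  · rw [hQf]
    exact ht
  · rw [hQf]
    exact hκ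

/-- **Main theorem.** -/
theorem main_theorem (m : ℕ) (hm : 3 ≤ m) : ∃ κ₀ : ℕ, ∀ (G : Type u) [AddCommGroup G] [Finite G],
    ∀ κ : ℕ, κ = AddMonoid.exponent G → κ₀ ≤ κ → Nat.card G = m * κ →
    -- (1) exact criterion for all `t > m`
    (∀ t, m < t → (κ + t ≤ tauHat G κ ↔ Good G m t)) ∧
    -- (2) bounds valid for all groups
    (κ + m ≤ tauHat G κ + 1 ∧ tauHat G κ + 3 ≤ κ + 2 * m) ∧
    -- (3) the exact value if a suitable divisor exists
    ((∃ q, q ∣ κ ∧ m < q ∧ 2 ≤ q % m ∧ (2 * m + 1) * q ≤ κ) →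
      tauHat G κ = κ + sSup {t | Good G m t}) ∧
    -- (4) lower bound from a small quotient, for every `t`
    (∀ (K : AddSubgroup G) (P : Finset (G ⧸ K)) (t : ℕ), Spans P → (∃ y, Misses P t y) →
      Nat.card (G ⧸ K) < m * P.card → t ≤ Nat.card (G ⧸ K) → 4 * Nat.card (G ⧸ K) ^ 3 ≤ κ →
      κ + t ≤ tauHat G κ) ∧
    -- (5) explicit value
    (∀ q, q ∣ κ → q < 2 * m → 3 * m + 1 ≤ 2 * q → (∀ q', q' ∣ κ → q' < 2 * m → q' ≤ q) →
      tauHat G κ + 2 = κ + q) ∧
    -- (6) `m` prime
    (m.Prime → ∀ t, m < t → (κ + t ≤ tauHat G κ ↔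
      ∃ q w, q ∣ κ ∧ 2 ≤ w ∧ t * (w - 1) + 2 ≤ q ∧ q < m * w)) := by
  obtain ⟨κ₁, H⟩ := upper_periodic.{u} m hm
  refine ⟨max κ₁ (4 * (m * m) ^ 3), ?_⟩
  intro G _ _ κ hκe hκ hn
  classical
  have := Fintype.ofFinite G
  have hκ1 : κ₁ ≤ κ := (le_max_left _ _).trans hκ
  have hκ2 : 4 * (m * m) ^ 3 ≤ κ := (le_max_right _ _).trans hκ
  have hnf : Fintype.card G = m * κ := by rw [← Nat.card_eq_fintype_card]; exact hn
  have hκpos : 0 < κ := by
    have : 0 < (m * m) ^ 3 := by positivity
    omega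
  -- upper bound direction
  have hup : ∀ t, m < t → t ≤ 2 * m → κ + t ≤ tauHat G κ → Good G m t := by
    intro t ht ht2 hle
    rw [le_tauHat_iff hκpos] at hle
    obtain ⟨A, hAc, hA⟩ := hle
    obtain ⟨M, F, x, hMF, hFn, hx, hc, hκF, hnc⟩ := H G (by rw [← hκe]; exact hκ1)
      (by rw [← hκe]; exact hnf) A t ht ht2 (by rw [← hκe]; exact hAc) (by rw [← hκe]; exact hA)
    exact good_of_periodic hnf (by omega) (by omega) hMF hFn hx hc (by rw [← hκe] at hκF; exact hκF)
      hnc
  -- no set is too large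
  have hno : tauHat G κ + 3 ≤ κ + 2 * m := by
    by_contra hcon
    have h1 := hup (2 * m - 2) (by omega) (by omega) (by omega)
    have h2 := good_bounds (by omega) h1
    omega
  have hdown : ∀ t, m < t → Good G m t → κ + t ≤ tauHat G κ := by
    rintro t ht ⟨K, P, hP, ⟨y, hy⟩, h1, h2⟩
    have hw := two_le_card_of_spans hP (by omega)
    have h3 := good_arith (by omega) hw h1 h2
    have h4 : t ≤ t * (P.card - 1) := Nat.le_mul_of_pos_right _ (by omega)
    refine lower_quotient hn hP hy h2 (by omega) ?_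
    refine le_trans ?_ hκ2
    exact Nat.mul_le_mul_left _ (Nat.pow_le_pow_left h3.2.le 3)
  have hcrit : ∀ t, m < t → (κ + t ≤ tauHat G κ ↔ Good G m t) := by
    intro t ht
    refine ⟨fun h => hup t ht (by omega) h, hdown t ht⟩
  -- lower bound from a cyclic quotient
  have hcyc : ∀ q w t, q ∣ κ → 1 ≤ t → 2 ≤ w → t * (w - 1) + 2 ≤ q → q < m * w →
      4 * q ^ 3 ≤ κ → κ + t ≤ tauHat G κ := by
    intro q w t hq ht hw h1 h2 h3
    rw [le_tauHat_iff hκpos]
    exact lower_cyclic hnf hκe hq ht hw h1 h2 h3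
  have hpred : κ + m ≤ tauHat G κ + 1 := by
    have h1 : 2 * m * m ≤ κ := by
      refine le_trans ?_ hκ2
      have e1 : 4 * (m * m) ^ 3 = 2 * m * m * (2 * (m * m) ^ 2) := by ring
      rw [e1]
      exact Nat.le_mul_of_pos_right _ (by positivity)
    have h2 := lower_pred (G := G) (m := m) (κ := κ) (by omega) h1 hκe hnf
    rw [← le_tauHat_iff hκpos] at h2
    omega
  refine ⟨hcrit, ⟨hpred, hno⟩, ?_, ?_, ?_, ?_⟩
  · rintro ⟨q, hq, hmq, hqm, hq3⟩
    have hmpos : 0 < m := by omega
    have hdm := Nat.div_add_mod q m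
    have hmτ : κ + m ≤ tauHat G κ := by
      have h2 := lower_self (G := G) (m := m) (κ := κ) (by omega) hκe hnf hq hmq hqm hq3
      rwa [← le_tauHat_iff hκpos] at h2
    set u := q / m with hu
    set v := q % m with hv
    have hvm : v < m := Nat.mod_lt _ hmpos
    have hu1 : 1 ≤ u := by
      rw [hu, Nat.one_le_div_iff hmpos]
      omega
    -- `Good G m m`
    have hgm : Good G m m := by
      obtain ⟨π, hπ⟩ := exists_surj (G := G) (q := q) (by rw [← hκe]; exact hq)
      have hmu : m * (u + 1) = m * u + m := by ring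
      have hum : u ≤ m * u := Nat.le_mul_of_pos_left _ hmpos
      refine good_of_surj π hπ (w := u + 1) (by omega) (by omega) ?_ (by omega)
      rw [Nat.add_sub_cancel]
      omega
    have hbdd : BddAbove {t | Good G m t} := ⟨2 * m, by
      intro t ht
      by_cases htm : t ≤ m
      · omega
      · have := good_bounds (by omega) ht
        omega⟩
    have hmem : Good G m (sSup {t | Good G m t}) := Nat.sSup_mem ⟨m, hgm⟩ hbdd
    have hms : m ≤ sSup {t | Good G m t} := le_csSup hbdd hgm
    set s := sSup {t | Good G m t} with hs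
    apply le_antisymm
    · have hT : tauHat G κ - κ ≤ s := by
        by_cases hTm : m < tauHat G κ - κ
        · have h1 := (hcrit _ hTm).1 (by omega)
          exact le_csSup hbdd h1
        · omega
      omega
    · rcases Nat.eq_or_lt_of_le hms with h | h
      · omega
      · exact (hcrit s h).2 hmem
  · rintro K P t hP ⟨y, hy⟩ h1 h2 h3
    exact lower_quotient hn hP hy h1 h2 h3
  · intro q hq hq2 hq3 hmax
    have hlow : κ + (q - 2) ≤ tauHat G κ := by
      refine hcyc q 2 (q - 2) hq (by omega) (le_refl _) (by omega) (by omega) ?_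
      refine le_trans ?_ hκ2
      apply Nat.mul_le_mul_left
      apply Nat.pow_le_pow_left
      nlinarith
    have hupp : ¬ κ + (q - 1) ≤ tauHat G κ := by
      intro hle
      have h1 := (hcrit (q - 1) (by omega)).1 hle
      obtain ⟨K, P, hP, -, h2, h3⟩ := h1
      have hw := two_le_card_of_spans hP (by omega)
      rcases Nat.lt_or_ge P.card 3 with hw3 | hw3
      · have hw2 : P.card = 2 := by omega
        have h4 := dvd_exponent_of_spans hP hw2
        rw [hw2] at h2 h3
        have h5 := hmax (Nat.card (G ⧸ K)) (by rw [hκe]; exact h4) (by omega)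
        omega
      · obtain ⟨s, hs⟩ : ∃ s, P.card = s + 3 := ⟨P.card - 3, by omega⟩
        rw [hs] at h2 h3
        have e1 : s + 3 - 1 = s + 2 := by omega
        rw [e1] at h2
        have e2 : (q - 1) * (s + 2) + 2 < m * (s + 3) := lt_of_le_of_lt h2 h3
        obtain ⟨p, hp⟩ : ∃ p, q = p + 1 := ⟨q - 1, by omega⟩
        rw [hp, Nat.add_sub_cancel] at e2
        rw [hp] at hq3
        nlinarith
    omega
  · intro hmp t ht
    constructor
    · intro hle
      obtain ⟨K, P, hP, -, h2, h3⟩ := (hcrit t ht).1 hle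
      have hw := two_le_card_of_spans hP (by omega)
      refine ⟨Nat.card (G ⧸ K), P.card, ?_, hw, h2, h3⟩
      rw [hκe]
      exact dvd_exponent_of_prime hmp (by omega) (by rw [← hκe]; exact hn) hw h2 h3
    · rintro ⟨q, w, hq, hw, h1, h2⟩
      have h3 := good_arith (by omega) hw h1 h2
      refine hcyc q w t hq (by omega) hw h1 h2 ?_
      refine le_trans ?_ hκ2
      exact Nat.mul_le_mul_left _ (Nat.pow_le_pow_left h3.2.le 3)

end

end Pool.Agent.Lib.MPa7239a
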