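import Pool.Agent.Lib.MP_a7239a_co.Cyclic

/-!
# Flexible lower bounds from intervals of residues
-/

open scoped Pointwise
open Finset

set_option linter.unusedSectionVars false

namespace Pool.Agent.Lib.MPa7239a

universe u

theorem misses_lev' {q w t e : ℕ} (he : t * (w - 1) < e) (heq : e < q) :
    Misses (lev q w) t (e : ZMod q) := by
  intro f hf hsum
  have h1 : ∀ i, ∃ j < w, (j : ZMod q) = f i := fun i => mem_lev.1 (hf i)
  choose g hg1 hg2 using h1
  have h2 : ((∑ i, g i : ℕ) : ZMod q) = (e : ZMod q) := by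
    rw [← hsum]
    push_cast
    exact sum_congr rfl (fun i _ => hg2 i)
  have h3 : ∑ i, g i ≤ t * (w - 1) := by
    calc ∑ i, g i ≤ ∑ _i : Fin t, (w - 1) := sum_le_sum (fun i _ => by
          have := hg1 i
          omega)
      _ = t * (w - 1) := by simp
  have := cast_inj_of_lt (by omega) heq h2
  omega

section

variable {G : Type u} [AddCommGroup G] [Fintype G] [DecidableEq G]

/-- prescribed numbers of elements on the levels `0, ..., w - 1` -/
theorem lower_counts {m κ t q w c e : ℕ} (hn : Fintype.card G = m * κ) [NeZero q]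
    {π : G →+ ZMod q} (hπ : Function.Surjective π) (hc : c * q = m * κ) (hwq : w ≤ q)
    (he : t * (w - 1) < e) (heq : e < q) (C : ℕ → ℕ) (hC : ∀ j ∈ range w, C j ≤ c)
    (hsum : ∑ j ∈ range w, C j = κ + t)
    (hmod : ((∑ j ∈ range w, C j * j : ℕ) : ZMod q) = (e : ZMod q)) :
    ∃ A : Finset G, A.card = κ + t ∧ WZF κ A := by
  classical
  have hqpos : 0 < q := Nat.pos_of_ne_zero (NeZero.ne q)
  have hcp : ∀ p : ZMod q, (fib π p).card = c := by
    intro p
    have h2 := card_fib hπ p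
    rw [ZMod.card, hn, ← hc] at h2
    exact Nat.eq_of_mul_eq_mul_right hqpos h2
  have hex : ∀ j, ∃ S : Finset G, j ∈ range w → (S ⊆ fib π (j : ZMod q) ∧ S.card = C j) := by
    intro j
    by_cases hj : j ∈ range w
    · obtain ⟨S, hS, hSc⟩ := exists_subset_card_eq (s := fib π (j : ZMod q)) (n := C j) (by
        rw [hcp]
        exact hC j hj)
      exact ⟨S, fun _ => ⟨hS, hSc⟩⟩
    · exact ⟨∅, fun h => absurd h hj⟩
  choose S hS using hex
  have hpd : ∀ i ∈ range w, ∀ j ∈ range w, i ≠ j → Disjoint (S i) (S j) := by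
    intro i hi j hj hij
    rw [Finset.disjoint_left]
    intro x hx hx'
    have h1 := (hS i hi).1 hx
    have h2 := (hS j hj).1 hx'
    rw [mem_fib] at h1 h2
    rw [mem_range] at hi hj
    exact hij (cast_inj_of_lt (q := q) (by omega) (by omega) (h1.symm.trans h2))
  set A := (range w).biUnion S with hA
  have hAc : A.card = κ + t := by
    rw [hA, card_biUnion hpd, sum_congr rfl (fun j hj => (hS j hj).2), hsum]
  refine ⟨A, hAc, ?_⟩
  apply WZF_of_misses (π := π) (P := lev q w) (t := t) hAc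
  · intro a ha
    rw [hA, mem_biUnion] at ha
    obtain ⟨j, hj, haj⟩ := ha
    have := (hS j hj).1 haj
    rw [mem_fib] at this
    rw [mem_range] at hj
    rw [mem_lev]
    exact ⟨j, hj, this.symm⟩
  · have h2 : π (∑ a ∈ A, a) = (e : ZMod q) := by
      rw [map_sum, hA, sum_biUnion hpd, ← hmod, Nat.cast_sum]
      apply sum_congr rfl
      intro j hj
      have e1 : ∀ x ∈ S j, π x = (j : ZMod q) := by
        intro x hx
        have := (hS j hj).1 hx
        rwa [mem_fib] at this
      rw [sum_congr rfl e1, sum_const, (hS j hj).2, nsmul_eq_mul]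
      push_cast
      rfl
    rw [h2]
    exact misses_lev' he heq

/-- **Flexible lower bound.** -/
theorem lower_flex {m κ t q w c ρ₀ ρ₁ : ℕ} (hn : Fintype.card G = m * κ) [NeZero q]
    {π : G →+ ZMod q} (hπ : Function.Surjective π) (hc : c * q = m * κ) (hw : 2 ≤ w)
    (hwq : w ≤ q) (h1 : t * (w - 1) + 2 ≤ q) (hρt : t + 1 ≤ ρ₁) (hρ : ρ₁ ≤ c)
    (hρ₀ : ρ₀ = 0 ∨ (3 ≤ w ∧ ρ₀ < c)) (hsize : w * c = κ + t + (ρ₀ + ρ₁)) :
    ∃ A : Finset G, A.card = κ + t ∧ WZF κ A := by
  classical
  have hqpos : 0 < q := Nat.pos_of_ne_zero (NeZero.ne q)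
  -- the total level sum
  set V := c * (∑ j ∈ range w, j) with hV
  -- find `z`
  obtain ⟨z, hz1, hz2, hz3⟩ : ∃ z, t * (w - 1) + 1 ≤ z ∧ z ≤ ρ₁ * (w - 1) + (q - 1) ∧
      ((ρ₀ + z : ℕ) : ZMod q) = (V : ZMod q) := by
    set L := t * (w - 1) + 1 with hL
    set x : ZMod q := (V : ZMod q) - (ρ₀ : ZMod q) - (L : ZMod q) with hx
    have hxlt : x.val < q := ZMod.val_lt x
    refine ⟨L + x.val, by omega, ?_, ?_⟩
    · have : (t + 1) * (w - 1) ≤ ρ₁ * (w - 1) := Nat.mul_le_mul_right _ hρt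
      have e1 : (t + 1) * (w - 1) = t * (w - 1) + (w - 1) := by ring
      omega
    · push_cast
      rw [ZMod.natCast_zmod_val, hx]
      ring
  -- split `z = s + e`
  obtain ⟨s, e, hse, hs, he, heq⟩ : ∃ s e, s + e = z ∧ s ≤ ρ₁ * (w - 1) ∧ t * (w - 1) < e ∧
      e < q := by
    rcases Nat.le_total z (t * (w - 1) + 1 + ρ₁ * (w - 1)) with h | h
    · exact ⟨z - (t * (w - 1) + 1), t * (w - 1) + 1, by omega, by omega, by omega, by omega⟩
    · exact ⟨ρ₁ * (w - 1), z - ρ₁ * (w - 1), by omega, le_refl _, by omega, by omega⟩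
  -- counts of removed elements
  have hwpos : 0 < w - 1 := by omega
  obtain ⟨a, b, hab, hbw⟩ : ∃ a b, (w - 1) * a + b = s ∧ b < w - 1 :=
    ⟨s / (w - 1), s % (w - 1), Nat.div_add_mod s (w - 1), Nat.mod_lt _ hwpos⟩
  have haρ : a ≤ ρ₁ := by
    have h2 : (w - 1) * a ≤ (w - 1) * ρ₁ := by
      rw [mul_comm (w - 1) ρ₁]
      omega
    exact Nat.le_of_mul_le_mul_left h2 hwpos
  -- `δ = 1` unless `a = ρ₁`
  obtain ⟨δ, hδ1, hδ2, hδ3⟩ : ∃ δ, δ ≤ 1 ∧ a + δ ≤ ρ₁ ∧ δ * b = b := by
    rcases Nat.eq_or_lt_of_le haρ with h | h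
    · refine ⟨0, by omega, by omega, ?_⟩
      rw [h, mul_comm] at hab
      omega
    · exact ⟨1, le_refl _, h, one_mul _⟩
  set N : ℕ → ℕ := fun j => (if j = w - 1 then a else 0) + (if j = b then δ else 0) +
    (if j = 0 then ρ₁ - a - δ else 0) + (if j = 1 then ρ₀ else 0) with hN
  have hNc : ∀ j ∈ range w, N j ≤ c := by
    intro j hj
    rw [mem_range] at hj
    simp only [hN]
    rcases hρ₀ with h | ⟨h, h'⟩
    · rw [h]
      have : (if j = 1 then 0 else 0) = 0 := by simp
      rw [this]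
      split_ifs <;> omega
    · split_ifs <;> omega
  have hsumN : ∑ j ∈ range w, N j = ρ₀ + ρ₁ := by
    simp only [hN, sum_add_distrib, sum_ite_eq', mem_range]
    rw [if_pos (by omega : w - 1 < w), if_pos (by omega : b < w), if_pos (by omega : 0 < w),
      if_pos (by omega : 1 < w)]
    omega
  have hsumNj : ∑ j ∈ range w, N j * j = ρ₀ + s := by
    have e0 : ∀ j, N j * j = (if j = w - 1 then a * (w - 1) else 0) +
        (if j = b then δ * b else 0) + (if j = 1 then ρ₀ else 0) := by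
      intro j
      simp only [hN, add_mul, ite_mul, zero_mul]
      have e1 : (if j = w - 1 then a * j else 0) = (if j = w - 1 then a * (w - 1) else 0) := by
        split_ifs with h
        · rw [h]
        · rfl
      have e2 : (if j = b then δ * j else 0) = (if j = b then δ * b else 0) := by
        split_ifs with h
        · rw [h]
        · rfl
      have e3 : (if j = 0 then (ρ₁ - a - δ) * j else 0) = 0 := by
        split_ifs with h
        · rw [h, mul_zero]
        · rfl
      have e4 : (if j = 1 then ρ₀ * j else 0) = (if j = 1 then ρ₀ else 0) := by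
        split_ifs with h
        · rw [h, mul_one]
        · rfl
      rw [e1, e2, e3, e4, add_zero]
    rw [sum_congr rfl (fun j _ => e0 j)]
    simp only [sum_add_distrib, sum_ite_eq', mem_range]
    rw [if_pos (by omega : w - 1 < w), if_pos (by omega : b < w), if_pos (by omega : 1 < w), hδ3,
      mul_comm a]
    omega
  have hCN : ∀ j ∈ range w, (c - N j) + N j = c := fun j hj => Nat.sub_add_cancel (hNc j hj)
  apply lower_counts (t := t) (e := e) hn hπ hc hwq he heq (fun j => c - N j)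
    (fun j _ => Nat.sub_le _ _)
  · have h2 : ∑ j ∈ range w, (c - N j) + ∑ j ∈ range w, N j = w * c := by
      rw [← sum_add_distrib, sum_congr rfl hCN, sum_const, card_range, smul_eq_mul]
    omega
  · have h2 : ∑ j ∈ range w, (c - N j) * j + ∑ j ∈ range w, N j * j = V := by
      rw [← sum_add_distrib, hV, mul_sum]
      apply sum_congr rfl
      intro j hj
      rw [← add_mul, hCN j hj]
    rw [hsumNj] at h2
    have h3 : ((∑ j ∈ range w, (c - N j) * j : ℕ) : ZMod q) + ((ρ₀ + s : ℕ) : ZMod q) =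
        (V : ZMod q) := by
      rw [← h2]
      push_cast
      ring
    rw [← hz3, ← hse] at h3
    have h4 : ((∑ j ∈ range w, (c - N j) * j : ℕ) : ZMod q) =
        ((ρ₀ + (s + e) : ℕ) : ZMod q) - ((ρ₀ + s : ℕ) : ZMod q) := eq_sub_of_add_eq h3
    rw [h4]
    push_cast
    ring

/-- `κ + m - 1` elements are possible, for every group with large exponent -/
theorem lower_pred {m κ : ℕ} (hm : 2 ≤ m) (hκ : 2 * m * m ≤ κ) (hκe : κ = AddMonoid.exponent G)
    (hn : Fintype.card G = m * κ) : ∃ A : Finset G, A.card = κ + (m - 1) ∧ WZF κ A := by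
  have hmm : m * 2 ≤ m * m := Nat.mul_le_mul_left _ hm
  have hmm2 : 2 * m * m = 2 * (m * m) := by ring
  have : NeZero κ := ⟨by omega⟩
  obtain ⟨π, hπ⟩ := exists_surj (G := G) (q := κ) (by rw [← hκe])
  set w := (κ + 3 * m - 2) / m with hw
  have hdm := Nat.div_add_mod (κ + 3 * m - 2) m
  have hlt : (κ + 3 * m - 2) % m < m := Nat.mod_lt _ (by omega)
  rw [← hw] at hdm
  set r := (κ + 3 * m - 2) % m with hr
  -- `m w = κ + 3 m - 2 - r`
  have hw3 : 3 ≤ w := by
    by_contra hcon
    have : m * w ≤ m * 2 := Nat.mul_le_mul_left _ (by omega)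
    omega
  obtain ⟨w', hw'⟩ : ∃ w', w = w' + 3 := ⟨w - 3, by omega⟩
  have e1 : m * w = m * w' + m * 3 := by rw [hw']; ring
  have hbound : (m - 1) * (w - 1) + 2 ≤ κ := by
    obtain ⟨m', hm'⟩ : ∃ m', m = m' + 1 := ⟨m - 1, by omega⟩
    have e2 : (m - 1) * (w - 1) = m' * w' + 2 * m' := by
      rw [hw', hm']
      have : w' + 3 - 1 = w' + 2 := by omega
      rw [this, Nat.add_sub_cancel]
      ring
    have e3 : m * w' = m' * w' + w' := by rw [hm']; ring
    -- `w' ≥ 2 m' + something`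
    have h5 : 2 * m' ≤ w' := by
      by_contra hcon
      have h6 : m * w' ≤ m * (2 * m') := Nat.mul_le_mul_left _ (by omega)
      have h7 : m * (2 * m') + 2 * m = 2 * (m * m) := by rw [hm']; ring
      omega
    omega
  apply lower_flex (q := κ) (w := w) (c := m) (ρ₀ := m - 1 - r) (ρ₁ := m) hn hπ rfl (by omega)
    ?_ hbound (by omega) (le_refl _) (Or.inr ⟨hw3, by omega⟩) ?_
  · have : w ≤ m * w := Nat.le_mul_of_pos_left _ (by omega)
    have h6 : 2 * w ≤ m * w := Nat.mul_le_mul_right _ hm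
    omega
  · rw [mul_comm w m]
    omega

/-- `κ + m` elements are possible if `κ` has a suitable divisor -/
theorem lower_self {m κ q : ℕ} (hm : 2 ≤ m) (hκe : κ = AddMonoid.exponent G)
    (hn : Fintype.card G = m * κ) (hq : q ∣ κ) (hmq : m < q) (hqm : 2 ≤ q % m)
    (hqκ : (2 * m + 1) * q ≤ κ) : ∃ A : Finset G, A.card = κ + m ∧ WZF κ A := by
  obtain ⟨d, hd⟩ := hq
  have : NeZero q := ⟨by omega⟩
  obtain ⟨π, hπ⟩ := exists_surj (G := G) (q := q) (by rw [← hκe]; exact ⟨d, hd⟩)
  have hdm := Nat.div_add_mod q m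
  have hlt : q % m < m := Nat.mod_lt _ (by omega)
  set u := q / m with hu
  set r := q % m with hr
  have hu1 : 1 ≤ u := by
    rw [hu, Nat.one_le_div_iff (by omega)]
    omega
  have hd1 : 2 * m + 1 ≤ d := by
    rw [hd, mul_comm q d] at hqκ
    exact Nat.le_of_mul_le_mul_right hqκ (by omega)
  -- `(u + 1) * m = q + (m - r)`
  have e1 : (u + 1) * m = q + (m - r) := by
    have : (u + 1) * m = m * u + m := by ring
    omega
  have e2 : (u + 1) * (m * d) = κ + (m - r) * d := by
    calc (u + 1) * (m * d) = ((u + 1) * m) * d := by ring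
      _ = (q + (m - r)) * d := by rw [e1]
      _ = κ + (m - r) * d := by rw [add_mul, ← hd]
  have e3 : d ≤ (m - r) * d := Nat.le_mul_of_pos_left _ (by omega)
  have e4 : (m - r) * d ≤ m * d := Nat.mul_le_mul_right _ (by omega)
  have hum : u ≤ m * u := Nat.le_mul_of_pos_left _ (by omega)
  apply lower_flex (q := q) (w := u + 1) (c := m * d) (ρ₀ := 0) (ρ₁ := (m - r) * d - m) hn hπ ?_
    (by omega) (by omega) ?_ (by omega) (by omega) (Or.inl rfl) ?_
  · rw [hd]
    ring
  · rw [Nat.add_sub_cancel]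
    omega
  · omega

/-- An explicit family: `m` odd, `κ = m k`, `k` odd, `k ≡ -1 (mod m)`. -/
theorem lower_family {μ v : ℕ} (hμ : 1 ≤ μ) (hv : 1 ≤ v)
    (hκe : AddMonoid.exponent G = (2 * μ + 1) * (2 * (2 * μ + 1) * v - 1))
    (hn : Fintype.card G = (2 * μ + 1) * ((2 * μ + 1) * (2 * (2 * μ + 1) * v - 1))) :
    ∃ A : Finset G, A.card = (2 * μ + 1) * (2 * (2 * μ + 1) * v - 1) + (2 * μ + 1) ∧
      WZF ((2 * μ + 1) * (2 * (2 * μ + 1) * v - 1)) A := by
  set m := 2 * μ + 1 with hm
  set k := 2 * m * v - 1 with hk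
  have hmv : m ≤ m * v := Nat.le_mul_of_pos_right _ hv
  have e0 : 2 * m * v = 2 * (m * v) := by ring
  have hkk : k + 1 = 2 * m * v := by omega
  have hk1 : 2 * m ≤ k + 1 := by omega
  have : NeZero k := ⟨by omega⟩
  obtain ⟨π, hπ⟩ := exists_surj (G := G) (q := k) (by rw [hκe]; exact ⟨m, by ring⟩)
  have hvm : 2 * v ≤ 2 * (m * v) := by
    have : v ≤ m * v := Nat.le_mul_of_pos_left _ (by omega)
    omega
  have hv3 : 3 * v ≤ m * v := Nat.mul_le_mul_right _ (by omega)
  obtain ⟨v', rfl⟩ : ∃ v', v = v' + 1 := ⟨v - 1, by omega⟩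
  have e1 : m * (2 * (v' + 1) - 1) + m = k + 1 := by
    have : 2 * (v' + 1) - 1 = 2 * v' + 1 := by omega
    rw [this, hkk]
    ring
  apply lower_counts (t := m) (q := k) (w := 2 * (v' + 1)) (c := m * m) (e := k - μ) hn hπ (by ring)
    (by omega) (by omega) (by omega) (fun _ => m * m) (fun _ _ => le_refl _)
  · rw [sum_const, card_range, smul_eq_mul]
    calc 2 * (v' + 1) * (m * m) = m * (2 * m * (v' + 1)) := by ring
      _ = m * (k + 1) := by rw [hkk]
      _ = m * k + m := by ring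
  · rw [← mul_sum, sum_range_id]
    have e2 : 2 * (v' + 1) * (2 * (v' + 1) - 1) / 2 = (v' + 1) * (2 * v' + 1) := by
      have : 2 * (v' + 1) * (2 * (v' + 1) - 1) = 2 * ((v' + 1) * (2 * v' + 1)) := by
        have : 2 * (v' + 1) - 1 = 2 * v' + 1 := by omega
        rw [this]
        ring
      rw [this]
      exact Nat.mul_div_cancel_left _ (by norm_num)
    rw [e2]
    -- `m m (v'+1)(2v'+1) + μ = k * (m v' + ... )`
    have hkz : ((k : ℕ) : ZMod k) = 0 := ZMod.natCast_self k
    have h5 : m * m * ((v' + 1) * (2 * v' + 1)) = k * (m * v' + μ) + (k - μ) := by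
      have h6 : (k : ℤ) = 2 * m * (v' + 1) - 1 := by
        have : ((k + 1 : ℕ) : ℤ) = ((2 * m * (v' + 1) : ℕ) : ℤ) := by rw [hkk]
        push_cast at this
        linarith
      have h7 : ((k - μ : ℕ) : ℤ) = (k : ℤ) - μ := by
        rw [Nat.cast_sub (by omega)]
      have h8 : (m : ℤ) = 2 * μ + 1 := by
        rw [hm]
        push_cast
        ring
      have h9 : ((m * m * ((v' + 1) * (2 * v' + 1)) : ℕ) : ℤ) =
          ((k * (m * v' + μ) + (k - μ) : ℕ) : ℤ) := by
        push_cast [h7]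
        rw [h6, h8]
        ring
      exact_mod_cast h9
    rw [h5]
    push_cast
    rw [hkz]
    ring

end

end Pool.Agent.Lib.MPa7239a
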