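import Mathlib

/-!
# Kneser's addition theorem for finite abelian groups

The proof follows the short proof of M. DeVos.
-/

open scoped Pointwise
open Finset

set_option linter.unusedSectionVars false

namespace Pool.Agent.Lib.MPa7239a

variable {G : Type*} [AddCommGroup G] [Fintype G] [DecidableEq G]

/-- The (additive) stabilizer of a finite set. -/
def st (A : Finset G) : AddSubgroup G where
  carrier := {g | ∀ x, x + g ∈ A ↔ x ∈ A}
  zero_mem' := by intro x; simp
  add_mem' := by
    intro g h hg hh x
    rw [← add_assoc, hh, hg]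
  neg_mem' := by
    intro g hg x
    have := hg (x + -g)
    simp only [neg_add_cancel_right] at this
    exact this.symm

theorem mem_st {A : Finset G} {g : G} : g ∈ st A ↔ ∀ x, x + g ∈ A ↔ x ∈ A := Iff.rfl

open Classical in
/-- A subgroup as a finset. -/
noncomputable def hs (H : AddSubgroup G) : Finset G := univ.filter (fun g => g ∈ H)

@[simp] theorem mem_hs {H : AddSubgroup G} {g : G} : g ∈ hs H ↔ g ∈ H := by
  classical
  simp [hs]

/-- The union of the cosets of `H` that meet `A`. -/
noncomputable def cl (H : AddSubgroup G) (A : Finset G) : Finset G := A + hs H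

theorem mem_cl {H : AddSubgroup G} {A : Finset G} {x : G} :
    x ∈ cl H A ↔ ∃ a ∈ A, x - a ∈ H := by
  unfold cl
  rw [Finset.mem_add]
  constructor
  · rintro ⟨a, ha, h, hh, rfl⟩
    exact ⟨a, ha, by simpa using hh⟩
  · rintro ⟨a, ha, h⟩
    exact ⟨a, ha, x - a, by simpa using h, by abel⟩

/-- `A` is a union of cosets of `H`. -/
def Per (H : AddSubgroup G) (A : Finset G) : Prop := ∀ x ∈ A, ∀ h ∈ H, x + h ∈ A

theorem subset_cl (H : AddSubgroup G) (A : Finset G) : A ⊆ cl H A := by
  intro x hx
  rw [mem_cl]
  exact ⟨x, hx, by simp [H.zero_mem]⟩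

theorem per_cl (H : AddSubgroup G) (A : Finset G) : Per H (cl H A) := by
  intro x hx h hh
  rw [mem_cl] at hx ⊢
  obtain ⟨a, ha, hxa⟩ := hx
  refine ⟨a, ha, ?_⟩
  have : x + h - a = (x - a) + h := by abel
  rw [this]
  exact H.add_mem hxa hh

theorem cl_subset_of_per {H : AddSubgroup G} {A B : Finset G} (hB : Per H B) (h : A ⊆ B) :
    cl H A ⊆ B := by
  intro x hx
  rw [mem_cl] at hx
  obtain ⟨a, ha, hxa⟩ := hx
  have := hB a (h ha) _ hxa
  simpa using this

theorem cl_eq_of_per {H : AddSubgroup G} {A : Finset G} (hA : Per H A) : cl H A = A :=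
  Subset.antisymm (cl_subset_of_per hA Subset.rfl) (subset_cl H A)

theorem cl_mono {H : AddSubgroup G} {A B : Finset G} (h : A ⊆ B) : cl H A ⊆ cl H B :=
  cl_subset_of_per (per_cl H B) (h.trans (subset_cl H B))

theorem Per.anti {H K : AddSubgroup G} (hHK : K ≤ H) {A : Finset G} (hA : Per H A) : Per K A :=
  fun x hx h hh => hA x hx h (hHK hh)

theorem cl_mono_left {H K : AddSubgroup G} (hHK : K ≤ H) (A : Finset G) : cl K A ⊆ cl H A :=
  cl_subset_of_per ((per_cl H A).anti hHK) (subset_cl H A)

theorem per_st (A : Finset G) : Per (st A) A := fun x hx _ hh => (hh x).2 hx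

theorem le_st_of_per {H : AddSubgroup G} {A : Finset G} (hA : Per H A) : H ≤ st A := by
  intro h hh x
  constructor
  · intro hx
    have := hA _ hx (-h) (H.neg_mem hh)
    simpa using this
  · intro hx
    exact hA x hx h hh

theorem Per.union {H : AddSubgroup G} {A B : Finset G} (hA : Per H A) (hB : Per H B) :
    Per H (A ∪ B) := by
  intro x hx h hh
  rw [mem_union] at hx ⊢
  rcases hx with hx | hx
  · exact Or.inl (hA x hx h hh)
  · exact Or.inr (hB x hx h hh)

theorem Per.inter {H : AddSubgroup G} {A B : Finset G} (hA : Per H A) (hB : Per H B) :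
    Per H (A ∩ B) := by
  intro x hx h hh
  rw [mem_inter] at hx ⊢
  exact ⟨hA x hx.1 h hh, hB x hx.2 h hh⟩

theorem Per.add_right {H : AddSubgroup G} {A : Finset G} (B : Finset G) (hA : Per H A) :
    Per H (A + B) := by
  intro x hx h hh
  rw [Finset.mem_add] at hx ⊢
  obtain ⟨a, ha, b, hb, rfl⟩ := hx
  exact ⟨a + h, hA a ha h hh, b, hb, by abel⟩

theorem Per.add_left {H : AddSubgroup G} {B : Finset G} (A : Finset G) (hB : Per H B) :
    Per H (A + B) := by
  rw [add_comm]
  exact hB.add_right A

theorem card_hs_pos (H : AddSubgroup G) : 0 < (hs H).card :=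
  card_pos.2 ⟨0, by simp [H.zero_mem]⟩

theorem hs_mono {H K : AddSubgroup G} (h : K ≤ H) : hs K ⊆ hs H := by
  intro x hx
  rw [mem_hs] at hx ⊢
  exact h hx

theorem hs_card_lt {H K : AddSubgroup G} (h : K ≤ H) (hne : K ≠ H) : (hs K).card < (hs H).card := by
  apply card_lt_card
  refine ⟨hs_mono h, ?_⟩
  intro h'
  apply hne
  apply le_antisymm h
  intro x hx
  have := h' (mem_hs.2 hx)
  exact mem_hs.1 this

/-- the coset `a + H` -/
noncomputable def cs (H : AddSubgroup G) (a : G) : Finset G := cl H {a}

theorem mem_cs {H : AddSubgroup G} {a x : G} : x ∈ cs H a ↔ x - a ∈ H := by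
  simp [cs, mem_cl]

theorem card_cs (H : AddSubgroup G) (a : G) : (cs H a).card = (hs H).card := by
  unfold cs cl
  simp

/-- The size of a periodic set is a multiple of the order of the group. -/
theorem dvd_card_of_per {H : AddSubgroup G} {A : Finset G} (hA : Per H A) :
    (hs H).card ∣ A.card := by
  classical
  induction' hn : A.card using Nat.strong_induction_on with n ih generalizing A
  rcases A.eq_empty_or_nonempty with rfl | ⟨a, ha⟩
  · simp at hn
    subst hn
    exact dvd_zero _
  have hsub : cs H a ⊆ A := by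
    intro x hx
    rw [mem_cs] at hx
    have := hA a ha _ hx
    simpa using this
  have hper : Per H (A \ cs H a) := by
    intro x hx h hh
    rw [mem_sdiff] at hx ⊢
    refine ⟨hA x hx.1 h hh, ?_⟩
    intro hc
    apply hx.2
    rw [mem_cs] at hc ⊢
    have : x - a = (x + h - a) - h := by abel
    rw [this]
    exact H.sub_mem hc hh
  have hcard : (A \ cs H a).card + (hs H).card = A.card := by
    rw [← card_cs H a]
    exact card_sdiff_add_card_eq_card hsub
  have hpos := card_hs_pos H
  have := ih (A \ cs H a).card (by omega) hper rfl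
  rw [← hn, ← hcard]
  exact Dvd.dvd.add this (dvd_refl _)

theorem mem_st_of_forall {A : Finset G} {g : G} (h : ∀ x ∈ A, x + g ∈ A) : g ∈ st A := by
  have himg : A.image (· + g) = A := by
    apply eq_of_subset_of_card_le
    · intro y hy
      rw [mem_image] at hy
      obtain ⟨x, hx, rfl⟩ := hy
      exact h x hx
    · rw [card_image_of_injective _ (add_left_injective g)]
  intro x
  constructor
  · intro hx
    rw [← himg, mem_image] at hx
    obtain ⟨y, hy, hyx⟩ := hx
    have : y = x := add_right_cancel hyx
    rwa [← this]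
  · intro hx
    exact h x hx

theorem st_add_singleton (A : Finset G) (g : G) : st (A + {g}) = st A := by
  ext h
  rw [mem_st, mem_st]
  have key : ∀ x, x ∈ A + {g} ↔ x - g ∈ A := by
    intro x
    rw [Finset.mem_add]
    constructor
    · rintro ⟨a, ha, b, hb, rfl⟩
      rw [mem_singleton] at hb
      subst hb
      simpa using ha
    · intro hx
      exact ⟨x - g, hx, g, by simp, by abel⟩
  constructor
  · intro H x
    have := H (x + g)
    rw [key, key] at this
    have e : x + g + h - g = x + h := by abel
    rw [e] at this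
    simpa using this
  · intro H x
    rw [key, key]
    have := H (x - g)
    have e : x - g + h = x + h - g := by abel
    rw [e] at this
    exact this

theorem st_le_st_add (A B : Finset G) : st B ≤ st (A + B) :=
  le_st_of_per ((per_st B).add_left A)

/-- The induction measure. -/
noncomputable def mu (A B : Finset G) : ℕ :=
  (A + B).card * (Fintype.card G + 1) + (cl (st (A + B)) A).card

/-- The statement of Kneser's theorem for a pair of sets. -/
def KN (A B : Finset G) : Prop :=
  (cl (st (A + B)) A).card + (cl (st (A + B)) B).card ≤ (A + B).card + (hs (st (A + B))).card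

theorem mu_lt_of_card_lt {A B A' B' : Finset G} (h : (A' + B').card < (A + B).card) :
    mu A' B' < mu A B := by
  unfold mu
  have h1 : (cl (st (A' + B')) A').card ≤ Fintype.card G := card_le_univ _
  have h2 : ((A' + B').card + 1) * (Fintype.card G + 1) ≤ (A + B).card * (Fintype.card G + 1) :=
    Nat.mul_le_mul_right _ h
  have h3 : ((A' + B').card + 1) * (Fintype.card G + 1)
      = (A' + B').card * (Fintype.card G + 1) + (Fintype.card G + 1) := by ring
  omega

/-- the key counting step -/
theorem card_cl_step {H H' : AddSubgroup G} (hle : H' ≤ H) (D : Finset G) {z : G} (hz : z ∈ D) :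
    (cl H' D).card + (hs H).card ≤ (cl H D).card + (cl H' (D ∩ cs H z)).card := by
  classical
  have h1 : cl H' D ∩ cs H z ⊆ cl H' (D ∩ cs H z) := by
    intro x hx
    rw [mem_inter, mem_cl, mem_cs] at hx
    obtain ⟨⟨d, hd, hxd⟩, hxz⟩ := hx
    rw [mem_cl]
    refine ⟨d, ?_, hxd⟩
    rw [mem_inter, mem_cs]
    refine ⟨hd, ?_⟩
    have : d - z = (x - z) - (x - d) := by abel
    rw [this]
    exact H.sub_mem hxz (hle hxd)
  have h2 : (cl H' D \ cs H z) ∪ cs H z ⊆ cl H D := by
    intro x hx
    rw [mem_union, mem_sdiff] at hx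
    rcases hx with hx | hx
    · exact cl_mono_left hle D hx.1
    · rw [mem_cs] at hx
      rw [mem_cl]
      exact ⟨z, hz, hx⟩
  have h3 : ((cl H' D \ cs H z) ∪ cs H z).card = (cl H' D \ cs H z).card + (cs H z).card := by
    apply card_union_of_disjoint
    exact sdiff_disjoint
  have h4 := card_le_card h2
  have h5 := card_le_card h1
  have h6 : (cl H' D \ cs H z).card + (cl H' D ∩ cs H z).card = (cl H' D).card :=
    card_sdiff_add_card_inter _ _
  have h7 := card_cs H z
  omega


/-- The pair `(C, H)` is convergent with respect to `(A, B)`. -/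
def Cv (A B C : Finset G) (H : AddSubgroup G) : Prop :=
  C ⊆ A + B ∧ st (A + B) ≤ H ∧ Per H C ∧
    (A ∩ B).card + (cl H (A ∪ B)).card ≤ C.card + (hs H).card

/-- What we get from a piece `A' + B'` inside a coset of `H` which is not covered by `A + B`. -/
theorem piece {A B C : Finset G} {H : AddSubgroup G} (hC : Cv A B C H)
    (hmin : ∀ C' H', Cv A B C' H' → (hs H).card ≤ (hs H').card)
    (ih : ∀ A' B' : Finset G, A'.Nonempty → B'.Nonempty → mu A' B' < mu A B → KN A' B')
    (hne : (A ∩ B).Nonempty)
    {c h : G} (hh : h ∈ H) (hcn : c + h ∉ A + B) {A' B' : Finset G} (hA' : A' ⊆ A) (hB' : B' ⊆ B)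
    (hA'p : Per (st (A + B)) A') (hA'n : A'.Nonempty) (hB'n : B'.Nonempty)
    (hsub : ∀ x ∈ A' + B', x - c ∈ H) :
    st (A' + B') ≤ H ∧
    (cl H (A ∪ B)).card + (cl (st (A' + B')) A').card + (cl (st (A' + B')) B').card
      < (hs H).card + (cl (st (A' + B')) (A ∪ B)).card ∧
    (A ∩ B).card + (cl H (A ∪ B)).card + (A' + B').card ≤ (A + B).card + (hs H).card ∧
    A'.card + B'.card ≤ (A' + B').card + (hs (st (A' + B'))).card := by
  classical
  obtain ⟨hC1, hC2, hC3, hC4⟩ := hC
  have hn : (A' + B').Nonempty := hA'n.add hB'n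
  have hsubAB : A' + B' ⊆ A + B := add_subset_add hA' hB'
  have hle : st (A' + B') ≤ H := by
    intro g hg
    obtain ⟨y, hy⟩ := hn
    have h1 := hsub y hy
    have h2 := hsub (y + g) ((hg y).2 hy)
    have : g = (y + g - c) - (y - c) := by abel
    rw [this]
    exact H.sub_mem h2 h1
  have hneq : st (A' + B') ≠ H := by
    intro heq
    obtain ⟨y, hy⟩ := hn
    apply hcn
    have h1 := hsub y hy
    have h2 : c + h - y ∈ st (A' + B') := by
      rw [heq]
      have : c + h - y = h - (y - c) := by abel
      rw [this]
      exact H.sub_mem hh h1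
    have h3 := (h2 y).2 hy
    have : y + (c + h - y) = c + h := by abel
    rw [this] at h3
    exact hsubAB h3
  have hlt := hs_card_lt hle hneq
  have hKle : st (A + B) ≤ st (A' + B') := le_st_of_per (hA'p.add_right B')
  have hdisj : Disjoint C (A' + B') := by
    rw [Finset.disjoint_left]
    intro y hyC hy
    apply hcn
    apply hC1
    have h1 := hsub y hy
    have h2 := hC3 y hyC (h - (y - c)) (H.sub_mem hh h1)
    have : y + (h - (y - c)) = c + h := by abel
    rwa [this] at h2
  have hcardU : (C ∪ (A' + B')).card = C.card + (A' + B').card := card_union_of_disjoint hdisj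
  have hUsub : C ∪ (A' + B') ⊆ A + B := union_subset hC1 hsubAB
  have hUle := card_le_card hUsub
  have hncv : ¬ Cv A B (C ∪ (A' + B')) (st (A' + B')) := by
    intro hcv
    have := hmin _ _ hcv
    omega
  have hnc : C.card + (A' + B').card + (hs (st (A' + B'))).card <
      (A ∩ B).card + (cl (st (A' + B')) (A ∪ B)).card := by
    by_contra hcon
    apply hncv
    refine ⟨hUsub, hKle, (hC3.anti hle).union (per_st _), ?_⟩
    rw [hcardU]
    omega
  have hCn : 0 < C.card := by
    have h1 : 0 < (A ∩ B).card := card_pos.2 hne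
    obtain ⟨z, hz⟩ := hne
    have hz' : z ∈ A ∪ B := mem_union_left _ (mem_inter.1 hz).1
    have h2 : cs H z ⊆ cl H (A ∪ B) := by
      intro x hx
      rw [mem_cs] at hx
      rw [mem_cl]
      exact ⟨z, hz', hx⟩
    have h3 := card_le_card h2
    rw [card_cs] at h3
    omega
  have hkn : KN A' B' := by
    apply ih A' B' hA'n hB'n
    apply mu_lt_of_card_lt
    omega
  have hkn' := hkn
  unfold KN at hkn'
  have e1 := card_le_card (subset_cl (st (A' + B')) A')
  have e2 := card_le_card (subset_cl (st (A' + B')) B')
  refine ⟨hle, ?_, ?_, ?_⟩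
  · omega
  · omega
  · omega

theorem core {A B : Finset G} (hA : Per (st (A + B)) A) (hB : Per (st (A + B)) B)
    (ih : ∀ A' B' : Finset G, A'.Nonempty → B'.Nonempty → mu A' B' < mu A B → KN A' B')
    (hne : (A ∩ B).Nonempty) (hns : ¬ A ⊆ B) :
    A.card + B.card ≤ (A + B).card + (hs (st (A + B))).card := by
  classical
  by_contra hcon
  push Not at hcon
  set K := st (A + B) with hK
  have hcardEU : (A ∩ B).card + (A ∪ B).card = A.card + B.card := by
    have := card_inter_add_card_union A B
    omega
  -- the first convergent pair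
  have hC0sub : (A ∩ B) + (A ∪ B) ⊆ A + B := by
    intro x hx
    rw [Finset.mem_add] at hx
    obtain ⟨e, he, d, hd, rfl⟩ := hx
    rw [mem_inter] at he
    rw [mem_union] at hd
    rw [Finset.mem_add]
    rcases hd with hd | hd
    · exact ⟨d, hd, e, he.2, by abel⟩
    · exact ⟨e, he.1, d, hd, rfl⟩
  have hEp : Per K (A ∩ B) := hA.inter hB
  have hcv0 : Cv A B ((A ∩ B) + (A ∪ B)) (st ((A ∩ B) + (A ∪ B))) := by
    refine ⟨hC0sub, le_st_of_per (hEp.add_right _), per_st _, ?_⟩
    have hkn : KN (A ∩ B) (A ∪ B) := by
      apply ih _ _ hne (hne.mono (fun x hx => mem_union_left _ (mem_inter.1 hx).1))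
      rcases lt_or_eq_of_le (card_le_card hC0sub) with h | h
      · exact mu_lt_of_card_lt h
      · have heq : (A ∩ B) + (A ∪ B) = A + B := eq_of_subset_of_card_le hC0sub h.ge
        unfold mu
        rw [heq, ← hK, cl_eq_of_per hEp, cl_eq_of_per hA]
        have : (A ∩ B).card < A.card := by
          apply card_lt_card
          refine ⟨inter_subset_left, ?_⟩
          intro hsub
          exact hns (fun x hx => (mem_inter.1 (hsub hx)).2)
        omega
    unfold KN at hkn
    have := card_le_card (subset_cl (st ((A ∩ B) + (A ∪ B))) (A ∩ B))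
    omega
  -- choose a convergent pair with minimal group
  obtain ⟨C, H, hC, hmin⟩ : ∃ C H, Cv A B C H ∧ ∀ C' H', Cv A B C' H' →
      (hs H).card ≤ (hs H').card := by
    have hex : ∃ k, ∃ C H, Cv A B C H ∧ (hs H).card = k := ⟨_, _, _, hcv0, rfl⟩
    obtain ⟨C, H, hC, hk⟩ := Nat.find_spec hex
    refine ⟨C, H, hC, ?_⟩
    intro C' H' hC'
    rw [hk]
    exact Nat.find_min' hex ⟨C', H', hC', rfl⟩
  obtain ⟨hC1, hC2, hC3, hC4⟩ := id hC
  rw [← hK] at hC2
  have hdcl := card_le_card (subset_cl H (A ∪ B))
  have hCle := card_le_card hC1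
  have hHK : K ≠ H := by
    intro heq
    rw [← heq] at hC4 hdcl
    omega
  have hnper : ¬ Per H (A + B) := by
    intro hper
    exact hHK (le_antisymm hC2 (le_st_of_per hper))
  obtain ⟨s, hs', h, hh, hnot⟩ : ∃ s ∈ A + B, ∃ h ∈ H, s + h ∉ A + B := by
    unfold Per at hnper
    push Not at hnper
    exact hnper
  rw [Finset.mem_add] at hs'
  obtain ⟨a, ha, b, hb, rfl⟩ := hs'
  have haD : a ∈ A ∪ B := mem_union_left _ ha
  have hbD : b ∈ A ∪ B := mem_union_right _ hb
  -- periodicity of the pieces
  have hcsper : ∀ z, Per K (cs H z) := by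
    intro z
    exact (per_cl H {z}).anti hC2
  have hself : ∀ z, z ∈ cs H z := by
    intro z
    rw [mem_cs]
    simp [H.zero_mem]
  set A1 := A ∩ cs H a with hA1
  set A2 := A ∩ cs H b with hA2
  set B1 := B ∩ cs H b with hB1
  set B2 := B ∩ cs H a with hB2
  have hA1n : A1.Nonempty := ⟨a, mem_inter.2 ⟨ha, hself a⟩⟩
  have hB1n : B1.Nonempty := ⟨b, mem_inter.2 ⟨hb, hself b⟩⟩
  have P1 := piece hC hmin ih hne hh hnot (A' := A1) (B' := B1) inter_subset_left
    inter_subset_left (hA.inter (hcsper a)) hA1n hB1n (by
      intro x hx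
      rw [Finset.mem_add] at hx
      obtain ⟨u, hu, v, hv, rfl⟩ := hx
      have hu' := mem_cs.1 (mem_inter.1 hu).2
      have hv' := mem_cs.1 (mem_inter.1 hv).2
      have : u + v - (a + b) = (u - a) + (v - b) := by abel
      rw [this]
      exact H.add_mem hu' hv')
  obtain ⟨hle1, h11, h12, h13⟩ := P1
  set H1 := st (A1 + B1) with hH1
  have hDa : (A ∪ B) ∩ cs H a = A1 ∪ B2 := by
    rw [union_inter_distrib_right]
  have hDb : (A ∪ B) ∩ cs H b = A2 ∪ B1 := by
    rw [union_inter_distrib_right]
  have sa := card_cl_step hle1 (A ∪ B) haD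
  have sb := card_cl_step hle1 (A ∪ B) hbD
  rw [hDa] at sa
  rw [hDb] at sb
  have cl_union_le : ∀ (X Y : Finset G), (cl H1 (X ∪ Y)).card ≤ (cl H1 X).card + (cl H1 Y).card := by
    intro X Y
    have : cl H1 (X ∪ Y) = cl H1 X ∪ cl H1 Y := by
      unfold cl
      rw [union_add]
    rw [this]
    exact card_union_le _ _
  -- `B2` and `A2` are nonempty
  have hcl0 : (cl H1 (∅ : Finset G)).card = 0 := by simp [cl]
  have hB2n : B2.Nonempty := by
    by_contra hemp
    rw [not_nonempty_iff_eq_empty] at hemp
    have := cl_union_le A1 B2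
    rw [hemp] at this sa
    rw [hcl0] at this
    omega
  have hA2n : A2.Nonempty := by
    by_contra hemp
    rw [not_nonempty_iff_eq_empty] at hemp
    have := cl_union_le A2 B1
    rw [hemp] at this sb
    rw [hcl0] at this
    omega
  by_cases hab : a - b ∈ H
  · -- the two cosets coincide
    have hcseq : cs H a = cs H b := by
      ext x
      rw [mem_cs, mem_cs]
      constructor
      · intro hx
        have : x - b = (x - a) + (a - b) := by abel
        rw [this]
        exact H.add_mem hx hab
      · intro hx
        have : x - a = (x - b) - (a - b) := by abel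
        rw [this]
        exact H.sub_mem hx hab
    have hBB : B2 = B1 := by
      rw [hB2, hB1, hcseq]
    have := cl_union_le A1 B2
    rw [hBB] at this sa
    omega
  · have P2 := piece hC hmin ih hne hh hnot (A' := A2) (B' := B2) inter_subset_left
      inter_subset_left (hA.inter (hcsper b)) hA2n hB2n (by
        intro x hx
        rw [Finset.mem_add] at hx
        obtain ⟨u, hu, v, hv, rfl⟩ := hx
        have hu' := mem_cs.1 (mem_inter.1 hu).2
        have hv' := mem_cs.1 (mem_inter.1 hv).2
        have : u + v - (a + b) = (u - b) + (v - a) := by abel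
        rw [this]
        exact H.add_mem hu' hv')
    obtain ⟨hle2, h21, h22, h23⟩ := P2
    set H2 := st (A2 + B2) with hH2
    -- divisibility
    have gap : ∀ (H' : AddSubgroup G), H' ≤ H → ∀ X Y : Finset G,
        (cl H (A ∪ B)).card + (cl H' X).card + (cl H' Y).card
          < (hs H).card + (cl H' (A ∪ B)).card →
        X.card + Y.card + (hs H').card ≤ (hs H).card := by
      intro H' hle X Y hlt
      have m1 := card_le_card (cl_mono_left hle (A ∪ B))
      have m2 : (cl H' X).card + (cl H' Y).card < (hs H).card := by omega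
      have d1 : (hs H').card ∣ (cl H' X).card := dvd_card_of_per (per_cl H' X)
      have d2 : (hs H').card ∣ (cl H' Y).card := dvd_card_of_per (per_cl H' Y)
      have d3 : (hs H').card ∣ (hs H).card := by
        apply dvd_card_of_per
        intro x hx h hh
        rw [mem_hs] at hx ⊢
        exact H.add_mem hx (hle hh)
      have d4 : (hs H').card ∣ (hs H).card - ((cl H' X).card + (cl H' Y).card) :=
        Nat.dvd_sub d3 (Dvd.dvd.add d1 d2)
      have d5 := Nat.le_of_dvd (by omega) d4
      have m3 := card_le_card (subset_cl H' X)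
      have m4 := card_le_card (subset_cl H' Y)
      omega
    have g1 := gap H1 hle1 A1 B1 h11
    have g2 := gap H2 hle2 A2 B2 h21
    -- sizes
    have hdisj : Disjoint (cs H a) (cs H b) := by
      rw [Finset.disjoint_left]
      intro x hx hx'
      rw [mem_cs] at hx hx'
      apply hab
      have : a - b = (x - b) - (x - a) := by abel
      rw [this]
      exact H.sub_mem hx' hx
    have hbig : (A ∪ B).card + (cs H a \ (A ∪ B)).card + (cs H b \ (A ∪ B)).card
        ≤ (cl H (A ∪ B)).card := by
      have e1 : Disjoint (cs H a \ (A ∪ B)) (cs H b \ (A ∪ B)) :=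
        hdisj.mono sdiff_subset sdiff_subset
      have e2 : Disjoint (A ∪ B) ((cs H a \ (A ∪ B)) ∪ (cs H b \ (A ∪ B))) := by
        rw [Finset.disjoint_left]
        intro x hx hx'
        rw [mem_union, mem_sdiff, mem_sdiff] at hx'
        rcases hx' with h' | h'
        · exact h'.2 hx
        · exact h'.2 hx
      have e3 : (A ∪ B) ∪ ((cs H a \ (A ∪ B)) ∪ (cs H b \ (A ∪ B))) ⊆ cl H (A ∪ B) := by
        intro x hx
        rcases mem_union.1 hx with hx | hx
        · exact subset_cl _ _ hx
        · rcases mem_union.1 hx with hx | hx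
          · rw [mem_cl]
            exact ⟨a, haD, mem_cs.1 (mem_sdiff.1 hx).1⟩
          · rw [mem_cl]
            exact ⟨b, hbD, mem_cs.1 (mem_sdiff.1 hx).1⟩
      have e4 := card_le_card e3
      rw [card_union_of_disjoint e2, card_union_of_disjoint e1] at e4
      omega
    have hSa : (hs H).card ≤ (cs H a \ (A ∪ B)).card + A1.card + B2.card := by
      have e1 := card_sdiff_add_card_inter (cs H a) (A ∪ B)
      rw [inter_comm, hDa, card_cs] at e1
      have e2 := card_union_le A1 B2
      omega
    have hSb : (hs H).card ≤ (cs H b \ (A ∪ B)).card + A2.card + B1.card := by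
      have e1 := card_sdiff_add_card_inter (cs H b) (A ∪ B)
      rw [inter_comm, hDb, card_cs] at e1
      have e2 := card_union_le A2 B1
      omega
    have hKpos := card_hs_pos K
    omega

theorem kneser_aux (N : ℕ) : ∀ A B : Finset G, A.Nonempty → B.Nonempty → mu A B = N → KN A B := by
  classical
  induction' N using Nat.strong_induction_on with N IH
  intro A B hA hB hN
  set K := st (A + B) with hK
  have hABper : Per K (A + B) := per_st _
  -- replace by periodic sets
  have hsum1 : cl K A + B = A + B := by
    unfold cl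
    rw [add_assoc, add_comm (hs K) B, ← add_assoc]
    exact cl_eq_of_per hABper
  have hsum2 : cl K A + cl K B = A + B := by
    have : cl K A + cl K B = cl K (cl K A + B) := by
      unfold cl
      rw [add_assoc, add_assoc, add_assoc]
    rw [this, hsum1]
    exact cl_eq_of_per hABper
  set A' := cl K A with hA'
  set B' := cl K B with hB'
  have hA'p : Per K A' := per_cl _ _
  have hB'p : Per K B' := per_cl _ _
  have hA'n : A'.Nonempty := hA.mono (subset_cl _ _)
  have hB'n : B'.Nonempty := hB.mono (subset_cl _ _)
  show A'.card + B'.card ≤ (A + B).card + (hs K).card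
  by_cases hone : ∃ a ∈ A', ∀ a' ∈ A', a' - a ∈ K
  · obtain ⟨a, ha, hall⟩ := hone
    have h1 : A' ⊆ cs K a := by
      intro x hx
      rw [mem_cs]
      exact hall x hx
    have h2 := card_le_card h1
    rw [card_cs] at h2
    have h3 : B'.card ≤ (A' + B').card := by
      have : ({a} : Finset G) + B' ⊆ A' + B' := add_subset_add_right (by simpa using ha)
      have h4 := card_le_card this
      rwa [card_singleton_add] at h4
    rw [hsum2] at h3
    omega
  · push Not at hone
    obtain ⟨a, ha⟩ := hA'n
    obtain ⟨a', ha', hnot⟩ := hone a ha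
    have hnst : a' - a ∉ st B' := by
      intro hin
      apply hnot
      have := st_le_st_add A' B' hin
      rw [hsum2] at this
      exact this
    have : ¬ ∀ x ∈ B', x + (a' - a) ∈ B' := fun h => hnst (mem_st_of_forall h)
    push Not at this
    obtain ⟨b, hb, hbn⟩ := this
    set B'' := B' + {a - b} with hB''
    have hs'' : A' + B'' = (A + B) + {a - b} := by
      rw [hB'', ← add_assoc, hsum2]
    have hst'' : st (A' + B'') = K := by
      rw [hs'', st_add_singleton]
    have hcard'' : (A' + B'').card = (A + B).card := by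
      rw [hs'', card_add_singleton]
    have hcardB'' : B''.card = B'.card := by
      rw [hB'', card_add_singleton]
    have key : ∀ x, x ∈ B'' ↔ x - (a - b) ∈ B' := by
      intro x
      rw [hB'', Finset.mem_add]
      constructor
      · rintro ⟨u, hu, v, hv, rfl⟩
        rw [mem_singleton] at hv
        subst hv
        simpa using hu
      · intro hx
        exact ⟨x - (a - b), hx, a - b, by simp, by abel⟩
    have hmu : mu A' B'' = N := by
      rw [← hN]
      unfold mu
      rw [hst'', hcard'', ← hK, ← hA', cl_eq_of_per hA'p]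
    have hc := core (A := A') (B := B'') (by rw [hst'']; exact hA'p)
      (by rw [hst'']; exact hB'p.add_right _) (by
        intro X Y hX hY hlt
        rw [hmu] at hlt
        exact IH _ hlt X Y hX hY rfl) (by
        refine ⟨a, mem_inter.2 ⟨ha, ?_⟩⟩
        rw [key]
        have : a - (a - b) = b := by abel
        rw [this]
        exact hb) (by
        intro hsub
        have h1 := hsub ha'
        rw [key] at h1
        apply hbn
        have : a' - (a - b) = b + (a' - a) := by abel
        rwa [this] at h1)
    rw [hcard'', hst'', hcardB''] at hc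
    exact hc

/-- **Kneser's theorem**: with `K` the stabilizer of `A + B`,
`|A + B| ≥ |A + K| + |B + K| - |K|`. -/
theorem kneser {A B : Finset G} (hA : A.Nonempty) (hB : B.Nonempty) :
    (cl (st (A + B)) A).card + (cl (st (A + B)) B).card
      ≤ (A + B).card + (hs (st (A + B))).card :=
  kneser_aux _ A B hA hB rfl

theorem cl_cl (H : AddSubgroup G) (A : Finset G) : cl H (cl H A) = cl H A :=
  cl_eq_of_per (per_cl H A)

theorem cl_add (H : AddSubgroup G) (A B : Finset G) : cl H A + cl H B = cl H (A + B) := by
  have : cl H A + cl H B = cl H (cl H (A + B)) := by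
    unfold cl
    rw [add_assoc, ← add_assoc (hs H) B, add_comm (hs H) B]
    simp only [add_assoc]
  rw [this, cl_cl]

theorem kneser_list_aux (K : AddSubgroup G) : ∀ (L : List (Finset G)) (X : Finset G),
    X.Nonempty → (∀ Y ∈ L, Y.Nonempty) → st (X + L.sum) = K →
    (cl K X).card + (L.map (fun Y => (cl K Y).card)).sum
      ≤ (X + L.sum).card + L.length * (hs K).card := by
  intro L
  induction L with
  | nil =>
    intro X _ _ hst
    simp only [List.sum_nil, add_zero] at hst
    have : cl K X = X := by
      apply cl_eq_of_per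
      rw [← hst]
      exact per_st X
    simp [this]
  | cons Y L ih =>
    intro X hX hL hst
    have hY : Y.Nonempty := hL Y (by simp)
    have hXY : X + (Y :: L).sum = (X + Y) + L.sum := by
      rw [List.sum_cons, add_assoc]
    rw [hXY] at hst ⊢
    have h1 := ih (X + Y) (hX.add hY) (fun Z hZ => hL Z (by simp [hZ])) hst
    have hper : Per K ((X + Y) + L.sum) := by
      rw [← hst]
      exact per_st _
    have h2 : cl K (X + Y) + L.sum = (X + Y) + L.sum := by
      unfold cl
      rw [add_assoc, add_comm (hs K) L.sum, ← add_assoc]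
      exact cl_eq_of_per hper
    have h3 : st (cl K (X + Y)) = K := by
      apply le_antisymm
      · have h5 : st (cl K (X + Y)) ≤ st (cl K (X + Y) + L.sum) :=
          le_st_of_per ((per_st _).add_right _)
        rw [h2, hst] at h5
        exact h5
      · exact le_st_of_per (per_cl _ _)
    have h4 := kneser (A := cl K X) (B := cl K Y) (hX.mono (subset_cl _ _))
      (hY.mono (subset_cl _ _))
    rw [cl_add, h3, cl_cl, cl_cl] at h4
    simp only [List.map_cons, List.sum_cons, List.length_cons]
    rw [Nat.add_mul, one_mul]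
    omega

/-- Kneser's theorem for several summands. -/
theorem kneser_list (L : List (Finset G)) (X : Finset G) (hX : X.Nonempty)
    (hL : ∀ Y ∈ L, Y.Nonempty) :
    (cl (st (X + L.sum)) X).card + (L.map (fun Y => (cl (st (X + L.sum)) Y).card)).sum
      ≤ (X + L.sum).card + L.length * (hs (st (X + L.sum))).card :=
  kneser_list_aux _ L X hX hL rfl

end Pool.Agent.Lib.MPa7239a
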