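import Pool.Agent.Lib.MP_a7239a_co.UpperB

/-!
# Lower bounds
-/

open scoped Pointwise
open Finset

set_option linter.unusedSectionVars false

namespace Pool.Agent.Lib.MPa7239a

universe u v

/-- The differences of elements of `P` generate the group. -/
def Spans {Q : Type*} [AddCommGroup Q] (P : Finset Q) : Prop :=
  ∀ N : AddSubgroup Q, (∀ a ∈ P, ∀ b ∈ P, a - b ∈ N) → N = ⊤

/-- `y` is not a sum of `t` elements of `P` (repetitions allowed). -/
def Misses {Q : Type*} [AddCommGroup Q] (P : Finset Q) (t : ℕ) (y : Q) : Prop :=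
  ∀ f : Fin t → Q, (∀ i, f i ∈ P) → ∑ i, f i ≠ y

section reach

variable {Q : Type v} [AddCommGroup Q] [Fintype Q] [DecidableEq Q]

/-- elements that are sums of `r` differences of elements of `P` -/
def reach (P : Finset Q) : ℕ → Finset Q
  | 0 => {0}
  | (r + 1) => reach P r + (P - P)

theorem reach_mono {P : Finset Q} (hP : P.Nonempty) (r : ℕ) : reach P r ⊆ reach P (r + 1) := by
  intro x hx
  obtain ⟨p, hp⟩ := hP
  show x ∈ reach P r + (P - P)
  rw [Finset.mem_add]
  exact ⟨x, hx, 0, by
    rw [Finset.mem_sub]
    exact ⟨p, hp, p, hp, sub_self p⟩, add_zero x⟩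

theorem reach_mono' {P : Finset Q} (hP : P.Nonempty) {r s : ℕ} (h : r ≤ s) :
    reach P r ⊆ reach P s := by
  induction s, h using Nat.le_induction with
  | base => exact Subset.rfl
  | succ s _ ih => exact ih.trans (reach_mono hP s)

theorem zero_mem_reach {P : Finset Q} (hP : P.Nonempty) (r : ℕ) : (0 : Q) ∈ reach P r :=
  reach_mono' hP (Nat.zero_le r) (mem_singleton_self 0)

theorem reach_eq_univ {P : Finset Q} (hP : P.Nonempty) (hs : Spans P) :
    reach P (Fintype.card Q) = univ := by
  -- find a step where the chain stops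
  have hex : ∃ r, r ≤ Fintype.card Q ∧ reach P r = reach P (r + 1) := by
    by_contra hcon
    push Not at hcon
    have hlow : ∀ r, r ≤ Fintype.card Q + 1 → r + 1 ≤ (reach P r).card := by
      intro r
      induction r with
      | zero =>
        intro _
        simp [reach]
      | succ r ih =>
        intro hr
        have h1 := ih (by omega)
        have h2 : (reach P r).card < (reach P (r + 1)).card := by
          apply card_lt_card
          refine ⟨reach_mono hP r, ?_⟩
          intro h
          exact hcon r (by omega) (Subset.antisymm (reach_mono hP r) h)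
        omega
    have h3 := hlow (Fintype.card Q + 1) (le_refl _)
    have h4 : (reach P (Fintype.card Q + 1)).card ≤ Fintype.card Q := card_le_univ _
    omega
  obtain ⟨r, hr, heq⟩ := hex
  have hst : st (reach P r) = ⊤ := by
    apply hs
    intro a ha b hb
    apply mem_st_of_forall
    intro x hx
    rw [heq]
    show x + (a - b) ∈ reach P r + (P - P)
    exact add_mem_add hx (sub_mem_sub ha hb)
  rw [eq_univ_iff_forall]
  intro x
  apply reach_mono' hP hr
  have h1 : x ∈ st (reach P r) := by
    rw [hst]
    trivial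
  have h2 := (h1 0).2 (zero_mem_reach hP r)
  rwa [zero_add] at h2

end reach

section lower

variable {G : Type u} [AddCommGroup G] [Fintype G] [DecidableEq G]
variable {Q : Type v} [AddCommGroup Q] [Fintype Q] [DecidableEq Q]

/-- the fibre over `p` -/
def fib (π : G →+ Q) (p : Q) : Finset G := univ.filter (fun g => π g = p)

theorem mem_fib {π : G →+ Q} {p : Q} {g : G} : g ∈ fib π p ↔ π g = p := by
  simp [fib]

theorem card_fib {π : G →+ Q} (hπ : Function.Surjective π) (p : Q) :
    (fib π p).card * Fintype.card Q = Fintype.card G := by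
  have h1 : ∀ p p' : Q, (fib π p).card ≤ (fib π p').card := by
    intro p p'
    obtain ⟨g, hg⟩ := hπ (p' - p)
    apply card_le_card_of_injOn (fun x => x + g)
    · intro x hx
      have hx' : x ∈ fib π p := hx
      rw [mem_fib] at hx'
      have : x + g ∈ fib π p' := by
        rw [mem_fib, map_add, hx', hg]
        abel
      exact this
    · intro a _ b _ hab
      exact add_left_injective g hab
  have h2 : ∀ p' : Q, (fib π p').card = (fib π p).card := fun p' =>
    le_antisymm (h1 p' p) (h1 p p')
  have h3 : Fintype.card G = ∑ p' : Q, (fib π p').card := by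
    rw [← card_univ]
    apply card_eq_sum_card_fiberwise
    intro g _
    exact mem_coe.2 (mem_univ _)
  rw [h3, sum_congr rfl (fun p' _ => h2 p'), sum_const, card_univ, smul_eq_mul, mul_comm]

/-- swapping elements between fibres -/
theorem swap_lemma {π : G →+ Q} {P : Finset Q} : ∀ (r : ℕ) (A : Finset G) (z : Q),
    (∀ a ∈ A, π a ∈ P) → (∀ p ∈ P, r ≤ (A ∩ fib π p).card) → (∀ p ∈ P, r ≤ (fib π p \ A).card) →
    z ∈ reach P r → ∃ A' : Finset G, A'.card = A.card ∧ (∀ a ∈ A', π a ∈ P) ∧
      π (∑ a ∈ A', a) = π (∑ a ∈ A, a) + z := by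
  intro r
  induction r with
  | zero =>
    intro A z hA _ _ hz
    have hz' : z = 0 := by simpa [reach] using hz
    exact ⟨A, rfl, hA, by rw [hz', add_zero]⟩
  | succ r ih =>
    intro A z hA h1 h2 hz
    have hz' : z ∈ reach P r + (P - P) := hz
    rw [Finset.mem_add] at hz'
    obtain ⟨z', hz', d, hd, rfl⟩ := hz'
    rw [Finset.mem_sub] at hd
    obtain ⟨a, ha, b, hb, rfl⟩ := hd
    by_cases hab : a = b
    · subst hab
      obtain ⟨A', hA'c, hA'P, hA's⟩ := ih A z' hA (fun p hp => (Nat.le_succ r).trans (h1 p hp))
        (fun p hp => (Nat.le_succ r).trans (h2 p hp)) hz'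
      exact ⟨A', hA'c, hA'P, by rw [hA's, sub_self, add_zero]⟩
    · obtain ⟨x, hx⟩ : (A ∩ fib π b).Nonempty := by
        rw [← card_pos]
        have := h1 b hb
        omega
      obtain ⟨y, hy⟩ : (fib π a \ A).Nonempty := by
        rw [← card_pos]
        have := h2 a ha
        omega
      rw [mem_inter, mem_fib] at hx
      rw [mem_sdiff, mem_fib] at hy
      have hyA : y ∉ A.erase x := fun h => hy.2 (mem_of_mem_erase h)
      obtain ⟨A', hA'c, hA'P, hA's⟩ := ih (insert y (A.erase x)) z' (by
        intro c hc
        rw [mem_insert] at hc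
        rcases hc with rfl | hc
        · rw [hy.1]
          exact ha
        · exact hA c (mem_of_mem_erase hc)) (by
        intro p hp
        have e1 : (A ∩ fib π p).erase x ⊆ insert y (A.erase x) ∩ fib π p := by
          intro c hc
          rw [mem_erase, mem_inter] at hc
          rw [mem_inter, mem_insert, mem_erase]
          exact ⟨Or.inr ⟨hc.1, hc.2.1⟩, hc.2.2⟩
        have e2 := card_le_card e1
        have e3 := pred_card_le_card_erase (s := A ∩ fib π p) (a := x)
        have e4 := h1 p hp
        omega) (by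
        intro p hp
        have e1 : (fib π p \ A).erase y ⊆ fib π p \ insert y (A.erase x) := by
          intro c hc
          rw [mem_erase, mem_sdiff] at hc
          rw [mem_sdiff, mem_insert, mem_erase]
          refine ⟨hc.2.1, ?_⟩
          rintro (h | h)
          · exact hc.1 h
          · exact hc.2.2 h.2
        have e2 := card_le_card e1
        have e3 := pred_card_le_card_erase (s := fib π p \ A) (a := y)
        have e4 := h2 p hp
        omega) hz'
      refine ⟨A', ?_, hA'P, ?_⟩
      · rw [hA'c, card_insert_of_notMem hyA, card_erase_of_mem hx.1]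
        have : 0 < A.card := card_pos.2 ⟨x, hx.1⟩
        omega
      · rw [hA's, sum_insert hyA]
        have e1 := add_sum_erase A (fun c => c) hx.1
        have e2 : π (∑ c ∈ A, c) = π x + π (∑ c ∈ A.erase x, c) := by
          rw [← e1, map_add]
        rw [map_add, e2, hx.2, hy.1]
        abel

/-- a set with the right sum modulo the kernel is good -/
theorem WZF_of_misses {π : G →+ Q} {P : Finset Q} {h t : ℕ} {A : Finset G} (hA : A.card = h + t)
    (hAP : ∀ a ∈ A, π a ∈ P) (hm : Misses P t (π (∑ a ∈ A, a))) : WZF h A := by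
  intro T hT hTc hTs
  have h1 : (A \ T).card = t := by
    have := card_sdiff_add_card_eq_card hT
    omega
  have h2 := sum_sdiff hT (f := fun a => a)
  rw [hTs, add_zero] at h2
  let e : Fin t ≃ (A \ T : Finset G) := (equivFinOfCardEq h1).symm
  apply hm (fun i => π (e i : G)) (fun i => hAP _ (mem_sdiff.1 (e i).2).1)
  have h3 : ∑ i, π (e i : G) = ∑ a ∈ A \ T, π a := by
    rw [← sum_coe_sort (A \ T) (fun a => π a)]
    exact e.sum_comp (fun a : (A \ T : Finset G) => π (a : G))
  rw [h3, ← map_sum, h2]

/-- **The general lower bound.** -/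
theorem lower_general {m κ t : ℕ} (hn : Fintype.card G = m * κ) {π : G →+ Q}
    (hπ : Function.Surjective π) {P : Finset Q} (hP : Spans P) {y : Q} (hy : Misses P t y)
    (hQ : Fintype.card Q < m * P.card) (ht : t ≤ Fintype.card Q)
    (hκ : 4 * Fintype.card Q ^ 3 ≤ κ) : ∃ A : Finset G, A.card = κ + t ∧ WZF κ A := by
  classical
  set q := Fintype.card Q with hq
  have hqpos : 0 < q := Fintype.card_pos
  have hPn : P.Nonempty := by
    rw [← card_pos]
    by_contra h
    have : P.card = 0 := by omega
    rw [this] at hQ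
    omega
  have hPq : P.card ≤ q := card_le_univ _
  -- size of the fibres
  set c := (fib π 0).card with hc
  have hcq : c * q = m * κ := by
    rw [hc, hq, card_fib hπ 0, hn]
  have hcp : ∀ p, (fib π p).card = c := by
    intro p
    have h1 := card_fib hπ p
    rw [← hq, hn, ← hcq] at h1
    exact Nat.eq_of_mul_eq_mul_right hqpos h1
  have hq2 : q ^ 2 = q * q := by ring
  have hq3 : q ^ 3 = q * q * q := by ring
  have hcap : κ + t + P.card * q ≤ P.card * c := by
    have h1 : (q + 1) * κ ≤ m * P.card * κ := Nat.mul_le_mul_right _ hQ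
    have h2 : m * P.card * κ = P.card * c * q := by
      calc m * P.card * κ = P.card * (m * κ) := by ring
        _ = P.card * (c * q) := by rw [hcq]
        _ = P.card * c * q := by ring
    rw [h2] at h1
    -- (q+1) κ ≤ (P.card * c) * q
    have h3 : (κ + t + P.card * q) * q ≤ (q + 1) * κ := by
      have e1 : t * q ≤ q * q := Nat.mul_le_mul_right _ ht
      have e2 : P.card * q * q ≤ q * q * q := by
        apply Nat.mul_le_mul_right
        exact Nat.mul_le_mul_right _ hPq
      have e3 : q * q ≤ q * q * q := Nat.le_mul_of_pos_right _ hqpos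
      have e4 : (κ + t + P.card * q) * q = κ * q + t * q + P.card * q * q := by ring
      have e5 : (q + 1) * κ = κ * q + κ := by ring
      rw [hq3] at hκ
      omega
    exact Nat.le_of_mul_le_mul_right (h3.trans h1) hqpos
  have hc2q : 2 * q ≤ c := by
    have h1 : P.card * (2 * q) ≤ P.card * c := by
      refine le_trans ?_ hcap
      have e1 : P.card * q ≤ q * q := Nat.mul_le_mul_right _ hPq
      have e2 : q * q ≤ q * q * q := Nat.le_mul_of_pos_right _ hqpos
      rw [hq3] at hκ
      have e3 : P.card * (2 * q) = P.card * q + P.card * q := by ring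
      omega
    exact Nat.le_of_mul_le_mul_left h1 (card_pos.2 hPn)
  -- mandatory and forbidden elements
  have hL : ∀ p : Q, ∃ L ⊆ fib π p, L.card = q := by
    intro p
    apply exists_subset_card_eq
    rw [hcp]
    omega
  choose L hLs hLc using hL
  have hU : ∀ p : Q, ∃ U ⊆ fib π p \ L p, U.card = q := by
    intro p
    apply exists_subset_card_eq
    have h1 := card_sdiff_add_card_eq_card (hLs p)
    rw [hLc, hcp] at h1
    omega
  choose U hUs hUc using hU
  have hdisjfib : ∀ p p' : Q, p ≠ p' → Disjoint (fib π p) (fib π p') := by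
    intro p p' hne
    rw [Finset.disjoint_left]
    intro x hx hx'
    rw [mem_fib] at hx hx'
    exact hne (hx.symm.trans hx')
  have hLU : P.biUnion L ⊆ P.biUnion (fun p => fib π p \ U p) := by
    intro x hx
    rw [mem_biUnion] at hx ⊢
    obtain ⟨p, hp, hxp⟩ := hx
    refine ⟨p, hp, ?_⟩
    rw [mem_sdiff]
    refine ⟨hLs p hxp, ?_⟩
    intro h
    have := hUs p h
    rw [mem_sdiff] at this
    exact this.2 hxp
  have hLcard : (P.biUnion L).card = P.card * q := by
    rw [card_biUnion]
    · rw [sum_congr rfl (fun p _ => hLc p), sum_const, smul_eq_mul]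
    · intro p _ p' _ hne
      exact (hdisjfib p p' hne).mono (hLs p) (hLs p')
  have hUcard : (P.biUnion (fun p => fib π p \ U p)).card = P.card * (c - q) := by
    rw [card_biUnion]
    · have h1 : ∀ p ∈ P, (fib π p \ U p).card = c - q := by
        intro p _
        have h2 := card_sdiff_add_card_eq_card ((hUs p).trans sdiff_subset)
        rw [hUc, hcp] at h2
        omega
      rw [sum_congr rfl h1, sum_const, smul_eq_mul]
    · intro p _ p' _ hne
      exact (hdisjfib p p' hne).mono sdiff_subset sdiff_subset
  obtain ⟨A₀, hLA, hAU, hAc⟩ := exists_subsuperset_card_eq hLU (n := κ + t) (by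
    rw [hLcard]
    have e1 : P.card * q ≤ q * q := Nat.mul_le_mul_right _ hPq
    have e2 : q * q ≤ q * q * q := Nat.le_mul_of_pos_right _ hqpos
    rw [hq3] at hκ
    omega) (by
    rw [hUcard, Nat.mul_sub]
    omega)
  have hA₀P : ∀ a ∈ A₀, π a ∈ P := by
    intro a ha
    have := hAU ha
    rw [mem_biUnion] at this
    obtain ⟨p, hp, hap⟩ := this
    rw [mem_sdiff, mem_fib] at hap
    rw [hap.1]
    exact hp
  obtain ⟨A, hAc', hAP, hAs⟩ := swap_lemma q A₀ (y - π (∑ a ∈ A₀, a)) hA₀P (by
    intro p hp
    rw [← hLc p]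
    apply card_le_card
    intro x hx
    rw [mem_inter]
    exact ⟨hLA (mem_biUnion.2 ⟨p, hp, hx⟩), hLs p hx⟩) (by
    intro p hp
    rw [← hUc p]
    apply card_le_card
    intro x hx
    rw [mem_sdiff]
    have hxf : x ∈ fib π p := (mem_sdiff.1 (hUs p hx)).1
    refine ⟨hxf, ?_⟩
    intro hxA
    have := hAU hxA
    rw [mem_biUnion] at this
    obtain ⟨p', _, hxp'⟩ := this
    rw [mem_sdiff] at hxp'
    have hpp : p = p' := by
      rw [mem_fib] at hxf
      have := mem_fib.1 hxp'.1
      rw [← hxf, this]
    rw [hpp] at hx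
    exact hxp'.2 hx) (by
    rw [hq, reach_eq_univ hPn hP]
    exact mem_univ _)
  refine ⟨A, by rw [hAc', hAc], ?_⟩
  apply WZF_of_misses (π := π) (P := P) (t := t) (by rw [hAc', hAc]) hAP
  rw [hAs]
  have : π (∑ a ∈ A₀, a) + (y - π (∑ a ∈ A₀, a)) = y := by abel
  rw [this]
  exact hy

end lower

end Pool.Agent.Lib.MPa7239a
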