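import Pool.Agent.Lib.MP_a7239a_co.Popular

/-!
# The main lemma: if `x` is not a sum of `t` distinct elements of a dense set `A`,
then there is a periodic obstruction of bounded index
-/

open scoped Pointwise
open Finset

set_option linter.unusedSectionVars false

namespace Pool.Agent.Lib.MPa7239a

universe u

variable {G : Type u} [AddCommGroup G] [Fintype G] [DecidableEq G]

theorem not_mem_Sq {g₂ : ℕ} (h2 : ∀ z : G, (univ.filter (fun b : G => b + b = z)).card ≤ g₂)
    {δ : ℝ} {s : ℕ} (hn : ((2 * (1 + s) + g₂ : ℕ) : ℝ) < δ * Fintype.card G)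
    {A : Finset G} {x : G} (hx : ¬ DS A (s + 3) x) : ∀ a ∈ A, x - a ∉ Sq δ A (s + 1) := by
  intro a ha hmem
  obtain ⟨T, hT, hTc, hTs⟩ := ds_of_mem_Sq h2 s {a} (x - a) (by
    rw [card_singleton]
    exact hn) hmem
  apply hx
  have hnotT : a ∉ T := by
    intro h
    have := hT h
    rw [mem_sdiff] at this
    exact this.2 (mem_singleton_self a)
  refine ⟨insert a T, ?_, ?_, ?_⟩
  · intro w hw
    rw [mem_insert] at hw
    rcases hw with rfl | hw
    · exact ha
    · exact (mem_sdiff.1 (hT hw)).1
  · rw [card_insert_of_notMem hnotT, hTc]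
  · rw [sum_insert hnotT, hTs]
    abel

theorem card_sdiff_pc (η : ℝ) (hη : 0 ≤ η) (K : AddSubgroup G) (A : Finset G) :
    ((A \ pc η K A).card : ℝ) * (hs K).card ≤ η * (Fintype.card G : ℝ) * Fintype.card G := by
  classical
  set B := A \ pc η K A with hB
  have h1 : ∑ a ∈ B, (cs K a).card = ∑ g : G, (B.filter (fun a => g ∈ cs K a)).card := by
    have e1 : ∀ a ∈ B, (cs K a).card = ∑ g : G, if g ∈ cs K a then 1 else 0 := by
      intro a _
      rw [sum_boole]
      simp
    rw [sum_congr rfl e1, sum_comm]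
    apply sum_congr rfl
    intro g _
    rw [sum_boole]
    simp
  have h2 : ∑ a ∈ B, (cs K a).card = B.card * (hs K).card := by
    rw [sum_congr rfl (fun a _ => card_cs K a), sum_const, smul_eq_mul]
  have h3 : ∀ g : G, ((B.filter (fun a => g ∈ cs K a)).card : ℝ) ≤ η * Fintype.card G := by
    intro g
    have hn : (0 : ℝ) ≤ Fintype.card G := Nat.cast_nonneg _
    by_cases hg : g ∈ pc η K A
    · have : B.filter (fun a => g ∈ cs K a) = ∅ := by
        rw [filter_eq_empty_iff]
        intro a ha hga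
        rw [hB, mem_sdiff] at ha
        apply ha.2
        have := per_pc η K A g hg (a - g) (by
          rw [mem_cs] at hga
          have : a - g = -(g - a) := by abel
          rw [this]
          exact K.neg_mem hga)
        simpa using this
      rw [this]
      simp only [card_empty, Nat.cast_zero]
      positivity
    · rw [mem_pc] at hg
      push Not at hg
      refine le_trans ?_ hg.le
      have : B.filter (fun a => g ∈ cs K a) ⊆ A ∩ cs K g := by
        intro a ha
        rw [mem_filter, hB, mem_sdiff, mem_cs] at ha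
        rw [mem_inter, mem_cs]
        refine ⟨ha.1.1, ?_⟩
        have : a - g = -(g - a) := by abel
        rw [this]
        exact K.neg_mem ha.2
      exact_mod_cast card_le_card this
  have h4 : ((∑ g : G, (B.filter (fun a => g ∈ cs K a)).card : ℕ) : ℝ)
      ≤ ∑ _g : G, η * (Fintype.card G : ℝ) := by
    push_cast
    exact sum_le_sum (fun g _ => h3 g)
  rw [← h1, h2, sum_const, nsmul_eq_mul, card_univ] at h4
  push_cast at h4
  linarith

theorem ms_list (F : Finset G) (k : ℕ) : F + (List.replicate k F).sum = ms F (k + 1) := by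
  induction k with
  | zero =>
    rw [ms_one]
    simp
  | succ k ih =>
    show F + (List.replicate (k + 1) F).sum = ms F (k + 1) + F
    rw [← ih, List.replicate_succ, List.sum_cons]
    abel

theorem ms_cl (M : AddSubgroup G) (F : Finset G) (k : ℕ) :
    ms (cl M F) (k + 1) = cl M (ms F (k + 1)) := by
  induction k with
  | zero => rw [ms_one, ms_one]
  | succ k ih =>
    show ms (cl M F) (k + 1) + cl M F = cl M (ms F (k + 1) + F)
    rw [ih, cl_add]

theorem ms_nonempty {F : Finset G} (hF : F.Nonempty) (k : ℕ) : (ms F k).Nonempty := by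
  induction k with
  | zero => exact ⟨0, mem_singleton_self 0⟩
  | succ k ih => exact ih.add hF

theorem card_add_le_of_notMem {M : AddSubgroup G} {S : Finset G} (hS : Per M S) {x : G}
    (hx : x ∉ S) : S.card + (hs M).card ≤ Fintype.card G := by
  have hd : Disjoint S (cs M x) := by
    rw [Finset.disjoint_left]
    intro y hy hyc
    apply hx
    rw [mem_cs] at hyc
    have := hS y hy (-(y - x)) (M.neg_mem hyc)
    have e : y + -(y - x) = x := by abel
    rwa [e] at this
  rw [← card_cs M x, ← card_union_of_disjoint hd]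
  exact card_le_univ _

/-- Kneser's theorem for a `t`-fold sum that misses a point. -/
theorem kneser_ms {F₀ : Finset G} (hF : F₀.Nonempty) {t : ℕ} (ht : 1 ≤ t) {x : G}
    (hx : x ∉ ms F₀ t) {K : AddSubgroup G} (hK : Per K F₀) :
    ∃ (M : AddSubgroup G) (F : Finset G), K ≤ M ∧ Per M F ∧ F₀ ⊆ F ∧ x ∉ ms F t ∧
      t * F.card + (hs M).card ≤ Fintype.card G + (t - 1) * (hs M).card := by
  obtain ⟨k, rfl⟩ : ∃ k, t = k + 1 := ⟨t - 1, by omega⟩
  refine ⟨st (ms F₀ (k + 1)), cl (st (ms F₀ (k + 1))) F₀, ?_, per_cl _ _, subset_cl _ _, ?_, ?_⟩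
  · apply le_st_of_per
    show Per K (ms F₀ k + F₀)
    exact hK.add_left _
  · rw [ms_cl, cl_eq_of_per (per_st _)]
    exact hx
  · have h1 := kneser_list (List.replicate k F₀) F₀ hF (by
      intro Y hY
      rw [List.eq_of_mem_replicate hY]
      exact hF)
    rw [ms_list, List.map_replicate, List.sum_replicate, List.length_replicate, smul_eq_mul] at h1
    have h2 := card_add_le_of_notMem (per_st _) hx
    have h3 : (k + 1) * (cl (st (ms F₀ (k + 1))) F₀).card
        = (cl (st (ms F₀ (k + 1))) F₀).card + k * (cl (st (ms F₀ (k + 1))) F₀).card := by ring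
    rw [h3, Nat.add_sub_cancel]
    omega

/-- **The main lemma.** -/
theorem main_lemma (T : ℕ) (hT : 3 ≤ T) (μ : ℝ) (hμ : 0 < μ) (hμ1 : μ ≤ 1) (c₁ : ℝ) (hc₁ : 0 < c₁)
    (g₂ : ℕ) : ∃ n₀ : ℕ, ∀ (G : Type u) [AddCommGroup G] [Fintype G] [DecidableEq G],
    n₀ ≤ Fintype.card G → (∀ z : G, (univ.filter (fun b : G => b + b = z)).card ≤ g₂) →
    ∀ (A : Finset G) (t : ℕ) (α : ℝ) (x : G), 3 ≤ t → t ≤ T → 1 + μ ≤ t * α →
    (α - μ / (4 * T)) * Fintype.card G ≤ A.card → ¬ DS A t x →
    ∃ (M : AddSubgroup G) (F : Finset G), Per M F ∧ F.Nonempty ∧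
      μ / (4 * T) * Fintype.card G ≤ (hs M).card ∧
      ((A \ F).card : ℝ) ≤ c₁ * Fintype.card G ∧ x ∉ ms F t ∧
      t * F.card + (hs M).card ≤ Fintype.card G + (t - 1) * (hs M).card := by
  have hTpos : (0 : ℝ) < T := by
    have : 0 < T := by omega
    exact_mod_cast this
  have hT3 : (3 : ℝ) ≤ T := by exact_mod_cast hT
  set θ : ℝ := μ / (4 * T) with hθ
  have hθpos : 0 < θ := by positivity
  have hθT : θ * T = μ / 4 := by
    rw [hθ]
    field_simp
  have hθle : θ ≤ 1 / 4 := by
    nlinarith
  set c : ℝ := min c₁ (1 / (2 * T)) with hc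
  have hcpos : 0 < c := lt_min hc₁ (by positivity)
  have hcle : c ≤ c₁ := min_le_left _ _
  have hcT : c * T ≤ 1 / 2 := by
    have h1 : c ≤ 1 / (2 * T) := min_le_right _ _
    have h2 : 1 / (2 * (T : ℝ)) * T = 1 / 2 := by field_simp
    nlinarith
  set η : ℝ := c * θ with hη
  have hηpos : 0 < η := by positivity
  have hc1' : c ≤ 1 := by nlinarith
  have hη1 : η ≤ 1 := by nlinarith
  have hpw : 0 < (η / 2) ^ T := by positivity
  set ε : ℝ := min ((η / 2) ^ T / 2) (μ / (12 * T)) with hε
  have hεpos : 0 < ε := lt_min (by positivity) (by positivity)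
  have hε1 : ε < (η / 2) ^ T := by
    have : ε ≤ (η / 2) ^ T / 2 := min_le_left _ _
    linarith
  have hε2 : 3 * ε * T ≤ μ / 4 := by
    have h1 : ε ≤ μ / (12 * T) := min_le_right _ _
    have h2 : 3 * (μ / (12 * T)) * T = μ / 4 := by field_simp; ring
    nlinarith
  obtain ⟨δ₀, hδ₀, Hpop⟩ := popular.{u} ε hεpos
  set δ : ℝ := min δ₀ ((η / 2) ^ T) with hδ
  have hδpos : 0 < δ := lt_min hδ₀ hpw
  have hδ1 : δ ≤ δ₀ := min_le_left _ _
  have hδ2 : δ ≤ (η / 2) ^ T := min_le_right _ _
  obtain ⟨n₀, hn₀⟩ := exists_nat_gt (((2 * (1 + T) + g₂ : ℕ) : ℝ) / δ)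
  refine ⟨n₀, ?_⟩
  intro G _ _ _ hcard h2 A t α x ht3 htT hα hA hx
  set n : ℝ := (Fintype.card G : ℝ) with hn
  have hnpos : 0 < n := by
    have : 0 < Fintype.card G := Fintype.card_pos
    rw [hn]
    exact_mod_cast this
  have hnbig : ((2 * (1 + T) + g₂ : ℕ) : ℝ) < δ * n := by
    rw [div_lt_iff₀ hδpos] at hn₀
    refine lt_of_lt_of_le hn₀ ?_
    rw [mul_comm]
    apply mul_le_mul_of_nonneg_left _ hδpos.le
    rw [hn]
    exact_mod_cast hcard
  have hnt : ((2 * (1 + t) + g₂ : ℕ) : ℝ) < δ * n := by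
    refine lt_of_le_of_lt ?_ hnbig
    exact_mod_cast (by omega : 2 * (1 + t) + g₂ ≤ 2 * (1 + T) + g₂)
  have hpow : (η / 2) ^ T ≤ (η / 2) ^ t :=
    pow_le_pow_of_le_one (by positivity) (by linarith) htT
  have htpos : (0 : ℝ) < t := by
    have : 0 < t := by omega
    exact_mod_cast this
  have htT' : (t : ℝ) ≤ T := by exact_mod_cast htT
  -- `A` is large
  have hAn : n / T ≤ A.card := by
    refine le_trans ?_ hA
    have h1 : 1 / T ≤ α - θ := by
      rw [div_le_iff₀ hTpos]
      have hα0 : 0 ≤ α := by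
        by_contra hneg
        push Not at hneg
        nlinarith
      nlinarith
    have h3 : n / T = 1 / T * n := by ring
    rw [h3]
    exact mul_le_mul_of_nonneg_right h1 hnpos.le
  -- the popular sums
  have hex : ∀ j : ℕ, ∃ X' Y' : Finset G, X' ⊆ Sq δ A j ∧ Y' ⊆ A ∧
      ((Sq δ A j \ X').card : ℝ) ≤ ε * n ∧ ((A \ Y').card : ℝ) ≤ ε * n ∧
      (((X' + Y') \ Sq δ A (j + 1)).card : ℝ) ≤ ε * n := by
    intro j
    exact Hpop δ hδpos.le hδ1 G (Sq δ A j) A
  choose X' Y' hX'1 hY'1 hX'2 hY'2 hXY using hex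
  by_cases hcase : ∃ j, j + 3 ≤ t ∧ θ * n ≤ (hs (st (X' j + Y' j))).card
  · obtain ⟨j, hj, hK⟩ := hcase
    set K := st (X' j + Y' j) with hKdef
    have hph := phase1 h2 hηpos hη1 hδpos hj (hδ2.trans hpow) (lt_of_lt_of_le hε1 hpow) hnt
      (hX'2 j) (hY'2 j) (hXY j) (per_st _) hx
    rw [← hKdef] at hph
    have hsd := card_sdiff_pc η hηpos.le K A
    rw [← hn] at hsd
    have hsd' : ((A \ pc η K A).card : ℝ) ≤ c * n := by
      have h1 : ((A \ pc η K A).card : ℝ) * (θ * n) ≤ (c * n) * (θ * n) := by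
        calc ((A \ pc η K A).card : ℝ) * (θ * n)
            ≤ ((A \ pc η K A).card : ℝ) * (hs K).card :=
              mul_le_mul_of_nonneg_left hK (Nat.cast_nonneg _)
          _ ≤ η * n * n := hsd
          _ = (c * n) * (θ * n) := by rw [hη]; ring
      exact le_of_mul_le_mul_right h1 (by positivity)
    have hne : (pc η K A).Nonempty := by
      by_contra hemp
      rw [not_nonempty_iff_eq_empty] at hemp
      rw [hemp, sdiff_empty] at hsd'
      have h1 : n / T ≤ c * n := hAn.trans hsd'
      rw [div_le_iff₀ hTpos] at h1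
      nlinarith
    obtain ⟨M, F, hKM, hMF, hF0, hxF, hcF⟩ := kneser_ms hne (by omega) hph (per_pc η K A)
    refine ⟨M, F, hMF, hne.mono hF0, ?_, ?_, hxF, hcF⟩
    · refine hK.trans ?_
      exact_mod_cast card_le_card (hs_mono hKM)
    · have h1 : ((A \ F).card : ℝ) ≤ ((A \ pc η K A).card : ℝ) := by
        exact_mod_cast card_le_card (sdiff_subset_sdiff Subset.rfl hF0)
      nlinarith
  · exfalso
    push Not at hcase
    -- growth of popular sumsets
    have hgrow : ∀ j : ℕ, j + 2 ≤ t →
        (j + 1) * (A.card : ℝ) - j * (θ + 3 * ε) * n ≤ (Sq δ A j).card := by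
      intro j
      induction j with
      | zero =>
        intro _
        simp [Sq]
      | succ j ih =>
        intro hj
        have h1 := ih (by omega)
        have h3 := hcase j (by omega)
        have hε3 : θ + 3 * ε ≤ 1 / T := by
          rw [le_div_iff₀ hTpos]
          nlinarith
        have hj0 : (0 : ℝ) ≤ j := Nat.cast_nonneg _
        have hAθ : (θ + 3 * ε) * n ≤ A.card := by
          refine le_trans ?_ hAn
          have : n / T = 1 / T * n := by ring
          rw [this]
          exact mul_le_mul_of_nonneg_right hε3 hnpos.le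
        have hSA : (A.card : ℝ) ≤ (Sq δ A j).card := by
          nlinarith
        have hAε : ε * n < A.card := by nlinarith
        have hXn : (X' j).Nonempty := by
          by_contra hemp
          rw [not_nonempty_iff_eq_empty] at hemp
          have := hX'2 j
          rw [hemp, sdiff_empty] at this
          linarith
        have hYn : (Y' j).Nonempty := by
          by_contra hemp
          rw [not_nonempty_iff_eq_empty] at hemp
          have := hY'2 j
          rw [hemp, sdiff_empty] at this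
          linarith
        have hk := kneser hXn hYn
        have hx1 := card_le_card (subset_cl (st (X' j + Y' j)) (X' j))
        have hy1 := card_le_card (subset_cl (st (X' j + Y' j)) (Y' j))
        have hk' : ((X' j).card : ℝ) + (Y' j).card
            ≤ (X' j + Y' j).card + (hs (st (X' j + Y' j))).card := by
          exact_mod_cast (by omega : (X' j).card + (Y' j).card
            ≤ (X' j + Y' j).card + (hs (st (X' j + Y' j))).card)
        have hx2 : ((Sq δ A j).card : ℝ) = (Sq δ A j \ X' j).card + (X' j).card := by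
          exact_mod_cast (card_sdiff_add_card_eq_card (hX'1 j)).symm
        have hy2 : (A.card : ℝ) = (A \ Y' j).card + (Y' j).card := by
          exact_mod_cast (card_sdiff_add_card_eq_card (hY'1 j)).symm
        have hs2 : ((X' j + Y' j).card : ℝ)
            ≤ ((X' j + Y' j) \ Sq δ A (j + 1)).card + (Sq δ A (j + 1)).card := by
          have h5 := card_sdiff_add_card_inter (X' j + Y' j) (Sq δ A (j + 1))
          have h6 := card_le_card (inter_subset_right (s₁ := X' j + Y' j) (s₂ := Sq δ A (j + 1)))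
          exact_mod_cast (by omega : (X' j + Y' j).card
            ≤ ((X' j + Y' j) \ Sq δ A (j + 1)).card + (Sq δ A (j + 1)).card)
        have hx3 := hX'2 j
        have hy3 := hY'2 j
        have hs3 := hXY j
        push_cast
        nlinarith
    obtain ⟨s, rfl⟩ : ∃ s, t = s + 3 := ⟨t - 3, by omega⟩
    have hg := hgrow (s + 1) (by omega)
    have hno := not_mem_Sq h2 (s := s) (δ := δ) (by
      refine lt_of_le_of_lt ?_ hnt
      exact_mod_cast (by omega : 2 * (1 + s) + g₂ ≤ 2 * (1 + (s + 3)) + g₂)) hx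
    have hdisj : Disjoint (Sq δ A (s + 1)) (A.image (fun a => x - a)) := by
      rw [Finset.disjoint_left]
      intro y hy hy'
      rw [mem_image] at hy'
      obtain ⟨a, ha, rfl⟩ := hy'
      exact hno a ha hy
    have hle := card_le_univ ((Sq δ A (s + 1)) ∪ (A.image (fun a => x - a)))
    rw [card_union_of_disjoint hdisj, card_image_of_injective _ sub_right_injective] at hle
    have hle' : ((Sq δ A (s + 1)).card : ℝ) + A.card ≤ n := by
      rw [hn]
      exact_mod_cast hle
    push_cast at hg hα htT'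
    have hfin : ((s : ℝ) + 3) * A.card ≤ n + (s + 1) * (θ + 3 * ε) * n := by
      have : ((s : ℝ) + 1 + 1) * (A.card : ℝ) - (s + 1) * (θ + 3 * ε) * n + A.card ≤ n := by
        linarith
      nlinarith
    have hfin2 : ((s : ℝ) + 3) * ((α - θ) * n) ≤ ((s : ℝ) + 3) * A.card :=
      mul_le_mul_of_nonneg_left hA (by positivity)
    have hfin3 : ((s : ℝ) + 3) * ((α - θ) * n) ≤ n + (s + 1) * (θ + 3 * ε) * n :=
      hfin2.trans hfin
    have hfin4 : (s + 3) * (α - θ) ≤ 1 + (s + 1) * (θ + 3 * ε) := by
      have : ((s : ℝ) + 3) * (α - θ) * n ≤ (1 + (s + 1) * (θ + 3 * ε)) * n := by linarith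
      exact le_of_mul_le_mul_right this hnpos
    have hs0 : (0 : ℝ) ≤ s := Nat.cast_nonneg _
    have e1 : (s + 3) * θ ≤ μ / 4 := by nlinarith
    have e2 : (s + 1) * (θ + 3 * ε) ≤ μ / 2 := by nlinarith
    nlinarith

end Pool.Agent.Lib.MPa7239a
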