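import Pool.Agent.Lib.MP_a7239a_co.Tools

/-!
# Nearly full cosets, and the improvement of the obstruction
-/

open scoped Pointwise
open Finset

set_option linter.unusedSectionVars false

namespace Pool.Agent.Lib.MPa7239a

universe u

variable {G : Type u} [AddCommGroup G] [Fintype G] [DecidableEq G]

/-- Two summands from nearly full cosets reach everything. -/
theorem pair_lemma {g₂ : ℕ} (h2 : ∀ z : G, (univ.filter (fun b : G => b + b = z)).card ≤ g₂)
    {M : AddSubgroup G} {A F : Finset G} (hF : Per M F) {d : ℕ} (hd : (F \ A).card ≤ d)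
    (E : Finset G) (hM : 2 * d + 2 * E.card + g₂ < (hs M).card) {y : G} (hy : y ∈ F + F) :
    ∃ T ⊆ A, T.card = 2 ∧ ∑ a ∈ T, a = y ∧ T ⊆ F ∧ ∀ a ∈ T, a ∉ E := by
  rw [Finset.mem_add] at hy
  obtain ⟨f₁, hf₁, f₂, hf₂, rfl⟩ := hy
  have hc1 : cs M f₁ ⊆ F := by
    intro u hu
    rw [mem_cs] at hu
    have := hF f₁ hf₁ _ hu
    simpa using this
  have hc2 : ∀ u ∈ cs M f₁, f₁ + f₂ - u ∈ F := by
    intro u hu
    rw [mem_cs] at hu
    have := hF f₂ hf₂ (-(u - f₁)) (M.neg_mem hu)
    have e : f₂ + -(u - f₁) = f₁ + f₂ - u := by abel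
    rwa [e] at this
  set y := f₁ + f₂ with hy
  -- bad elements of the coset
  set B₁ := (cs M f₁).filter (fun u => u ∉ A) with hB₁
  set B₂ := (cs M f₁).filter (fun u => y - u ∉ A) with hB₂
  set B₃ := (cs M f₁).filter (fun u => u ∈ E) with hB₃
  set B₄ := (cs M f₁).filter (fun u => y - u ∈ E) with hB₄
  set B₅ := (cs M f₁).filter (fun u => u + u = y) with hB₅
  have c1 : B₁.card ≤ d := by
    refine le_trans (card_le_card ?_) hd
    intro u hu
    rw [hB₁, mem_filter] at hu
    rw [mem_sdiff]
    exact ⟨hc1 hu.1, hu.2⟩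
  have c2 : B₂.card ≤ d := by
    refine le_trans (card_le_card_of_injOn (t := F \ A) (fun u => y - u) ?_ ?_) hd
    · intro u hu
      have hu' : u ∈ B₂ := hu
      rw [hB₂, mem_filter] at hu'
      have : y - u ∈ F \ A := by
        rw [mem_sdiff]
        exact ⟨hc2 u hu'.1, hu'.2⟩
      exact this
    · intro a _ b _ hab
      exact sub_right_injective hab
  have c3 : B₃.card ≤ E.card := by
    apply card_le_card
    intro u hu
    rw [hB₃, mem_filter] at hu
    exact hu.2
  have c4 : B₄.card ≤ E.card := by
    apply card_le_card_of_injOn (fun u => y - u)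
    · intro u hu
      have hu' : u ∈ B₄ := hu
      rw [hB₄, mem_filter] at hu'
      exact hu'.2
    · intro a _ b _ hab
      exact sub_right_injective hab
  have c5 : B₅.card ≤ g₂ := card_double_le h2 _ _
  have hU : (B₁ ∪ B₂ ∪ B₃ ∪ B₄ ∪ B₅).card ≤ 2 * d + 2 * E.card + g₂ := by
    have e1 := card_union_le (B₁ ∪ B₂ ∪ B₃ ∪ B₄) B₅
    have e2 := card_union_le (B₁ ∪ B₂ ∪ B₃) B₄
    have e3 := card_union_le (B₁ ∪ B₂) B₃
    have e4 := card_union_le B₁ B₂
    omega
  obtain ⟨u, hu, hub⟩ : ∃ u ∈ cs M f₁, u ∉ B₁ ∪ B₂ ∪ B₃ ∪ B₄ ∪ B₅ := by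
    apply exists_mem_notMem_of_card_lt_card
    rw [card_cs]
    omega
  simp only [mem_union, not_or] at hub
  obtain ⟨⟨⟨⟨n1, n2⟩, n3⟩, n4⟩, n5⟩ := hub
  have a1 : u ∈ A := by
    by_contra h
    exact n1 (mem_filter.2 ⟨hu, h⟩)
  have a2 : y - u ∈ A := by
    by_contra h
    exact n2 (mem_filter.2 ⟨hu, h⟩)
  have a3 : u ∉ E := fun h => n3 (mem_filter.2 ⟨hu, h⟩)
  have a4 : y - u ∉ E := fun h => n4 (mem_filter.2 ⟨hu, h⟩)
  have a5 : u ≠ y - u := by
    intro h
    apply n5
    rw [hB₅, mem_filter]
    refine ⟨hu, ?_⟩
    nth_rewrite 2 [h]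
    abel
  refine ⟨{u, y - u}, ?_, card_pair a5, ?_, ?_, ?_⟩
  · intro w hw
    rw [mem_insert, mem_singleton] at hw
    rcases hw with rfl | rfl
    · exact a1
    · exact a2
  · rw [sum_pair a5]
    abel
  · intro w hw
    rw [mem_insert, mem_singleton] at hw
    rcases hw with rfl | rfl
    · exact hc1 hu
    · exact hc2 u hu
  · intro w hw
    rw [mem_insert, mem_singleton] at hw
    rcases hw with rfl | rfl
    · exact a3
    · exact a4

theorem per_list_sum {M : AddSubgroup G} (L : List (Finset G)) {X : Finset G} (hX : Per M X) :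
    Per M (X + L.sum) := hX.add_right _

/-- Many summands: two from nearly full cosets, the others from `F` or from single elements. -/
theorem list_lemma {g₂ : ℕ} (h2 : ∀ z : G, (univ.filter (fun b : G => b + b = z)).card ≤ g₂)
    {M : AddSubgroup G} {A F : Finset G} (hF : Per M F) {d : ℕ} (hd : (F \ A).card ≤ d) :
    ∀ (l : List G), l.Nodup → (∀ b ∈ l, b ∈ A ∧ b ∉ F) → ∀ E : Finset G,
    2 * d + 2 * (E.card + l.length) + g₂ < (hs M).card →
    ∀ y ∈ (F + F) + (l.map (fun b => F ∪ cs M b)).sum, ∃ T ⊆ A, T.card = l.length + 2 ∧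
      ∑ a ∈ T, a = y ∧ (∀ a ∈ T, a ∈ F → a ∉ E) ∧ (∀ a ∈ T, a ∉ F → a ∈ l) := by
  intro l
  induction l with
  | nil =>
    intro _ _ E hM y hy
    rw [List.map_nil, List.sum_nil, add_zero] at hy
    obtain ⟨T, h1, h3, h4, h5, h6⟩ := pair_lemma h2 hF hd E (by simpa using hM) hy
    refine ⟨T, h1, by simpa using h3, h4, fun a ha _ => h6 a ha, fun a ha hn => absurd (h5 ha) hn⟩
  | cons b l ih =>
    intro hnd hl E hM y hy
    rw [List.nodup_cons] at hnd
    rw [List.length_cons] at hM
    have hlen : (b :: l).length = l.length + 1 := rfl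
    have hper : Per M ((F + F) + (l.map (fun b => F ∪ cs M b)).sum) :=
      (hF.add_right _).add_right _
    rw [List.map_cons, List.sum_cons] at hy
    have hy' : y ∈ (F ∪ cs M b) + ((F + F) + (l.map (fun b => F ∪ cs M b)).sum) := by
      rw [add_left_comm] at hy
      exact hy
    rw [Finset.mem_add] at hy'
    obtain ⟨v, hv, y', hy', rfl⟩ := hy'
    rw [mem_union] at hv
    rcases hv with hv | hv
    · -- choose an element of `A` in the coset of `v`
      obtain ⟨a, ha, hab⟩ : ∃ a ∈ cs M v, a ∉ (cs M v).filter (fun u => u ∉ A) ∪ E := by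
        apply exists_mem_notMem_of_card_lt_card
        rw [card_cs]
        have e1 := card_union_le ((cs M v).filter (fun u => u ∉ A)) E
        have e2 : ((cs M v).filter (fun u => u ∉ A)).card ≤ d := by
          refine le_trans (card_le_card ?_) hd
          intro u hu
          rw [mem_filter, mem_cs] at hu
          rw [mem_sdiff]
          refine ⟨?_, hu.2⟩
          have := hF v hv _ hu.1
          simpa using this
        omega
      rw [mem_union, not_or, mem_filter, not_and, not_not] at hab
      have haA : a ∈ A := hab.1 ha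
      rw [mem_cs] at ha
      have haF : a ∈ F := by
        have := hF v hv _ ha
        simpa using this
      have hy'' := hper y' hy' (v - a) (by
        have : v - a = -(a - v) := by abel
        rw [this]
        exact M.neg_mem ha)
      obtain ⟨T, h1, h3, h4, h5, h6⟩ := ih hnd.2 (fun c hc => hl c (List.mem_cons_of_mem _ hc))
        (insert a E) (by
          have := card_insert_le a E
          omega) _ hy''
      have haT : a ∉ T := by
        intro h
        exact h5 a h haF (mem_insert_self a E)
      refine ⟨insert a T, ?_, ?_, ?_, ?_, ?_⟩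
      · intro w hw
        rw [mem_insert] at hw
        rcases hw with rfl | hw
        · exact haA
        · exact h1 hw
      · rw [card_insert_of_notMem haT, h3, hlen]
      · rw [sum_insert haT, h4]
        abel
      · intro w hw hwF
        rw [mem_insert] at hw
        rcases hw with rfl | hw
        · exact hab.2
        · exact fun h => h5 w hw hwF (mem_insert_of_mem h)
      · intro w hw hwF
        rw [mem_insert] at hw
        rcases hw with rfl | hw
        · exact absurd haF hwF
        · exact List.mem_cons_of_mem _ (h6 w hw hwF)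
    · -- use `b` itself
      rw [mem_cs] at hv
      have hb := hl b List.mem_cons_self
      have hy'' := hper y' hy' (v - b) hv
      obtain ⟨T, h1, h3, h4, h5, h6⟩ := ih hnd.2 (fun c hc => hl c (List.mem_cons_of_mem _ hc))
        E (by omega) _ hy''
      have hbT : b ∉ T := by
        intro h
        exact hnd.1 (h6 b h hb.2)
      refine ⟨insert b T, ?_, ?_, ?_, ?_, ?_⟩
      · intro w hw
        rw [mem_insert] at hw
        rcases hw with rfl | hw
        · exact hb.1
        · exact h1 hw
      · rw [card_insert_of_notMem hbT, h3, hlen]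
      · rw [sum_insert hbT, h4]
        abel
      · intro w hw hwF
        rw [mem_insert] at hw
        rcases hw with rfl | hw
        · exact absurd hwF hb.2
        · exact h5 w hw hwF
      · intro w hw hwF
        rw [mem_insert] at hw
        rcases hw with rfl | hw
        · exact List.mem_cons_self
        · exact List.mem_cons_of_mem _ (h6 w hw hwF)

theorem ms_mono {F F' : Finset G} (h : F ⊆ F') : ∀ k, ms F k ⊆ ms F' k := by
  intro k
  induction k with
  | zero => exact Subset.rfl
  | succ k ih => exact add_subset_add ih h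

theorem ms_subset_list {F : Finset G} {M : AddSubgroup G} : ∀ (l : List G),
    ms F (l.length + 2) ⊆ (F + F) + (l.map (fun b => F ∪ cs M b)).sum := by
  intro l
  induction l with
  | nil =>
    rw [List.map_nil, List.sum_nil, add_zero]
    show ms F 1 + F ⊆ F + F
    rw [ms_one]
  | cons b l ih =>
    rw [List.map_cons, List.sum_cons, add_left_comm, add_comm (F ∪ cs M b)]
    show ms F (l.length + 2) + F ⊆ _
    exact add_subset_add ih subset_union_left

/-- **Phase 2**: if the obstruction `F` has exactly the critical size, it can be improved. -/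
theorem phase2 {g₂ : ℕ} (h2 : ∀ z : G, (univ.filter (fun b : G => b + b = z)).card ≤ g₂)
    {M : AddSubgroup G} {A F : Finset G} (hF : Per M F) {m κ t : ℕ} (hκ : 0 < κ)
    (hn : Fintype.card G = m * κ)
    (ht : m + 1 ≤ t) (ht2 : 2 ≤ t) (hFc : F.card = κ) (hAc : A.card = κ + t) {x : G}
    (hx : ¬ DS A t x)
    {d : ℕ} (hd : (F \ A).card ≤ d) (hM : 2 * d + 2 * t + g₂ < (hs M).card) :
    ∃ (N : AddSubgroup G) (F' : Finset G), Per N F' ∧ F ⊆ F' ∧ x ∉ ms F' t ∧
      t * F'.card + (hs N).card ≤ Fintype.card G + (t - 1) * (hs N).card ∧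
      κ < F'.card := by
  classical
  have hB : t - 2 ≤ (A \ F).card := by
    have h1 := card_sdiff_add_card_inter A F
    have h3 := card_le_card (inter_subset_right (s₁ := A) (s₂ := F))
    omega
  obtain ⟨B₀, hB₀, hB₀c⟩ := exists_subset_card_eq hB
  set l := B₀.toList with hl
  have hlen : l.length = t - 2 := by
    rw [hl, length_toList, hB₀c]
  have hlmem : ∀ b ∈ l, b ∈ A ∧ b ∉ F := by
    intro b hb
    rw [hl, mem_toList] at hb
    exact mem_sdiff.1 (hB₀ hb)
  have hFn : F.Nonempty := by
    rw [← card_pos, hFc]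
    exact hκ
  set L : List (Finset G) := F :: l.map (fun b => F ∪ cs M b) with hL
  have hsum : F + L.sum = (F + F) + (l.map (fun b => F ∪ cs M b)).sum := by
    rw [hL, List.sum_cons, ← add_assoc]
  have hxn : x ∉ F + L.sum := by
    intro hxin
    rw [hsum] at hxin
    obtain ⟨T, h1, h3, h4, -, -⟩ := list_lemma h2 hF hd l (nodup_toList _) hlmem ∅ (by
      rw [card_empty, hlen]
      omega) x hxin
    apply hx
    refine ⟨T, h1, ?_, h4⟩
    rw [h3, hlen]
    omega
  have hk := kneser_list L F hFn (by
    intro Y hY
    rw [hL, List.mem_cons] at hY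
    rcases hY with rfl | hY
    · exact hFn
    · rw [List.mem_map] at hY
      obtain ⟨b, _, rfl⟩ := hY
      exact hFn.mono subset_union_left)
  set N := st (F + L.sum) with hN
  have hLlen : L.length = t - 1 := by
    rw [hL, List.length_cons, List.length_map, hlen]
    omega
  have hNn := card_add_le_of_notMem (per_st (F + L.sum)) hxn
  rw [← hN] at hNn
  rw [hLlen] at hk
  have hMN : M ≤ N := le_st_of_per (hF.add_right _)
  have hmap : (L.map (fun Y => (cl N Y).card)).sum
      = (cl N F).card + (l.map (fun b => (cl N (F ∪ cs M b)).card)).sum := by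
    rw [hL, List.map_cons, List.sum_cons, List.map_map]
    rfl
  rw [hmap] at hk
  have hlb : ∀ (c : ℕ), (∀ b ∈ l, c ≤ (cl N (F ∪ cs M b)).card) →
      (t - 2) * c ≤ (l.map (fun b => (cl N (F ∪ cs M b)).card)).sum := by
    intro c hc
    have h1 := List.card_nsmul_le_sum (l.map (fun b => (cl N (F ∪ cs M b)).card)) c (by
      intro z hz
      rw [List.mem_map] at hz
      obtain ⟨b, hb, rfl⟩ := hz
      exact hc b hb)
    rw [List.length_map, hlen, smul_eq_mul] at h1
    exact h1
  obtain ⟨s, rfl⟩ : ∃ s, t = s + 2 := ⟨t - 2, by omega⟩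
  simp only [Nat.add_sub_cancel] at hlb
  have e1 : s + 2 - 1 = s + 1 := by omega
  rw [e1] at hk ⊢
  by_cases hcase : cl N F = F
  · -- `F` is periodic modulo `N`: contradiction
    exfalso
    have hFN : Per N F := by
      rw [← hcase]
      exact per_cl _ _
    have h1 := hlb (F.card + (hs N).card) (by
      intro b hb
      have hbF := (hlmem b hb).2
      have hdis : Disjoint F (cs N b) := by
        rw [Finset.disjoint_left]
        intro z hz hz'
        apply hbF
        rw [mem_cs] at hz'
        have := hFN z hz (-(z - b)) (N.neg_mem hz')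
        have e : z + -(z - b) = b := by abel
        rwa [e] at this
      rw [← card_cs N b, ← card_union_of_disjoint hdis]
      apply card_le_card
      intro z hz
      rw [mem_union, mem_cs] at hz
      rw [mem_cl]
      rcases hz with hz | hz
      · exact ⟨z, mem_union_left _ hz, by rw [sub_self]; exact N.zero_mem⟩
      · exact ⟨b, mem_union_right _ (self_mem_cs M b), hz⟩)
    rw [hcase] at hk
    have h3 : s * (F.card + (hs N).card) = s * F.card + s * (hs N).card := by ring
    have h4 : (s + 1) * (hs N).card = s * (hs N).card + (hs N).card := by ring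
    rw [h3] at h1
    rw [h4] at hk
    have h5 : (s + 2) * F.card ≤ Fintype.card G := by
      have : (s + 2) * F.card = s * F.card + 2 * F.card := by ring
      omega
    rw [hFc, hn] at h5
    have h6 : s + 2 ≤ m := Nat.le_of_mul_le_mul_right h5 hκ
    omega
  · refine ⟨N, cl N F, per_cl _ _, subset_cl _ _, ?_, ?_, ?_⟩
    · have h1 : ms (cl N F) (s + 2) = cl N (ms F (s + 2)) := ms_cl N F (s + 1)
      rw [h1]
      intro hxin
      apply hxn
      have h3 : ms F (s + 2) ⊆ F + L.sum := by
        have := ms_subset_list (F := F) (M := M) l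
        rw [hlen] at this
        simp only [Nat.add_sub_cancel] at this
        rw [hsum]
        exact this
      exact cl_subset_of_per (per_st _) h3 hxin
    · have h1 := hlb (cl N F).card (by
        intro b _
        exact card_le_card (cl_mono subset_union_left))
      have h4 : (s + 1) * (hs N).card = s * (hs N).card + (hs N).card := by ring
      have h5 : (s + 2) * (cl N F).card = s * (cl N F).card + 2 * (cl N F).card := by ring
      omega
    · rw [← hFc]
      apply card_lt_card
      refine ⟨subset_cl _ _, ?_⟩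
      intro hsub
      exact hcase (Subset.antisymm hsub (subset_cl _ _))

end Pool.Agent.Lib.MPa7239a
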