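import Pool.Agent.Lib.MP_a7239a_co.Tools

/-!
# A submodular functional on pairs of sets, and the stabilizer of a minimal pair
-/

open scoped Pointwise
open Finset

set_option linter.unusedSectionVars false

namespace Pool.Agent.Lib.MPa7239a

universe u

variable {G : Type u} [AddCommGroup G] [Fintype G] [DecidableEq G]

/-- pairs `(x, y) ∈ X × Y` with `y - x ∈ B` -/
def pr (B X Y : Finset G) : Finset (G × G) := (X ×ˢ Y).filter (fun p => p.2 - p.1 ∈ B)

theorem mem_pr {B X Y : Finset G} {p : G × G} :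
    p ∈ pr B X Y ↔ (p.1 ∈ X ∧ p.2 ∈ Y) ∧ p.2 - p.1 ∈ B := by
  rw [pr, mem_filter, mem_product]

theorem pr_submod (B X Y X' Y' : Finset G) :
    (pr B (X ∩ X') (Y ∪ Y')).card + (pr B (X ∪ X') (Y ∩ Y')).card
      ≤ (pr B X Y).card + (pr B X' Y').card := by
  rw [← card_union_add_card_inter (pr B (X ∩ X') (Y ∪ Y')),
    ← card_union_add_card_inter (pr B X Y)]
  apply Nat.add_le_add
  · apply card_le_card
    intro p hp
    simp only [mem_union, mem_pr, mem_inter] at hp ⊢
    tauto
  · apply card_le_card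
    intro p hp
    simp only [mem_union, mem_pr, mem_inter] at hp ⊢
    tauto

/-- translate -/
def tr (g : G) (X : Finset G) : Finset G := X.image (fun x => x + g)

theorem mem_tr {g : G} {X : Finset G} {x : G} : x ∈ tr g X ↔ x - g ∈ X := by
  rw [tr, mem_image]
  constructor
  · rintro ⟨y, hy, rfl⟩
    rwa [add_sub_cancel_right]
  · intro h
    exact ⟨x - g, h, sub_add_cancel x g⟩

theorem card_tr (g : G) (X : Finset G) : (tr g X).card = X.card :=
  card_image_of_injective _ (add_left_injective g)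

theorem card_pr_tr (g : G) (B X Y : Finset G) :
    (pr B (tr g X) (tr g Y)).card = (pr B X Y).card := by
  symm
  apply card_bij (fun p _ => (p.1 + g, p.2 + g))
  · intro p hp
    rw [mem_pr] at hp ⊢
    simp only [mem_tr, add_sub_cancel_right, add_sub_add_right_eq_sub]
    exact hp
  · intro p _ q _ h
    simp only [Prod.mk.injEq, add_left_inj] at h
    exact Prod.ext h.1 h.2
  · intro p hp
    rw [mem_pr] at hp
    refine ⟨(p.1 - g, p.2 - g), ?_, ?_⟩
    · rw [mem_pr]
      simp only [mem_tr] at hp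
      simp only [sub_sub_sub_cancel_right]
      exact hp
    · simp

theorem card_pr_neg (B X Y : Finset G) : (pr (-B) Y X).card = (pr B X Y).card := by
  apply card_bij (fun p _ => (p.2, p.1))
  · intro p hp
    rw [mem_pr] at hp ⊢
    refine ⟨⟨hp.1.2, hp.1.1⟩, ?_⟩
    have := hp.2
    rw [Finset.mem_neg'] at this
    simpa using this
  · intro p _ q _ h
    simp only [Prod.mk.injEq] at h
    exact Prod.ext h.2 h.1
  · intro p hp
    rw [mem_pr] at hp
    refine ⟨(p.2, p.1), ?_, rfl⟩
    rw [mem_pr]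
    refine ⟨⟨hp.1.2, hp.1.1⟩, ?_⟩
    rw [Finset.mem_neg']
    simpa using hp.2

theorem card_pr_eq (B X Y : Finset G) :
    (pr B X Y).card = ∑ z ∈ Y, (X.filter (fun x => z - x ∈ B)).card := by
  rw [pr, card_filter, sum_product_right]
  apply sum_congr rfl
  intro z _
  rw [card_filter]

/-- the functional -/
noncomputable def cc (τ : ℕ) (B X Y : Finset G) : ℝ :=
  (Fintype.card G : ℝ) - X.card - Y.card + (pr B X Y).card / (τ : ℝ)

theorem cc_submod {τ : ℕ} (B X Y X' Y' : Finset G) :
    cc τ B (X ∩ X') (Y ∪ Y') + cc τ B (X ∪ X') (Y ∩ Y') ≤ cc τ B X Y + cc τ B X' Y' := by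
  unfold cc
  have h1 := pr_submod B X Y X' Y'
  have h2 := card_union_add_card_inter X X'
  have h3 := card_union_add_card_inter Y Y'
  have h1' : ((pr B (X ∩ X') (Y ∪ Y')).card : ℝ) + (pr B (X ∪ X') (Y ∩ Y')).card
      ≤ (pr B X Y).card + (pr B X' Y').card := by exact_mod_cast h1
  have h2' : ((X ∪ X').card : ℝ) + (X ∩ X').card = X.card + X'.card := by exact_mod_cast h2
  have h3' : ((Y ∪ Y').card : ℝ) + (Y ∩ Y').card = Y.card + Y'.card := by exact_mod_cast h3
  have h4 : ((pr B (X ∩ X') (Y ∪ Y')).card : ℝ) / τ + (pr B (X ∪ X') (Y ∩ Y')).card / τ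
      ≤ (pr B X Y).card / τ + (pr B X' Y').card / τ := by
    rw [← add_div, ← add_div]
    exact div_le_div_of_nonneg_right h1' (Nat.cast_nonneg _)
  linarith

theorem cc_tr {τ : ℕ} (g : G) (B X Y : Finset G) : cc τ B (tr g X) (tr g Y) = cc τ B X Y := by
  unfold cc
  rw [card_pr_tr, card_tr, card_tr]

theorem cc_neg {τ : ℕ} (B X Y : Finset G) : cc τ (-B) Y X = cc τ B X Y := by
  unfold cc
  rw [card_pr_neg]
  ring

theorem cc_ge' {τ : ℕ} (B X Y : Finset G) :
    (Fintype.card G : ℝ) - X.card - Y.card ≤ cc τ B X Y := by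
  unfold cc
  have : (0 : ℝ) ≤ (pr B X Y).card / (τ : ℝ) := by positivity
  linarith

theorem sum_card_inter_tr (X : Finset G) : ∑ g : G, (X ∩ tr g X).card = X.card * X.card := by
  have h1 : ∀ g : G, (X ∩ tr g X).card = ∑ x ∈ X, if x - g ∈ X then 1 else 0 := by
    intro g
    rw [← card_filter]
    congr 1
    ext x
    rw [mem_inter, mem_filter, mem_tr]
  rw [sum_congr rfl (fun g _ => h1 g), sum_comm]
  have h2 : ∀ x ∈ X, (∑ g : G, if x - g ∈ X then 1 else 0) = X.card := by
    intro x _
    rw [← card_filter]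
    apply card_bij (fun g _ => x - g)
    · intro g hg
      exact (mem_filter.1 hg).2
    · intro g _ h _ hgh
      exact sub_right_injective hgh
    · intro y hy
      refine ⟨x - y, ?_, by abel⟩
      rw [mem_filter]
      refine ⟨mem_univ _, ?_⟩
      have : x - (x - y) = y := by abel
      rwa [this]
  rw [sum_congr rfl h2, sum_const, smul_eq_mul]

/-- a lower bound for the functional -/
theorem cc_ge {τ : ℕ} (hτ : 0 < τ) (B X Y : Finset G) (hX : τ ≤ X.card) :
    (B.card : ℝ) - X.card ≤ cc τ B X Y := by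
  obtain ⟨X', hX', hX'c⟩ := exists_subset_card_eq hX
  have h1 : (pr B X' univ).card = τ * B.card := by
    rw [← hX'c, ← card_product]
    apply card_bij (fun p _ => (p.1, p.2 - p.1))
    · intro p hp
      rw [mem_pr] at hp
      rw [mem_product]
      exact ⟨hp.1.1, hp.2⟩
    · intro p _ q _ h
      simp only [Prod.mk.injEq] at h
      obtain ⟨h3, h4⟩ := h
      rw [h3] at h4
      exact Prod.ext h3 (sub_left_injective h4)
    · intro p hp
      rw [mem_product] at hp
      refine ⟨(p.1, p.1 + p.2), ?_, ?_⟩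
      · rw [mem_pr]
        simp only [mem_univ, and_true, add_sub_cancel_left]
        exact hp
      · simp
  have h2 : pr B X' univ ⊆ pr B X Y ∪ X' ×ˢ Yᶜ := by
    intro p hp
    rw [mem_pr] at hp
    rw [mem_union, mem_pr, mem_product, mem_compl]
    by_cases hY : p.2 ∈ Y
    · exact Or.inl ⟨⟨hX' hp.1.1, hY⟩, hp.2⟩
    · exact Or.inr ⟨hp.1.1, hY⟩
  have h3 := (card_le_card h2).trans (card_union_le _ _)
  rw [h1, card_product, hX'c] at h3
  have h4 : (Yᶜ).card + Y.card = Fintype.card G := by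
    rw [card_compl]
    have := card_le_univ Y
    omega
  have h5 : (τ : ℝ) * B.card ≤ (pr B X Y).card + τ * (Yᶜ).card := by exact_mod_cast h3
  have h6 : ((Yᶜ).card : ℝ) + Y.card = Fintype.card G := by exact_mod_cast h4
  have hτ' : (0 : ℝ) < τ := by exact_mod_cast hτ
  unfold cc
  have h7 : (B.card : ℝ) - (Yᶜ).card ≤ (pr B X Y).card / (τ : ℝ) := by
    rw [le_div_iff₀ hτ']
    linarith
  linarith

end Pool.Agent.Lib.MPa7239a
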