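import Pool.Agent.Lib.MP_a7239a_co.PolyA

/-!
# The stabilizer of a minimal pair is large
-/

open scoped Pointwise
open Finset

set_option linter.unusedSectionVars false

namespace Pool.Agent.Lib.MPa7239a

universe u

variable {G : Type u} [AddCommGroup G] [Fintype G] [DecidableEq G]

theorem card_inter_tr_le (g : G) (X : Finset G) : (X ∩ tr g X).card ≤ X.card :=
  card_le_card inter_subset_left

theorem mem_st_of_card_inter {g : G} {X : Finset G} (h : X.card ≤ (X ∩ tr g X).card) :
    g ∈ st X := by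
  have h1 : X ∩ tr g X = X := eq_of_subset_of_card_le inter_subset_left h
  have h2 : -g ∈ st X := by
    apply mem_st_of_forall
    intro x hx
    rw [← h1, mem_inter, mem_tr] at hx
    rw [← sub_eq_add_neg]
    exact hx.2
  have := (st X).neg_mem h2
  rwa [neg_neg] at this

/-- few translates of a big set have a small intersection with it -/
theorem card_small_inter (Y : Finset G) {a : ℝ} :
    ((univ.filter (fun g : G => ((Y ∩ tr g Y).card : ℝ) < a)).card : ℝ) * (Y.card - a)
      ≤ Y.card * (Fintype.card G - Y.card) := by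
  classical
  have h1 : ∑ g : G, ((Y.card : ℝ) - (Y ∩ tr g Y).card) = Y.card * (Fintype.card G - Y.card) := by
    rw [sum_sub_distrib, sum_const, nsmul_eq_mul, card_univ]
    have := sum_card_inter_tr Y
    have h2 : (∑ g : G, ((Y ∩ tr g Y).card : ℝ)) = Y.card * Y.card := by exact_mod_cast this
    rw [h2]
    ring
  rw [← h1]
  have h3 : ∑ g ∈ univ.filter (fun g : G => ((Y ∩ tr g Y).card : ℝ) < a), ((Y.card : ℝ) - a)
      ≤ ∑ g ∈ univ.filter (fun g : G => ((Y ∩ tr g Y).card : ℝ) < a),
        ((Y.card : ℝ) - (Y ∩ tr g Y).card) := by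
    apply sum_le_sum
    intro g hg
    have := (mem_filter.1 hg).2
    linarith
  rw [sum_const, nsmul_eq_mul] at h3
  refine h3.trans ?_
  apply sum_le_sum_of_subset_of_nonneg (filter_subset _ _)
  intro g _ _
  have : ((Y ∩ tr g Y).card : ℝ) ≤ Y.card := by exact_mod_cast card_inter_tr_le g Y
  linarith

/-- numerical part of `rk_core` -/
theorem rk_arith {n X Y H a b g μ E : ℝ} (hn : 0 < n) (hXY : X ≤ Y) (hYn : Y ≤ n)
    (hE : E ≤ 13 / 50 * n) (ha0 : 0 ≤ a) (han : a ≤ 169 / 20000 * n)
    (hb : b = 2 * X - n + μ + a) (hab : a < b) (hμ : μ ≤ n / 3) (hg0 : 0 ≤ g)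
    (hg : g * (Y - a) ≤ Y * (n - Y)) (hs : X ^ 2 ≤ H * X + a * n + b * g) : E / 8 ≤ H := by
  by_contra hcon
  push Not at hcon
  have hX3 : n / 3 < X := by linarith
  have hX0 : 0 < X := by linarith
  have hY0 : 0 < Y := by linarith
  have hH : H < 13 / 400 * n := by linarith
  have h1 : g ≤ 103 / 100 * (n - Y) := by
    have h2 : 100 / 103 * Y ≤ Y - a := by nlinarith
    have h3 : g * (100 / 103 * Y) ≤ Y * (n - Y) :=
      (mul_le_mul_of_nonneg_left h2 hg0).trans hg
    have h4 : (100 / 103 * g) * Y ≤ (n - Y) * Y := by nlinarith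
    have h5 := le_of_mul_le_mul_right h4 hY0
    linarith
  have h2 : g ≤ 103 / 100 * (n - X) := by linarith
  have hb0 : 0 < b := by linarith
  have hnX : 0 ≤ n - X := by linarith
  have h3 : b * g ≤ b * (103 / 100 * (n - X)) := mul_le_mul_of_nonneg_left h2 hb0.le
  have h4 : b ≤ 2 * X - n + n / 3 + 169 / 20000 * n := by linarith
  have h5 : b * (103 / 100 * (n - X)) ≤ (2 * X - n + n / 3 + 169 / 20000 * n)
      * (103 / 100 * (n - X)) := mul_le_mul_of_nonneg_right h4 (by linarith)
  have h6 : H * X ≤ 13 / 400 * n * X := by nlinarith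
  have h7 : a * n ≤ 169 / 20000 * n * n := mul_le_mul_of_nonneg_right han hn.le
  nlinarith [sq_nonneg (X - 9 / 20 * n), sq_nonneg n, mul_pos hn hn]

theorem rk_core {τ : ℕ} (hτ : 0 < τ) {B X Y : Finset G} {a μ E : ℝ}
    (hE0 : 0 < E) (hEn : E ≤ 13 / 50 * Fintype.card G)
    (ha : a = E ^ 2 / (8 * Fintype.card G)) (hτa : (τ : ℝ) ≤ a)
    (hX : a ≤ X.card) (hXY : X.card ≤ Y.card) (hc : cc τ B X Y = μ)
    (hmin : ∀ X' Y' : Finset G, a ≤ X'.card → a ≤ Y'.card → μ ≤ cc τ B X' Y')
    (hmin2 : ∀ X' Y' : Finset G, a ≤ X'.card → a ≤ Y'.card → cc τ B X' Y' = μ →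
      X.card ≤ X'.card)
    (hμ1 : μ ≤ Fintype.card G / 3) (hμ2 : μ ≤ B.card - E) :
    E / 8 ≤ (hs (st X)).card ∧ E ≤ X.card := by
  classical
  set n : ℝ := (Fintype.card G : ℝ) with hn
  have hnpos : 0 < n := by
    have : 0 < Fintype.card G := Fintype.card_pos
    rw [hn]
    exact_mod_cast this
  have ha0 : 0 ≤ a := by
    rw [ha]
    positivity
  have han' : a * n = E ^ 2 / 8 := by
    rw [ha]
    field_simp
  have han : a ≤ 169 / 20000 * n := by
    rw [ha, div_le_iff₀ (by positivity)]
    nlinarith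
  have hτX : τ ≤ X.card := by
    have : (τ : ℝ) ≤ X.card := hτa.trans hX
    exact_mod_cast this
  have hXE : E ≤ X.card := by
    have := cc_ge hτ B X Y hτX
    rw [hc] at this
    linarith
  refine ⟨?_, hXE⟩
  have hXYR : (X.card : ℝ) ≤ Y.card := by exact_mod_cast hXY
  have hYn : (Y.card : ℝ) ≤ n := by
    rw [hn]
    exact_mod_cast card_le_univ Y
  have hXpos : (0 : ℝ) < X.card := by linarith
  set b : ℝ := 2 * X.card - n + μ + a with hb
  -- the dichotomy
  have hdich : ∀ g : G, g ∉ st X → ((X ∩ tr g X).card : ℝ) < a ∨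
      (((Y ∩ tr g Y).card : ℝ) < a ∧ ((X ∩ tr g X).card : ℝ) ≤ b) := by
    intro g hg
    by_cases h1 : ((X ∩ tr g X).card : ℝ) < a
    · exact Or.inl h1
    push Not at h1
    have hsub := cc_submod (τ := τ) B X Y (tr g X) (tr g Y)
    rw [cc_tr, hc] at hsub
    have hYU : a ≤ ((Y ∪ tr g Y).card : ℝ) := by
      have : ((Y.card : ℕ) : ℝ) ≤ ((Y ∪ tr g Y).card : ℝ) := by
        exact_mod_cast card_le_card subset_union_left
      linarith
    have hXU : a ≤ ((X ∪ tr g X).card : ℝ) := by
      have : ((X.card : ℕ) : ℝ) ≤ ((X ∪ tr g X).card : ℝ) := by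
        exact_mod_cast card_le_card subset_union_left
      linarith
    have hm1 := hmin _ _ h1 hYU
    by_cases h2 : ((Y ∩ tr g Y).card : ℝ) < a
    · right
      refine ⟨h2, ?_⟩
      have h3 := cc_ge' (τ := τ) B (X ∪ tr g X) (Y ∩ tr g Y)
      rw [← hn] at h3
      have h4 := card_union_add_card_inter X (tr g X)
      rw [card_tr] at h4
      have h4' : ((X ∪ tr g X).card : ℝ) + (X ∩ tr g X).card = X.card + X.card := by
        exact_mod_cast h4
      rw [hb]
      linarith
    · exfalso
      push Not at h2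
      have hm2 := hmin _ _ hXU h2
      have h5 := hmin2 _ _ h1 hYU (by linarith)
      exact hg (mem_st_of_card_inter h5)
  -- the sum of the intersections
  have hsum : (X.card : ℝ) ^ 2 = ∑ g : G, ((X ∩ tr g X).card : ℝ) := by
    have := sum_card_inter_tr X
    have h2 : (∑ g : G, ((X ∩ tr g X).card : ℝ)) = X.card * X.card := by exact_mod_cast this
    rw [h2, sq]
  have hle : ∀ g : G, ((X ∩ tr g X).card : ℝ) ≤ X.card := by
    intro g
    exact_mod_cast card_inter_tr_le g X
  have hsH : ∑ g : G, (if g ∈ hs (st X) then (X.card : ℝ) else 0)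
      = (hs (st X)).card * X.card := by
    rw [← sum_filter, filter_mem_eq_inter, univ_inter, sum_const, nsmul_eq_mul]
  have hsa : ∑ _g : G, a = a * n := by
    rw [sum_const, nsmul_eq_mul, card_univ, ← hn]
    ring
  rcases le_or_gt b a with hba | hba
  · have h1 : (X.card : ℝ) ^ 2 ≤ (hs (st X)).card * X.card + a * n := by
      rw [hsum, ← hsH, ← hsa, ← sum_add_distrib]
      apply sum_le_sum
      intro g _
      by_cases hg : g ∈ st X
      · rw [if_pos (mem_hs.2 hg)]
        linarith [hle g]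
      · rw [if_neg (fun h => hg (mem_hs.1 h))]
        rcases hdich g hg with h | h
        · linarith
        · linarith [h.2]
    rw [han'] at h1
    by_contra hcon
    push Not at hcon
    nlinarith
  · set G₁ := univ.filter (fun g : G => ((Y ∩ tr g Y).card : ℝ) < a) with hG₁
    have hsb : ∑ g : G, (if g ∈ G₁ then b else 0) = b * G₁.card := by
      rw [← sum_filter, filter_mem_eq_inter, univ_inter, sum_const, nsmul_eq_mul, mul_comm]
    have h1 : (X.card : ℝ) ^ 2 ≤ (hs (st X)).card * X.card + a * n + b * G₁.card := by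
      rw [hsum, ← hsH, ← hsa, ← hsb, ← sum_add_distrib, ← sum_add_distrib]
      apply sum_le_sum
      intro g _
      have hb0 : 0 ≤ b := ha0.trans hba.le
      by_cases hg : g ∈ st X
      · rw [if_pos (mem_hs.2 hg)]
        split_ifs
        · linarith [hle g]
        · linarith [hle g]
      · rw [if_neg (fun h => hg (mem_hs.1 h))]
        rcases hdich g hg with h | h
        · split_ifs
          · linarith
          · linarith
        · rw [if_pos (by rw [hG₁, mem_filter]; exact ⟨mem_univ _, h.1⟩)]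
          linarith [h.2]
    exact rk_arith hnpos hXYR hYn hEn ha0 han hb hba hμ1 (Nat.cast_nonneg _)
      (card_small_inter Y) h1

end Pool.Agent.Lib.MPa7239a
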