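import Pool.Agent.Lib.MP_a7239a_co.PolyB

/-!
# The periodic set given by a minimal pair
-/

open scoped Pointwise
open Finset

set_option linter.unusedSectionVars false

namespace Pool.Agent.Lib.MPa7239a

universe u

variable {G : Type u} [AddCommGroup G] [Fintype G] [DecidableEq G]

theorem rk_struct {τ : ℕ} (hτ : 0 < τ) {B X Y : Finset G} {μ E : ℝ}
    (hE0 : 0 < E) (hXE : E ≤ X.card) (hXY : X.card ≤ Y.card) (hc : cc τ B X Y = μ)
    (hμ1 : μ ≤ Fintype.card G / 3) (hμ2 : μ ≤ B.card - E) (hEτ : 2 * (τ : ℝ) ≤ E)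
    (hH : E / 8 ≤ (hs (st X)).card) (hB : 8 * τ * Fintype.card G / E < B.card) :
    ∃ (M : AddSubgroup G) (F : Finset G), Per M F ∧ F.Nonempty ∧ M ≠ ⊤ ∧
      E / 8 ≤ (hs M).card ∧ (F.card : ℝ) - (hs M).card ≤ μ ∧
      ((B \ F).card : ℝ) ≤ 8 * τ * Fintype.card G / E := by
  classical
  set n : ℝ := (Fintype.card G : ℝ) with hn
  have hnpos : 0 < n := by
    have : 0 < Fintype.card G := Fintype.card_pos
    rw [hn]
    exact_mod_cast this
  have hτ' : (0 : ℝ) < τ := by exact_mod_cast hτ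
  set H := st X with hHdef
  set η : ℝ := τ / n with hη
  have hηn : η * n = τ := by
    rw [hη]
    field_simp
  have hη0 : 0 ≤ η := by positivity
  set F₀ := pc η H B with hF₀
  have hsd : ((B \ F₀).card : ℝ) ≤ 8 * τ * n / E := by
    have h1 := card_sdiff_pc η hη0 H B
    rw [← hF₀, ← hn, hηn] at h1
    rw [le_div_iff₀ hE0]
    have h2 : ((B \ F₀).card : ℝ) * (E / 8) ≤ (B \ F₀).card * (hs H).card :=
      mul_le_mul_of_nonneg_left hH (Nat.cast_nonneg _)
    linarith
  have hF₀n : F₀.Nonempty := by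
    by_contra hemp
    rw [not_nonempty_iff_eq_empty] at hemp
    rw [hemp, sdiff_empty] at hsd
    linarith
  have hXn : X.Nonempty := by
    rw [← card_pos]
    have : (0 : ℝ) < X.card := by linarith
    exact_mod_cast this
  set Z := X + F₀ with hZ
  -- every element of `Z` has many representations
  have hr : ∀ z ∈ Z, τ ≤ (X.filter (fun x => z - x ∈ B)).card := by
    intro z hz
    rw [hZ, Finset.mem_add] at hz
    obtain ⟨x, hx, f, hf, rfl⟩ := hz
    rw [hF₀, mem_pc, ← hn, hηn] at hf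
    have hf' : τ ≤ (B ∩ cs H f).card := by exact_mod_cast hf
    refine hf'.trans ?_
    apply card_le_card_of_injOn (fun b => x + f - b)
    · intro b hb
      have hb' : b ∈ B ∩ cs H f := hb
      rw [mem_inter, mem_cs] at hb'
      have h1 : x + f - b ∈ X.filter (fun w => x + f - w ∈ B) := by
        rw [mem_filter]
        constructor
        · have h2 := per_st X x hx (-(b - f)) (H.neg_mem hb'.2)
          have : x + -(b - f) = x + f - b := by abel
          rwa [this] at h2
        · have : x + f - (x + f - b) = b := by abel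
          rw [this]
          exact hb'.1
      exact h1
    · intro a _ b _ hab
      exact sub_right_injective hab
  have hZc : (Z.card : ℝ) ≤ X.card + μ := by
    have h1 : τ * (Z ∩ Y).card ≤ (pr B X Y).card := by
      rw [card_pr_eq]
      have h2 : ∑ z ∈ Z ∩ Y, τ ≤ ∑ z ∈ Z ∩ Y, (X.filter (fun x => z - x ∈ B)).card :=
        sum_le_sum (fun z hz => hr z (mem_inter.1 hz).1)
      rw [sum_const, smul_eq_mul, mul_comm] at h2
      exact h2.trans (sum_le_sum_of_subset inter_subset_right)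
    have h3 : Z.card + Y.card ≤ (Z ∩ Y).card + Fintype.card G := by
      have := card_union_add_card_inter Z Y
      have h4 := card_le_univ (Z ∪ Y)
      omega
    have h3' : (Z.card : ℝ) + Y.card ≤ (Z ∩ Y).card + n := by
      rw [hn]
      exact_mod_cast h3
    have h1' : ((Z ∩ Y).card : ℝ) ≤ (pr B X Y).card / τ := by
      rw [le_div_iff₀ hτ', mul_comm]
      exact_mod_cast h1
    rw [← hc]
    unfold cc
    rw [← hn]
    linarith
  have hZn : Z.Nonempty := hXn.add hF₀n
  -- `Z` is not the whole group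
  have hZne : Z ≠ univ := by
    intro hZu
    have hZcard : (Z.card : ℝ) = n := by rw [hZu, card_univ, hn]
    have hXn' : (X.card : ℝ) ≤ n := by
      rw [hn]
      exact_mod_cast card_le_univ X
    have h1 : ∀ y : G, X.card + B.card ≤ (X.filter (fun x => y - x ∈ B)).card
        + Fintype.card G := by
      intro y
      have h2 : X.filter (fun x => y - x ∈ B) = X ∩ B.image (fun b => y - b) := by
        ext x
        rw [mem_filter, mem_inter, mem_image]
        constructor
        · rintro ⟨h3, h4⟩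
          exact ⟨h3, y - x, h4, by abel⟩
        · rintro ⟨h3, b, hb, rfl⟩
          refine ⟨h3, ?_⟩
          have : y - (y - b) = b := by abel
          rwa [this]
      rw [h2]
      have h3 := card_union_add_card_inter X (B.image (fun b => y - b))
      rw [card_image_of_injective _ sub_right_injective] at h3
      have h4 := card_le_univ (X ∪ B.image (fun b => y - b))
      omega
    have h2 : ∀ y : G, E ≤ ((X.filter (fun x => y - x ∈ B)).card : ℝ) := by
      intro y
      have h3 : (X.card : ℝ) + B.card ≤ (X.filter (fun x => y - x ∈ B)).card + n := by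
        rw [hn]
        exact_mod_cast h1 y
      linarith
    have h3 : (Y.card : ℝ) * E ≤ (pr B X Y).card := by
      rw [card_pr_eq]
      push_cast
      rw [← nsmul_eq_mul, ← sum_const]
      exact sum_le_sum (fun y _ => h2 y)
    have h4 : 2 * (Y.card : ℝ) ≤ (pr B X Y).card / τ := by
      rw [le_div_iff₀ hτ']
      have : (0 : ℝ) ≤ Y.card := Nat.cast_nonneg _
      nlinarith
    have h5 : cc τ B X Y = n - X.card - Y.card + (pr B X Y).card / τ := rfl
    have h6 : (X.card : ℝ) ≤ Y.card := by exact_mod_cast hXY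
    linarith
  set M := st Z with hM
  have hMtop : M ≠ ⊤ := by
    intro htop
    apply hZne
    rw [eq_univ_iff_forall]
    intro y
    obtain ⟨z, hz⟩ := hZn
    have h1 := per_st Z z hz (y - z) (by rw [← hM, htop]; trivial)
    simpa using h1
  have hHM : H ≤ M := le_st_of_per ((per_st X).add_right F₀)
  have hk := kneser hXn hF₀n
  rw [← hZ, ← hM] at hk
  refine ⟨M, cl M F₀, per_cl _ _, hF₀n.mono (subset_cl _ _), hMtop, ?_, ?_, ?_⟩
  · refine hH.trans ?_
    exact_mod_cast card_le_card (hs_mono hHM)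
  · have h1 := card_le_card (subset_cl M X)
    have h2 : (X.card : ℝ) + (cl M F₀).card ≤ Z.card + (hs M).card := by
      exact_mod_cast (by omega : X.card + (cl M F₀).card ≤ Z.card + (hs M).card)
    linarith
  · refine le_trans ?_ hsd
    exact_mod_cast card_le_card (sdiff_subset_sdiff Subset.rfl (subset_cl _ _))

theorem per_neg {M : AddSubgroup G} {F : Finset G} (hF : Per M F) : Per M (-F) := by
  intro x hx h hh
  rw [Finset.mem_neg'] at hx ⊢
  have := hF _ hx (-h) (M.neg_mem hh)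
  have e : -x + -h = -(x + h) := by abel
  rwa [e] at this

/-- **Robust Kneser lemma.** If some pair of sets that are not too small has few differences in
`B` and is too large, then `B` is almost contained in a periodic set that is not much larger. -/
theorem rk_main {τ : ℕ} (hτ : 0 < τ) {B X₀ Y₀ : Finset G} {μ₀ E : ℝ}
    (hE0 : 0 < E) (hEn : E ≤ 13 / 50 * Fintype.card G) (hτE : 8 * Fintype.card G * τ ≤ E ^ 2)
    (hX₀ : E ^ 2 / (8 * Fintype.card G) ≤ X₀.card) (hY₀ : E ^ 2 / (8 * Fintype.card G) ≤ Y₀.card)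
    (hc : cc τ B X₀ Y₀ ≤ μ₀) (hμ1 : μ₀ ≤ Fintype.card G / 3) (hμ2 : μ₀ ≤ B.card - E)
    (hEB : E < B.card) :
    ∃ (M : AddSubgroup G) (F : Finset G), Per M F ∧ F.Nonempty ∧ M ≠ ⊤ ∧
      E / 8 ≤ (hs M).card ∧ (F.card : ℝ) + E ≤ B.card + (hs M).card ∧
      ((B \ F).card : ℝ) ≤ 8 * τ * Fintype.card G / E := by
  classical
  set n : ℝ := (Fintype.card G : ℝ) with hn
  have hnpos : 0 < n := by
    have : 0 < Fintype.card G := Fintype.card_pos
    rw [hn]
    exact_mod_cast this
  have hτ' : (0 : ℝ) < τ := by exact_mod_cast hτ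
  set a : ℝ := E ^ 2 / (8 * n) with ha
  have hτa : (τ : ℝ) ≤ a := by
    rw [ha, le_div_iff₀ (by positivity)]
    linarith
  have hEτ : 2 * (τ : ℝ) ≤ E := by
    have h1 : 8 * n * τ ≤ 13 / 50 * n * E := by nlinarith
    have h2 : n * (8 * τ) ≤ n * (13 / 50 * E) := by linarith
    have h3 := le_of_mul_le_mul_left h2 hnpos
    linarith
  have hBbig : 8 * τ * n / E < B.card := by
    have h1 : 8 * τ * n / E ≤ E := by
      rw [div_le_iff₀ hE0]
      linarith
    linarith
  -- minimal pairs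
  set S : Finset (Finset G × Finset G) :=
    univ.filter (fun p => a ≤ (p.1.card : ℝ) ∧ a ≤ (p.2.card : ℝ)) with hS
  have hSmem : ∀ p : Finset G × Finset G, p ∈ S ↔ a ≤ (p.1.card : ℝ) ∧ a ≤ (p.2.card : ℝ) := by
    intro p
    rw [hS, mem_filter]
    simp
  obtain ⟨p₁, hp₁, hmin₁⟩ := exists_min_image S (fun p => cc τ B p.1 p.2)
    ⟨(X₀, Y₀), (hSmem _).2 ⟨hX₀, hY₀⟩⟩
  set μ := cc τ B p₁.1 p₁.2 with hμ
  have hμμ : μ ≤ μ₀ := (hmin₁ _ ((hSmem (X₀, Y₀)).2 ⟨hX₀, hY₀⟩)).trans hc
  obtain ⟨p₂, hp₂, hmin₂⟩ := exists_min_image (S.filter (fun p => cc τ B p.1 p.2 = μ))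
    (fun p => min p.1.card p.2.card) ⟨p₁, mem_filter.2 ⟨hp₁, rfl⟩⟩
  rw [mem_filter, hSmem] at hp₂
  obtain ⟨⟨hpX, hpY⟩, hpc⟩ := hp₂
  have hminall : ∀ X' Y' : Finset G, a ≤ X'.card → a ≤ Y'.card → μ ≤ cc τ B X' Y' := by
    intro X' Y' h1 h2
    exact hmin₁ _ ((hSmem (X', Y')).2 ⟨h1, h2⟩)
  have hmin2all : ∀ X' Y' : Finset G, a ≤ X'.card → a ≤ Y'.card → cc τ B X' Y' = μ →
      min p₂.1.card p₂.2.card ≤ min X'.card Y'.card := by
    intro X' Y' h1 h2 h3
    exact hmin₂ (X', Y') (mem_filter.2 ⟨(hSmem _).2 ⟨h1, h2⟩, h3⟩)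
  rcases le_total p₂.1.card p₂.2.card with hle | hle
  · obtain ⟨h1, h2⟩ := rk_core hτ hE0 hEn ha hτa hpX hle hpc hminall (by
      intro X' Y' h1 h2 h3
      have h4 := hmin2all X' Y' h1 h2 h3
      rw [min_eq_left hle] at h4
      exact h4.trans (min_le_left _ _)) (hμμ.trans hμ1) (hμμ.trans hμ2)
    obtain ⟨M, F, g1, g2, g3, g4, g5, g6⟩ := rk_struct hτ hE0 h2 hle hpc (hμμ.trans hμ1)
      (hμμ.trans hμ2) hEτ h1 hBbig
    exact ⟨M, F, g1, g2, g3, g4, by linarith, g6⟩
  · have hBn : ((-B).card : ℝ) = B.card := by rw [card_neg]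
    have hpc' : cc τ (-B) p₂.2 p₂.1 = μ := by rw [cc_neg, hpc]
    obtain ⟨h1, h2⟩ := rk_core (B := -B) hτ hE0 hEn ha hτa hpY hle hpc' (by
      intro X' Y' h1 h2
      rw [cc_neg]
      exact hminall Y' X' h2 h1) (by
      intro X' Y' h1 h2 h3
      rw [cc_neg] at h3
      have h4 := hmin2all Y' X' h2 h1 h3
      rw [min_eq_right hle] at h4
      exact h4.trans (min_le_right _ _)) (hμμ.trans hμ1) (by rw [hBn]; exact hμμ.trans hμ2)
    obtain ⟨M, F, g1, g2, g3, g4, g5, g6⟩ := rk_struct (B := -B) hτ hE0 h2 hle hpc'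
      (hμμ.trans hμ1) (by rw [hBn]; exact hμμ.trans hμ2) hEτ h1 (by rw [hBn]; exact hBbig)
    refine ⟨M, -F, per_neg g1, g2.neg, g3, g4, ?_, ?_⟩
    · rw [card_neg]
      linarith
    · refine le_trans ?_ g6
      have h3 : B \ -F = -((-B) \ F) := by
        ext x
        simp only [mem_sdiff, Finset.mem_neg', neg_neg]
      rw [h3, card_neg]

end Pool.Agent.Lib.MPa7239a
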