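import Pool.Agent.Lib.MP_a7239a_co.Pairs

/-!
# The upper bound
-/

open scoped Pointwise
open Finset

set_option linter.unusedSectionVars false

namespace Pool.Agent.Lib.MPa7239a

universe u

variable {G : Type u} [AddCommGroup G] [Fintype G] [DecidableEq G]

/-- arithmetic contradiction in the concentrated case -/
theorem arith1 {m q t w Q : ℕ} (hq : 2 ≤ q) (hqm : q ≤ m) (ht : m + 2 ≤ t + q)
    (hw : 2 ≤ w) (h1 : t * w + 2 ≤ Q + t) (h2 : q * Q ≤ m * w) : False := by
  obtain ⟨w', rfl⟩ : ∃ w', w = w' + 2 := ⟨w - 2, by omega⟩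
  zify at *
  have a1 : (q : ℤ) * (t * w' + t + 2) ≤ m * (w' + 2) := by nlinarith
  have a2 : 0 ≤ ((q : ℤ) - 2) * (m - q) := mul_nonneg (by linarith) (by linarith)
  have a3 : (q : ℤ) * t ≥ q * (m + 2 - q) := by nlinarith
  have a4 : (q : ℤ) * t ≥ m := by nlinarith
  have a5 : ((q : ℤ) * t - m) * w' ≥ 0 := mul_nonneg (by linarith) (by positivity)
  nlinarith

theorem card_eq_index_mul (K : AddSubgroup G) :
    Fintype.card G = Nat.card (G ⧸ K) * (hs K).card := by
  rw [← natCard_hs, ← Nat.card_eq_fintype_card (α := G)]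
  exact AddSubgroup.card_eq_card_quotient_mul_card_addSubgroup K

/-- if the obstruction consists of one coset, the group is not everything and the set is
concentrated -/
theorem one_coset {M : AddSubgroup G} {F : Finset G} (hF : Per M F) (hc : F.card = (hs M).card) :
    ∃ g, F = cs M g := by
  have hpos := card_hs_pos M
  obtain ⟨g, hg⟩ : F.Nonempty := card_pos.1 (by omega)
  refine ⟨g, ?_⟩
  symm
  apply eq_of_subset_of_card_le
  · intro u hu
    rw [mem_cs] at hu
    have := hF g hg _ hu
    simpa using this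
  · rw [hc, card_cs]

theorem hs_top_card : (hs (⊤ : AddSubgroup G)).card = Fintype.card G := by
  have : hs (⊤ : AddSubgroup G) = univ := by
    ext x
    simp
  rw [this, card_univ]

theorem eq_top_of_card {K : AddSubgroup G} (h : (hs K).card = Fintype.card G) : K = ⊤ := by
  have h1 : hs K = univ := by
    rw [← card_eq_iff_eq_univ]
    exact h
  rw [eq_top_iff]
  intro x _
  rw [← mem_hs, h1]
  exact mem_univ x

/-- **The non-concentrated case.** -/
theorem nonconc (m : ℕ) (hm : 3 ≤ m) (c₁ c₂ : ℝ) (hc₁ : 0 < c₁) (h12 : c₁ < c₂)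
    (hc₁' : 32 * (m : ℝ) ^ 3 * c₁ ≤ 1) :
    ∃ n₀ : ℕ, ∀ (G : Type u) [AddCommGroup G] [Fintype G] [DecidableEq G] (κ : ℕ),
    n₀ ≤ κ → Fintype.card G = m * κ →
    (∀ z : G, (univ.filter (fun b : G => b + b = z)).card ≤ 2 * m) →
    ∀ (A : Finset G) (t : ℕ) (x : G), m + 1 ≤ t → t ≤ 2 * m → A.card = κ + t → ¬ DS A t x →
    (∀ (K : AddSubgroup G) (g : G), (hs K).card < Fintype.card G →
      c₂ * Fintype.card G ≤ ((A \ cs K g).card : ℝ)) →
    ∃ (M : AddSubgroup G) (F : Finset G), Per M F ∧ F.Nonempty ∧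
      ((A \ F).card : ℝ) ≤ c₁ * Fintype.card G ∧ x ∉ ms F t ∧
      t * F.card + (hs M).card ≤ Fintype.card G + (t - 1) * (hs M).card ∧ κ < F.card := by
  have hmpos : (0 : ℝ) < m := by
    have : 0 < m := by omega
    exact_mod_cast this
  have hm3 : (3 : ℝ) ≤ m := by exact_mod_cast hm
  obtain ⟨n₁, H⟩ := main_lemma.{u} (2 * m) (by omega) (1 / m) (by positivity) (by
    rw [div_le_one hmpos]
    linarith) c₁ hc₁ (2 * m)
  obtain ⟨n₂, hn₂⟩ := exists_nat_gt (128 * (m : ℝ) ^ 2 * (6 * m + 1))
  refine ⟨max n₁ n₂, ?_⟩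
  intro G _ _ _ κ hκ hn h2 A t x ht1 ht2 hAc hx hnc
  have hκ1 : n₁ ≤ κ := (le_max_left _ _).trans hκ
  have hκ2 : n₂ ≤ κ := (le_max_right _ _).trans hκ
  have hκn : κ ≤ Fintype.card G := by
    rw [hn]
    exact Nat.le_mul_of_pos_left _ (by omega)
  set n : ℝ := (Fintype.card G : ℝ) with hnR
  have hnmk : n = m * κ := by
    rw [hnR, hn]
    push_cast
    ring
  have hnpos : 0 < n := by
    have : 0 < Fintype.card G := Fintype.card_pos
    rw [hnR]
    exact_mod_cast this
  have hκpos : 0 < κ := by
    by_contra h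
    have : κ = 0 := by omega
    rw [this] at hnmk
    simp at hnmk
    linarith
  -- the constant theta
  have hθ : (1 / (m : ℝ)) / (4 * ((2 * m : ℕ) : ℝ)) = 1 / (8 * (m : ℝ) ^ 2) := by
    push_cast
    field_simp
    ring
  have hfrac : (1 / (m : ℝ)) * n = κ := by
    rw [hnmk]
    field_simp
  obtain ⟨M, F, hMF, hFn, hMθ, hAF, hxF, hcF⟩ := H G (hκ1.trans hκn) h2 A t (1 / m) x (by omega) ht2
    (by
      rw [mul_one_div, ← sub_nonneg]
      have : (t : ℝ) / m - (1 + 1 / m) = (t - (m + 1)) / m := by
        field_simp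
      rw [this]
      apply div_nonneg _ hmpos.le
      have : ((m + 1 : ℕ) : ℝ) ≤ t := by exact_mod_cast ht1
      push_cast at this
      linarith)
    (by
      rw [sub_mul, ← hnR, hfrac, hAc]
      push_cast
      have : 0 ≤ (1 / (m : ℝ)) / (4 * (2 * m)) * n := by positivity
      have ht0 : (0 : ℝ) ≤ t := Nat.cast_nonneg _
      linarith) hx
  rw [hθ, ← hnR] at hMθ
  rw [← hnR] at hAF
  obtain ⟨w, hw⟩ := dvd_card_of_per hMF
  set Q := Nat.card (G ⧸ M) with hQ
  have hnQ : Fintype.card G = Q * (hs M).card := card_eq_index_mul M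
  have hMpos := card_hs_pos M
  -- the number of cosets
  have hw2 : 2 ≤ w := by
    by_contra hcon
    have hw1 : w = 0 ∨ w = 1 := by omega
    rcases hw1 with hw1 | hw1
    · rw [hw1, mul_zero, card_eq_zero] at hw
      rw [hw] at hFn
      exact not_nonempty_empty hFn
    · rw [hw1, mul_one] at hw
      obtain ⟨g, hg⟩ := one_coset hMF hw
      have hMn : (hs M).card < Fintype.card G := by
        by_contra h
        have hle : (hs M).card ≤ Fintype.card G := card_le_univ _
        have htop := eq_top_of_card (by omega : (hs M).card = Fintype.card G)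
        apply hxF
        have hne := ms_nonempty hFn t
        obtain ⟨y, hy⟩ := hne
        obtain ⟨s, rfl⟩ : ∃ s, t = s + 1 := ⟨t - 1, by omega⟩
        have hper : Per M (ms F (s + 1)) := by
          show Per M (ms F s + F)
          exact hMF.add_left _
        have := hper y hy (x - y) (by rw [htop]; trivial)
        simpa using this
      have h3 := hnc M g hMn
      rw [← hg] at h3
      nlinarith
  have hAFc : (A.card : ℝ) ≤ F.card + c₁ * n := by
    have h3 := card_sdiff_add_card_inter A F
    have h4 := card_le_card (inter_subset_right (s₁ := A) (s₂ := F))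
    have h5 : (A.card : ℝ) ≤ (A \ F).card + F.card := by
      exact_mod_cast (by omega : A.card ≤ (A \ F).card + F.card)
    linarith
  have hmw : Q ≤ m * w := by
    by_contra hcon
    push Not at hcon
    have h3 : (m * w + 1) * (hs M).card ≤ Q * (hs M).card := Nat.mul_le_mul_right _ hcon
    rw [← hnQ] at h3
    have h4 : (m * w + 1) * (hs M).card = m * F.card + (hs M).card := by
      rw [hw]
      ring
    rw [h4] at h3
    have h5 : (m : ℝ) * F.card + (hs M).card ≤ n := by
      rw [hnR]
      exact_mod_cast h3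
    have h6 : (κ : ℝ) ≤ A.card := by
      rw [hAc]
      push_cast
      have ht0 : (0 : ℝ) ≤ t := Nat.cast_nonneg _
      linarith
    have h7 : (m : ℝ) * κ ≤ m * (F.card + c₁ * n) :=
      mul_le_mul_of_nonneg_left (h6.trans hAFc) hmpos.le
    have h8 : ((hs M).card : ℝ) ≤ m * c₁ * n := by
      rw [← hnmk] at h7
      nlinarith
    have h9 : 1 / (8 * (m : ℝ) ^ 2) * n ≤ m * c₁ * n := hMθ.trans h8
    have h10 : 1 / (8 * (m : ℝ) ^ 2) ≤ m * c₁ := le_of_mul_le_mul_right h9 hnpos
    rw [div_le_iff₀ (by positivity)] at h10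
    have h11 : (m : ℝ) * c₁ * (8 * m ^ 2) = (32 * m ^ 3 * c₁) / 4 := by ring
    rw [h11] at h10
    linarith
  rcases lt_or_eq_of_le hmw with hlt | heq
  · refine ⟨M, F, hMF, hFn, hAF, hxF, hcF, ?_⟩
    have h3 : Fintype.card G < m * F.card := by
      rw [hnQ, hw]
      have : Q * (hs M).card < (m * w) * (hs M).card := Nat.mul_lt_mul_of_pos_right hlt hMpos
      calc Q * (hs M).card < (m * w) * (hs M).card := this
        _ = m * ((hs M).card * w) := by ring
    rw [hn] at h3
    exact Nat.lt_of_mul_lt_mul_left h3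
  · -- the critical case
    have hFκ : F.card = κ := by
      have h3 : m * F.card = m * κ := by
        rw [← hn, hnQ, hw, heq]
        ring
      exact Nat.eq_of_mul_eq_mul_left (by omega) h3
    set d := (F \ A).card with hd
    have hd' : (d : ℝ) ≤ c₁ * n := by
      have h3 := card_sdiff_add_card_inter A F
      have h4 := card_sdiff_add_card_inter F A
      rw [inter_comm] at h4
      have h5 : d ≤ (A \ F).card := by omega
      refine le_trans ?_ hAF
      exact_mod_cast h5
    have hbig : 2 * d + 2 * t + 2 * m < (hs M).card := by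
      have h3 : (2 : ℝ) * d + 2 * t + 2 * m < 1 / (8 * (m : ℝ) ^ 2) * n := by
        have e1 : c₁ * n ≤ 1 / (32 * (m : ℝ) ^ 3) * n := by
          apply mul_le_mul_of_nonneg_right _ hnpos.le
          rw [le_div_iff₀ (by positivity)]
          linarith
        have e2 : 1 / (32 * (m : ℝ) ^ 3) * n ≤ 1 / (32 * (m : ℝ) ^ 2) * n := by
          apply mul_le_mul_of_nonneg_right _ hnpos.le
          apply one_div_le_one_div_of_le (by positivity)
          nlinarith [pow_pos hmpos 2]
        have e3 : 1 / (32 * (m : ℝ) ^ 2) * n * 4 = 1 / (8 * (m : ℝ) ^ 2) * n := by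
          field_simp
          ring
        have e4 : (t : ℝ) ≤ 2 * m := by exact_mod_cast ht2
        have e5 : (6 * (m : ℝ) + 1) < 1 / (32 * (m : ℝ) ^ 2) * n := by
          rw [div_mul_eq_mul_div, lt_div_iff₀ (by positivity), one_mul]
          have e6 : (n₂ : ℝ) ≤ κ := by exact_mod_cast hκ2
          have e7 : (κ : ℝ) ≤ n := by
            rw [hnmk]
            have : (0 : ℝ) ≤ κ := Nat.cast_nonneg _
            nlinarith
          nlinarith [pow_pos hmpos 2]
        linarith
      have h4 : (2 : ℝ) * d + 2 * t + 2 * m < (hs M).card := lt_of_lt_of_le h3 hMθ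
      exact_mod_cast h4
    obtain ⟨N, F', hNF', hFF', hxF', hcF', hκF'⟩ := phase2 h2 hMF hκpos hn ht1 (by omega)
      hFκ hAc hx (le_refl d) hbig
    refine ⟨N, F', hNF', hFn.mono hFF', ?_, hxF', hcF', hκF'⟩
    refine le_trans ?_ hAF
    exact_mod_cast card_le_card (sdiff_subset_sdiff Subset.rfl hFF')


/-- Two distinct summands in a very dense set. -/
theorem two_dense {g₂ : ℕ} (h2 : ∀ z : G, (univ.filter (fun b : G => b + b = z)).card ≤ g₂)
    {A : Finset G} (hA : Fintype.card G + g₂ < 2 * A.card) (x : G) : DS A 2 x := by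
  classical
  have h1 : (A.image (fun a => x - a)).card = A.card := card_image_of_injective _ sub_right_injective
  have h3 := card_inter_add_card_union A (A.image (fun a => x - a))
  have h4 := card_le_univ (A ∪ A.image (fun a => x - a))
  have h5 := card_double_le h2 A x
  obtain ⟨u, hu, hu'⟩ : ∃ u ∈ A ∩ A.image (fun a => x - a), u ∉ A.filter (fun b => b + b = x) := by
    apply exists_mem_notMem_of_card_lt_card
    omega
  rw [mem_inter, mem_image] at hu
  obtain ⟨huA, a, ha, hau⟩ := hu
  have hxu : x - u = a := by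
    rw [← hau]
    abel
  have hne : u ≠ x - u := by
    intro h
    apply hu'
    rw [mem_filter]
    refine ⟨huA, ?_⟩
    nth_rewrite 2 [h]
    abel
  refine ⟨{u, x - u}, ?_, card_pair hne, ?_⟩
  · intro w hw
    rw [mem_insert, mem_singleton] at hw
    rcases hw with rfl | rfl
    · exact huA
    · rw [hxu]
      exact ha
  · rw [sum_pair hne]
    abel

theorem card_hs_map {K : AddSubgroup G} [DecidablePred (· ∈ K)] (M : AddSubgroup K) :
    (hs (M.map K.subtype)).card = (hs M).card := by
  classical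
  have : hs (M.map K.subtype) = (hs M).image (fun a : K => (a : G)) := by
    ext x
    rw [mem_hs, mem_image, AddSubgroup.mem_map]
    constructor
    · rintro ⟨y, hy, rfl⟩
      exact ⟨y, mem_hs.2 hy, rfl⟩
    · rintro ⟨y, hy, rfl⟩
      exact ⟨y, mem_hs.1 hy, rfl⟩
  rw [this, card_image_of_injective _ Subtype.val_injective]

/-- **The concentrated case.** -/
theorem conc (m : ℕ) (hm : 3 ≤ m) (c₁ c₂ : ℝ) (hc₁ : 0 < c₁) (h12 : c₁ < c₂)
    (hc₂' : 32 * (m : ℝ) ^ 5 * c₂ ≤ 1) :
    ∃ n₀ : ℕ, ∀ (G : Type u) [AddCommGroup G] [Fintype G] [DecidableEq G] (κ : ℕ),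
    n₀ ≤ κ → Fintype.card G = m * κ →
    (∀ z : G, (univ.filter (fun b : G => b + b = z)).card ≤ 2 * m) →
    ∀ (A : Finset G) (t : ℕ), m + 1 ≤ t → t ≤ 2 * m → A.card = κ + t →
    ¬ DS A t (∑ a ∈ A, a) →
    ∀ (K : AddSubgroup G) (q : ℕ), 2 ≤ q → q ≤ m → q * (hs K).card = Fintype.card G →
    ((A \ hs K).card : ℝ) ≤ c₂ * (q - 1) * Fintype.card G →
    (∀ (K' : AddSubgroup G) (g : G), (hs K').card < (hs K).card →
      c₂ * q * Fintype.card G ≤ ((A \ cs K' g).card : ℝ)) → False := by
  have hmpos : (0 : ℝ) < m := by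
    have : 0 < m := by omega
    exact_mod_cast this
  have hm3 : (3 : ℝ) ≤ m := by exact_mod_cast hm
  obtain ⟨n₁, H⟩ := main_lemma.{u} (2 * m) (by omega) (1 / m) (by positivity) (by
    rw [div_le_one hmpos]
    linarith) c₁ hc₁ (2 * m)
  refine ⟨max n₁ (8 * m), ?_⟩
  intro G _ _ _ κ hκ hn h2 A t ht1 ht2 hAc hx K q hq2 hqm hqK hAK hnc
  classical
  have hκ1 : n₁ ≤ κ := (le_max_left _ _).trans hκ
  have hκ2 : 8 * m ≤ κ := (le_max_right _ _).trans hκ
  set n : ℝ := (Fintype.card G : ℝ) with hnR
  have hnmk : n = m * κ := by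
    rw [hnR, hn]
    push_cast
    ring
  have hκpos : (0 : ℝ) < κ := by
    have : 0 < κ := by omega
    exact_mod_cast this
  have hnpos : 0 < n := by
    rw [hnmk]
    positivity
  have hqpos : (0 : ℝ) < q := by
    have : 0 < q := by omega
    exact_mod_cast this
  have hqm' : (q : ℝ) ≤ m := by exact_mod_cast hqm
  have hq2' : (2 : ℝ) ≤ q := by exact_mod_cast hq2
  have hc₂pos : 0 < c₂ := hc₁.trans h12
  -- the group `K`
  have hKcard : Fintype.card K = (hs K).card := by
    rw [← natCard_hs, Nat.card_eq_fintype_card]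
  have hKR : (q : ℝ) * (Fintype.card K : ℝ) = n := by
    rw [hKcard, hnR]
    exact_mod_cast hqK
  have hκK : κ ≤ Fintype.card K := by
    rw [hKcard]
    have h3 : q * κ ≤ q * (hs K).card := by
      rw [hqK, hn]
      exact Nat.mul_le_mul_right _ hqm
    exact Nat.le_of_mul_le_mul_left h3 (by omega)
  -- the small set `S`
  obtain ⟨S, hSB, hSq, hSsum⟩ := exists_small_subset hqK (A \ hs K)
  have hSt : S.card ≤ t := by omega
  set t₀ := t - S.card with ht₀
  set A₀ : Finset K := A.subtype (· ∈ K) with hA₀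
  have hA₀c : A₀.card = (A ∩ hs K).card := by
    rw [hA₀, card_subtype]
    congr 1
    ext x
    simp
  have hAsplit : (A ∩ hs K).card + (A \ hs K).card = A.card := by
    have := card_sdiff_add_card_inter A (hs K)
    omega
  have hsumA : ∑ a ∈ A, a = ∑ a ∈ A ∩ hs K, a + ∑ a ∈ A \ hs K, a := by
    rw [← sum_inter_add_sum_sdiff A (hs K)]
  set x := ∑ a ∈ A, a with hxdef
  have hx0K : x - ∑ s ∈ S, s ∈ K := by
    have h3 : x - ∑ s ∈ S, s = ∑ a ∈ A ∩ hs K, a + (∑ a ∈ A \ hs K, a - ∑ s ∈ S, s) := by
      rw [hsumA]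
      abel
    rw [h3]
    apply K.add_mem _ hSsum
    apply K.sum_mem
    intro a ha
    rw [mem_inter, mem_hs] at ha
    exact ha.2
  set x₀ : K := ⟨x - ∑ s ∈ S, s, hx0K⟩ with hx₀
  have hx₀n : ¬ DS A₀ t₀ x₀ := by
    rintro ⟨T, hT, hTc, hTs⟩
    apply hx
    set T' : Finset G := T.image (fun a : K => (a : G)) with hT'
    have hT'A : ∀ a ∈ T', a ∈ A ∧ a ∈ K := by
      intro a ha
      rw [hT', mem_image] at ha
      obtain ⟨b, hb, rfl⟩ := ha
      have := hT hb
      rw [hA₀, mem_subtype] at this
      exact ⟨this, b.2⟩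
    have hdisj : Disjoint T' S := by
      rw [Finset.disjoint_left]
      intro a ha ha'
      have h3 := hSB ha'
      rw [mem_sdiff, mem_hs] at h3
      exact h3.2 (hT'A a ha).2
    refine ⟨T' ∪ S, ?_, ?_, ?_⟩
    · apply union_subset
      · intro a ha
        exact (hT'A a ha).1
      · exact hSB.trans sdiff_subset
    · rw [card_union_of_disjoint hdisj, hT', card_image_of_injective _ Subtype.val_injective, hTc]
      omega
    · rw [sum_union hdisj, hT', sum_image (fun a _ b _ hab => Subtype.val_injective hab)]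
      have h3 : ∑ a ∈ T, (a : G) = ((∑ a ∈ T, a : K) : G) := by
        rw [AddSubgroup.val_finsetSum]
      rw [h3, hTs, hx₀]
      simp
  have h2K : ∀ z : K, (univ.filter (fun b : K => b + b = z)).card ≤ 2 * m := by
    intro z
    refine le_trans ?_ (h2 (z : G))
    apply card_le_card_of_injOn (fun b : K => (b : G))
    · intro b hb
      have hb' : b ∈ univ.filter (fun b : K => b + b = z) := hb
      rw [mem_filter] at hb'
      have : (b : G) ∈ univ.filter (fun b : G => b + b = (z : G)) := by
        rw [mem_filter]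
        refine ⟨mem_univ _, ?_⟩
        rw [← hb'.2]
        rfl
      exact this
    · intro a _ b _ hab
      exact Subtype.val_injective hab
  -- lower bound for the size of `A₀`
  have hA₀low : (κ : ℝ) + t - c₂ * (q - 1) * n ≤ A₀.card := by
    have h3 : (A₀.card : ℝ) + (A \ hs K).card = κ + t := by
      rw [hA₀c]
      exact_mod_cast (by omega : (A ∩ hs K).card + (A \ hs K).card = κ + t)
    linarith
  have ht0R : (0 : ℝ) ≤ t := Nat.cast_nonneg _
  have hc2m : c₂ * (m : ℝ) ^ 5 ≤ 1 / 32 := by linarith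
  have hmpow : (0 : ℝ) < (m : ℝ) ^ 2 := by positivity
  have ht₀q : m + 2 ≤ t₀ + q := by omega
  rcases Nat.lt_or_ge t₀ 3 with ht3 | ht3
  · -- `t₀ = 2`, `q = m`
    have ht₀2 : t₀ = 2 := by omega
    have hqm2 : q = m := by omega
    rw [ht₀2] at hx₀n
    apply hx₀n
    apply two_dense h2K
    have hKκ : Fintype.card K = κ := by
      rw [hKcard]
      rw [hqm2, hn] at hqK
      exact Nat.eq_of_mul_eq_mul_left (by omega) hqK
    rw [hKκ]
    have h3 : c₂ * (q - 1) * n ≤ κ / 8 := by
      rw [hnmk]
      have e1 : c₂ * (q - 1) * (m * κ) = (c₂ * (q - 1) * m) * κ := by ring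
      rw [e1]
      have e2 : c₂ * (q - 1) * m ≤ 1 / 8 := by
        have e3 : c₂ * (q - 1) * m ≤ c₂ * m ^ 2 := by
          have : c₂ * (q - 1) * m ≤ c₂ * m * m := by
            apply mul_le_mul_of_nonneg_right _ hmpos.le
            apply mul_le_mul_of_nonneg_left _ hc₂pos.le
            linarith
          calc c₂ * (q - 1) * m ≤ c₂ * m * m := this
            _ = c₂ * m ^ 2 := by ring
        have e4 : c₂ * (m : ℝ) ^ 2 ≤ c₂ * m ^ 5 := by
          apply mul_le_mul_of_nonneg_left _ hc₂pos.le
          apply pow_le_pow_right₀ (by linarith) (by norm_num)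
        linarith
      calc (c₂ * (q - 1) * m) * κ ≤ 1 / 8 * κ := mul_le_mul_of_nonneg_right e2 hκpos.le
        _ = κ / 8 := by ring
    have h4 : (κ : ℝ) + 2 * m < 2 * A₀.card := by
      have e1 : (8 : ℝ) * m ≤ κ := by exact_mod_cast hκ2
      linarith
    exact_mod_cast h4
  · have hθ : (1 / (m : ℝ)) / (4 * ((2 * m : ℕ) : ℝ)) = 1 / (8 * (m : ℝ) ^ 2) := by
      push_cast
      field_simp
      ring
    obtain ⟨M, F, hMF, hFn, hMθ, hAF, hxF, hcF⟩ := H K (hκ1.trans hκK) h2K A₀ t₀ (q / m) x₀ ht3
      (by omega) (by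
        have e1 : (1 : ℝ) + 1 / m = (m + 1) / m := by field_simp
        rw [e1, ← mul_div_assoc]
        apply div_le_div_of_nonneg_right _ hmpos.le
        have e2 : m + 1 ≤ t₀ * q := by
          have a1 : (q - 2) * (m - q) + 2 * m ≤ t₀ * q := by
            zify [hq2, hqm]
            have : ((m : ℤ) + 2 - q) * q ≤ t₀ * q := by
              apply mul_le_mul_of_nonneg_right _ (by positivity)
              zify at ht₀q
              linarith
            nlinarith
          omega
        exact_mod_cast e2) (by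
        rw [hθ]
        have e1 : (q / m - 1 / (8 * (m : ℝ) ^ 2)) * (Fintype.card K : ℝ)
            = κ - 1 / (8 * (m : ℝ) ^ 2) * (Fintype.card K : ℝ) := by
          have : (q / m : ℝ) * (Fintype.card K : ℝ) = κ := by
            rw [div_mul_eq_mul_div, hKR, hnmk]
            field_simp
          rw [sub_mul, this]
        rw [e1]
        have e2 : c₂ * (q - 1) * n ≤ 1 / (8 * (m : ℝ) ^ 2) * (Fintype.card K : ℝ) := by
          rw [← hKR]
          have e3 : c₂ * (q - 1) * (q * (Fintype.card K : ℝ))
              = (c₂ * (q - 1) * q) * (Fintype.card K : ℝ) := by ring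
          rw [e3]
          apply mul_le_mul_of_nonneg_right _ (Nat.cast_nonneg _)
          rw [le_div_iff₀ (by positivity)]
          have e4 : c₂ * (q - 1) * q * (8 * m ^ 2) ≤ c₂ * (8 * m ^ 4) := by
            have e5 : ((q : ℝ) - 1) * q ≤ m ^ 2 := by nlinarith
            have e6 : 0 ≤ c₂ * (8 * (m : ℝ) ^ 2) := by positivity
            calc c₂ * (q - 1) * q * (8 * m ^ 2) = (c₂ * (8 * m ^ 2)) * ((q - 1) * q) := by ring
              _ ≤ (c₂ * (8 * m ^ 2)) * m ^ 2 := mul_le_mul_of_nonneg_left e5 e6
              _ = c₂ * (8 * m ^ 4) := by ring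
          have e7 : c₂ * (m : ℝ) ^ 4 * 3 ≤ c₂ * m ^ 5 := by
            have : c₂ * (m : ℝ) ^ 5 = c₂ * m ^ 4 * m := by ring
            rw [this]
            apply mul_le_mul_of_nonneg_left hm3 (by positivity)
          linarith
        linarith) hx₀n
    rw [hθ] at hMθ
    obtain ⟨w, hw⟩ := dvd_card_of_per hMF
    set Q := Nat.card (K ⧸ M) with hQ
    have hnQ : Fintype.card K = Q * (hs M).card := card_eq_index_mul M
    have hMpos := card_hs_pos M
    -- at least two cosets
    have hw2 : 2 ≤ w := by
      by_contra hcon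
      have hw1 : w = 0 ∨ w = 1 := by omega
      rcases hw1 with hw1 | hw1
      · rw [hw1, mul_zero, card_eq_zero] at hw
        rw [hw] at hFn
        exact not_nonempty_empty hFn
      · rw [hw1, mul_one] at hw
        obtain ⟨g, hg⟩ := one_coset hMF hw
        have hMn : (hs M).card < Fintype.card K := by
          by_contra h
          have hle : (hs M).card ≤ Fintype.card K := card_le_univ _
          have htop := eq_top_of_card (by omega : (hs M).card = Fintype.card K)
          apply hxF
          obtain ⟨y, hy⟩ := ms_nonempty hFn t₀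
          obtain ⟨s, hs'⟩ : ∃ s, t₀ = s + 1 := ⟨t₀ - 1, by omega⟩
          rw [hs'] at hy ⊢
          have hper : Per M (ms F (s + 1)) := by
            show Per M (ms F s + F)
            exact hMF.add_left _
          have := hper y hy (x₀ - y) (by rw [htop]; trivial)
          simpa using this
        have h3 := hnc (M.map K.subtype) (g : G) (by
          rw [card_hs_map, ← hKcard]
          exact hMn)
        have h4 : A \ cs (M.map K.subtype) (g : G) ⊆ (A \ hs K) ∪ (A₀ \ F).image (fun a : K => (a : G)) := by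
          intro a ha
          rw [mem_sdiff] at ha
          rw [mem_union]
          by_cases haK : a ∈ K
          · right
            rw [mem_image]
            refine ⟨⟨a, haK⟩, ?_, rfl⟩
            rw [mem_sdiff]
            refine ⟨by rw [hA₀, mem_subtype]; exact ha.1, ?_⟩
            intro haF
            apply ha.2
            rw [hg, mem_cs] at haF
            rw [mem_cs, AddSubgroup.mem_map]
            exact ⟨_, haF, rfl⟩
          · left
            rw [mem_sdiff, mem_hs]
            exact ⟨ha.1, haK⟩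
        have h5 : ((A \ cs (M.map K.subtype) (g : G)).card : ℝ)
            ≤ (A \ hs K).card + (A₀ \ F).card := by
          have e1 := card_le_card h4
          have e2 := card_union_le (A \ hs K) ((A₀ \ F).image (fun a : K => (a : G)))
          have e3 : ((A₀ \ F).image (fun a : K => (a : G))).card ≤ (A₀ \ F).card := card_image_le
          exact_mod_cast (by omega : (A \ cs (M.map K.subtype) (g : G)).card
            ≤ (A \ hs K).card + (A₀ \ F).card)
        have h6 : c₁ * (Fintype.card K : ℝ) ≤ c₁ * n := by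
          apply mul_le_mul_of_nonneg_left _ hc₁.le
          rw [← hKR]
          have : (0 : ℝ) ≤ Fintype.card K := Nat.cast_nonneg _
          nlinarith
        have h7 : c₁ * n < c₂ * n := mul_lt_mul_of_pos_right h12 hnpos
        nlinarith
    have hAFc : (A₀.card : ℝ) ≤ F.card + c₁ * (Fintype.card K : ℝ) := by
      have h3 := card_sdiff_add_card_inter A₀ F
      have h4 := card_le_card (inter_subset_right (s₁ := A₀) (s₂ := F))
      have h5 : (A₀.card : ℝ) ≤ (A₀ \ F).card + F.card := by
        exact_mod_cast (by omega : A₀.card ≤ (A₀ \ F).card + F.card)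
      linarith
    have hmw : q * Q ≤ m * w := by
      by_contra hcon
      push Not at hcon
      have h3 : (m * w + 1) * (hs M).card ≤ q * Q * (hs M).card := Nat.mul_le_mul_right _ hcon
      have h4 : (m * w + 1) * (hs M).card = m * F.card + (hs M).card := by
        rw [hw]
        ring
      rw [h4, mul_assoc, ← hnQ] at h3
      have h5 : (m : ℝ) * F.card + (hs M).card ≤ n := by
        rw [← hKR]
        exact_mod_cast h3
      have h7 : (m : ℝ) * (κ - c₂ * (q - 1) * n - c₁ * (Fintype.card K : ℝ)) ≤ m * F.card := by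
        apply mul_le_mul_of_nonneg_left _ hmpos.le
        linarith
      have h8 : ((hs M).card : ℝ)
          ≤ m * (c₂ * (q - 1) * n + c₁ * (Fintype.card K : ℝ)) := by
        rw [hnmk] at h5
        nlinarith
      have hKpos : (0 : ℝ) < Fintype.card K := by
        have : 0 < Fintype.card K := Fintype.card_pos
        exact_mod_cast this
      have h9 : 1 / (8 * (m : ℝ) ^ 2) ≤ m * (c₂ * (q - 1) * q + c₁) := by
        have e1 : m * (c₂ * (q - 1) * n + c₁ * (Fintype.card K : ℝ))
            = (m * (c₂ * (q - 1) * q + c₁)) * (Fintype.card K : ℝ) := by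
          rw [← hKR]
          ring
        rw [e1] at h8
        exact le_of_mul_le_mul_right (hMθ.trans h8) hKpos
      have h10 : c₂ * (q - 1) * q + c₁ ≤ c₂ * m ^ 2 := by
        have e5 : ((q : ℝ) - 1) * q + 1 ≤ m ^ 2 := by nlinarith
        nlinarith
      have h11 : 1 / (8 * (m : ℝ) ^ 2) ≤ m * (c₂ * m ^ 2) :=
        h9.trans (mul_le_mul_of_nonneg_left h10 hmpos.le)
      rw [div_le_iff₀ (by positivity)] at h11
      have h12' : (m : ℝ) * (c₂ * m ^ 2) * (8 * m ^ 2) = (32 * m ^ 5 * c₂) / 4 := by ring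
      rw [h12'] at h11
      linarith
    -- numerical contradiction
    apply arith1 hq2 hqm ht₀q hw2 (Q := Q) _ hmw
    rw [hw, hnQ] at hcF
    have h3 : (t₀ * w + 1) * (hs M).card ≤ (Q + (t₀ - 1)) * (hs M).card := by
      calc (t₀ * w + 1) * (hs M).card = t₀ * ((hs M).card * w) + (hs M).card := by ring
        _ ≤ Q * (hs M).card + (t₀ - 1) * (hs M).card := hcF
        _ = (Q + (t₀ - 1)) * (hs M).card := by ring
    have h4 := Nat.le_of_mul_le_mul_right h3 hMpos
    omega

end Pool.Agent.Lib.MPa7239a
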