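import Pool.Agent.Lib.MP_a7239a_co.PolyC
import Pool.Agent.Lib.MP_a7239a_co.Upper

/-!
# The chain of popular sums, and the first periodic obstruction
-/

open scoped Pointwise
open Finset

set_option linter.unusedSectionVars false

namespace Pool.Agent.Lib.MPa7239a

universe u

variable {G : Type u} [AddCommGroup G] [Fintype G] [DecidableEq G]

theorem not_dense {g₂ : ℕ} (h2 : ∀ z : G, (univ.filter (fun b : G => b + b = z)).card ≤ g₂)
    {B : Finset G} {t : ℕ} (ht : 2 ≤ t) {x : G} (hx : ¬ DS B t x) :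
    2 * B.card ≤ Fintype.card G + 2 * t + g₂ := by
  by_contra hcon
  push Not at hcon
  obtain ⟨T₀, hT₀, hT₀c⟩ := exists_subset_card_eq (show t - 2 ≤ B.card by omega)
  have h1 : (B \ T₀).card + T₀.card = B.card := card_sdiff_add_card_eq_card hT₀
  obtain ⟨T₁, hT₁, hT₁c, hT₁s⟩ := two_dense h2 (A := B \ T₀) (by omega) (x - ∑ a ∈ T₀, a)
  have hdisj : Disjoint T₀ T₁ := by
    rw [Finset.disjoint_left]
    intro a ha ha'
    exact (mem_sdiff.1 (hT₁ ha')).2 ha
  apply hx
  refine ⟨T₀ ∪ T₁, union_subset hT₀ (hT₁.trans sdiff_subset), ?_, ?_⟩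
  · rw [card_union_of_disjoint hdisj]
    omega
  · rw [sum_union hdisj, hT₁s]
    abel

theorem sum_rep (X B : Finset G) :
    ∑ z : G, (X.filter (fun x => z - x ∈ B)).card = X.card * B.card := by
  rw [← card_pr_eq B X univ, ← card_product]
  apply card_bij (fun p _ => (p.1, p.2 - p.1))
  · intro p hp
    rw [mem_pr] at hp
    rw [mem_product]
    exact ⟨hp.1.1, hp.2⟩
  · intro p _ q _ h
    simp only [Prod.mk.injEq] at h
    obtain ⟨h3, h4⟩ := h
    rw [h3] at h4
    exact Prod.ext h3 (sub_left_injective h4)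
  · intro p hp
    rw [mem_product] at hp
    refine ⟨(p.1, p.1 + p.2), ?_, ?_⟩
    · rw [mem_pr]
      simp only [mem_univ, and_true, add_sub_cancel_left]
      exact hp
    · simp

theorem rep_le (X B : Finset G) (z : G) :
    (X.filter (fun x => z - x ∈ B)).card ≤ B.card := by
  apply card_le_card_of_injOn (fun x => z - x)
  · intro x hx
    have hx' : x ∈ X.filter (fun x => z - x ∈ B) := hx
    exact (mem_filter.1 hx').2
  · intro a _ b _ hab
    exact sub_right_injective hab

/-- The popular sums do not become much fewer. -/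
theorem pop_mono {L : ℕ} {δ : ℝ} (hδ : δ * Fintype.card G = L) (X B : Finset G) :
    (X.card : ℝ) * B.card ≤ (pop δ X B).card * B.card + L * Fintype.card G := by
  have h1 : ((∑ z : G, (X.filter (fun x => z - x ∈ B)).card : ℕ) : ℝ)
      ≤ ∑ z : G, ((if z ∈ pop δ X B then (B.card : ℝ) else 0) + L) := by
    push_cast
    apply sum_le_sum
    intro z _
    have hL0 : (0 : ℝ) ≤ L := Nat.cast_nonneg _
    by_cases hz : z ∈ pop δ X B
    · rw [if_pos hz]
      have : ((X.filter (fun x => z - x ∈ B)).card : ℝ) ≤ B.card := by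
        exact_mod_cast rep_le X B z
      linarith
    · rw [if_neg hz]
      rw [mem_pop] at hz
      push Not at hz
      rw [hδ] at hz
      linarith
  rw [sum_rep, sum_add_distrib, ← sum_filter, filter_mem_eq_inter, univ_inter, sum_const,
    sum_const, nsmul_eq_mul, nsmul_eq_mul, card_univ] at h1
  push_cast at h1
  linarith

theorem chain_arith {s : ℕ} {n b E : ℝ} (hn : 0 < n) (hE0 : 0 < E) (hE : E ≤ 13 / 50 * n)
    (hb : n + 2 * ((s : ℝ) + 3) * E ≤ (s + 3) * b) :
    (n - 2 * b) / (s + 1) + E ≤ n / 3 ∧ (n - 2 * b) / (s + 1) + E ≤ b - E := by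
  have hs1 : (0 : ℝ) < (s : ℝ) + 1 := by positivity
  have hs0 : (0 : ℝ) ≤ (s : ℝ) := Nat.cast_nonneg _
  constructor
  · rw [← le_sub_iff_add_le, div_le_iff₀ hs1]
    rcases Nat.lt_or_ge s 4 with h | h
    · interval_cases s
      · norm_num at hb ⊢
        linarith
      · norm_num at hb ⊢
        linarith
      · norm_num at hb ⊢
        linarith
      · norm_num at hb ⊢
        linarith
    · have h4 : (4 : ℝ) ≤ s := by exact_mod_cast h
      have hb2 : 2 * E ≤ b := by
        have h5 : ((s : ℝ) + 3) * (2 * E) ≤ (s + 3) * b := by nlinarith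
        exact le_of_mul_le_mul_left h5 (by linarith)
      have h6 : E * ((s : ℝ) - 3) ≤ 13 / 50 * n * (s - 3) :=
        mul_le_mul_of_nonneg_right hE (by linarith)
      nlinarith
  · rw [← le_sub_iff_add_le, div_le_iff₀ hs1]
    nlinarith

/-- **The first obstruction.** -/
theorem level_struct {g₂ t L τ : ℕ}
    (h2 : ∀ z : G, (univ.filter (fun b : G => b + b = z)).card ≤ g₂)
    (ht : 3 ≤ t) (hL : 2 * t + g₂ ≤ L) (hτ : 0 < τ) {E : ℝ} (hE0 : 0 < E)
    (h1 : (L : ℝ) * Fintype.card G ≤ τ * E) (hτE : 8 * Fintype.card G * (τ : ℝ) ≤ E ^ 2)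
    (h3 : (t : ℝ) ^ 2 * L ≤ E) {B : Finset G} {x : G}
    (hB : (Fintype.card G : ℝ) + 2 * t * E ≤ t * B.card) (hx : ¬ DS B t x) :
    ∃ (M : AddSubgroup G) (F : Finset G), Per M F ∧ F.Nonempty ∧ M ≠ ⊤ ∧
      E / 8 ≤ (hs M).card ∧ (F.card : ℝ) + E ≤ B.card + (hs M).card ∧
      ((B \ F).card : ℝ) ≤ 8 * τ * Fintype.card G / E := by
  classical
  set n : ℝ := (Fintype.card G : ℝ) with hn
  have hnpos : 0 < n := by
    have : 0 < Fintype.card G := Fintype.card_pos
    rw [hn]
    exact_mod_cast this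
  have hτ' : (0 : ℝ) < τ := by exact_mod_cast hτ
  obtain ⟨s, rfl⟩ : ∃ s, t = s + 3 := ⟨t - 3, by omega⟩
  have hs0 : (0 : ℝ) ≤ (s : ℝ) := Nat.cast_nonneg _
  have hL0 : (0 : ℝ) ≤ (L : ℝ) := Nat.cast_nonneg _
  push_cast at hB h3
  set b : ℝ := (B.card : ℝ) with hb
  -- `E` is at most `n / 4`, roughly
  have hL9 : 9 * (L : ℝ) ≤ E := by
    have : (9 : ℝ) ≤ ((s : ℝ) + 3) ^ 2 := by nlinarith
    nlinarith
  have hb2 : 2 * E + n / (s + 3) ≤ b := by
    have h5 : n / ((s : ℝ) + 3) * (s + 3) = n := by field_simp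
    have h6 : ((s : ℝ) + 3) * (2 * E + n / (s + 3)) ≤ (s + 3) * b := by nlinarith
    exact le_of_mul_le_mul_left h6 (by linarith)
  have hn3 : 0 < n / ((s : ℝ) + 3) := by positivity
  have hEn : E ≤ 13 / 50 * n := by
    have h5 := not_dense h2 (by omega) hx
    have h6 : 2 * b ≤ n + L := by
      rw [hb, hn]
      exact_mod_cast (by omega : 2 * B.card ≤ Fintype.card G + L)
    linarith
  obtain ⟨har1, har2⟩ := chain_arith hnpos hE0 hEn hB
  set δ : ℝ := L / n with hδ
  have hδn : δ * n = L := by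
    rw [hδ]
    field_simp
  -- sizes of the popular sumsets
  have hmono : ∀ i : ℕ, ((Sq δ B i).card : ℝ) ≤ (Sq δ B (i + 1)).card + L * (s + 3) := by
    intro i
    have h5 := pop_mono (δ := δ) (L := L) (by rw [← hn]; exact hδn) (Sq δ B i) B
    rw [← hn, ← hb] at h5
    have h6 : (Sq δ B (i + 1)) = pop δ (Sq δ B i) B := rfl
    rw [h6]
    have hbpos : 0 < b := by linarith
    have h7 : L * n ≤ L * (s + 3) * b := by
      have h8 : n ≤ (s + 3) * b := by nlinarith
      nlinarith
    have h9 : ((Sq δ B i).card : ℝ) * b ≤ ((pop δ (Sq δ B i) B).card + L * (s + 3)) * b := by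
      linarith
    exact le_of_mul_le_mul_right h9 hbpos
  have hlow : ∀ i : ℕ, b ≤ (Sq δ B i).card + i * (L * (s + 3)) := by
    intro i
    induction i with
    | zero =>
      simp [Sq, hb]
    | succ i ih =>
      have := hmono i
      push_cast
      linarith
  have hlast : ((Sq δ B (s + 1)).card : ℝ) + b ≤ n := by
    have hno := not_mem_Sq h2 (s := s) (δ := δ) (by
      rw [← hn, hδn]
      exact_mod_cast (by omega : 2 * (1 + s) + g₂ < L)) hx
    have hdisj : Disjoint (Sq δ B (s + 1)) (B.image (fun a => x - a)) := by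
      rw [Finset.disjoint_left]
      intro y hy hy'
      rw [mem_image] at hy'
      obtain ⟨a, ha, rfl⟩ := hy'
      exact hno a ha hy
    have hle := card_le_univ ((Sq δ B (s + 1)) ∪ (B.image (fun a => x - a)))
    rw [card_union_of_disjoint hdisj, card_image_of_injective _ sub_right_injective] at hle
    rw [hn, hb]
    exact_mod_cast hle
  have hupp : ∀ j : ℕ, ∀ i : ℕ, i + j = s + 1 → ((Sq δ B i).card : ℝ) + b ≤ n + j * (L * (s + 3)) := by
    intro j
    induction j with
    | zero =>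
      intro i hi
      have hi' : i = s + 1 := by omega
      rw [hi']
      push_cast
      linarith
    | succ j ih =>
      intro i hi
      have h5 := ih (i + 1) (by omega)
      have h6 := hmono i
      push_cast
      linarith
  have hsL : ∀ i : ℕ, i ≤ s + 1 → (i : ℝ) * (L * (s + 3)) ≤ E := by
    intro i hi
    have hi' : (i : ℝ) ≤ s + 1 := by exact_mod_cast hi
    have h5 : (i : ℝ) * (L * (s + 3)) ≤ (s + 1) * (L * (s + 3)) :=
      mul_le_mul_of_nonneg_right hi' (by positivity)
    have h6 : ((s : ℝ) + 1) * (L * (s + 3)) ≤ (s + 3) ^ 2 * L := by nlinarith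
    linarith
  -- a step with small growth
  obtain ⟨i, hi, hgrow⟩ : ∃ i, i ≤ s ∧
      ((Sq δ B (i + 1)).card : ℝ) - (Sq δ B i).card ≤ (n - 2 * b) / (s + 1) := by
    by_contra hcon
    push Not at hcon
    have h5 : ∀ i : ℕ, i ≤ s → ((Sq δ B 0).card : ℝ) + (i + 1) * ((n - 2 * b) / (s + 1))
        < (Sq δ B (i + 1)).card := by
      intro i
      induction i with
      | zero =>
        intro _
        have := hcon 0 (by omega)
        push_cast
        linarith
      | succ i ih =>
        intro hi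
        have h6 := ih (by omega)
        have h7 := hcon (i + 1) hi
        push_cast
        linarith
    have h6 := h5 s le_rfl
    have h7 : ((s : ℝ) + 1) * ((n - 2 * b) / (s + 1)) = n - 2 * b := by field_simp
    rw [h7] at h6
    have h8 : ((Sq δ B 0).card : ℝ) = b := rfl
    linarith
  -- the pair
  set X₀ := Sq δ B i with hX₀
  set Y₀ := (Sq δ B (i + 1))ᶜ with hY₀
  have hYc : ((Y₀.card : ℕ) : ℝ) + (Sq δ B (i + 1)).card = n := by
    rw [hn, hY₀]
    have := card_compl_add_card (Sq δ B (i + 1))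
    exact_mod_cast this
  have hpr : ((pr B X₀ Y₀).card : ℝ) ≤ L * n := by
    rw [card_pr_eq]
    push_cast
    have h5 : ∑ z ∈ Y₀, ((X₀.filter (fun x => z - x ∈ B)).card : ℝ) ≤ ∑ _z ∈ Y₀, (L : ℝ) := by
      apply sum_le_sum
      intro z hz
      rw [hY₀, mem_compl] at hz
      have h6 : z ∉ pop δ (Sq δ B i) B := hz
      rw [mem_pop] at h6
      push Not at h6
      rw [← hn, hδn] at h6
      exact h6.le
    rw [sum_const, nsmul_eq_mul] at h5
    have h6 : ((Y₀.card : ℕ) : ℝ) ≤ n := by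
      have : (0 : ℝ) ≤ (Sq δ B (i + 1)).card := Nat.cast_nonneg _
      linarith
    nlinarith
  have ha : E ^ 2 / (8 * n) ≤ E := by
    rw [div_le_iff₀ (by positivity)]
    nlinarith
  apply rk_main hτ (X₀ := X₀) (Y₀ := Y₀) (μ₀ := (n - 2 * b) / (s + 1) + E) hE0 hEn hτE
  · refine ha.trans ?_
    have h5 := hlow i
    have h6 := hsL i (by omega)
    linarith
  · refine ha.trans ?_
    have h5 := hupp (s - i) (i + 1) (by omega)
    have h6 := hsL (s - i) (by omega)
    linarith
  · unfold cc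
    rw [← hn]
    have h5 : (pr B X₀ Y₀).card / (τ : ℝ) ≤ E := by
      rw [div_le_iff₀ hτ']
      linarith
    linarith
  · exact har1
  · exact har2
  · linarith

end Pool.Agent.Lib.MPa7239a
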