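import Pool.Agent.Lib.MP_a7239a_co.PolyD

/-!
# One level: the obstruction works, or it fails only in one coset
-/

open scoped Pointwise
open Finset

set_option linter.unusedSectionVars false

namespace Pool.Agent.Lib.MPa7239a

universe u

variable {G : Type u} [AddCommGroup G] [Fintype G] [DecidableEq G]

/-- distinct elements of `B` in prescribed cosets -/
theorem pick {M : AddSubgroup G} {B F : Finset G} {t : ℕ}
    (hF : ∀ f ∈ F, t ≤ (B ∩ cs M f).card) : ∀ (k : ℕ) (y : G), k ≤ t → y ∈ ms F k →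
    ∃ T ⊆ B, T.card = k ∧ ∑ a ∈ T, a - y ∈ M := by
  intro k
  induction k with
  | zero =>
    intro y _ hy
    have hy' : y ∈ ({0} : Finset G) := hy
    rw [mem_singleton] at hy'
    subst hy'
    exact ⟨∅, empty_subset _, card_empty, by simp⟩
  | succ k ih =>
    intro y hk hy
    have hy' : y ∈ ms F k + F := hy
    rw [Finset.mem_add] at hy'
    obtain ⟨y', hy', f, hf, rfl⟩ := hy'
    obtain ⟨T, hT, hTc, hTs⟩ := ih y' (by omega) hy'
    obtain ⟨a, ha, haT⟩ : ∃ a ∈ B ∩ cs M f, a ∉ T := by
      apply exists_mem_notMem_of_card_lt_card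
      have := hF f hf
      omega
    rw [mem_inter, mem_cs] at ha
    refine ⟨insert a T, ?_, ?_, ?_⟩
    · intro w hw
      rw [mem_insert] at hw
      rcases hw with rfl | hw
      · exact ha.1
      · exact hT hw
    · rw [card_insert_of_notMem haT, hTc]
    · rw [sum_insert haT]
      have : a + ∑ a ∈ T, a - (y' + f) = (a - f) + (∑ a ∈ T, a - y') := by abel
      rw [this]
      exact M.add_mem ha.2 hTs

/-- two summands from two cosets (possibly equal) containing many elements of `B` -/
theorem pair_cosets {g₂ : ℕ} (h2 : ∀ z : G, (univ.filter (fun b : G => b + b = z)).card ≤ g₂)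
    {M : AddSubgroup G} {B : Finset G} (U : Finset G) {f₁ f₂ y : G} (hy : y - f₁ - f₂ ∈ M)
    (hc : (hs M).card + 2 * U.card + g₂ < (B ∩ cs M f₁).card + (B ∩ cs M f₂).card) :
    ∃ T ⊆ B, T.card = 2 ∧ ∑ a ∈ T, a = y ∧ Disjoint T U := by
  classical
  set P := (cs M f₁).filter (fun u => u ∈ B) with hP
  set Q := (cs M f₁).filter (fun u => y - u ∈ B) with hQ
  have hPc : P.card = (B ∩ cs M f₁).card := by
    congr 1
    ext u
    rw [hP, mem_filter, mem_inter, and_comm]
  have hQc : Q.card = (B ∩ cs M f₂).card := by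
    apply card_bij (fun u _ => y - u)
    · intro u hu
      rw [hQ, mem_filter, mem_cs] at hu
      rw [mem_inter, mem_cs]
      refine ⟨hu.2, ?_⟩
      have : y - u - f₂ = (y - f₁ - f₂) - (u - f₁) := by abel
      rw [this]
      exact M.sub_mem hy hu.1
    · intro a _ b _ hab
      exact sub_right_injective hab
    · intro v hv
      rw [mem_inter, mem_cs] at hv
      refine ⟨y - v, ?_, by abel⟩
      rw [hQ, mem_filter, mem_cs]
      constructor
      · have : y - v - f₁ = (y - f₁ - f₂) - (v - f₂) := by abel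
        rw [this]
        exact M.sub_mem hy hv.2
      · have : y - (y - v) = v := by abel
        rw [this]
        exact hv.1
  have hPQ : P.card + Q.card ≤ (P ∩ Q).card + (hs M).card := by
    have h1 := card_union_add_card_inter P Q
    have h3 : (P ∪ Q).card ≤ (cs M f₁).card :=
      card_le_card (union_subset (filter_subset _ _) (filter_subset _ _))
    rw [card_cs] at h3
    omega
  set B₃ := (P ∩ Q).filter (fun u => u ∈ U) with hB₃
  set B₄ := (P ∩ Q).filter (fun u => y - u ∈ U) with hB₄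
  set B₅ := (P ∩ Q).filter (fun u => u + u = y) with hB₅
  have c3 : B₃.card ≤ U.card := by
    apply card_le_card
    intro u hu
    exact (mem_filter.1 hu).2
  have c4 : B₄.card ≤ U.card := by
    apply card_le_card_of_injOn (fun u => y - u)
    · intro u hu
      have hu' : u ∈ B₄ := hu
      exact (mem_filter.1 hu').2
    · intro a _ b _ hab
      exact sub_right_injective hab
  have c5 : B₅.card ≤ g₂ := card_double_le h2 _ _
  obtain ⟨u, hu, hub⟩ : ∃ u ∈ P ∩ Q, u ∉ B₃ ∪ B₄ ∪ B₅ := by
    apply exists_mem_notMem_of_card_lt_card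
    have e1 := card_union_le (B₃ ∪ B₄) B₅
    have e2 := card_union_le B₃ B₄
    omega
  simp only [mem_union, not_or] at hub
  obtain ⟨⟨n3, n4⟩, n5⟩ := hub
  have hu' := hu
  rw [mem_inter, hP, hQ, mem_filter, mem_filter] at hu'
  have a3 : u ∉ U := fun h => n3 (mem_filter.2 ⟨hu, h⟩)
  have a4 : y - u ∉ U := fun h => n4 (mem_filter.2 ⟨hu, h⟩)
  have a5 : u ≠ y - u := by
    intro h
    apply n5
    rw [hB₅, mem_filter]
    refine ⟨hu, ?_⟩
    nth_rewrite 2 [h]
    abel
  refine ⟨{u, y - u}, ?_, card_pair a5, ?_, ?_⟩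
  · intro w hw
    rw [mem_insert, mem_singleton] at hw
    rcases hw with rfl | rfl
    · exact hu'.1.2
    · exact hu'.2.2
  · rw [sum_pair a5]
    abel
  · rw [Finset.disjoint_left]
    intro w hw
    rw [mem_insert, mem_singleton] at hw
    rcases hw with rfl | rfl
    · exact a3
    · exact a4

theorem pair_bound {g₂ : ℕ} (h2 : ∀ z : G, (univ.filter (fun b : G => b + b = z)).card ≤ g₂)
    {M : AddSubgroup G} {B F : Finset G} {s : ℕ}
    (hF : ∀ f ∈ F, s + 2 ≤ (B ∩ cs M f).card) {x : G} (hx : ¬ DS B (s + 2) x) {f₁ f₂ y : G}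
    (hy : y ∈ ms F s) (hxy : x - y - f₁ - f₂ ∈ M) :
    (B ∩ cs M f₁).card + (B ∩ cs M f₂).card ≤ (hs M).card + (2 * (s + 2) + g₂) := by
  by_contra hcon
  push Not at hcon
  obtain ⟨T, hT, hTc, hTs⟩ := pick hF s y (by omega) hy
  obtain ⟨T₂, hT₂, hT₂c, hT₂s, hdis⟩ := pair_cosets h2 T (M := M) (B := B) (f₁ := f₁) (f₂ := f₂)
    (y := x - ∑ a ∈ T, a) (by
      have : x - ∑ a ∈ T, a - f₁ - f₂ = (x - y - f₁ - f₂) - (∑ a ∈ T, a - y) := by abel
      rw [this]
      exact M.sub_mem hxy hTs) (by
      rw [hTc]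
      omega)
  apply hx
  refine ⟨T₂ ∪ T, union_subset hT₂ hT, ?_, ?_⟩
  · rw [card_union_of_disjoint hdis, hT₂c, hTc]
    omega
  · rw [sum_union hdis, hT₂s]
    abel

theorem cs_subset {M : AddSubgroup G} {F : Finset G} (hF : Per M F) {f : G} (hf : f ∈ F) :
    cs M f ⊆ F := by
  intro u hu
  rw [mem_cs] at hu
  have := hF f hf _ hu
  simpa using this

theorem cs_disjoint {M : AddSubgroup G} {f₁ f₂ : G} (h : f₂ ∉ cs M f₁) :
    Disjoint (cs M f₁) (cs M f₂) := by
  rw [Finset.disjoint_left]
  intro u hu hu'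
  apply h
  rw [mem_cs] at hu hu' ⊢
  have : f₂ - f₁ = (u - f₁) - (u - f₂) := by abel
  rw [this]
  exact M.sub_mem hu hu'

theorem one_coset_count {M : AddSubgroup G} {B F : Finset G} (hF : Per M F) {f : G} (hf : f ∈ F) :
    (hs M).card ≤ (B ∩ cs M f).card + (F \ B).card := by
  have h1 := card_sdiff_add_card_inter (cs M f) B
  rw [card_cs, inter_comm] at h1
  have h2 : (cs M f \ B).card ≤ (F \ B).card :=
    card_le_card (sdiff_subset_sdiff (cs_subset hF hf) Subset.rfl)
  omega

theorem two_cosets {M : AddSubgroup G} {B F : Finset G} (hF : Per M F) {f₁ f₂ : G}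
    (hf₁ : f₁ ∈ F) (hf₂ : f₂ ∈ F) (hne : f₂ ∉ cs M f₁) :
    2 * (hs M).card ≤ (B ∩ cs M f₁).card + (B ∩ cs M f₂).card + (F \ B).card := by
  have h1 := card_sdiff_add_card_inter (cs M f₁) B
  have h2 := card_sdiff_add_card_inter (cs M f₂) B
  rw [card_cs, inter_comm] at h1 h2
  have hd : Disjoint (cs M f₁ \ B) (cs M f₂ \ B) :=
    (cs_disjoint hne).mono sdiff_subset sdiff_subset
  have h3 : ((cs M f₁ \ B) ∪ (cs M f₂ \ B)).card ≤ (F \ B).card :=
    card_le_card (union_subset (sdiff_subset_sdiff (cs_subset hF hf₁) Subset.rfl)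
      (sdiff_subset_sdiff (cs_subset hF hf₂) Subset.rfl))
  rw [card_union_of_disjoint hd] at h3
  omega

/-- **The dichotomy**: the obstruction fails in at most one coset. -/
theorem level_dich {g₂ t : ℕ} (h2 : ∀ z : G, (univ.filter (fun b : G => b + b = z)).card ≤ g₂)
    (ht : 2 ≤ t) {M : AddSubgroup G} {B F : Finset G} (hMF : Per M F)
    (hh : (F \ B).card + (2 * t + g₂) < (hs M).card) {x : G} (hx : ¬ DS B t x)
    (hxF : x ∈ ms F t) : ∃ g ∈ F, x ∉ (F \ cs M g) + ms F (t - 1) := by
  obtain ⟨s, rfl⟩ : ∃ s, t = s + 2 := ⟨t - 2, by omega⟩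
  have e1 : s + 2 - 1 = s + 1 := by omega
  rw [e1]
  have hFB : ∀ f ∈ F, s + 2 ≤ (B ∩ cs M f).card := by
    intro f hf
    have := one_coset_count (B := B) hMF hf
    omega
  -- every representation determines a deficient coset
  have key : ∀ f ∈ F, ∀ y ∈ ms F (s + 1), x = f + y →
      2 * (B ∩ cs M f).card ≤ (hs M).card + (2 * (s + 2) + g₂) := by
    intro f hf y hy hxy
    have hy' : y ∈ ms F s + F := hy
    rw [Finset.mem_add] at hy'
    obtain ⟨y₂, hy₂, f₂, hf₂, rfl⟩ := hy'
    have h3 := pair_bound h2 hFB hx (f₁ := f) (f₂ := f₂) hy₂ (by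
      rw [hxy]
      have : f + (y₂ + f₂) - y₂ - f - f₂ = 0 := by abel
      rw [this]
      exact M.zero_mem)
    by_cases hne : f₂ ∈ cs M f
    · have h4 : cs M f₂ = cs M f := by
        rw [mem_cs] at hne
        have h5 := cs_eq (K := M) (g := f) hne
        have : f + (f₂ - f) = f₂ := by abel
        rwa [this] at h5
      rw [h4] at h3
      omega
    · have h4 := two_cosets (B := B) hMF hf hf₂ hne
      omega
  have hxF' : x ∈ ms F (s + 1) + F := hxF
  rw [Finset.mem_add] at hxF'
  obtain ⟨y, hy, g, hg, hyg⟩ := hxF'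
  refine ⟨g, hg, ?_⟩
  intro hx'
  rw [Finset.mem_add] at hx'
  obtain ⟨f', hf', y', hy', hfy⟩ := hx'
  rw [mem_sdiff] at hf'
  have k1 := key g hg y hy (by rw [← hyg]; abel)
  have k2 := key f' hf'.1 y' hy' hfy.symm
  have k3 := two_cosets (B := B) hMF hg hf'.1 hf'.2
  omega

theorem ms_eq_sum (F : Finset G) (k : ℕ) : (List.replicate k F).sum = ms F k := by
  induction k with
  | zero => rfl
  | succ k ih =>
    show _ = ms F k + F
    rw [← ih, List.replicate_succ, List.sum_cons, add_comm]

theorem nsmul_mem_ms {F : Finset G} {g : G} (hg : g ∈ F) (k : ℕ) : k • g ∈ ms F k := by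
  induction k with
  | zero =>
    rw [zero_nsmul]
    exact mem_singleton_self 0
  | succ k ih =>
    rw [succ_nsmul]
    exact add_mem_add ih hg

theorem ms_split (F C : Finset G) : ∀ (k : ℕ) (y : G), y ∈ ms F (k + 1) →
    y ∈ ms (F ∩ C) (k + 1) ∨ y ∈ (F \ C) + ms F k := by
  intro k
  induction k with
  | zero =>
    intro y hy
    rw [zero_add, ms_one] at hy
    by_cases hC : y ∈ C
    · left
      rw [zero_add, ms_one]
      exact mem_inter.2 ⟨hy, hC⟩
    · right
      rw [Finset.mem_add]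
      exact ⟨y, mem_sdiff.2 ⟨hy, hC⟩, 0, mem_singleton_self 0, add_zero y⟩
  | succ k ih =>
    intro y hy
    have hy' : y ∈ ms F (k + 1) + F := hy
    rw [Finset.mem_add] at hy'
    obtain ⟨y', hy', f, hf, rfl⟩ := hy'
    by_cases hC : f ∈ C
    · rcases ih y' hy' with h | h
      · left
        exact add_mem_add h (mem_inter.2 ⟨hf, hC⟩)
      · right
        rw [Finset.mem_add] at h ⊢
        obtain ⟨u, hu, v, hv, rfl⟩ := h
        exact ⟨u, hu, v + f, add_mem_add hv hf, by abel⟩
    · right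
      rw [Finset.mem_add]
      exact ⟨f, mem_sdiff.2 ⟨hf, hC⟩, y', hy', by abel⟩

/-- sums of elements of a coset of a subgroup -/
theorem ms_image {M : AddSubgroup G} [DecidablePred (· ∈ M)] (F₂ : Finset M) (g : G) :
    ∀ (k : ℕ) (y : G), y ∈ ms (F₂.image (fun a : M => (a : G) + g)) k →
    ∃ z ∈ ms F₂ k, y = (z : G) + k • g := by
  intro k
  induction k with
  | zero =>
    intro y hy
    have hy' : y ∈ ({0} : Finset G) := hy
    rw [mem_singleton] at hy'
    refine ⟨0, mem_singleton_self 0, ?_⟩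
    rw [hy', zero_nsmul]
    simp
  | succ k ih =>
    intro y hy
    have hy' : y ∈ ms (F₂.image (fun a : M => (a : G) + g)) k
      + F₂.image (fun a : M => (a : G) + g) := hy
    rw [Finset.mem_add] at hy'
    obtain ⟨y', hy', f, hf, rfl⟩ := hy'
    obtain ⟨z, hz, rfl⟩ := ih y' hy'
    rw [mem_image] at hf
    obtain ⟨a, ha, rfl⟩ := hf
    refine ⟨z + a, add_mem_add hz ha, ?_⟩
    rw [succ_nsmul]
    push_cast
    abel

theorem sub_nsmul_mem {M : AddSubgroup G} {F : Finset G} {g : G} (hF : F ⊆ cs M g) :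
    ∀ (k : ℕ) (y : G), y ∈ ms F k → y - k • g ∈ M := by
  intro k
  induction k with
  | zero =>
    intro y hy
    have hy' : y ∈ ({0} : Finset G) := hy
    rw [mem_singleton] at hy'
    rw [hy', zero_nsmul, sub_zero]
    exact M.zero_mem
  | succ k ih =>
    intro y hy
    have hy' : y ∈ ms F k + F := hy
    rw [Finset.mem_add] at hy'
    obtain ⟨y', hy', f, hf, rfl⟩ := hy'
    have h1 := ih y' hy'
    have h2 := mem_cs.1 (hF hf)
    rw [succ_nsmul]
    have : y' + f - (k • g + g) = (y' - k • g) + (f - g) := by abel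
    rw [this]
    exact M.add_mem h1 h2

/-- **Counting the other cosets.** -/
theorem level_count {M : AddSubgroup G} {F : Finset G} (hMF : Per M F) {t : ℕ} (ht : 2 ≤ t)
    {g : G} (hg : g ∈ F) {x : G} (hx1 : x - t • g ∈ M)
    (hx2 : x ∉ (F \ cs M g) + ms F (t - 1)) :
    t * (F \ cs M g).card + (hs M).card ≤ Fintype.card G := by
  obtain ⟨k, rfl⟩ : ∃ k, t = k + 1 := ⟨t - 1, by omega⟩
  rw [Nat.add_sub_cancel] at hx2
  set F' := F \ cs M g with hF'
  rcases F'.eq_empty_or_nonempty with hemp | hne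
  · rw [hemp, card_empty, mul_zero, zero_add]
    exact card_le_univ _
  have hperF' : Per M F' := by
    intro u hu h hh
    rw [hF', mem_sdiff] at hu ⊢
    refine ⟨hMF u hu.1 h hh, ?_⟩
    intro hc
    apply hu.2
    rw [mem_cs] at hc ⊢
    have : u - g = (u + h - g) - h := by abel
    rw [this]
    exact M.sub_mem hc hh
  have hk := kneser_list (List.replicate k F) F' hne (by
    intro Y hY
    rw [List.eq_of_mem_replicate hY]
    exact ⟨g, hg⟩)
  rw [ms_eq_sum, List.map_replicate, List.sum_replicate, List.length_replicate, smul_eq_mul] at hk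
  set N := st (F' + ms F k) with hN
  have hMN : M ≤ N := le_st_of_per (hperF'.add_right _)
  have hxn := card_add_le_of_notMem (per_st (F' + ms F k)) hx2
  rw [← hN] at hxn
  have hgn : g ∉ cl N F' := by
    intro hgc
    rw [mem_cl] at hgc
    obtain ⟨f', hf', hgf⟩ := hgc
    apply hx2
    have h1 : f' + k • g ∈ F' + ms F k := add_mem_add hf' (nsmul_mem_ms hg k)
    have h3 := per_st (F' + ms F k) _ h1 (x - (f' + k • g)) (by
      rw [← hN]
      have : x - (f' + k • g) = (x - (k + 1) • g) + (g - f') := by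
        rw [succ_nsmul]
        abel
      rw [this]
      exact N.add_mem (hMN hx1) hgf)
    have : f' + k • g + (x - (f' + k • g)) = x := by abel
    rwa [this] at h3
  have hdisj : Disjoint (cl N F') (cs N g) := by
    rw [Finset.disjoint_left]
    intro u hu hu'
    apply hgn
    rw [mem_cs] at hu'
    have h1 := per_cl N F' u hu (-(u - g)) (N.neg_mem hu')
    have : u + -(u - g) = g := by abel
    rwa [this] at h1
  have hsub : cl N F' ∪ cs N g ⊆ cl N F := by
    apply union_subset
    · exact cl_mono sdiff_subset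
    · intro u hu
      rw [mem_cs] at hu
      rw [mem_cl]
      exact ⟨g, hg, hu⟩
  have h4 := card_le_card hsub
  rw [card_union_of_disjoint hdisj, card_cs] at h4
  have h5 : k * ((cl N F').card + (hs N).card) ≤ k * (cl N F).card := Nat.mul_le_mul_left k h4
  have h6 := card_le_card (subset_cl N F')
  have h7 := card_le_card (hs_mono hMN)
  have h8 : (k + 1) * F'.card ≤ (k + 1) * (cl N F').card := Nat.mul_le_mul_left _ h6
  have h9 : k * ((cl N F').card + (hs N).card) = k * (cl N F').card + k * (hs N).card := by ring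
  have h10 : (k + 1) * (cl N F').card = k * (cl N F').card + (cl N F').card := by ring
  omega

end Pool.Agent.Lib.MPa7239a
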