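import Pool.Agent.Lib.MP_a7239a_co.PolyE

/-!
# The recursion: a periodic obstruction with explicit constants
-/

open scoped Pointwise
open Finset

set_option linter.unusedSectionVars false

namespace Pool.Agent.Lib.MPa7239a

universe u

theorem poly_rec {g₂ t L τ : ℕ} (ht : 3 ≤ t) (hL : 2 * t + g₂ ≤ L) (hτ : 0 < τ) {E n₁ : ℝ}
    (hE0 : 0 < E) (h1 : (L : ℝ) * n₁ ≤ τ * E) (hτE : 16 * n₁ * (τ : ℝ) ≤ E ^ 2)
    (h3 : (t : ℝ) ^ 2 * L ≤ E) : ∀ N : ℕ, ∀ (G : Type u) [AddCommGroup G] [Fintype G]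
    [DecidableEq G], Fintype.card G = N → (N : ℝ) ≤ n₁ →
    (∀ z : G, (univ.filter (fun b : G => b + b = z)).card ≤ g₂) →
    ∀ (B : Finset G) (x : G), (N : ℝ) + 2 * t * E + t * (16 * τ * N / E) ≤ t * B.card →
    ¬ DS B t x →
    ∃ (M : AddSubgroup G) (F : Finset G), Per M F ∧ F.Nonempty ∧ E / 8 ≤ (hs M).card ∧
      ((B \ F).card : ℝ) ≤ 16 * τ * N / E ∧ x ∉ ms F t := by
  intro N
  induction N using Nat.strong_induction_on with
  | _ N IH =>
  intro G _ _ _ hN hNn₁ h2 B x hB hx
  classical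
  have hτ' : (0 : ℝ) < τ := by exact_mod_cast hτ
  have hL0 : (0 : ℝ) ≤ (L : ℝ) := Nat.cast_nonneg _
  have ht3 : (3 : ℝ) ≤ t := by exact_mod_cast ht
  have hNpos : (0 : ℝ) < N := by
    have : 0 < Fintype.card G := Fintype.card_pos
    rw [hN] at this
    exact_mod_cast this
  have hextra : 0 ≤ (t : ℝ) * (16 * τ * N / E) := by positivity
  have h16 : 16 * (N : ℝ) * τ ≤ E ^ 2 := by
    refine le_trans ?_ hτE
    nlinarith
  have h8E : 8 * (τ : ℝ) * N / E ≤ E / 2 := by
    rw [div_le_iff₀ hE0]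
    nlinarith
  have h816 : 8 * (τ : ℝ) * N / E ≤ 16 * τ * N / E := by
    apply div_le_div_of_nonneg_right _ hE0.le
    have : 0 ≤ (τ : ℝ) * N := by positivity
    linarith
  obtain ⟨M, F₁, hMF, hFn, hMtop, hME, hFE, hBF⟩ := level_struct h2 ht hL hτ hE0 (by
    rw [hN]
    refine le_trans ?_ h1
    exact mul_le_mul_of_nonneg_left hNn₁ hL0) (by
    rw [hN]
    nlinarith) h3 (B := B) (x := x) (by
    rw [hN]
    linarith) hx
  rw [hN] at hBF
  by_cases hxF : x ∈ ms F₁ t
  swap
  · exact ⟨M, F₁, hMF, hFn, hME, hBF.trans h816, hxF⟩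
  -- the number of holes
  have hL9 : 9 * (L : ℝ) ≤ E := by
    have : (9 : ℝ) ≤ (t : ℝ) ^ 2 := by nlinarith
    nlinarith
  have hholes : (F₁ \ B).card + (2 * t + g₂) < (hs M).card := by
    have e1 := card_sdiff_add_card_inter F₁ B
    have e2 := card_sdiff_add_card_inter B F₁
    rw [inter_comm] at e2
    have e3 : ((F₁ \ B).card : ℝ) + B.card = F₁.card + (B \ F₁).card := by
      exact_mod_cast (by omega : (F₁ \ B).card + B.card = F₁.card + (B \ F₁).card)
    have e4 : ((2 * t + g₂ : ℕ) : ℝ) ≤ L := by exact_mod_cast hL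
    have e5 : ((F₁ \ B).card : ℝ) + ((2 * t + g₂ : ℕ) : ℝ) < (hs M).card := by linarith
    exact_mod_cast e5
  obtain ⟨g, hg, hx2⟩ := level_dich h2 (by omega) hMF hholes hx hxF
  obtain ⟨k, rfl⟩ : ∃ k, t = k + 1 := ⟨t - 1, by omega⟩
  rw [Nat.add_sub_cancel] at hx2
  have hx1 : x - (k + 1) • g ∈ M := by
    rcases ms_split F₁ (cs M g) k x hxF with h | h
    · exact sub_nsmul_mem inter_subset_right (k + 1) x h
    · exact absurd h hx2
  have hcount := level_count hMF (t := k + 1) (by omega) hg hx1 (by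
    rw [Nat.add_sub_cancel]
    exact hx2)
  rw [hN] at hcount
  set C := cs M g with hC
  -- the subgroup
  have hMcard : Fintype.card M = (hs M).card := by
    rw [← natCard_hs, Nat.card_eq_fintype_card]
  obtain ⟨q, hq⟩ := exists_index M
  rw [hN] at hq
  have hq2 : 2 ≤ q := by
    by_contra hcon
    have hq01 : q = 0 ∨ q = 1 := by omega
    rcases hq01 with h | h
    · rw [h, zero_mul] at hq
      rw [← hq] at hNpos
      simp at hNpos
    · rw [h, one_mul] at hq
      exact hMtop (eq_top_of_card (by rw [hN]; exact hq))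
  have hM2 : 2 * (hs M).card ≤ N := by
    rw [← hq]
    exact Nat.mul_le_mul_right _ hq2
  have hMpos := card_hs_pos M
  have hM2' : 2 * ((hs M).card : ℝ) ≤ N := by exact_mod_cast hM2
  set B' : Finset M := univ.filter (fun a : M => (a : G) + g ∈ B) with hB'
  have hB'c : B'.card = (B ∩ C).card := by
    apply card_bij (fun (a : M) _ => (a : G) + g)
    · intro a ha
      rw [hB', mem_filter] at ha
      rw [mem_inter, hC, mem_cs]
      refine ⟨ha.2, ?_⟩
      have : (a : G) + g - g = a := by abel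
      rw [this]
      exact a.2
    · intro a _ b _ hab
      exact Subtype.val_injective (add_right_cancel hab)
    · intro b hb
      rw [mem_inter, hC, mem_cs] at hb
      refine ⟨⟨b - g, hb.2⟩, ?_, ?_⟩
      · rw [hB', mem_filter]
        refine ⟨mem_univ _, ?_⟩
        show b - g + g ∈ B
        rw [sub_add_cancel]
        exact hb.1
      · show b - g + g = b
        rw [sub_add_cancel]
  have hBsplit : B.card ≤ (B \ F₁).card + (F₁ \ C).card + (B ∩ C).card := by
    have h5 : B ⊆ (B \ F₁) ∪ (F₁ \ C) ∪ (B ∩ C) := by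
      intro b hb
      rw [mem_union, mem_union, mem_sdiff, mem_sdiff, mem_inter]
      by_cases hc : b ∈ C
      · exact Or.inr ⟨hb, hc⟩
      · by_cases hf : b ∈ F₁
        · exact Or.inl (Or.inr ⟨hf, hc⟩)
        · exact Or.inl (Or.inl ⟨hb, hf⟩)
    have h6 := card_le_card h5
    have h7 := card_union_le ((B \ F₁) ∪ (F₁ \ C)) (B ∩ C)
    have h8 := card_union_le (B \ F₁) (F₁ \ C)
    omega
  have hB'low : ((hs M).card : ℝ) + 2 * ((k + 1 : ℕ) : ℝ) * E
      + ((k + 1 : ℕ) : ℝ) * (16 * τ * (hs M).card / E) ≤ ((k + 1 : ℕ) : ℝ) * B'.card := by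
    rw [hB'c]
    have e1 : (B.card : ℝ) ≤ (B \ F₁).card + (F₁ \ C).card + (B ∩ C).card := by
      exact_mod_cast hBsplit
    have e2 : ((k + 1 : ℕ) : ℝ) * (F₁ \ C).card + (hs M).card ≤ N := by exact_mod_cast hcount
    have hk0 : (0 : ℝ) ≤ ((k + 1 : ℕ) : ℝ) := Nat.cast_nonneg _
    have e3 : ((k + 1 : ℕ) : ℝ) * B.card
        ≤ ((k + 1 : ℕ) : ℝ) * ((B \ F₁).card + (F₁ \ C).card + (B ∩ C).card) :=
      mul_le_mul_of_nonneg_left e1 hk0
    have e4 : ((k + 1 : ℕ) : ℝ) * (B \ F₁).card ≤ ((k + 1 : ℕ) : ℝ) * (8 * τ * N / E) :=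
      mul_le_mul_of_nonneg_left hBF hk0
    have e5 : 16 * (τ : ℝ) * (hs M).card / E ≤ 8 * τ * N / E := by
      apply div_le_div_of_nonneg_right _ hE0.le
      nlinarith
    have e6 : ((k + 1 : ℕ) : ℝ) * (16 * τ * (hs M).card / E)
        ≤ ((k + 1 : ℕ) : ℝ) * (8 * τ * N / E) := mul_le_mul_of_nonneg_left e5 hk0
    have e7 : ((k + 1 : ℕ) : ℝ) * (16 * τ * N / E)
        = ((k + 1 : ℕ) : ℝ) * (8 * τ * N / E) + ((k + 1 : ℕ) : ℝ) * (8 * τ * N / E) := by
      ring
    linarith
  set x' : M := ⟨x - (k + 1) • g, hx1⟩ with hx'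
  have hx'n : ¬ DS B' (k + 1) x' := by
    rintro ⟨T, hT, hTc, hTs⟩
    apply hx
    have hinj : Function.Injective (fun a : M => (a : G) + g) := by
      intro a b hab
      exact Subtype.val_injective (add_right_cancel hab)
    refine ⟨T.image (fun a : M => (a : G) + g), ?_, ?_, ?_⟩
    · intro w hw
      rw [mem_image] at hw
      obtain ⟨a, ha, rfl⟩ := hw
      have := hT ha
      rw [hB', mem_filter] at this
      exact this.2
    · rw [card_image_of_injective _ hinj, hTc]
    · rw [sum_image (fun a _ b _ hab => hinj hab), sum_add_distrib, sum_const, hTc]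
      have h3 : ∑ a ∈ T, (a : G) = ((∑ a ∈ T, a : M) : G) := by
        rw [AddSubgroup.val_finsetSum]
      rw [h3, hTs, hx']
      simp
  have h2M : ∀ z : M, (univ.filter (fun b : M => b + b = z)).card ≤ g₂ := by
    intro z
    refine le_trans ?_ (h2 (z : G))
    apply card_le_card_of_injOn (fun b : M => (b : G))
    · intro b hb
      have hb' : b ∈ univ.filter (fun b : M => b + b = z) := hb
      rw [mem_filter] at hb'
      have : (b : G) ∈ univ.filter (fun b : G => b + b = (z : G)) := by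
        rw [mem_filter]
        refine ⟨mem_univ _, ?_⟩
        rw [← hb'.2]
        rfl
      exact this
    · intro a _ b _ hab
      exact Subtype.val_injective hab
  obtain ⟨M₂, F₂, hMF₂, hFn₂, hME₂, hBF₂, hxF₂⟩ := IH (hs M).card (by omega) M hMcard
    (by linarith) h2M B' x' hB'low hx'n
  -- assemble
  set D := F₂.image (fun a : M => (a : G) + g) with hD
  have hDC : D ⊆ C := by
    intro w hw
    rw [hD, mem_image] at hw
    obtain ⟨a, _, rfl⟩ := hw
    rw [hC, mem_cs]
    have : (a : G) + g - g = a := by abel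
    rw [this]
    exact a.2
  have hFC : F₁ \ C ∪ D ⊆ F₁ := union_subset sdiff_subset (hDC.trans (cs_subset hMF hg))
  refine ⟨M₂.map M.subtype, F₁ \ C ∪ D, ?_, ?_, ?_, ?_, ?_⟩
  · have hle : M₂.map M.subtype ≤ M := by
      intro w hw
      rw [AddSubgroup.mem_map] at hw
      obtain ⟨a, _, rfl⟩ := hw
      exact a.2
    intro u hu h hh
    rw [mem_union] at hu ⊢
    rcases hu with hu | hu
    · left
      rw [mem_sdiff] at hu ⊢
      refine ⟨hMF u hu.1 h (hle hh), ?_⟩
      intro hc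
      apply hu.2
      rw [hC, mem_cs] at hc ⊢
      have : u - g = (u + h - g) - h := by abel
      rw [this]
      exact M.sub_mem hc (hle hh)
    · right
      rw [hD, mem_image] at hu ⊢
      obtain ⟨a, ha, rfl⟩ := hu
      rw [AddSubgroup.mem_map] at hh
      obtain ⟨b, hb, rfl⟩ := hh
      refine ⟨a + b, hMF₂ a ha b hb, ?_⟩
      simp only [AddSubgroup.coe_add, AddSubgroup.coe_subtype]
      abel
  · obtain ⟨a, ha⟩ := hFn₂
    exact ⟨(a : G) + g, mem_union_right _ (mem_image.2 ⟨a, ha, rfl⟩)⟩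
  · rw [card_hs_map]
    exact hME₂
  · have h5 : B \ (F₁ \ C ∪ D) ⊆ (B \ F₁) ∪ (B' \ F₂).image (fun a : M => (a : G) + g) := by
      intro b hb
      rw [mem_sdiff, mem_union, not_or] at hb
      rw [mem_union, mem_image]
      by_cases hf : b ∈ F₁
      · right
        have hc : b ∈ C := by
          by_contra hc
          exact hb.2.1 (mem_sdiff.2 ⟨hf, hc⟩)
        have hc' := hc
        rw [hC, mem_cs] at hc'
        refine ⟨⟨b - g, hc'⟩, ?_, ?_⟩
        · rw [mem_sdiff]
          constructor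
          · rw [hB', mem_filter]
            refine ⟨mem_univ _, ?_⟩
            show b - g + g ∈ B
            rw [sub_add_cancel]
            exact hb.1
          · intro hF₂
            apply hb.2.2
            rw [hD, mem_image]
            refine ⟨_, hF₂, ?_⟩
            show b - g + g = b
            rw [sub_add_cancel]
        · show b - g + g = b
          rw [sub_add_cancel]
      · left
        exact mem_sdiff.2 ⟨hb.1, hf⟩
    have h6 := (card_le_card h5).trans (card_union_le _ _)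
    have h7 : ((B' \ F₂).image (fun a : M => (a : G) + g)).card ≤ (B' \ F₂).card := card_image_le
    have h8 : ((B \ (F₁ \ C ∪ D)).card : ℝ) ≤ (B \ F₁).card + (B' \ F₂).card := by
      exact_mod_cast h6.trans (Nat.add_le_add_left h7 _)
    have h9 : 16 * (τ : ℝ) * (hs M).card / E ≤ 8 * τ * N / E := by
      apply div_le_div_of_nonneg_right _ hE0.le
      nlinarith
    have h10 : 16 * (τ : ℝ) * N / E = 8 * τ * N / E + 8 * τ * N / E := by ring
    linarith
  · intro hxin
    rcases ms_split (F₁ \ C ∪ D) C k x hxin with h | h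
    · have h5 : (F₁ \ C ∪ D) ∩ C ⊆ D := by
        intro w hw
        rw [mem_inter, mem_union, mem_sdiff] at hw
        rcases hw.1 with h6 | h6
        · exact absurd hw.2 h6.2
        · exact h6
      have h6 := ms_mono h5 (k + 1) h
      obtain ⟨z, hz, hxz⟩ := ms_image F₂ g (k + 1) x h6
      apply hxF₂
      have h7 : x' = z := by
        apply Subtype.val_injective
        rw [hx']
        show x - (k + 1) • g = z
        rw [hxz]
        abel
      rw [h7]
      exact hz
    · apply hx2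
      refine add_subset_add ?_ (ms_mono hFC k) h
      exact sdiff_subset_sdiff hFC Subset.rfl

/-- **The main lemma with explicit constants.** -/
theorem main_poly {g₂ t L τ : ℕ} (ht : 3 ≤ t) (hL : 2 * t + g₂ ≤ L) (hτ : 0 < τ) {E n₁ : ℝ}
    (hE0 : 0 < E) (h1 : (L : ℝ) * n₁ ≤ τ * E) (hτE : 16 * n₁ * (τ : ℝ) ≤ E ^ 2)
    (h3 : (t : ℝ) ^ 2 * L ≤ E) (G : Type u) [AddCommGroup G] [Fintype G]
    [DecidableEq G] (hN : (Fintype.card G : ℝ) ≤ n₁)
    (h2 : ∀ z : G, (univ.filter (fun b : G => b + b = z)).card ≤ g₂)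
    (B : Finset G) (x : G) (hB : (Fintype.card G : ℝ) + 3 * t * E ≤ t * B.card)
    (hx : ¬ DS B t x) :
    ∃ (M : AddSubgroup G) (F : Finset G), Per M F ∧ F.Nonempty ∧ E / 8 ≤ (hs M).card ∧
      ((B \ F).card : ℝ) ≤ 16 * τ * Fintype.card G / E ∧ x ∉ ms F t ∧
      t * F.card + (hs M).card ≤ Fintype.card G + (t - 1) * (hs M).card := by
  have hτ' : (0 : ℝ) < τ := by exact_mod_cast hτ
  have h16 : 16 * (τ : ℝ) * Fintype.card G / E ≤ E := by
    rw [div_le_iff₀ hE0]
    have : 16 * (Fintype.card G : ℝ) * τ ≤ E ^ 2 := by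
      refine le_trans ?_ hτE
      nlinarith
    nlinarith
  have ht0 : (0 : ℝ) ≤ t := Nat.cast_nonneg _
  obtain ⟨K, F₀, hKF, hFn, hKE, hBF, hxF⟩ := poly_rec ht hL hτ hE0 h1 hτE h3 (Fintype.card G) G rfl
    hN h2 B x (by
      have : (t : ℝ) * (16 * τ * Fintype.card G / E) ≤ t * E := mul_le_mul_of_nonneg_left h16 ht0
      linarith) hx
  obtain ⟨M, F, hKM, hMF, hF0, hxF', hcF⟩ := kneser_ms hFn (by omega) hxF hKF
  refine ⟨M, F, hMF, hFn.mono hF0, ?_, ?_, hxF', hcF⟩
  · refine hKE.trans ?_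
    exact_mod_cast card_le_card (hs_mono hKM)
  · refine le_trans ?_ hBF
    exact_mod_cast card_le_card (sdiff_subset_sdiff Subset.rfl hF0)

end Pool.Agent.Lib.MPa7239a
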