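import Pool.Agent.Lib.MP_a7239a_co.Upper

/-!
# The upper bound, assembled
-/

open scoped Pointwise
open Finset

set_option linter.unusedSectionVars false

namespace Pool.Agent.Lib.MPa7239a

universe u

variable {G : Type u} [AddCommGroup G] [Fintype G] [DecidableEq G]

theorem card_sdiff_translate (A : Finset G) (K : AddSubgroup G) (g h : G) :
    ((A.image (fun a => a + -g)) \ cs K h).card = (A \ cs K (h + g)).card := by
  have : (A.image (fun a => a + -g)) \ cs K h = (A \ cs K (h + g)).image (fun a => a + -g) := by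
    ext x
    rw [mem_sdiff, mem_image, mem_image]
    constructor
    · rintro ⟨⟨a, ha, rfl⟩, hx⟩
      refine ⟨a, ?_, rfl⟩
      rw [mem_sdiff]
      refine ⟨ha, ?_⟩
      intro hc
      apply hx
      rw [mem_cs] at hc ⊢
      have : a + -g - h = a - (h + g) := by abel
      rwa [this]
    · rintro ⟨a, ha, rfl⟩
      rw [mem_sdiff] at ha
      refine ⟨⟨a, ha.1, rfl⟩, ?_⟩
      intro hc
      apply ha.2
      rw [mem_cs] at hc ⊢
      have : a + -g - h = a - (h + g) := by abel
      rwa [this] at hc
  rw [this, card_image_of_injective _ (add_left_injective (-g))]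

theorem cs_zero (K : AddSubgroup G) : cs K 0 = hs K := by
  ext x
  rw [mem_cs, mem_hs, sub_zero]

/-- **The upper bound**, in terms of a periodic obstruction. -/
theorem upper_periodic (m : ℕ) (hm : 3 ≤ m) :
    ∃ κ₀ : ℕ, ∀ (G : Type u) [AddCommGroup G] [Fintype G] [DecidableEq G],
    κ₀ ≤ AddMonoid.exponent G → Fintype.card G = m * AddMonoid.exponent G →
    ∀ (A : Finset G) (t : ℕ), m + 1 ≤ t → t ≤ 2 * m → A.card = AddMonoid.exponent G + t →
    WZF (AddMonoid.exponent G) A →
    ∃ (M : AddSubgroup G) (F : Finset G) (x : G), Per M F ∧ F.Nonempty ∧ x ∉ ms F t ∧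
      t * F.card + (hs M).card ≤ Fintype.card G + (t - 1) * (hs M).card ∧
      AddMonoid.exponent G < F.card ∧
      ∀ (K : AddSubgroup G) (g : G), F ⊆ cs K g → K = ⊤ := by
  have hmpos : (0 : ℝ) < m := by
    have : 0 < m := by omega
    exact_mod_cast this
  have hm3 : (3 : ℝ) ≤ m := by exact_mod_cast hm
  set c₂ : ℝ := 1 / (32 * (m : ℝ) ^ 5) with hc₂
  set c₁ : ℝ := 1 / (64 * (m : ℝ) ^ 5) with hc₁
  have hc₁pos : 0 < c₁ := by positivity
  have hc₂pos : 0 < c₂ := by positivity
  have h12 : c₁ < c₂ := by
    rw [hc₁, hc₂]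
    apply one_div_lt_one_div_of_lt (by positivity)
    have : 0 < (m : ℝ) ^ 5 := by positivity
    linarith
  obtain ⟨n₁, H1⟩ := nonconc.{u} m hm c₁ c₂ hc₁pos h12 (by
    rw [hc₁]
    rw [mul_one_div, div_le_one (by positivity)]
    have e1 : (m : ℝ) ^ 3 ≤ m ^ 5 := pow_le_pow_right₀ (by linarith) (by norm_num)
    have : 0 < (m : ℝ) ^ 5 := by positivity
    linarith)
  obtain ⟨n₂, H2⟩ := conc.{u} m hm c₁ c₂ hc₁pos h12 (by
    rw [hc₂]
    rw [mul_one_div, div_self (by positivity)])
  refine ⟨max n₁ n₂, ?_⟩
  intro G _ _ _ hκ hn A t ht1 ht2 hAc hw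
  classical
  set κ := AddMonoid.exponent G with hκdef
  have hκ1 : n₁ ≤ κ := (le_max_left _ _).trans hκ
  have hκ2 : n₂ ≤ κ := (le_max_right _ _).trans hκ
  have hκpos : 0 < κ := AddMonoid.exponent_pos.2 (AddMonoid.ExponentExists.of_finite)
  have h2 := card_double hn
  set n : ℝ := (Fintype.card G : ℝ) with hnR
  have hnmk : n = m * κ := by
    rw [hnR, hn]
    push_cast
    ring
  have hκR : (0 : ℝ) < κ := by exact_mod_cast hκpos
  have hnpos : 0 < n := by
    rw [hnmk]
    positivity
  -- the most concentrated coset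
  let P : ℕ → Prop := fun q => ∃ (K : AddSubgroup G) (g : G), q * (hs K).card = Fintype.card G ∧
    ((A \ cs K g).card : ℝ) ≤ c₂ * ((q : ℝ) - 1) * n
  have hP1 : P 1 := by
    refine ⟨⊤, 0, ?_, ?_⟩
    · rw [one_mul, hs_top_card]
    · have : A \ cs ⊤ 0 = ∅ := by
        rw [sdiff_eq_empty_iff_subset]
        intro x _
        rw [mem_cs]
        trivial
      rw [this]
      simp
  set q := Nat.findGreatest P m with hq
  have hPq : P q := Nat.findGreatest_spec (P := P) (by omega : 1 ≤ m) hP1
  have hqm : q ≤ m := Nat.findGreatest_le m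
  have hq1 : 1 ≤ q := Nat.le_findGreatest (by omega) hP1
  have hqmax : ∀ q', q < q' → q' ≤ m → ¬ P q' := by
    intro q' h1 h3
    exact Nat.findGreatest_is_greatest h1 h3
  obtain ⟨K, g, hqK, hAK⟩ := hPq
  have hNC : ∀ (K' : AddSubgroup G) (g' : G), (hs K').card < (hs K).card →
      c₂ * q * n ≤ ((A \ cs K' g').card : ℝ) := by
    intro K' g' hlt
    obtain ⟨q', hq'⟩ := exists_index K'
    have hK'pos := card_hs_pos K'
    have hqq' : q < q' := by
      by_contra hcon
      push Not at hcon
      have h3 : q' * (hs K').card ≤ q * (hs K').card := Nat.mul_le_mul_right _ hcon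
      have h4 : q * (hs K').card < q * (hs K).card := Nat.mul_lt_mul_of_pos_left hlt (by omega)
      omega
    rcases Nat.lt_or_ge m q' with hmq | hmq
    · have h3 : (m + 1) * (hs K').card ≤ Fintype.card G := by
        rw [← hq']
        exact Nat.mul_le_mul_right _ hmq
      have h4 : ((m : ℝ) + 1) * (hs K').card ≤ n := by
        rw [hnR]
        exact_mod_cast h3
      have h5 : (A.card : ℝ) ≤ (A \ cs K' g').card + (hs K').card := by
        have e1 := card_sdiff_add_card_inter A (cs K' g')
        have e2 := card_le_card (inter_subset_right (s₁ := A) (s₂ := cs K' g'))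
        rw [card_cs] at e2
        exact_mod_cast (by omega : A.card ≤ (A \ cs K' g').card + (hs K').card)
      have h6 : (κ : ℝ) ≤ A.card := by
        rw [hAc]
        push_cast
        have ht0 : (0 : ℝ) ≤ t := Nat.cast_nonneg _
        linarith
      have h7 : ((hs K').card : ℝ) ≤ n / (m + 1) := by
        rw [le_div_iff₀ (by positivity)]
        linarith
      have h8 : c₂ * q * n ≤ κ - n / (m + 1) := by
        have e1 : κ - n / (m + 1) = κ * (1 / (m + 1)) := by
          rw [hnmk]
          field_simp
          ring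
        rw [e1, hnmk]
        have e2 : c₂ * q * (m * κ) = κ * (c₂ * q * m) := by ring
        rw [e2]
        apply mul_le_mul_of_nonneg_left _ hκR.le
        have hqm' : (q : ℝ) ≤ m := by exact_mod_cast hqm
        have e3 : c₂ * q * m ≤ c₂ * (m * m) := by
          rw [mul_assoc]
          apply mul_le_mul_of_nonneg_left _ hc₂pos.le
          exact mul_le_mul_of_nonneg_right hqm' hmpos.le
        refine e3.trans ?_
        rw [hc₂, div_mul_eq_mul_div, one_mul, div_le_div_iff₀ (by positivity) (by positivity)]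
        have e4 : (m : ℝ) * m * (m + 1) ≤ 32 * m ^ 5 := by
          have a1 : (m : ℝ) + 1 ≤ 32 * m ^ 3 := by
            have : (m : ℝ) ^ 1 ≤ m ^ 3 := pow_le_pow_right₀ (by linarith) (by norm_num)
            rw [pow_one] at this
            linarith
          calc (m : ℝ) * m * (m + 1) ≤ m * m * (32 * m ^ 3) := by
                apply mul_le_mul_of_nonneg_left a1 (by positivity)
            _ = 32 * m ^ 5 := by ring
        linarith
      linarith
    · have h3 := hqmax q' hqq' hmq
      have h4 : ¬ ((A \ cs K' g').card : ℝ) ≤ c₂ * ((q' : ℝ) - 1) * n := by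
        intro h
        exact h3 ⟨K', g', hq', h⟩
      push Not at h4
      refine le_trans ?_ h4.le
      apply mul_le_mul_of_nonneg_right _ hnpos.le
      apply mul_le_mul_of_nonneg_left _ hc₂pos.le
      have : ((q + 1 : ℕ) : ℝ) ≤ q' := by exact_mod_cast hqq'
      push_cast at this
      linarith
  rcases Nat.lt_or_ge q 2 with hq2 | hq2
  · -- non-concentrated
    have hq1' : q = 1 := by omega
    have hKn : (hs K).card = Fintype.card G := by
      rw [hq1', one_mul] at hqK
      exact hqK
    have hNC' : ∀ (K' : AddSubgroup G) (g' : G), (hs K').card < Fintype.card G →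
        c₂ * n ≤ ((A \ cs K' g').card : ℝ) := by
      intro K' g' hlt
      have := hNC K' g' (by rw [hKn]; exact hlt)
      rw [hq1'] at this
      simpa using this
    obtain ⟨M, F, hMF, hFn, hAF, hxF, hcF, hκF⟩ := H1 G κ hκ1 hn h2 A t (∑ a ∈ A, a) ht1 ht2 hAc
      (not_DS_of_WZF hAc hw) hNC'
    refine ⟨M, F, _, hMF, hFn, hxF, hcF, hκF, ?_⟩
    intro K' g' hsub
    by_contra hne
    have hlt : (hs K').card < Fintype.card G := by
      by_contra h
      have hle : (hs K').card ≤ Fintype.card G := card_le_univ _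
      exact hne (eq_top_of_card (by omega))
    have h3 := hNC' K' g' hlt
    have h4 : ((A \ cs K' g').card : ℝ) ≤ (A \ F).card := by
      exact_mod_cast card_le_card (sdiff_subset_sdiff Subset.rfl hsub)
    have h5 : c₁ * n < c₂ * n := mul_lt_mul_of_pos_right h12 hnpos
    linarith
  · -- concentrated
    exfalso
    apply H2 G κ hκ2 hn h2 (A.image (fun a => a + -g)) t ht1 ht2 _ _ K q hq2 hqm hqK
    · rw [← cs_zero, card_sdiff_translate, zero_add]
      exact hAK
    · intro K' g' hlt
      rw [card_sdiff_translate]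
      exact hNC K' _ hlt
    · rw [card_translate, hAc]
    · apply not_DS_of_WZF (h := κ)
      · rw [card_translate, hAc]
      · apply WZF_translate _ _ hw
        rw [hκdef]
        exact AddMonoid.exponent_nsmul_eq_zero _

end Pool.Agent.Lib.MPa7239a
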