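import Pool.Agent.Lib.MP_a7239a_co.PolyF
import Pool.Agent.Lib.MP_a7239a_co.UpperB

/-!
# The upper bound with an explicit threshold
-/

open scoped Pointwise
open Finset

set_option linter.unusedSectionVars false

namespace Pool.Agent.Lib.MPa7239a

universe u

theorem main_m {m : ℕ} (hm : 3 ≤ m) {κ : ℕ} (hκ : 165888 * m ^ 6 ≤ κ) (G : Type u)
    [AddCommGroup G] [Fintype G] [DecidableEq G] (hn : Fintype.card G ≤ m * κ)
    (h2 : ∀ z : G, (univ.filter (fun b : G => b + b = z)).card ≤ 2 * m)
    (A : Finset G) (t : ℕ) (x : G) (ht3 : 3 ≤ t) (ht2 : t ≤ 2 * m)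
    (hA : 2 * Fintype.card G + κ ≤ 2 * t * A.card) (hx : ¬ DS A t x) :
    ∃ (M : AddSubgroup G) (F : Finset G), Per M F ∧ F.Nonempty ∧ κ ≤ 96 * m * (hs M).card ∧
      (A \ F).card ≤ 13824 * m ^ 5 ∧ x ∉ ms F t ∧
      t * F.card + (hs M).card ≤ Fintype.card G + (t - 1) * (hs M).card := by
  have hmpos : (0 : ℝ) < m := by
    have : 0 < m := by omega
    exact_mod_cast this
  have hm3 : (3 : ℝ) ≤ m := by exact_mod_cast hm
  have hκR : 165888 * (m : ℝ) ^ 6 ≤ κ := by exact_mod_cast hκ
  have hκpos : (0 : ℝ) < κ := by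
    have : (0 : ℝ) < (m : ℝ) ^ 6 := by positivity
    linarith
  have hnR : (Fintype.card G : ℝ) ≤ m * κ := by exact_mod_cast hn
  have htR : (t : ℝ) ≤ 2 * m := by exact_mod_cast ht2
  have ht0 : (0 : ℝ) ≤ t := Nat.cast_nonneg _
  set E : ℝ := κ / (12 * m) with hE
  have hEm : E * (12 * m) = κ := by
    rw [hE]
    field_simp
  have hE0 : 0 < E := by positivity
  obtain ⟨M, F, hMF, hFn, hME, hAF, hxF, hcF⟩ := main_poly (g₂ := 2 * m) (t := t) (L := 6 * m)
    (τ := 72 * m ^ 3) (E := E) (n₁ := m * κ) ht3 (by omega) (by positivity) hE0 (by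
      push_cast
      have e1 : 72 * (m : ℝ) ^ 3 * E = 6 * m * m * (E * (12 * m)) := by ring
      rw [e1, hEm]
      apply le_of_eq
      ring) (by
      push_cast
      have e1 : E ^ 2 * (144 * m ^ 2) = (κ : ℝ) ^ 2 := by
        rw [← hEm]
        ring
      have e2 : 16 * (m * κ) * (72 * (m : ℝ) ^ 3) * (144 * m ^ 2) ≤ E ^ 2 * (144 * m ^ 2) := by
        rw [e1]
        have e3 : 16 * (m * κ) * (72 * (m : ℝ) ^ 3) * (144 * m ^ 2) = 165888 * (m : ℝ) ^ 6 * κ := by
          ring
        rw [e3, sq]
        exact mul_le_mul_of_nonneg_right hκR hκpos.le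
      exact le_of_mul_le_mul_right e2 (by positivity)) (by
      push_cast
      have e1 : (t : ℝ) ^ 2 * (6 * m) ≤ 24 * m ^ 3 := by
        have : (t : ℝ) ^ 2 ≤ (2 * m) ^ 2 := by nlinarith
        nlinarith
      have e2 : 24 * (m : ℝ) ^ 3 * (12 * m) ≤ E * (12 * m) := by
        rw [hEm]
        have e3 : 24 * (m : ℝ) ^ 3 * (12 * m) = 288 * m ^ 4 := by ring
        rw [e3]
        have e4 : (m : ℝ) ^ 4 ≤ m ^ 6 := pow_le_pow_right₀ (by linarith) (by norm_num)
        have e5 : (0 : ℝ) < (m : ℝ) ^ 4 := by positivity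
        linarith
      exact e1.trans (le_of_mul_le_mul_right e2 (by positivity))) G hnR h2 A x (by
      have e1 : 2 * (Fintype.card G : ℝ) + κ ≤ 2 * t * A.card := by exact_mod_cast hA
      have e2 : 3 * (t : ℝ) * E ≤ 3 * (2 * m) * E := by
        apply mul_le_mul_of_nonneg_right _ hE0.le
        linarith
      have e3 : 3 * (2 * (m : ℝ)) * E = κ / 2 := by
        rw [← hEm]
        ring
      linarith) hx
  refine ⟨M, F, hMF, hFn, ?_, ?_, hxF, hcF⟩
  · have e1 : (κ : ℝ) ≤ 96 * m * (hs M).card := by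
      rw [← hEm]
      nlinarith
    exact_mod_cast e1
  · have e1 : ((A \ F).card : ℝ) ≤ 13824 * m ^ 5 := by
      refine hAF.trans ?_
      rw [div_le_iff₀ hE0]
      push_cast
      have e2 : 16 * (72 * (m : ℝ) ^ 3) * Fintype.card G ≤ 16 * (72 * (m : ℝ) ^ 3) * (m * κ) :=
        mul_le_mul_of_nonneg_left hnR (by positivity)
      have e3 : 13824 * (m : ℝ) ^ 5 * E = 16 * (72 * (m : ℝ) ^ 3) * (m * (E * (12 * m))) := by ring
      rw [e3, hEm]
      exact e2
    exact_mod_cast e1

variable {G : Type u} [AddCommGroup G] [Fintype G] [DecidableEq G]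

theorem two_le_cosets {M : AddSubgroup G} {F : Finset G} (hMF : Per M F) (hFn : F.Nonempty)
    {t : ℕ} (ht : 1 ≤ t) {x : G} (hxF : x ∉ ms F t) {w : ℕ} (hw : F.card = (hs M).card * w)
    (hone : ∀ g, (hs M).card < Fintype.card G → F ≠ cs M g) : 2 ≤ w := by
  by_contra hcon
  have hw1 : w = 0 ∨ w = 1 := by omega
  rcases hw1 with hw1 | hw1
  · rw [hw1, mul_zero, card_eq_zero] at hw
    rw [hw] at hFn
    exact not_nonempty_empty hFn
  · rw [hw1, mul_one] at hw
    obtain ⟨g, hg⟩ := one_coset hMF hw
    have hMn : (hs M).card < Fintype.card G := by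
      by_contra h
      have hle : (hs M).card ≤ Fintype.card G := card_le_univ _
      have htop := eq_top_of_card (by omega : (hs M).card = Fintype.card G)
      apply hxF
      obtain ⟨y, hy⟩ := ms_nonempty hFn t
      obtain ⟨s, rfl⟩ : ∃ s, t = s + 1 := ⟨t - 1, by omega⟩
      have hper : Per M (ms F (s + 1)) := by
        show Per M (ms F s + F)
        exact hMF.add_left _
      have := hper y hy (x - y) (by rw [htop]; trivial)
      simpa using this
    exact hone g hMn hg

theorem pow_bound {m : ℕ} (hm : 3 ≤ m) (a b : ℕ) (hab : a ≤ b) : m ^ a ≤ m ^ b :=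
  Nat.pow_le_pow_right (by omega) hab

/-- **The non-concentrated case.** -/
theorem nonconc' (m : ℕ) (hm : 3 ≤ m) (κ : ℕ) (hκ : 2 ^ 16 * m ^ 7 ≤ κ)
    (hn : Fintype.card G = m * κ)
    (h2 : ∀ z : G, (univ.filter (fun b : G => b + b = z)).card ≤ 2 * m)
    (A : Finset G) (t : ℕ) (x : G) (ht1 : m + 1 ≤ t) (ht2 : t ≤ 2 * m) (hAc : A.card = κ + t)
    (hx : ¬ DS A t x)
    (hnc : ∀ (K : AddSubgroup G) (g : G), (hs K).card < Fintype.card G →
      13824 * m ^ 5 < (A \ cs K g).card) :
    ∃ (M : AddSubgroup G) (F : Finset G), Per M F ∧ F.Nonempty ∧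
      (A \ F).card ≤ 13824 * m ^ 5 ∧ x ∉ ms F t ∧
      t * F.card + (hs M).card ≤ Fintype.card G + (t - 1) * (hs M).card ∧ κ < F.card := by
  have hmpos : 0 < m := by omega
  have hm67 : 3 * m ^ 6 ≤ m ^ 7 := by
    have e1 : m ^ 7 = m ^ 6 * m := by ring
    rw [e1]
    nlinarith [Nat.zero_le (m ^ 6)]
  have hκpos : 0 < κ := by
    have : 0 < m ^ 7 := by positivity
    omega
  obtain ⟨M, F, hMF, hFn, hMκ', hAF, hxF, hcF⟩ := main_m (κ := κ) hm (by omega) G (by omega) h2 A t x
    (by omega) ht2 (by
      rw [hn, hAc]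
      have e1 : (m + 1) * κ ≤ t * κ := Nat.mul_le_mul_right _ ht1
      have e2 : 2 * t * (κ + t) = 2 * (t * κ) + 2 * (t * t) := by ring
      have e3 : (m + 1) * κ = m * κ + κ := by ring
      omega) hx
  obtain ⟨w, hw⟩ := dvd_card_of_per hMF
  set Q := Nat.card (G ⧸ M) with hQ
  have hnQ : Fintype.card G = Q * (hs M).card := card_eq_index_mul M
  have hMpos := card_hs_pos M
  have hw2 : 2 ≤ w := two_le_cosets hMF hFn (by omega) hxF hw (by
    intro g hlt hFg
    have h3 := hnc M g hlt
    rw [← hFg] at h3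
    omega)
  have hAFc : A.card ≤ F.card + 13824 * m ^ 5 := by
    have h3 := card_sdiff_add_card_inter A F
    have h4 := card_le_card (inter_subset_right (s₁ := A) (s₂ := F))
    omega
  have hMκ : κ ≤ 2 * m * (hs M).card + 27648 * m ^ 6 := by
    have e1 : t * A.card ≤ t * (F.card + 13824 * m ^ 5) := Nat.mul_le_mul_left _ hAFc
    have e2 : t * (F.card + 13824 * m ^ 5) = t * F.card + t * (13824 * m ^ 5) := by ring
    have e3 : t * (13824 * m ^ 5) ≤ 2 * m * (13824 * m ^ 5) := Nat.mul_le_mul_right _ ht2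
    have e4 : 2 * m * (13824 * m ^ 5) = 27648 * m ^ 6 := by ring
    have e5 : (t - 1) * (hs M).card ≤ 2 * m * (hs M).card := Nat.mul_le_mul_right _ (by omega)
    have e6 : t * A.card = t * κ + t * t := by
      rw [hAc]
      ring
    have e7 : (m + 1) * κ ≤ t * κ := Nat.mul_le_mul_right _ ht1
    have e8 : (m + 1) * κ = m * κ + κ := by ring
    omega
  have hmw : Q ≤ m * w := by
    by_contra hcon
    push Not at hcon
    have h3 : (m * w + 1) * (hs M).card ≤ Q * (hs M).card := Nat.mul_le_mul_right _ hcon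
    rw [← hnQ, hn] at h3
    have h4 : (m * w + 1) * (hs M).card = m * F.card + (hs M).card := by
      rw [hw]
      ring
    rw [h4] at h3
    have h5 : m * κ ≤ m * (F.card + 13824 * m ^ 5) := by
      apply Nat.mul_le_mul_left
      omega
    have h6 : m * (F.card + 13824 * m ^ 5) = m * F.card + 13824 * m ^ 6 := by ring
    have h7 : (hs M).card ≤ 13824 * m ^ 6 := by omega
    have h8 : 2 * m * (hs M).card ≤ 2 * m * (13824 * m ^ 6) := Nat.mul_le_mul_left _ h7
    have h9 : 2 * m * (13824 * m ^ 6) = 27648 * m ^ 7 := by ring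
    have h11 : 0 < m ^ 7 := by positivity
    omega
  rcases lt_or_eq_of_le hmw with hlt | heq
  · refine ⟨M, F, hMF, hFn, hAF, hxF, hcF, ?_⟩
    have h3 : Fintype.card G < m * F.card := by
      rw [hnQ, hw]
      have : Q * (hs M).card < (m * w) * (hs M).card := Nat.mul_lt_mul_of_pos_right hlt hMpos
      calc Q * (hs M).card < (m * w) * (hs M).card := this
        _ = m * ((hs M).card * w) := by ring
    rw [hn] at h3
    exact Nat.lt_of_mul_lt_mul_left h3
  · -- the critical case
    have hFκ : F.card = κ := by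
      have h3 : m * F.card = m * κ := by
        rw [← hn, hnQ, hw, heq]
        ring
      exact Nat.eq_of_mul_eq_mul_left (by omega) h3
    set d := (F \ A).card with hd
    have hd' : d ≤ 13824 * m ^ 5 := by
      have h3 := card_sdiff_add_card_inter A F
      have h4 := card_sdiff_add_card_inter F A
      rw [inter_comm] at h4
      omega
    have hbig : 2 * d + 2 * t + 2 * m < (hs M).card := by
      by_contra hcon
      push Not at hcon
      have h7 : (hs M).card ≤ 27648 * m ^ 5 + 6 * m := by omega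
      have h8 : 2 * m * (hs M).card ≤ 2 * m * (27648 * m ^ 5 + 6 * m) :=
        Nat.mul_le_mul_left _ h7
      have h9 : 2 * m * (27648 * m ^ 5 + 6 * m) = 55296 * m ^ 6 + 12 * m ^ 2 := by ring
      have h10 : m ^ 2 ≤ m ^ 6 := pow_bound hm 2 6 (by norm_num)
      have h11 : 0 < m ^ 6 := by positivity
      omega
    obtain ⟨N, F', hNF', hFF', hxF', hcF', hκF'⟩ := phase2 h2 hMF hκpos hn ht1 (by omega)
      hFκ hAc hx (le_refl d) hbig
    refine ⟨N, F', hNF', hFn.mono hFF', ?_, hxF', hcF', hκF'⟩
    refine le_trans ?_ hAF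
    exact card_le_card (sdiff_subset_sdiff Subset.rfl hFF')

/-- **The concentrated case.** -/
theorem conc' (m : ℕ) (hm : 3 ≤ m) (κ : ℕ) (hκ : 2 ^ 16 * m ^ 7 ≤ κ)
    (hn : Fintype.card G = m * κ)
    (h2 : ∀ z : G, (univ.filter (fun b : G => b + b = z)).card ≤ 2 * m)
    (A : Finset G) (t : ℕ) (ht1 : m + 1 ≤ t) (ht2 : t ≤ 2 * m) (hAc : A.card = κ + t)
    (hx : ¬ DS A t (∑ a ∈ A, a))
    (K : AddSubgroup G) (q : ℕ) (hq2 : 2 ≤ q) (hqm : q ≤ m)
    (hqK : q * (hs K).card = Fintype.card G)
    (hAK : (A \ hs K).card ≤ 13824 * m ^ 5 * (q - 1))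
    (hnc : ∀ (K' : AddSubgroup G) (g : G), (hs K').card < (hs K).card →
      13824 * m ^ 5 * q < (A \ cs K' g).card) : False := by
  classical
  have hmpos : 0 < m := by omega
  -- the group `K`
  have hKcard : Fintype.card K = (hs K).card := by
    rw [← natCard_hs, Nat.card_eq_fintype_card]
  have hqK' : q * Fintype.card K = m * κ := by rw [hKcard, hqK, hn]
  have hKle : Fintype.card K ≤ m * κ := by
    rw [← hqK']
    exact Nat.le_mul_of_pos_left _ (by omega)
  set W := 13824 * m ^ 5 with hW
  have hm67 : 3 * m ^ 6 ≤ m ^ 7 := by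
    have e1 : m ^ 7 = m ^ 6 * m := by ring
    rw [e1]
    nlinarith [Nat.zero_le (m ^ 6)]
  have hWm : W * m = 13824 * m ^ 6 := by
    rw [hW]
    ring
  have hWm2 : W * m ^ 2 = 13824 * m ^ 7 := by
    rw [hW]
    ring
  have hm7 : 0 < m ^ 7 := by positivity
  have hWpos : 0 < W := by positivity
  have hWmκ : 4 * (W * m) ≤ κ := by omega
  have hWq : W * (q - 1) ≤ W * m := Nat.mul_le_mul_left _ (by omega)
  have hWm1 : m ≤ W * m := Nat.le_mul_of_pos_left _ hWpos
  -- the small set `S`
  obtain ⟨S, hSB, hSq, hSsum⟩ := exists_small_subset hqK (A \ hs K)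
  have hSt : S.card ≤ t := by omega
  set t₀ := t - S.card with ht₀
  set A₀ : Finset K := A.subtype (· ∈ K) with hA₀
  have hA₀c : A₀.card = (A ∩ hs K).card := by
    rw [hA₀, card_subtype]
    congr 1
    ext x
    simp
  have hAsplit : (A ∩ hs K).card + (A \ hs K).card = A.card := by
    have := card_sdiff_add_card_inter A (hs K)
    omega
  have hsumA : ∑ a ∈ A, a = ∑ a ∈ A ∩ hs K, a + ∑ a ∈ A \ hs K, a := by
    rw [← sum_inter_add_sum_sdiff A (hs K)]
  set x := ∑ a ∈ A, a with hxdef
  have hx0K : x - ∑ s ∈ S, s ∈ K := by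
    have h3 : x - ∑ s ∈ S, s = ∑ a ∈ A ∩ hs K, a + (∑ a ∈ A \ hs K, a - ∑ s ∈ S, s) := by
      rw [hsumA]
      abel
    rw [h3]
    apply K.add_mem _ hSsum
    apply K.sum_mem
    intro a ha
    rw [mem_inter, mem_hs] at ha
    exact ha.2
  set x₀ : K := ⟨x - ∑ s ∈ S, s, hx0K⟩ with hx₀
  have hx₀n : ¬ DS A₀ t₀ x₀ := by
    rintro ⟨T, hT, hTc, hTs⟩
    apply hx
    set T' : Finset G := T.image (fun a : K => (a : G)) with hT'
    have hT'A : ∀ a ∈ T', a ∈ A ∧ a ∈ K := by
      intro a ha
      rw [hT', mem_image] at ha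
      obtain ⟨b, hb, rfl⟩ := ha
      have := hT hb
      rw [hA₀, mem_subtype] at this
      exact ⟨this, b.2⟩
    have hdisj : Disjoint T' S := by
      rw [Finset.disjoint_left]
      intro a ha ha'
      have h3 := hSB ha'
      rw [mem_sdiff, mem_hs] at h3
      exact h3.2 (hT'A a ha).2
    refine ⟨T' ∪ S, ?_, ?_, ?_⟩
    · apply union_subset
      · intro a ha
        exact (hT'A a ha).1
      · exact hSB.trans sdiff_subset
    · rw [card_union_of_disjoint hdisj, hT', card_image_of_injective _ Subtype.val_injective, hTc]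
      omega
    · rw [sum_union hdisj, hT', sum_image (fun a _ b _ hab => Subtype.val_injective hab)]
      have h3 : ∑ a ∈ T, (a : G) = ((∑ a ∈ T, a : K) : G) := by
        rw [AddSubgroup.val_finsetSum]
      rw [h3, hTs, hx₀]
      simp
  have h2K : ∀ z : K, (univ.filter (fun b : K => b + b = z)).card ≤ 2 * m := by
    intro z
    refine le_trans ?_ (h2 (z : G))
    apply card_le_card_of_injOn (fun b : K => (b : G))
    · intro b hb
      have hb' : b ∈ univ.filter (fun b : K => b + b = z) := hb
      rw [mem_filter] at hb'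
      have : (b : G) ∈ univ.filter (fun b : G => b + b = (z : G)) := by
        rw [mem_filter]
        refine ⟨mem_univ _, ?_⟩
        rw [← hb'.2]
        rfl
      exact this
    · intro a _ b _ hab
      exact Subtype.val_injective hab
  -- lower bound for the size of `A₀`
  have hA₀low : κ + t ≤ A₀.card + W * (q - 1) := by omega
  have ht₀q : m + 2 ≤ t₀ + q := by omega
  rcases Nat.lt_or_ge t₀ 3 with ht3 | ht3
  · -- `t₀ = 2`, `q = m`
    have ht₀2 : t₀ = 2 := by omega
    have hqm2 : q = m := by omega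
    rw [ht₀2] at hx₀n
    apply hx₀n
    apply two_dense h2K
    have hKκ : Fintype.card K = κ := by
      rw [hqm2] at hqK'
      exact Nat.eq_of_mul_eq_mul_left (by omega) hqK'
    omega
  · have a2 : 2 * m ≤ q * t₀ := by
      have a1 : (q - 2) * (m - q) + 2 * m ≤ q * t₀ := by
        zify [hq2, hqm]
        have : ((m : ℤ) + 2 - q) * q ≤ q * t₀ := by
          rw [mul_comm]
          apply mul_le_mul_of_nonneg_left _ (by positivity)
          zify at ht₀q
          linarith
        nlinarith
      omega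
    obtain ⟨M, F, hMF, hFn, hMκ', hAF, hxF, hcF⟩ := main_m (κ := κ) hm (by omega) K hKle h2K
      A₀ t₀ x₀ ht3 (by omega) (by
        -- the numerical condition
        have a3 : κ ≤ A₀.card + W * m := by omega
        have a4 : q * t₀ * κ ≤ q * t₀ * (A₀.card + W * m) := Nat.mul_le_mul_left _ a3
        have a5 : q * t₀ * (4 * (W * m)) ≤ q * t₀ * κ := Nat.mul_le_mul_left _ hWmκ
        have a6 : 2 * m * κ ≤ q * t₀ * κ := Nat.mul_le_mul_right _ a2
        have a7 : q * κ ≤ m * κ := Nat.mul_le_mul_right _ hqm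
        have a8 : q * (2 * Fintype.card K + κ) ≤ q * (2 * t₀ * A₀.card) := by
          have b1 : q * (2 * Fintype.card K + κ) = 2 * (q * Fintype.card K) + q * κ := by ring
          have b2 : q * (2 * t₀ * A₀.card) = 2 * (q * t₀ * A₀.card) := by ring
          have b3 : q * t₀ * (A₀.card + W * m) = q * t₀ * A₀.card + q * t₀ * (W * m) := by ring
          have b4 : q * t₀ * (4 * (W * m)) = 4 * (q * t₀ * (W * m)) := by ring
          have b5 : 2 * m * κ = 2 * (m * κ) := by ring
          rw [b1, b2, hqK']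
          omega
        exact Nat.le_of_mul_le_mul_left a8 (by omega)) hx₀n
    obtain ⟨w, hw⟩ := dvd_card_of_per hMF
    set Q := Nat.card (K ⧸ M) with hQ
    have hnQ : Fintype.card K = Q * (hs M).card := card_eq_index_mul M
    have hMpos := card_hs_pos M
    -- at least two cosets
    have hw2 : 2 ≤ w := two_le_cosets hMF hFn (by omega) hxF hw (by
      intro g hMn hg
      have h3 := hnc (M.map K.subtype) (g : G) (by
        rw [card_hs_map, ← hKcard]
        exact hMn)
      have h4 : A \ cs (M.map K.subtype) (g : G)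
          ⊆ (A \ hs K) ∪ (A₀ \ F).image (fun a : K => (a : G)) := by
        intro a ha
        rw [mem_sdiff] at ha
        rw [mem_union]
        by_cases haK : a ∈ K
        · right
          rw [mem_image]
          refine ⟨⟨a, haK⟩, ?_, rfl⟩
          rw [mem_sdiff]
          refine ⟨by rw [hA₀, mem_subtype]; exact ha.1, ?_⟩
          intro haF
          apply ha.2
          rw [hg, mem_cs] at haF
          rw [mem_cs, AddSubgroup.mem_map]
          exact ⟨_, haF, rfl⟩
        · left
          rw [mem_sdiff, mem_hs]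
          exact ⟨ha.1, haK⟩
      have e1 := card_le_card h4
      have e2 := card_union_le (A \ hs K) ((A₀ \ F).image (fun a : K => (a : G)))
      have e3 : ((A₀ \ F).image (fun a : K => (a : G))).card ≤ (A₀ \ F).card := card_image_le
      have e4 : W * q = W * (q - 1) + W := by
        obtain ⟨p, rfl⟩ : ∃ p, q = p + 1 := ⟨q - 1, by omega⟩
        rw [Nat.add_sub_cancel]
        ring
      omega)
    have hAFc : A₀.card ≤ F.card + W := by
      have h3 := card_sdiff_add_card_inter A₀ F
      have h4 := card_le_card (inter_subset_right (s₁ := A₀) (s₂ := F))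
      omega
    have hmw : q * Q ≤ m * w := by
      by_contra hcon
      push Not at hcon
      have h3 : (m * w + 1) * (hs M).card ≤ q * Q * (hs M).card := Nat.mul_le_mul_right _ hcon
      have h4 : (m * w + 1) * (hs M).card = m * F.card + (hs M).card := by
        rw [hw]
        ring
      rw [h4, mul_assoc, ← hnQ, hqK'] at h3
      have e4 : W * q = W * (q - 1) + W := by
        obtain ⟨p, rfl⟩ : ∃ p, q = p + 1 := ⟨q - 1, by omega⟩
        rw [Nat.add_sub_cancel]
        ring
      have e5 : W * q ≤ W * m := Nat.mul_le_mul_left _ hqm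
      have h7 : m * κ ≤ m * (F.card + W * m) := by
        apply Nat.mul_le_mul_left
        omega
      have h8 : m * (F.card + W * m) = m * F.card + W * m ^ 2 := by ring
      have h9 : (hs M).card ≤ W * m ^ 2 := by omega
      have h10 : κ ≤ F.card + W * m := by omega
      have f1 : q * t₀ * κ ≤ q * t₀ * (F.card + W * m) := Nat.mul_le_mul_left _ h10
      have f2 : q * (t₀ * F.card + (hs M).card) ≤ q * (Fintype.card K + (t₀ - 1) * (hs M).card) :=
        Nat.mul_le_mul_left _ hcF
      have f3 : q * ((t₀ - 1) * (hs M).card) ≤ q * (t₀ * (hs M).card) :=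
        Nat.mul_le_mul_left _ (Nat.mul_le_mul_right _ (by omega))
      have f4 : 2 * m * κ ≤ q * t₀ * κ := Nat.mul_le_mul_right _ a2
      have f5 : q * t₀ * κ ≤ q * t₀ * (2 * (hs M).card + 2 * (W * m)) := by
        have b1 : q * (t₀ * F.card + (hs M).card) = q * t₀ * F.card + q * (hs M).card := by ring
        have b2 : q * (Fintype.card K + (t₀ - 1) * (hs M).card)
            = q * Fintype.card K + q * ((t₀ - 1) * (hs M).card) := by ring
        have b3 : q * t₀ * (2 * (hs M).card + 2 * (W * m))
            = 2 * (q * (t₀ * (hs M).card)) + 2 * (q * t₀ * (W * m)) := by ring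
        have b4 : q * t₀ * (F.card + W * m) = q * t₀ * F.card + q * t₀ * (W * m) := by ring
        have b5 : 2 * m * κ = 2 * (m * κ) := by ring
        rw [b1, b2, hqK'] at f2
        rw [b3]
        omega
      have f6 : κ ≤ 2 * (hs M).card + 2 * (W * m) :=
        Nat.le_of_mul_le_mul_left f5 (by omega)
      omega
    -- numerical contradiction
    apply arith1 hq2 hqm ht₀q hw2 (Q := Q) _ hmw
    rw [hw, hnQ] at hcF
    have h3 : (t₀ * w + 1) * (hs M).card ≤ (Q + (t₀ - 1)) * (hs M).card := by
      calc (t₀ * w + 1) * (hs M).card = t₀ * ((hs M).card * w) + (hs M).card := by ring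
        _ ≤ Q * (hs M).card + (t₀ - 1) * (hs M).card := hcF
        _ = (Q + (t₀ - 1)) * (hs M).card := by ring
    have h4 := Nat.le_of_mul_le_mul_right h3 hMpos
    omega

/-- **The upper bound**, in terms of a periodic obstruction, with an explicit threshold. -/
theorem upper_periodic' (m : ℕ) (hm : 3 ≤ m)
    (hκ : 2 ^ 16 * m ^ 7 ≤ AddMonoid.exponent G)
    (hn : Fintype.card G = m * AddMonoid.exponent G)
    (A : Finset G) (t : ℕ) (ht1 : m + 1 ≤ t) (ht2 : t ≤ 2 * m)
    (hAc : A.card = AddMonoid.exponent G + t) (hw : WZF (AddMonoid.exponent G) A) :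
    ∃ (M : AddSubgroup G) (F : Finset G) (x : G), Per M F ∧ F.Nonempty ∧ x ∉ ms F t ∧
      t * F.card + (hs M).card ≤ Fintype.card G + (t - 1) * (hs M).card ∧
      AddMonoid.exponent G < F.card ∧
      ∀ (K : AddSubgroup G) (g : G), F ⊆ cs K g → K = ⊤ := by
  classical
  set κ := AddMonoid.exponent G with hκdef
  have hmpos : 0 < m := by omega
  have hκpos : 0 < κ := AddMonoid.exponent_pos.2 (AddMonoid.ExponentExists.of_finite)
  have h2 := card_double hn
  set W := 13824 * m ^ 5 with hW
  have hWpos : 0 < W := by positivity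
  have hWκ : W * m * (m + 1) ≤ κ := by
    have hm67 : 3 * m ^ 6 ≤ m ^ 7 := by
      have e1 : m ^ 7 = m ^ 6 * m := by ring
      rw [e1]
      nlinarith [Nat.zero_le (m ^ 6)]
    have e2 : W * m * (m + 1) = 13824 * m ^ 7 + 13824 * m ^ 6 := by
      rw [hW]
      ring
    omega
  -- the most concentrated coset
  let P : ℕ → Prop := fun q => ∃ (K : AddSubgroup G) (g : G), q * (hs K).card = Fintype.card G ∧
    (A \ cs K g).card ≤ W * (q - 1)
  have hP1 : P 1 := by
    refine ⟨⊤, 0, ?_, ?_⟩
    · rw [one_mul, hs_top_card]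
    · have : A \ cs ⊤ 0 = ∅ := by
        rw [sdiff_eq_empty_iff_subset]
        intro x _
        rw [mem_cs]
        trivial
      rw [this]
      simp
  set q := Nat.findGreatest P m with hq
  have hPq : P q := Nat.findGreatest_spec (P := P) (by omega : 1 ≤ m) hP1
  have hqm : q ≤ m := Nat.findGreatest_le m
  have hq1 : 1 ≤ q := Nat.le_findGreatest (by omega) hP1
  have hqmax : ∀ q', q < q' → q' ≤ m → ¬ P q' := by
    intro q' h1 h3
    exact Nat.findGreatest_is_greatest h1 h3
  obtain ⟨K, g, hqK, hAK⟩ := hPq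
  have hNC : ∀ (K' : AddSubgroup G) (g' : G), (hs K').card < (hs K).card →
      W * q < (A \ cs K' g').card := by
    intro K' g' hlt
    obtain ⟨q', hq'⟩ := exists_index K'
    have hK'pos := card_hs_pos K'
    have hqq' : q < q' := by
      by_contra hcon
      push Not at hcon
      have h3 : q' * (hs K').card ≤ q * (hs K').card := Nat.mul_le_mul_right _ hcon
      have h4 : q * (hs K').card < q * (hs K).card := Nat.mul_lt_mul_of_pos_left hlt (by omega)
      omega
    rcases Nat.lt_or_ge m q' with hmq | hmq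
    · have h3 : (m + 1) * (hs K').card ≤ m * κ := by
        rw [← hn, ← hq']
        exact Nat.mul_le_mul_right _ hmq
      have h5 : A.card ≤ (A \ cs K' g').card + (hs K').card := by
        have e1 := card_sdiff_add_card_inter A (cs K' g')
        have e2 := card_le_card (inter_subset_right (s₁ := A) (s₂ := cs K' g'))
        rw [card_cs] at e2
        omega
      have h6 : κ < (A \ cs K' g').card + (hs K').card := by omega
      have h7 : (m + 1) * κ < (m + 1) * ((A \ cs K' g').card + (hs K').card) :=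
        Nat.mul_lt_mul_of_pos_left h6 (by omega)
      have h8 : (m + 1) * ((A \ cs K' g').card + (hs K').card)
          = (m + 1) * (A \ cs K' g').card + (m + 1) * (hs K').card := by ring
      have h9 : (m + 1) * κ = m * κ + κ := by ring
      have h10 : κ < (m + 1) * (A \ cs K' g').card := by omega
      have h11 : (m + 1) * (W * q) ≤ (m + 1) * (W * m) :=
        Nat.mul_le_mul_left _ (Nat.mul_le_mul_left _ hqm)
      have h12 : (m + 1) * (W * m) = W * m * (m + 1) := by ring
      exact Nat.lt_of_mul_lt_mul_left (a := m + 1) (by omega)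
    · have h3 := hqmax q' hqq' hmq
      have h4 : ¬ (A \ cs K' g').card ≤ W * (q' - 1) := by
        intro h
        exact h3 ⟨K', g', hq', h⟩
      push Not at h4
      refine lt_of_le_of_lt ?_ h4
      apply Nat.mul_le_mul_left
      omega
  rcases Nat.lt_or_ge q 2 with hq2 | hq2
  · -- non-concentrated
    have hq1' : q = 1 := by omega
    have hKn : (hs K).card = Fintype.card G := by
      rw [hq1', one_mul] at hqK
      exact hqK
    have hNC' : ∀ (K' : AddSubgroup G) (g' : G), (hs K').card < Fintype.card G →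
        W < (A \ cs K' g').card := by
      intro K' g' hlt
      have := hNC K' g' (by rw [hKn]; exact hlt)
      rw [hq1', mul_one] at this
      exact this
    obtain ⟨M, F, hMF, hFn, hAF, hxF, hcF, hκF⟩ := nonconc' m hm κ hκ hn h2 A t (∑ a ∈ A, a)
      ht1 ht2 hAc (not_DS_of_WZF hAc hw) hNC'
    refine ⟨M, F, _, hMF, hFn, hxF, hcF, hκF, ?_⟩
    intro K' g' hsub
    by_contra hne
    have hlt : (hs K').card < Fintype.card G := by
      by_contra h
      have hle : (hs K').card ≤ Fintype.card G := card_le_univ _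
      exact hne (eq_top_of_card (by omega))
    have h3 := hNC' K' g' hlt
    have h4 : (A \ cs K' g').card ≤ (A \ F).card :=
      card_le_card (sdiff_subset_sdiff Subset.rfl hsub)
    omega
  · -- concentrated
    exfalso
    apply conc' m hm κ hκ hn h2 (A.image (fun a => a + -g)) t ht1 ht2 _ _ K q hq2 hqm hqK
    · rw [← cs_zero, card_sdiff_translate, zero_add]
      exact hAK
    · intro K' g' hlt
      rw [card_sdiff_translate]
      exact hNC K' _ hlt
    · rw [card_translate, hAc]
    · apply not_DS_of_WZF (h := κ)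
      · rw [card_translate, hAc]
      · apply WZF_translate _ _ hw
        rw [hκdef]
        exact AddMonoid.exponent_nsmul_eq_zero _

end Pool.Agent.Lib.MPa7239a
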