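import Pool.Agent.Lib.MP_a7239a_co.PolyG

/-!
# Sharper constants: the main lemma for the whole group and for a subgroup of small index
-/

open scoped Pointwise
open Finset

set_option linter.unusedSectionVars false

namespace Pool.Agent.Lib.MPa7239a

universe u

theorem exists_tau {a b s : ℕ} (hs : 1 ≤ s) (hsb : s ≤ b) :
    ∃ τ : ℕ, a ≤ τ * s ∧ τ * s ≤ a + b ∧ 0 < τ := by
  refine ⟨a / s + 1, ?_, ?_, Nat.succ_pos _⟩
  · have h1 := Nat.div_add_mod a s
    have h2 := Nat.mod_lt a (by omega : 0 < s)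
    have h3 : (a / s + 1) * s = s * (a / s) + s := by ring
    omega
  · have h1 := Nat.div_mul_le_self a s
    have h3 : (a / s + 1) * s = a / s * s + s := by ring
    omega

theorem main_nc {m s κ : ℕ} (hm : 3 ≤ m) (hs1 : 1 ≤ s) (hsm : s ≤ m)
    (hκ : 40000 * m ^ 6 ≤ κ * s ^ 2) (G : Type u)
    [AddCommGroup G] [Fintype G] [DecidableEq G] (hn : Fintype.card G = m * κ)
    (h2 : ∀ z : G, (univ.filter (fun b : G => b + b = z)).card ≤ 2 * m)
    (A : Finset G) (x : G) (hA : A.card = κ + (m + s)) (hx : ¬ DS A (m + s) x) :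
    ∃ (M : AddSubgroup G) (F : Finset G), Per M F ∧ F.Nonempty ∧
      (A \ F).card * s ^ 2 ≤ 3552 * m ^ 5 ∧ x ∉ ms F (m + s) ∧
      (m + s) * F.card + (hs M).card ≤ Fintype.card G + (m + s - 1) * (hs M).card := by
  have hmpos : (0 : ℝ) < m := by
    have : 0 < m := by omega
    exact_mod_cast this
  have hm3 : (3 : ℝ) ≤ m := by exact_mod_cast hm
  have hs1R : (1 : ℝ) ≤ s := by exact_mod_cast hs1
  have hspos : (0 : ℝ) < s := by linarith
  have hsmR : (s : ℝ) ≤ m := by exact_mod_cast hsm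
  have hκR : 40000 * (m : ℝ) ^ 6 ≤ κ * s ^ 2 := by exact_mod_cast hκ
  have hm6 : (0 : ℝ) < (m : ℝ) ^ 6 := by positivity
  have hκpos : (0 : ℝ) < κ := by
    by_contra h
    have h0 : (κ : ℝ) = 0 := le_antisymm (not_lt.1 h) (Nat.cast_nonneg _)
    rw [h0, zero_mul] at hκR
    linarith
  obtain ⟨τ, hτ1, hτ2, hτ0⟩ := exists_tau (a := 36 * m ^ 3) (b := m ^ 3) hs1 (by
    calc s ≤ m := hsm
      _ = m ^ 1 := (pow_one m).symm
      _ ≤ m ^ 3 := pow_bound hm 1 3 (by norm_num))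
  have hτ1R : 36 * (m : ℝ) ^ 3 ≤ τ * s := by exact_mod_cast hτ1
  have hτ2R : (τ : ℝ) * s ≤ 37 * (m : ℝ) ^ 3 := by
    have : (τ : ℝ) * s ≤ 36 * (m : ℝ) ^ 3 + m ^ 3 := by exact_mod_cast hτ2
    linarith
  have hτpos : (0 : ℝ) < τ := by exact_mod_cast hτ0
  have hτle : (τ : ℝ) ≤ τ * s := by nlinarith
  have hnR : (Fintype.card G : ℝ) = m * κ := by exact_mod_cast hn
  set E : ℝ := s * κ / (6 * m) with hE
  have hEm : E * (6 * m) = s * κ := by
    rw [hE]
    field_simp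
  have hE0 : 0 < E := by positivity
  obtain ⟨M, F, hMF, hFn, -, hAF, hxF, hcF⟩ := main_poly (g₂ := 2 * m) (t := m + s) (L := 6 * m)
    (τ := τ) (E := E) (n₁ := m * κ) (by omega) (by omega) hτ0 hE0 (by
      push_cast
      have e1 : 6 * (m : ℝ) * (m * κ) * (6 * m) ≤ τ * E * (6 * m) := by
        have e2 : (τ : ℝ) * E * (6 * m) = τ * s * κ := by
          rw [mul_assoc, hEm]
          ring
        have e3 : 6 * (m : ℝ) * (m * κ) * (6 * m) = 36 * m ^ 3 * κ := by ring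
        rw [e2, e3]
        exact mul_le_mul_of_nonneg_right hτ1R hκpos.le
      exact le_of_mul_le_mul_right e1 (by positivity)) (by
      have e1 : E ^ 2 * (36 * m ^ 2) = (s * (κ : ℝ)) ^ 2 := by
        rw [← hEm]
        ring
      have e2 : 16 * (m * κ) * (τ : ℝ) * (36 * m ^ 2) ≤ E ^ 2 * (36 * m ^ 2) := by
        rw [e1]
        have e3 : 16 * (m * κ) * (τ : ℝ) * (36 * m ^ 2) = 576 * (m : ℝ) ^ 3 * τ * κ := by ring
        have e4 : 576 * (m : ℝ) ^ 3 * τ ≤ κ * s ^ 2 := by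
          have e5 : 576 * (m : ℝ) ^ 3 * τ ≤ 576 * (m : ℝ) ^ 3 * (37 * m ^ 3) :=
            mul_le_mul_of_nonneg_left (hτle.trans hτ2R) (by positivity)
          have e6 : 576 * (m : ℝ) ^ 3 * (37 * m ^ 3) = 21312 * m ^ 6 := by ring
          linarith
        have e7 : (s * (κ : ℝ)) ^ 2 = κ * s ^ 2 * κ := by ring
        rw [e3, e7]
        exact mul_le_mul_of_nonneg_right e4 hκpos.le
      exact le_of_mul_le_mul_right e2 (by positivity)) (by
      push_cast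
      have e1 : ((m : ℝ) + s) ^ 2 * (6 * m) ≤ 24 * m ^ 3 := by
        have : ((m : ℝ) + s) ^ 2 ≤ (2 * m) ^ 2 := by nlinarith
        nlinarith
      have e0 : 40000 * (m : ℝ) ^ 5 ≤ κ * s := by
        have f1 : (κ : ℝ) * s ^ 2 ≤ κ * s * m := by
          have : (κ : ℝ) * s ^ 2 = κ * s * s := by ring
          rw [this]
          exact mul_le_mul_of_nonneg_left hsmR (by positivity)
        have f2 : 40000 * (m : ℝ) ^ 5 * m ≤ κ * s * m := by
          have : 40000 * (m : ℝ) ^ 5 * m = 40000 * m ^ 6 := by ring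
          linarith
        exact le_of_mul_le_mul_right f2 hmpos
      have e2 : 24 * (m : ℝ) ^ 3 * (6 * m) ≤ E * (6 * m) := by
        rw [hEm]
        have e3 : 24 * (m : ℝ) ^ 3 * (6 * m) = 144 * m ^ 4 := by ring
        have e4 : (m : ℝ) ^ 4 ≤ m ^ 5 := pow_le_pow_right₀ (by linarith) (by norm_num)
        have e5 : (0 : ℝ) < (m : ℝ) ^ 4 := by positivity
        rw [e3, mul_comm (s : ℝ)]
        linarith
      exact e1.trans (le_of_mul_le_mul_right e2 (by positivity))) G hnR.le h2 A x (by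
      rw [hnR, hA]
      push_cast
      have e2 : 3 * ((m : ℝ) + s) * E ≤ 3 * (2 * m) * E := by
        apply mul_le_mul_of_nonneg_right _ hE0.le
        linarith
      have e3 : 3 * (2 * (m : ℝ)) * E = s * κ := by
        rw [← hEm]
        ring
      nlinarith) hx
  refine ⟨M, F, hMF, hFn, ?_, hxF, hcF⟩
  have e1 : ((A \ F).card : ℝ) * s ^ 2 ≤ 3552 * m ^ 5 := by
    rw [hnR, le_div_iff₀ hE0] at hAF
    have e2 : ((A \ F).card : ℝ) * (E * (6 * m)) ≤ 16 * τ * (m * κ) * (6 * m) := by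
      calc ((A \ F).card : ℝ) * (E * (6 * m)) = (A \ F).card * E * (6 * m) := by ring
        _ ≤ 16 * τ * (m * κ) * (6 * m) := mul_le_mul_of_nonneg_right hAF (by positivity)
    rw [hEm] at e2
    have e3 : ((A \ F).card : ℝ) * s * κ ≤ 96 * m ^ 2 * τ * κ := by linarith
    have e4 := le_of_mul_le_mul_right e3 hκpos
    have e5 : ((A \ F).card : ℝ) * s * s ≤ 96 * m ^ 2 * τ * s :=
      mul_le_mul_of_nonneg_right e4 hspos.le
    have e6 : 96 * (m : ℝ) ^ 2 * (τ * s) ≤ 96 * m ^ 2 * (37 * m ^ 3) :=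
      mul_le_mul_of_nonneg_left hτ2R (by positivity)
    have e7 : 96 * (m : ℝ) ^ 2 * (37 * m ^ 3) = 3552 * m ^ 5 := by ring
    have e8 : 96 * (m : ℝ) ^ 2 * τ * s = 96 * m ^ 2 * (τ * s) := by ring
    have e9 : ((A \ F).card : ℝ) * s ^ 2 = (A \ F).card * s * s := by ring
    linarith
  exact_mod_cast e1

theorem main_K {m q κ t₀ : ℕ} (hm : 3 ≤ m) (hq2 : 2 ≤ q) (hqm : q ≤ m)
    (hκ : 40000 * m ^ 4 ≤ κ) (G : Type u)
    [AddCommGroup G] [Fintype G] [DecidableEq G] (hn : q * Fintype.card G = m * κ)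
    (h2 : ∀ z : G, (univ.filter (fun b : G => b + b = z)).card ≤ 2 * m)
    (A : Finset G) (x : G) (ht3 : 3 ≤ t₀) (ht2 : t₀ ≤ 2 * m) (hqt : 2 * m ≤ q * t₀)
    (hA : 13 * κ ≤ 14 * A.card) (hx : ¬ DS A t₀ x) :
    ∃ (M : AddSubgroup G) (F : Finset G), Per M F ∧ F.Nonempty ∧
      (A \ F).card * q ^ 2 ≤ 4816 * m ^ 3 ∧ x ∉ ms F t₀ ∧
      t₀ * F.card + (hs M).card ≤ Fintype.card G + (t₀ - 1) * (hs M).card := by
  have hmpos : (0 : ℝ) < m := by
    have : 0 < m := by omega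
    exact_mod_cast this
  have hm3 : (3 : ℝ) ≤ m := by exact_mod_cast hm
  have hq2R : (2 : ℝ) ≤ q := by exact_mod_cast hq2
  have hqpos : (0 : ℝ) < q := by linarith
  have hκR : 40000 * (m : ℝ) ^ 4 ≤ κ := by exact_mod_cast hκ
  have hm4 : (0 : ℝ) < (m : ℝ) ^ 4 := by positivity
  have hm3' : (0 : ℝ) < (m : ℝ) ^ 3 := by positivity
  have hm43 : 3 * (m : ℝ) ^ 3 ≤ m ^ 4 := by
    have : (m : ℝ) ^ 4 = m ^ 3 * m := by ring
    rw [this]
    nlinarith
  have hκpos : (0 : ℝ) < κ := by linarith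
  obtain ⟨τ, hτ1, hτ2, hτ0⟩ := exists_tau (a := 42 * m ^ 2) (b := m ^ 2) (s := q) (by omega) (by
    calc q ≤ m := hqm
      _ = m ^ 1 := (pow_one m).symm
      _ ≤ m ^ 2 := pow_bound hm 1 2 (by norm_num))
  have hτ1R : 42 * (m : ℝ) ^ 2 ≤ τ * q := by exact_mod_cast hτ1
  have hτ2R : (τ : ℝ) * q ≤ 43 * (m : ℝ) ^ 2 := by
    have : (τ : ℝ) * q ≤ 42 * (m : ℝ) ^ 2 + m ^ 2 := by exact_mod_cast hτ2
    linarith
  have hnR : (q : ℝ) * (Fintype.card G : ℝ) = m * κ := by exact_mod_cast hn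
  set n : ℝ := (Fintype.card G : ℝ) with hnn
  set E : ℝ := κ / 7 with hE
  have hE0 : 0 < E := by positivity
  have ht2R : (t₀ : ℝ) ≤ 2 * m := by exact_mod_cast ht2
  have ht0R : (0 : ℝ) ≤ t₀ := Nat.cast_nonneg _
  obtain ⟨M, F, hMF, hFn, -, hAF, hxF, hcF⟩ := main_poly (g₂ := 2 * m) (t := t₀) (L := 6 * m)
    (τ := τ) (E := E) (n₁ := n) ht3 (by omega) hτ0 hE0 (by
      push_cast
      have e1 : 6 * (m : ℝ) * n * (7 * q) ≤ τ * E * (7 * q) := by
        have e2 : (τ : ℝ) * E * (7 * q) = τ * q * κ := by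
          rw [hE]
          ring
        have e3 : 6 * (m : ℝ) * n * (7 * q) = 42 * m * (q * n) := by ring
        rw [e2, e3, hnR]
        have e4 : 42 * (m : ℝ) * (m * κ) = 42 * m ^ 2 * κ := by ring
        rw [e4]
        exact mul_le_mul_of_nonneg_right hτ1R hκpos.le
      exact le_of_mul_le_mul_right e1 (by positivity)) (by
      have e2 : 16 * n * (τ : ℝ) * (49 * q ^ 2) ≤ E ^ 2 * (49 * q ^ 2) := by
        have e3 : 16 * n * (τ : ℝ) * (49 * q ^ 2) = 784 * (q * n) * (τ * q) := by ring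
        have e4 : E ^ 2 * (49 * (q : ℝ) ^ 2) = κ ^ 2 * q ^ 2 := by
          rw [hE]
          ring
        rw [e3, e4, hnR]
        have e5 : 784 * (m * (κ : ℝ)) * (τ * q) ≤ 784 * (m * κ) * (43 * m ^ 2) :=
          mul_le_mul_of_nonneg_left hτ2R (by positivity)
        have e6 : 784 * (m * (κ : ℝ)) * (43 * m ^ 2) = 33712 * m ^ 3 * κ := by ring
        have e7 : 33712 * (m : ℝ) ^ 3 ≤ κ := by linarith
        have e8 : 33712 * (m : ℝ) ^ 3 * κ ≤ κ * κ := mul_le_mul_of_nonneg_right e7 hκpos.le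
        have e9 : (κ : ℝ) * κ ≤ κ ^ 2 * q ^ 2 := by
          have : (1 : ℝ) ≤ q ^ 2 := by nlinarith
          have h0 : (0 : ℝ) ≤ κ ^ 2 := by positivity
          nlinarith
        linarith
      exact le_of_mul_le_mul_right e2 (by positivity)) (by
      push_cast
      have e1 : (t₀ : ℝ) ^ 2 * (6 * m) ≤ 24 * m ^ 3 := by
        have : (t₀ : ℝ) ^ 2 ≤ (2 * m) ^ 2 := by nlinarith
        nlinarith
      rw [hE]
      linarith) G le_rfl h2 A x (by
      have e1 : 2 * n ≤ t₀ * κ := by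
        have f1 : 2 * (m : ℝ) ≤ q * t₀ := by exact_mod_cast hqt
        have f2 : 2 * (m : ℝ) * κ ≤ q * t₀ * κ := mul_le_mul_of_nonneg_right f1 hκpos.le
        have f3 : (q : ℝ) * (2 * n) ≤ q * (t₀ * κ) := by nlinarith
        exact le_of_mul_le_mul_left f3 hqpos
      have e2 : 13 * (κ : ℝ) ≤ 14 * A.card := by exact_mod_cast hA
      have e3 : (t₀ : ℝ) * (13 * κ) ≤ t₀ * (14 * A.card) := mul_le_mul_of_nonneg_left e2 ht0R
      rw [hE]
      linarith) hx
  refine ⟨M, F, hMF, hFn, ?_, hxF, hcF⟩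
  have e1 : ((A \ F).card : ℝ) * q ^ 2 ≤ 4816 * m ^ 3 := by
    rw [← hnn, le_div_iff₀ hE0] at hAF
    have e2 : ((A \ F).card : ℝ) * q ^ 2 * κ ≤ 4816 * m ^ 3 * κ := by
      have f1 : ((A \ F).card : ℝ) * q ^ 2 * κ = 7 * q ^ 2 * ((A \ F).card * E) := by
        rw [hE]
        ring
      have f2 : 7 * (q : ℝ) ^ 2 * ((A \ F).card * E) ≤ 7 * q ^ 2 * (16 * τ * n) :=
        mul_le_mul_of_nonneg_left hAF (by positivity)
      have f3 : 7 * (q : ℝ) ^ 2 * (16 * τ * n) = 112 * (τ * q) * (q * n) := by ring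
      rw [hnR] at f3
      have f4 : 112 * ((τ : ℝ) * q) * (m * κ) ≤ 112 * (43 * m ^ 2) * (m * κ) := by
        apply mul_le_mul_of_nonneg_right _ (by positivity)
        linarith
      have f5 : 112 * (43 * (m : ℝ) ^ 2) * (m * κ) = 4816 * m ^ 3 * κ := by ring
      linarith
    exact le_of_mul_le_mul_right e2 hκpos
  exact_mod_cast e1

end Pool.Agent.Lib.MPa7239a
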