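import Pool.Agent.Lib.MP_a7239a_co.PolyI

/-!
# The upper bound in the range `κ (t - m) ^ 2 ≥ 40000 m ^ 6`
-/

open scoped Pointwise
open Finset

set_option linter.unusedSectionVars false

namespace Pool.Agent.Lib.MPa7239a

universe u

variable {G : Type u} [AddCommGroup G] [Fintype G] [DecidableEq G]

/-- **Phase 2** for an obstruction that is not too small. -/
theorem phase2' {g₂ : ℕ} (h2 : ∀ z : G, (univ.filter (fun b : G => b + b = z)).card ≤ g₂)
    {M : AddSubgroup G} {A F : Finset G} (hF : Per M F) (hFn : F.Nonempty) {t : ℕ}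
    (ht2 : 2 ≤ t) (hbig : Fintype.card G < t * F.card) (hB : t - 2 ≤ (A \ F).card) {x : G}
    (hx : ¬ DS A t x)
    {d : ℕ} (hd : (F \ A).card ≤ d) (hM : 2 * d + 2 * t + g₂ < (hs M).card) :
    ∃ (N : AddSubgroup G) (F' : Finset G), M ≤ N ∧ Per N F' ∧ F ⊆ F' ∧ x ∉ ms F' t ∧
      t * F'.card + (hs N).card ≤ Fintype.card G + (t - 1) * (hs N).card ∧
      F.card < F'.card := by
  classical
  obtain ⟨B₀, hB₀, hB₀c⟩ := exists_subset_card_eq hB
  set l := B₀.toList with hl
  have hlen : l.length = t - 2 := by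
    rw [hl, length_toList, hB₀c]
  have hlmem : ∀ b ∈ l, b ∈ A ∧ b ∉ F := by
    intro b hb
    rw [hl, mem_toList] at hb
    exact mem_sdiff.1 (hB₀ hb)
  set L : List (Finset G) := F :: l.map (fun b => F ∪ cs M b) with hL
  have hsum : F + L.sum = (F + F) + (l.map (fun b => F ∪ cs M b)).sum := by
    rw [hL, List.sum_cons, ← add_assoc]
  have hxn : x ∉ F + L.sum := by
    intro hxin
    rw [hsum] at hxin
    obtain ⟨T, h1, h3, h4, -, -⟩ := list_lemma h2 hF hd l (nodup_toList _) hlmem ∅ (by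
      rw [card_empty, hlen]
      omega) x hxin
    apply hx
    refine ⟨T, h1, ?_, h4⟩
    rw [h3, hlen]
    omega
  have hk := kneser_list L F hFn (by
    intro Y hY
    rw [hL, List.mem_cons] at hY
    rcases hY with rfl | hY
    · exact hFn
    · rw [List.mem_map] at hY
      obtain ⟨b, _, rfl⟩ := hY
      exact hFn.mono subset_union_left)
  set N := st (F + L.sum) with hN
  have hLlen : L.length = t - 1 := by
    rw [hL, List.length_cons, List.length_map, hlen]
    omega
  have hNn := card_add_le_of_notMem (per_st (F + L.sum)) hxn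
  rw [← hN] at hNn
  rw [hLlen] at hk
  have hMN : M ≤ N := le_st_of_per (hF.add_right _)
  have hmap : (L.map (fun Y => (cl N Y).card)).sum
      = (cl N F).card + (l.map (fun b => (cl N (F ∪ cs M b)).card)).sum := by
    rw [hL, List.map_cons, List.sum_cons, List.map_map]
    rfl
  rw [hmap] at hk
  have hlb : ∀ (c : ℕ), (∀ b ∈ l, c ≤ (cl N (F ∪ cs M b)).card) →
      (t - 2) * c ≤ (l.map (fun b => (cl N (F ∪ cs M b)).card)).sum := by
    intro c hc
    have h1 := List.card_nsmul_le_sum (l.map (fun b => (cl N (F ∪ cs M b)).card)) c (by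
      intro z hz
      rw [List.mem_map] at hz
      obtain ⟨b, hb, rfl⟩ := hz
      exact hc b hb)
    rw [List.length_map, hlen, smul_eq_mul] at h1
    exact h1
  obtain ⟨s, rfl⟩ : ∃ s, t = s + 2 := ⟨t - 2, by omega⟩
  simp only [Nat.add_sub_cancel] at hlb
  have e1 : s + 2 - 1 = s + 1 := by omega
  rw [e1] at hk ⊢
  by_cases hcase : cl N F = F
  · -- `F` is periodic modulo `N`: contradiction
    exfalso
    have hFN : Per N F := by
      rw [← hcase]
      exact per_cl _ _
    have h1 := hlb (F.card + (hs N).card) (by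
      intro b hb
      have hbF := (hlmem b hb).2
      have hdis : Disjoint F (cs N b) := by
        rw [Finset.disjoint_left]
        intro z hz hz'
        apply hbF
        rw [mem_cs] at hz'
        have := hFN z hz (-(z - b)) (N.neg_mem hz')
        have e : z + -(z - b) = b := by abel
        rwa [e] at this
      rw [← card_cs N b, ← card_union_of_disjoint hdis]
      apply card_le_card
      intro z hz
      rw [mem_union, mem_cs] at hz
      rw [mem_cl]
      rcases hz with hz | hz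
      · exact ⟨z, mem_union_left _ hz, by rw [sub_self]; exact N.zero_mem⟩
      · exact ⟨b, mem_union_right _ (self_mem_cs M b), hz⟩)
    rw [hcase] at hk
    have h3 : s * (F.card + (hs N).card) = s * F.card + s * (hs N).card := by ring
    have h4 : (s + 1) * (hs N).card = s * (hs N).card + (hs N).card := by ring
    rw [h3] at h1
    rw [h4] at hk
    have h5 : (s + 2) * F.card ≤ Fintype.card G := by
      have : (s + 2) * F.card = s * F.card + 2 * F.card := by ring
      omega
    omega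
  · refine ⟨N, cl N F, hMN, per_cl _ _, subset_cl _ _, ?_, ?_, ?_⟩
    · have h1 : ms (cl N F) (s + 2) = cl N (ms F (s + 2)) := ms_cl N F (s + 1)
      rw [h1]
      intro hxin
      apply hxn
      have h3 : ms F (s + 2) ⊆ F + L.sum := by
        have := ms_subset_list (F := F) (M := M) l
        rw [hlen] at this
        simp only [Nat.add_sub_cancel] at this
        rw [hsum]
        exact this
      exact cl_subset_of_per (per_st _) h3 hxin
    · have h1 := hlb (cl N F).card (by
        intro b _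
        exact card_le_card (cl_mono subset_union_left))
      have h4 : (s + 1) * (hs N).card = s * (hs N).card + (hs N).card := by ring
      have h5 : (s + 2) * (cl N F).card = s * (cl N F).card + 2 * (cl N F).card := by ring
      omega
    · apply card_lt_card
      refine ⟨subset_cl _ _, ?_⟩
      intro hsub
      exact hcase (Subset.antisymm hsub (subset_cl _ _))

theorem card_add_of_per {M : AddSubgroup G} {F F' : Finset G} (h1 : Per M F) (h2 : Per M F')
    (h : F.card < F'.card) : F.card + (hs M).card ≤ F'.card := by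
  obtain ⟨a, ha⟩ := dvd_card_of_per h1
  obtain ⟨b, hb⟩ := dvd_card_of_per h2
  rw [ha, hb] at h
  have hab : a < b := Nat.lt_of_mul_lt_mul_left h
  rw [ha, hb]
  calc (hs M).card * a + (hs M).card = (hs M).card * (a + 1) := by ring
    _ ≤ (hs M).card * b := Nat.mul_le_mul_left _ hab

/-- **The non-concentrated case.** -/
theorem nonconc2 {m s κ : ℕ} (hm : 3 ≤ m) (hs1 : 1 ≤ s) (hsm : s ≤ m)
    (hκ : 40000 * m ^ 6 ≤ κ * s ^ 2)
    (hn : Fintype.card G = m * κ)
    (h2 : ∀ z : G, (univ.filter (fun b : G => b + b = z)).card ≤ 2 * m)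
    (A : Finset G) (x : G) (hAc : A.card = κ + (m + s))
    (hx : ¬ DS A (m + s) x)
    (hnc : ∀ (K : AddSubgroup G) (g : G), (hs K).card < Fintype.card G →
      3552 * m ^ 5 < (A \ cs K g).card * s ^ 2) :
    ∃ (M : AddSubgroup G) (F : Finset G), Per M F ∧ F.Nonempty ∧
      (A \ F).card * s ^ 2 ≤ 3552 * m ^ 5 ∧ x ∉ ms F (m + s) ∧
      (m + s) * F.card + (hs M).card ≤ Fintype.card G + (m + s - 1) * (hs M).card ∧
      κ < F.card := by
  have hmpos : 0 < m := by omega
  have hm46 : 9 * m ^ 4 ≤ m ^ 6 := by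
    have e1 : m ^ 6 = m ^ 4 * (m * m) := by ring
    have e2 : 9 ≤ m * m := by nlinarith
    rw [e1]
    nlinarith [Nat.zero_le (m ^ 4)]
  obtain ⟨M, F, hMF, hFn, hAF, hxF, hcF⟩ := main_nc hm hs1 hsm hκ G hn h2 A x hAc hx
  by_cases hκF : κ < F.card
  · exact ⟨M, F, hMF, hFn, hAF, hxF, hcF, hκF⟩
  push Not at hκF
  set r := (A \ F).card with hr
  have hAFi := card_sdiff_add_card_inter A F
  have hFAi := card_sdiff_add_card_inter F A
  rw [inter_comm] at hFAi
  have hAle : A.card ≤ F.card + r := by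
    have := card_le_card (inter_subset_right (s₁ := A) (s₂ := F))
    omega
  have hd : (F \ A).card ≤ r := by omega
  -- lower bound for `M`
  have hsκ : s * κ + (m + s) * (m + s) ≤ 2 * m * (hs M).card + 2 * m * r := by
    have e1 : (m + s) * A.card ≤ (m + s) * (F.card + r) := Nat.mul_le_mul_left _ hAle
    have e2 : (m + s) * (F.card + r) = (m + s) * F.card + (m + s) * r := by ring
    have e3 : (m + s) * r ≤ 2 * m * r := Nat.mul_le_mul_right _ (by omega)
    have e5 : (m + s - 1) * (hs M).card + (hs M).card ≤ 2 * m * (hs M).card + (hs M).card :=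
      Nat.add_le_add_right (Nat.mul_le_mul_right _ (by omega)) _
    have e6 : (m + s) * A.card = m * κ + s * κ + (m + s) * (m + s) := by
      rw [hAc]
      ring
    omega
  have hs3 : s ^ 3 * κ = s * (κ * s ^ 2) := by ring
  have hs3' : 40000 * m ^ 6 ≤ s ^ 3 * κ := by
    rw [hs3]
    calc 40000 * m ^ 6 ≤ κ * s ^ 2 := hκ
      _ ≤ s * (κ * s ^ 2) := Nat.le_mul_of_pos_left _ (by omega)
  have hrs : 6 * m * (r * s ^ 2) ≤ 21312 * m ^ 6 := by
    calc 6 * m * (r * s ^ 2) ≤ 6 * m * (3552 * m ^ 5) := Nat.mul_le_mul_left _ hAF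
      _ = 21312 * m ^ 6 := by ring
  have hs2m : 12 * m ^ 2 * s ^ 2 ≤ 12 * m ^ 4 := by
    calc 12 * m ^ 2 * s ^ 2 ≤ 12 * m ^ 2 * m ^ 2 :=
          Nat.mul_le_mul_left _ (Nat.pow_le_pow_left hsm 2)
      _ = 12 * m ^ 4 := by ring
  have hm6 : 0 < m ^ 6 := by positivity
  have hMbig : 2 * r + 6 * m < (hs M).card := by
    by_contra hcon
    push Not at hcon
    have e1 : 2 * m * (hs M).card ≤ 2 * m * (2 * r + 6 * m) := Nat.mul_le_mul_left _ hcon
    have e2 : 2 * m * (2 * r + 6 * m) = 4 * m * r + 12 * m ^ 2 := by ring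
    have e3 : s * κ ≤ 6 * m * r + 12 * m ^ 2 := by
      have : 6 * m * r = 4 * m * r + 2 * m * r := by ring
      omega
    have e4 : s ^ 2 * (s * κ) ≤ s ^ 2 * (6 * m * r + 12 * m ^ 2) := Nat.mul_le_mul_left _ e3
    have e5 : s ^ 2 * (s * κ) = s ^ 3 * κ := by ring
    have e6 : s ^ 2 * (6 * m * r + 12 * m ^ 2) = 6 * m * (r * s ^ 2) + 12 * m ^ 2 * s ^ 2 := by ring
    omega
  have hbig : Fintype.card G < (m + s) * F.card := by
    by_contra hcon
    push Not at hcon
    have e1 : (m + s) * A.card ≤ (m + s) * (F.card + r) := Nat.mul_le_mul_left _ hAle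
    have e2 : (m + s) * (F.card + r) = (m + s) * F.card + (m + s) * r := by ring
    have e3 : (m + s) * r ≤ 2 * m * r := Nat.mul_le_mul_right _ (by omega)
    have e6 : (m + s) * A.card = m * κ + s * κ + (m + s) * (m + s) := by
      rw [hAc]
      ring
    have e7 : s * κ ≤ 2 * m * r := by omega
    have e4 : s ^ 2 * (s * κ) ≤ s ^ 2 * (2 * m * r) := Nat.mul_le_mul_left _ e7
    have e5 : s ^ 2 * (s * κ) = s ^ 3 * κ := by ring
    have e8 : 3 * (s ^ 2 * (2 * m * r)) = 6 * m * (r * s ^ 2) := by ring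
    omega
  obtain ⟨N, F', hMN, hNF', hFF', hxF', hcF', hlt⟩ := phase2' h2 hMF hFn (t := m + s) (by omega)
    hbig (by omega) hx (le_refl (F \ A).card) (by omega)
  refine ⟨N, F', hNF', hFn.mono hFF', ?_, hxF', hcF', ?_⟩
  · refine le_trans ?_ hAF
    exact Nat.mul_le_mul_right _ (card_le_card (sdiff_subset_sdiff Subset.rfl hFF'))
  · have := card_add_of_per hMF (hNF'.anti hMN) hlt
    omega

/-- the threshold function for concentration -/
noncomputable def wf (m s q : ℕ) : ℝ :=
  3552 * (m : ℝ) ^ 5 / (s : ℝ) ^ 2 + 4816 * (m : ℝ) ^ 3 * (1 - 1 / (q : ℝ))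

theorem wf_step {m s q q' : ℕ} (hq : 2 ≤ q) (hqq' : 2 * q ≤ q') :
    wf m s q + 4816 * (m : ℝ) ^ 3 / (q : ℝ) ^ 2 ≤ wf m s q' := by
  unfold wf
  have hqR : (2 : ℝ) ≤ q := by exact_mod_cast hq
  have hqq'R : 2 * (q : ℝ) ≤ q' := by exact_mod_cast hqq'
  have hqpos : (0 : ℝ) < q := by linarith
  have h1 : 1 / (q' : ℝ) ≤ 1 / (2 * q) := one_div_le_one_div_of_le (by positivity) hqq'R
  have h2 : 1 / (q : ℝ) ^ 2 ≤ 1 / (2 * q) := one_div_le_one_div_of_le (by positivity) (by nlinarith)
  have h3 : 1 / (q : ℝ) = 1 / (2 * q) + 1 / (2 * q) := by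
    field_simp
    norm_num
  have h4 : 1 / (q : ℝ) ^ 2 ≤ 1 / q - 1 / q' := by linarith
  have h5 : 4816 * (m : ℝ) ^ 3 * (1 / (q : ℝ) ^ 2) ≤ 4816 * (m : ℝ) ^ 3 * (1 / q - 1 / q') :=
    mul_le_mul_of_nonneg_left h4 (by positivity)
  have h6 : 4816 * (m : ℝ) ^ 3 / (q : ℝ) ^ 2 = 4816 * (m : ℝ) ^ 3 * (1 / (q : ℝ) ^ 2) := by ring
  rw [h6]
  linarith

theorem wf_le {m s q : ℕ} (hm : 1 ≤ m) (hs1 : 1 ≤ s) (hsm : s ≤ m) (hq : 1 ≤ q) :
    wf m s q + 4816 * (m : ℝ) ^ 3 / (q : ℝ) ^ 2 ≤ 8368 * (m : ℝ) ^ 5 / (s : ℝ) ^ 2 := by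
  unfold wf
  have hmR : (1 : ℝ) ≤ m := by exact_mod_cast hm
  have hs1R : (1 : ℝ) ≤ s := by exact_mod_cast hs1
  have hsmR : (s : ℝ) ≤ m := by exact_mod_cast hsm
  have hqR : (1 : ℝ) ≤ q := by exact_mod_cast hq
  have hspos : (0 : ℝ) < s := by linarith
  have h1 : 1 / (q : ℝ) ^ 2 ≤ 1 / q := one_div_le_one_div_of_le (by linarith) (by nlinarith)
  have h2 : 4816 * (m : ℝ) ^ 3 * (1 / (q : ℝ) ^ 2) ≤ 4816 * (m : ℝ) ^ 3 * (1 / q) :=
    mul_le_mul_of_nonneg_left h1 (by positivity)
  have h3 : 4816 * (m : ℝ) ^ 3 ≤ 4816 * (m : ℝ) ^ 5 / (s : ℝ) ^ 2 := by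
    rw [le_div_iff₀ (by positivity)]
    have : (s : ℝ) ^ 2 ≤ m ^ 2 := by nlinarith
    calc 4816 * (m : ℝ) ^ 3 * s ^ 2 ≤ 4816 * (m : ℝ) ^ 3 * m ^ 2 :=
          mul_le_mul_of_nonneg_left this (by positivity)
      _ = 4816 * (m : ℝ) ^ 5 := by ring
  have h4 : 4816 * (m : ℝ) ^ 3 / (q : ℝ) ^ 2 = 4816 * (m : ℝ) ^ 3 * (1 / (q : ℝ) ^ 2) := by ring
  have h5 : 8368 * (m : ℝ) ^ 5 / (s : ℝ) ^ 2
      = 3552 * (m : ℝ) ^ 5 / (s : ℝ) ^ 2 + 4816 * (m : ℝ) ^ 5 / (s : ℝ) ^ 2 := by ring
  rw [h4, h5]
  linarith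

theorem range_facts {m s κ : ℕ} (hm : 3 ≤ m) (hs1 : 1 ≤ s) (hsm : s ≤ m)
    (hκ : 40000 * m ^ 6 ≤ κ * s ^ 2) :
    40000 * m ^ 4 ≤ κ ∧ 14 * (8368 * (m : ℝ) ^ 5 / (s : ℝ) ^ 2) ≤ κ ∧
      2 * ((m : ℝ) + 1) * (8368 * (m : ℝ) ^ 5 / (s : ℝ) ^ 2) < κ := by
  have hmR : (3 : ℝ) ≤ m := by exact_mod_cast hm
  have hs1R : (1 : ℝ) ≤ s := by exact_mod_cast hs1
  have hspos : (0 : ℝ) < s := by linarith
  have hκR : 40000 * (m : ℝ) ^ 6 ≤ κ * s ^ 2 := by exact_mod_cast hκ
  have hm5 : (0 : ℝ) < (m : ℝ) ^ 5 := by positivity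
  refine ⟨?_, ?_, ?_⟩
  · have h1 : κ * s ^ 2 ≤ κ * m ^ 2 := Nat.mul_le_mul_left _ (Nat.pow_le_pow_left hsm 2)
    have h2 : m ^ 2 * (40000 * m ^ 4) ≤ m ^ 2 * κ := by
      calc m ^ 2 * (40000 * m ^ 4) = 40000 * m ^ 6 := by ring
        _ ≤ κ * m ^ 2 := hκ.trans h1
        _ = m ^ 2 * κ := by ring
    exact Nat.le_of_mul_le_mul_left h2 (by positivity)
  · rw [← mul_div_assoc, div_le_iff₀ (by positivity)]
    refine le_trans ?_ hκR
    have : (m : ℝ) ^ 6 = m ^ 5 * m := by ring
    rw [this]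
    nlinarith
  · rw [← mul_div_assoc, div_lt_iff₀ (by positivity)]
    refine lt_of_lt_of_le ?_ hκR
    have : (m : ℝ) ^ 6 = m ^ 5 * m := by ring
    rw [this]
    nlinarith

/-- **The concentrated case.** -/
theorem conc2 {m s κ : ℕ} (hm : 3 ≤ m) (hs1 : 1 ≤ s) (hsm : s ≤ m)
    (hκ : 40000 * m ^ 6 ≤ κ * s ^ 2)
    (hn : Fintype.card G = m * κ)
    (h2 : ∀ z : G, (univ.filter (fun b : G => b + b = z)).card ≤ 2 * m)
    (A : Finset G) (hAc : A.card = κ + (m + s))
    (hx : ¬ DS A (m + s) (∑ a ∈ A, a))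
    (K : AddSubgroup G) (q : ℕ) (hq2 : 2 ≤ q) (hqm : q ≤ m)
    (hqK : q * (hs K).card = Fintype.card G)
    (hAK : ((A \ hs K).card : ℝ) ≤ wf m s q)
    (hnc : ∀ (K' : AddSubgroup G) (g : G), K' ≤ K → (hs K').card < (hs K).card →
      wf m s q + 4816 * (m : ℝ) ^ 3 / (q : ℝ) ^ 2 < ((A \ cs K' g).card : ℝ)) : False := by
  classical
  have hmpos : 0 < m := by omega
  have hmR : (3 : ℝ) ≤ m := by exact_mod_cast hm
  obtain ⟨hf1, hf2, hf3⟩ := range_facts hm hs1 hsm hκ
  have hwle := wf_le (m := m) (s := s) (q := q) (by omega) hs1 hsm (by omega)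
  set W : ℝ := wf m s q + 4816 * (m : ℝ) ^ 3 / (q : ℝ) ^ 2 with hW
  set V : ℝ := 8368 * (m : ℝ) ^ 5 / (s : ℝ) ^ 2 with hV
  have hq2R : (2 : ℝ) ≤ q := by exact_mod_cast hq2
  have hqpos : (0 : ℝ) < q := by linarith
  have hqmR : (q : ℝ) ≤ m := by exact_mod_cast hqm
  have hextra : 0 ≤ 4816 * (m : ℝ) ^ 3 / (q : ℝ) ^ 2 := by positivity
  have hV0 : 0 ≤ V := by positivity
  -- the group `K`
  have hKcard : Fintype.card K = (hs K).card := by
    rw [← natCard_hs, Nat.card_eq_fintype_card]
  have hqK' : q * Fintype.card K = m * κ := by rw [hKcard, hqK, hn]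
  have hqKR : (q : ℝ) * (Fintype.card K : ℝ) = m * κ := by exact_mod_cast hqK'
  -- the small set `S`
  obtain ⟨S, hSB, hSq, hSsum⟩ := exists_small_subset hqK (A \ hs K)
  set t := m + s with ht
  have hSt : S.card ≤ t := by omega
  set t₀ := t - S.card with ht₀
  set A₀ : Finset K := A.subtype (· ∈ K) with hA₀
  have hA₀c : A₀.card = (A ∩ hs K).card := by
    rw [hA₀, card_subtype]
    congr 1
    ext x
    simp
  have hAsplit : (A ∩ hs K).card + (A \ hs K).card = A.card := by
    have := card_sdiff_add_card_inter A (hs K)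
    omega
  have hsumA : ∑ a ∈ A, a = ∑ a ∈ A ∩ hs K, a + ∑ a ∈ A \ hs K, a := by
    rw [← sum_inter_add_sum_sdiff A (hs K)]
  set x := ∑ a ∈ A, a with hxdef
  have hx0K : x - ∑ s ∈ S, s ∈ K := by
    have h3 : x - ∑ s ∈ S, s = ∑ a ∈ A ∩ hs K, a + (∑ a ∈ A \ hs K, a - ∑ s ∈ S, s) := by
      rw [hsumA]
      abel
    rw [h3]
    apply K.add_mem _ hSsum
    apply K.sum_mem
    intro a ha
    rw [mem_inter, mem_hs] at ha
    exact ha.2
  set x₀ : K := ⟨x - ∑ s ∈ S, s, hx0K⟩ with hx₀
  have hx₀n : ¬ DS A₀ t₀ x₀ := by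
    rintro ⟨T, hT, hTc, hTs⟩
    apply hx
    set T' : Finset G := T.image (fun a : K => (a : G)) with hT'
    have hT'A : ∀ a ∈ T', a ∈ A ∧ a ∈ K := by
      intro a ha
      rw [hT', mem_image] at ha
      obtain ⟨b, hb, rfl⟩ := ha
      have := hT hb
      rw [hA₀, mem_subtype] at this
      exact ⟨this, b.2⟩
    have hdisj : Disjoint T' S := by
      rw [Finset.disjoint_left]
      intro a ha ha'
      have h3 := hSB ha'
      rw [mem_sdiff, mem_hs] at h3
      exact h3.2 (hT'A a ha).2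
    refine ⟨T' ∪ S, ?_, ?_, ?_⟩
    · apply union_subset
      · intro a ha
        exact (hT'A a ha).1
      · exact hSB.trans sdiff_subset
    · rw [card_union_of_disjoint hdisj, hT', card_image_of_injective _ Subtype.val_injective, hTc]
      omega
    · rw [sum_union hdisj, hT', sum_image (fun a _ b _ hab => Subtype.val_injective hab)]
      have h3 : ∑ a ∈ T, (a : G) = ((∑ a ∈ T, a : K) : G) := by
        rw [AddSubgroup.val_finsetSum]
      rw [h3, hTs, hx₀]
      simp
  have h2K : ∀ z : K, (univ.filter (fun b : K => b + b = z)).card ≤ 2 * m := by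
    intro z
    refine le_trans ?_ (h2 (z : G))
    apply card_le_card_of_injOn (fun b : K => (b : G))
    · intro b hb
      have hb' : b ∈ univ.filter (fun b : K => b + b = z) := hb
      rw [mem_filter] at hb'
      have : (b : G) ∈ univ.filter (fun b : G => b + b = (z : G)) := by
        rw [mem_filter]
        refine ⟨mem_univ _, ?_⟩
        rw [← hb'.2]
        rfl
      exact this
    · intro a _ b _ hab
      exact Subtype.val_injective hab
  -- lower bound for the size of `A₀`
  have hA₀low : (κ : ℝ) + t ≤ A₀.card + (A \ hs K).card := by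
    rw [hA₀c]
    exact_mod_cast (by omega : κ + t ≤ (A ∩ hs K).card + (A \ hs K).card)
  have ht0R : (0 : ℝ) ≤ t := Nat.cast_nonneg _
  have hA13 : 13 * κ ≤ 14 * A₀.card := by
    have : 13 * (κ : ℝ) ≤ 14 * A₀.card := by linarith
    exact_mod_cast this
  have ht₀q : m + 2 ≤ t₀ + q := by omega
  rcases Nat.lt_or_ge t₀ 3 with ht3 | ht3
  · -- `t₀ = 2`, `q = m`
    have ht₀2 : t₀ = 2 := by omega
    have hqm2 : q = m := by omega
    rw [ht₀2] at hx₀n
    apply hx₀n
    apply two_dense h2K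
    have hKκ : Fintype.card K = κ := by
      rw [hqm2] at hqK'
      exact Nat.eq_of_mul_eq_mul_left (by omega) hqK'
    have hm4 : m ≤ m ^ 4 := by
      calc m = m ^ 1 := (pow_one m).symm
        _ ≤ m ^ 4 := pow_bound hm 1 4 (by norm_num)
    omega
  · have a2 : 2 * m ≤ q * t₀ := by
      have a1 : (q - 2) * (m - q) + 2 * m ≤ q * t₀ := by
        zify [hq2, hqm]
        have : ((m : ℤ) + 2 - q) * q ≤ q * t₀ := by
          rw [mul_comm]
          apply mul_le_mul_of_nonneg_left _ (by positivity)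
          zify at ht₀q
          linarith
        nlinarith
      omega
    obtain ⟨M, F, hMF, hFn, hAF, hxF, hcF⟩ := main_K (κ := κ) hm hq2 hqm hf1 K hqK' h2K
      A₀ x₀ ht3 (by omega) a2 hA13 hx₀n
    have hAFR : ((A₀ \ F).card : ℝ) ≤ 4816 * (m : ℝ) ^ 3 / (q : ℝ) ^ 2 := by
      rw [le_div_iff₀ (by positivity)]
      exact_mod_cast hAF
    obtain ⟨w, hw⟩ := dvd_card_of_per hMF
    set Q := Nat.card (K ⧸ M) with hQ
    have hnQ : Fintype.card K = Q * (hs M).card := card_eq_index_mul M
    have hMpos := card_hs_pos M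
    -- at least two cosets
    have hw2 : 2 ≤ w := two_le_cosets hMF hFn (by omega) hxF hw (by
      intro g hMn hg
      have h3 := hnc (M.map K.subtype) (g : G) (by
        intro y hy
        rw [AddSubgroup.mem_map] at hy
        obtain ⟨a, _, rfl⟩ := hy
        exact a.2) (by
        rw [card_hs_map, ← hKcard]
        exact hMn)
      have h4 : A \ cs (M.map K.subtype) (g : G)
          ⊆ (A \ hs K) ∪ (A₀ \ F).image (fun a : K => (a : G)) := by
        intro a ha
        rw [mem_sdiff] at ha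
        rw [mem_union]
        by_cases haK : a ∈ K
        · right
          rw [mem_image]
          refine ⟨⟨a, haK⟩, ?_, rfl⟩
          rw [mem_sdiff]
          refine ⟨by rw [hA₀, mem_subtype]; exact ha.1, ?_⟩
          intro haF
          apply ha.2
          rw [hg, mem_cs] at haF
          rw [mem_cs, AddSubgroup.mem_map]
          exact ⟨_, haF, rfl⟩
        · left
          rw [mem_sdiff, mem_hs]
          exact ⟨ha.1, haK⟩
      have e1 := card_le_card h4
      have e2 := card_union_le (A \ hs K) ((A₀ \ F).image (fun a : K => (a : G)))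
      have e3 : ((A₀ \ F).image (fun a : K => (a : G))).card ≤ (A₀ \ F).card := card_image_le
      have e4 : ((A \ cs (M.map K.subtype) (g : G)).card : ℝ)
          ≤ (A \ hs K).card + (A₀ \ F).card := by
        exact_mod_cast (by omega : (A \ cs (M.map K.subtype) (g : G)).card
          ≤ (A \ hs K).card + (A₀ \ F).card)
      linarith)
    have hAFc : (A₀.card : ℝ) ≤ F.card + (A₀ \ F).card := by
      have h3 := card_sdiff_add_card_inter A₀ F
      have h4 := card_le_card (inter_subset_right (s₁ := A₀) (s₂ := F))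
      exact_mod_cast (by omega : A₀.card ≤ F.card + (A₀ \ F).card)
    have hκF : (κ : ℝ) ≤ F.card + V := by linarith
    have hmw : q * Q ≤ m * w := by
      by_contra hcon
      push Not at hcon
      have h3 : (m * w + 1) * (hs M).card ≤ q * Q * (hs M).card := Nat.mul_le_mul_right _ hcon
      have h4 : (m * w + 1) * (hs M).card = m * F.card + (hs M).card := by
        rw [hw]
        ring
      rw [h4, mul_assoc, ← hnQ, hqK'] at h3
      have h3R : (m : ℝ) * F.card + (hs M).card ≤ m * κ := by exact_mod_cast h3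
      have h7 : (m : ℝ) * κ ≤ m * (F.card + V) := mul_le_mul_of_nonneg_left hκF (by linarith)
      have h9 : ((hs M).card : ℝ) ≤ m * V := by linarith
      -- the lower bound for `M`
      have hcR : (t₀ : ℝ) * F.card + (hs M).card ≤ Fintype.card K + t₀ * (hs M).card := by
        have e1 : t₀ * F.card + (hs M).card ≤ Fintype.card K + t₀ * (hs M).card :=
          hcF.trans (Nat.add_le_add_left (Nat.mul_le_mul_right _ (by omega)) _)
        exact_mod_cast e1
      have a2R : 2 * (m : ℝ) ≤ q * t₀ := by exact_mod_cast a2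
      have hMnn : (0 : ℝ) ≤ (hs M).card := Nat.cast_nonneg _
      have hκnn : (0 : ℝ) ≤ κ := Nat.cast_nonneg _
      have hu : (0 : ℝ) < q * t₀ := by
        have : (0 : ℝ) < m := by linarith
        linarith
      have f1 : (q * t₀ : ℝ) * κ ≤ (q * t₀) * (2 * (hs M).card + 2 * V) := by
        have g1 : (q * t₀ : ℝ) * κ ≤ (q * t₀) * (F.card + V) :=
          mul_le_mul_of_nonneg_left hκF hu.le
        have g2 : (q : ℝ) * (t₀ * F.card + (hs M).card)
            ≤ q * (Fintype.card K + t₀ * (hs M).card) := mul_le_mul_of_nonneg_left hcR hqpos.le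
        have g3 : 2 * (m : ℝ) * κ ≤ q * t₀ * κ := mul_le_mul_of_nonneg_right a2R hκnn
        have g4 : (0 : ℝ) ≤ q * (hs M).card := by positivity
        nlinarith
      have f2 : (κ : ℝ) ≤ 2 * (hs M).card + 2 * V := le_of_mul_le_mul_left f1 hu
      linarith
    -- numerical contradiction
    apply arith1 hq2 hqm ht₀q hw2 (Q := Q) _ hmw
    rw [hw, hnQ] at hcF
    have h3 : (t₀ * w + 1) * (hs M).card ≤ (Q + (t₀ - 1)) * (hs M).card := by
      calc (t₀ * w + 1) * (hs M).card = t₀ * ((hs M).card * w) + (hs M).card := by ring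
        _ ≤ Q * (hs M).card + (t₀ - 1) * (hs M).card := hcF
        _ = (Q + (t₀ - 1)) * (hs M).card := by ring
    have h4 := Nat.le_of_mul_le_mul_right h3 hMpos
    omega

/-- **The upper bound**, in terms of a periodic obstruction. -/
theorem upper2 {m s : ℕ} (hm : 3 ≤ m) (hs1 : 1 ≤ s) (hsm : s ≤ m)
    (hκ : 40000 * m ^ 6 ≤ AddMonoid.exponent G * s ^ 2)
    (hn : Fintype.card G = m * AddMonoid.exponent G)
    (A : Finset G)
    (hAc : A.card = AddMonoid.exponent G + (m + s)) (hw : WZF (AddMonoid.exponent G) A) :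
    ∃ (M : AddSubgroup G) (F : Finset G) (x : G), Per M F ∧ F.Nonempty ∧ x ∉ ms F (m + s) ∧
      (m + s) * F.card + (hs M).card ≤ Fintype.card G + (m + s - 1) * (hs M).card ∧
      AddMonoid.exponent G < F.card ∧
      ∀ (K : AddSubgroup G) (g : G), F ⊆ cs K g → K = ⊤ := by
  classical
  set κ := AddMonoid.exponent G with hκdef
  have hmpos : 0 < m := by omega
  have hmR : (3 : ℝ) ≤ m := by exact_mod_cast hm
  have hs1R : (1 : ℝ) ≤ s := by exact_mod_cast hs1
  have hspos : (0 : ℝ) < s := by linarith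
  have hκpos : 0 < κ := AddMonoid.exponent_pos.2 (AddMonoid.ExponentExists.of_finite)
  have h2 := card_double hn
  obtain ⟨hf1, hf2, hf3⟩ := range_facts hm hs1 hsm hκ
  -- the most concentrated coset
  let P : ℕ → Prop := fun q => ∃ (K : AddSubgroup G) (g : G), q * (hs K).card = Fintype.card G ∧
    ((A \ cs K g).card : ℝ) ≤ wf m s q
  have hP1 : P 1 := by
    refine ⟨⊤, 0, ?_, ?_⟩
    · rw [one_mul, hs_top_card]
    · have : A \ cs ⊤ 0 = ∅ := by
        rw [sdiff_eq_empty_iff_subset]
        intro x _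
        rw [mem_cs]
        trivial
      rw [this, card_empty]
      unfold wf
      have e1 : (0 : ℝ) ≤ 3552 * (m : ℝ) ^ 5 / (s : ℝ) ^ 2 := by positivity
      simpa using e1
  set q := Nat.findGreatest P m with hq
  have hPq : P q := Nat.findGreatest_spec (P := P) (by omega : 1 ≤ m) hP1
  have hqm : q ≤ m := Nat.findGreatest_le m
  have hq1 : 1 ≤ q := Nat.le_findGreatest (by omega) hP1
  have hqmax : ∀ q', q < q' → q' ≤ m → ¬ P q' := by
    intro q' h1 h3
    exact Nat.findGreatest_is_greatest h1 h3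
  obtain ⟨K, g, hqK, hAK⟩ := hPq
  -- big index: not concentrated
  have hbigidx : ∀ (K' : AddSubgroup G) (g' : G) (q' : ℕ), q' * (hs K').card = Fintype.card G →
      m < q' → 8368 * (m : ℝ) ^ 5 / (s : ℝ) ^ 2 < ((A \ cs K' g').card : ℝ) := by
    intro K' g' q' hq' hmq
    have h3 : (m + 1) * (hs K').card ≤ m * κ := by
      rw [← hn, ← hq']
      exact Nat.mul_le_mul_right _ hmq
    have h5 : A.card ≤ (A \ cs K' g').card + (hs K').card := by
      have e1 := card_sdiff_add_card_inter A (cs K' g')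
      have e2 := card_le_card (inter_subset_right (s₁ := A) (s₂ := cs K' g'))
      rw [card_cs] at e2
      omega
    have h3R : ((m : ℝ) + 1) * (hs K').card ≤ m * κ := by exact_mod_cast h3
    have h6R : (κ : ℝ) ≤ (A \ cs K' g').card + (hs K').card := by
      exact_mod_cast (by omega : κ ≤ (A \ cs K' g').card + (hs K').card)
    by_contra hcon
    push Not at hcon
    have h7 : ((m : ℝ) + 1) * κ ≤ (m + 1) * ((A \ cs K' g').card + (hs K').card) :=
      mul_le_mul_of_nonneg_left h6R (by linarith)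
    have h8 : ((m : ℝ) + 1) * (A \ cs K' g').card
        ≤ (m + 1) * (8368 * (m : ℝ) ^ 5 / (s : ℝ) ^ 2) :=
      mul_le_mul_of_nonneg_left hcon (by linarith)
    have h9 : (0 : ℝ) ≤ (m + 1) * (8368 * (m : ℝ) ^ 5 / (s : ℝ) ^ 2) := by positivity
    linarith
  have hNC : ∀ (K' : AddSubgroup G) (g' : G) (q' : ℕ), q' * (hs K').card = Fintype.card G →
      q < q' → (2 ≤ q → 2 * q ≤ q') →
      (if q = 1 then 3552 * (m : ℝ) ^ 5 / (s : ℝ) ^ 2
        else wf m s q + 4816 * (m : ℝ) ^ 3 / (q : ℝ) ^ 2) < ((A \ cs K' g').card : ℝ) := by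
    intro K' g' q' hq' hqq' h2q
    have hcase : (if q = 1 then 3552 * (m : ℝ) ^ 5 / (s : ℝ) ^ 2
        else wf m s q + 4816 * (m : ℝ) ^ 3 / (q : ℝ) ^ 2) ≤ wf m s q' ∧
        (if q = 1 then 3552 * (m : ℝ) ^ 5 / (s : ℝ) ^ 2
        else wf m s q + 4816 * (m : ℝ) ^ 3 / (q : ℝ) ^ 2) ≤ 8368 * (m : ℝ) ^ 5 / (s : ℝ) ^ 2 := by
      split_ifs with h1
      · constructor
        · unfold wf
          have hq'R : (1 : ℝ) ≤ q' := by
            have : 1 ≤ q' := by omega
            exact_mod_cast this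
          have e1 : 1 / (q' : ℝ) ≤ 1 := by
            rw [div_le_one (by linarith)]
            exact hq'R
          have e2 : 0 ≤ 4816 * (m : ℝ) ^ 3 * (1 - 1 / (q' : ℝ)) := by
            apply mul_nonneg (by positivity)
            linarith
          linarith
        · apply div_le_div_of_nonneg_right _ (by positivity)
          have : (0 : ℝ) ≤ (m : ℝ) ^ 5 := by positivity
          linarith
      · exact ⟨wf_step (by omega) (h2q (by omega)), wf_le (by omega) hs1 hsm hq1⟩
    rcases Nat.lt_or_ge m q' with hmq | hmq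
    · exact lt_of_le_of_lt hcase.2 (hbigidx K' g' q' hq' hmq)
    · have h3 := hqmax q' hqq' hmq
      have h4 : ¬ ((A \ cs K' g').card : ℝ) ≤ wf m s q' := by
        intro h
        exact h3 ⟨K', g', hq', h⟩
      push Not at h4
      exact lt_of_le_of_lt hcase.1 h4
  rcases Nat.lt_or_ge q 2 with hq2 | hq2
  · -- non-concentrated
    have hq1' : q = 1 := by omega
    have hNC' : ∀ (K' : AddSubgroup G) (g' : G), (hs K').card < Fintype.card G →
        3552 * m ^ 5 < (A \ cs K' g').card * s ^ 2 := by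
      intro K' g' hlt
      obtain ⟨q', hq'⟩ := exists_index K'
      have hK'pos := card_hs_pos K'
      have hqq' : q < q' := by
        rw [hq1']
        by_contra hcon
        have h01 : q' = 0 ∨ q' = 1 := by omega
        rcases h01 with h | h
        · rw [h, zero_mul] at hq'
          omega
        · rw [h, one_mul] at hq'
          omega
      have h3 := hNC K' g' q' hq' hqq' (by omega)
      rw [if_pos hq1', div_lt_iff₀ (by positivity)] at h3
      exact_mod_cast h3
    obtain ⟨M, F, hMF, hFn, hAF, hxF, hcF, hκF⟩ := nonconc2 hm hs1 hsm hκ hn h2 A (∑ a ∈ A, a)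
      hAc (not_DS_of_WZF hAc hw) hNC'
    refine ⟨M, F, _, hMF, hFn, hxF, hcF, hκF, ?_⟩
    intro K' g' hsub
    by_contra hne
    have hlt : (hs K').card < Fintype.card G := by
      by_contra h
      have hle : (hs K').card ≤ Fintype.card G := card_le_univ _
      exact hne (eq_top_of_card (by omega))
    have h3 := hNC' K' g' hlt
    have h4 : (A \ cs K' g').card * s ^ 2 ≤ (A \ F).card * s ^ 2 :=
      Nat.mul_le_mul_right _ (card_le_card (sdiff_subset_sdiff Subset.rfl hsub))
    omega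
  · -- concentrated
    exfalso
    apply conc2 hm hs1 hsm hκ hn h2 (A.image (fun a => a + -g)) _ _ K q hq2 hqm hqK
    · rw [← cs_zero, card_sdiff_translate, zero_add]
      exact hAK
    · intro K' g' hKK' hlt
      rw [card_sdiff_translate]
      obtain ⟨q', hq'⟩ := exists_index K'
      have hK'pos := card_hs_pos K'
      -- `q` divides `q'`
      obtain ⟨j, hj⟩ : (hs K').card ∣ (hs K).card := by
        apply dvd_card_of_per
        intro y hy h hh
        rw [mem_hs] at hy ⊢
        exact K.add_mem hy (hKK' hh)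
      have hj2 : 2 ≤ j := by
        by_contra hcon
        have h01 : j = 0 ∨ j = 1 := by omega
        rcases h01 with h | h
        · rw [h, mul_zero] at hj
          have := card_hs_pos K
          omega
        · rw [h, mul_one] at hj
          omega
      have hqj : q' = q * j := by
        have e1 : q' * (hs K').card = q * j * (hs K').card := by
          rw [hq', ← hqK, hj]
          ring
        exact Nat.eq_of_mul_eq_mul_right hK'pos e1
      have h2q : 2 * q ≤ q' := by
        rw [hqj, mul_comm]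
        exact Nat.mul_le_mul_left _ hj2
      have h3 := hNC K' (g' + g) q' hq' (by omega) (fun _ => h2q)
      rw [if_neg (by omega)] at h3
      exact h3
    · rw [card_translate, hAc]
    · apply not_DS_of_WZF (h := κ)
      · rw [card_translate, hAc]
      · apply WZF_translate _ _ hw
        rw [hκdef]
        exact AddMonoid.exponent_nsmul_eq_zero _

end Pool.Agent.Lib.MPa7239a
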