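import Pool.Agent.Lib.MP_a7239a_co.PolyJ
import Pool.Agent.Lib.MP_a7239a_co.Final

/-!
# The criterion in the range `κ (t - m) ^ 2 ≥ 40000 m ^ 6` and its consequences
-/

open scoped Pointwise
open Finset

set_option linter.unusedSectionVars false

namespace Pool.Agent.Lib.MPa7239a

universe u

section

/-- a good `t = m + s` has a small quotient -/
theorem good_small {m s w Q : ℕ} (hsm : s ≤ m) (hw : 2 ≤ w)
    (h1 : (m + s) * (w - 1) + 2 ≤ Q) (h2 : Q < m * w) : Q * s ≤ 2 * m ^ 2 := by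
  obtain ⟨v, rfl⟩ : ∃ v, w = v + 2 := ⟨w - 2, by omega⟩
  have e : v + 2 - 1 = v + 1 := by omega
  rw [e] at h1
  have h3 : (m + s) * (v + 1) = m * (v + 1) + s * (v + 1) := by ring
  have h4 : m * (v + 2) = m * (v + 1) + m := by ring
  have h5 : s * (v + 1) ≤ m := by omega
  have h6 : s * (v + 2) ≤ 2 * m := by
    have : s * (v + 2) = s * (v + 1) + s := by ring
    omega
  calc Q * s ≤ m * (v + 2) * s := Nat.mul_le_mul_right _ h2.le
    _ = m * (s * (v + 2)) := by ring
    _ ≤ m * (2 * m) := Nat.mul_le_mul_left _ h6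
    _ = 2 * m ^ 2 := by ring

/-- **The criterion.** -/
theorem criterion {m s : ℕ} (hm : 3 ≤ m) (hs1 : 1 ≤ s) (hsm : s ≤ m) (G : Type u)
    [AddCommGroup G] [Finite G] (κ : ℕ) (hκe : κ = AddMonoid.exponent G)
    (hκ : 40000 * m ^ 6 ≤ κ * s ^ 2) (hn : Nat.card G = m * κ) :
    κ + (m + s) ≤ tauHat G κ ↔ Good G m (m + s) := by
  classical
  have := Fintype.ofFinite G
  have hnf : Fintype.card G = m * κ := by rw [← Nat.card_eq_fintype_card]; exact hn
  have hκpos : 0 < κ := by
    by_contra h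
    have h0 : κ = 0 := by omega
    rw [h0, zero_mul] at hκ
    have : 0 < m ^ 6 := by positivity
    omega
  constructor
  · intro hle
    rw [le_tauHat_iff hκpos] at hle
    obtain ⟨A, hAc, hA⟩ := hle
    obtain ⟨M, F, x, hMF, hFn, hx, hc, hκF, hnc⟩ := upper2 hm hs1 hsm (by rw [← hκe]; exact hκ)
      (by rw [← hκe]; exact hnf) A (by rw [← hκe]; exact hAc) (by rw [← hκe]; exact hA)
    exact good_of_periodic hnf (by omega) (by omega) hMF hFn hx hc (by rw [← hκe] at hκF; exact hκF)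
      hnc
  · rintro ⟨K, P, hP, ⟨y, hy⟩, h1, h2⟩
    have hw := two_le_card_of_spans hP (by omega)
    have h3 := good_small hsm hw h1 h2
    have h4 : m + s ≤ (m + s) * (P.card - 1) := Nat.le_mul_of_pos_right _ (by omega)
    refine lower_quotient hn hP hy h2 (by omega) ?_
    set Q := Nat.card (G ⧸ K) with hQ
    have h5 : (Q * s) ^ 3 ≤ (2 * m ^ 2) ^ 3 := Nat.pow_le_pow_left h3 3
    have h6 : (Q * s) ^ 3 = Q ^ 3 * s ^ 3 := by ring
    have h7 : (2 * m ^ 2) ^ 3 = 8 * m ^ 6 := by ring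
    have h8 : κ * s ^ 2 ≤ κ * s ^ 3 := Nat.mul_le_mul_left _ (Nat.pow_le_pow_right hs1 (by norm_num))
    have h9 : 4 * Q ^ 3 * s ^ 3 ≤ κ * s ^ 3 := by
      have : 4 * Q ^ 3 * s ^ 3 = 4 * (Q ^ 3 * s ^ 3) := by ring
      omega
    exact Nat.le_of_mul_le_mul_right h9 (by positivity)

/-- **Main theorem** with an explicit threshold. -/
theorem main_theorem2 (m : ℕ) (hm : 3 ≤ m) (G : Type u) [AddCommGroup G] [Finite G]
    (κ : ℕ) (hκe : κ = AddMonoid.exponent G) (hκ : 40000 * m ^ 6 ≤ κ) (hn : Nat.card G = m * κ) :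
    -- (1) exact criterion for all `t > m`
    (∀ t, m < t → (κ + t ≤ tauHat G κ ↔ Good G m t)) ∧
    -- (2) bounds valid for all groups
    (κ + m ≤ tauHat G κ + 1 ∧ tauHat G κ + 3 ≤ κ + 2 * m) ∧
    -- (3) the exact value if a suitable divisor exists
    ((∃ q, q ∣ κ ∧ m < q ∧ 2 ≤ q % m ∧ (2 * m + 1) * q ≤ κ) →
      tauHat G κ = κ + sSup {t | Good G m t}) ∧
    -- (4) lower bound from a small quotient, for every `t`
    (∀ (K : AddSubgroup G) (P : Finset (G ⧸ K)) (t : ℕ), Spans P → (∃ y, Misses P t y) →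
      Nat.card (G ⧸ K) < m * P.card → t ≤ Nat.card (G ⧸ K) → 4 * Nat.card (G ⧸ K) ^ 3 ≤ κ →
      κ + t ≤ tauHat G κ) ∧
    -- (5) explicit value
    (∀ q, q ∣ κ → q < 2 * m → 3 * m + 1 ≤ 2 * q → (∀ q', q' ∣ κ → q' < 2 * m → q' ≤ q) →
      tauHat G κ + 2 = κ + q) ∧
    -- (6) `m` prime
    (m.Prime → ∀ t, m < t → (κ + t ≤ tauHat G κ ↔
      ∃ q w, q ∣ κ ∧ 2 ≤ w ∧ t * (w - 1) + 2 ≤ q ∧ q < m * w)) := by
  classical
  have := Fintype.ofFinite G
  have hκ2 : 4 * (m * m) ^ 3 ≤ κ := by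
    have e1 : (m * m) ^ 3 = m ^ 6 := by ring
    omega
  have hnf : Fintype.card G = m * κ := by rw [← Nat.card_eq_fintype_card]; exact hn
  have hκpos : 0 < κ := by
    have : 0 < (m * m) ^ 3 := by positivity
    omega
  -- upper bound direction
  have hup : ∀ t, m < t → t ≤ 2 * m → κ + t ≤ tauHat G κ → Good G m t := by
    intro t ht ht2 hle
    obtain ⟨s, rfl⟩ : ∃ s, t = m + s := ⟨t - m, by omega⟩
    refine (criterion hm (by omega) (by omega) G κ hκe ?_ hn).1 hle
    exact hκ.trans (Nat.le_mul_of_pos_right _ (by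
      have : 0 < s := by omega
      positivity))
  -- no set is too large
  have hno : tauHat G κ + 3 ≤ κ + 2 * m := by
    by_contra hcon
    have h1 := hup (2 * m - 2) (by omega) (by omega) (by omega)
    have h2 := good_bounds (by omega) h1
    omega
  have hdown : ∀ t, m < t → Good G m t → κ + t ≤ tauHat G κ := by
    rintro t ht ⟨K, P, hP, ⟨y, hy⟩, h1, h2⟩
    have hw := two_le_card_of_spans hP (by omega)
    have h3 := good_arith (by omega) hw h1 h2
    have h4 : t ≤ t * (P.card - 1) := Nat.le_mul_of_pos_right _ (by omega)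
    refine lower_quotient hn hP hy h2 (by omega) ?_
    refine le_trans ?_ hκ2
    exact Nat.mul_le_mul_left _ (Nat.pow_le_pow_left h3.2.le 3)
  have hcrit : ∀ t, m < t → (κ + t ≤ tauHat G κ ↔ Good G m t) := by
    intro t ht
    refine ⟨fun h => hup t ht (by omega) h, hdown t ht⟩
  -- lower bound from a cyclic quotient
  have hcyc : ∀ q w t, q ∣ κ → 1 ≤ t → 2 ≤ w → t * (w - 1) + 2 ≤ q → q < m * w →
      4 * q ^ 3 ≤ κ → κ + t ≤ tauHat G κ := by
    intro q w t hq ht hw h1 h2 h3
    rw [le_tauHat_iff hκpos]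
    exact lower_cyclic hnf hκe hq ht hw h1 h2 h3
  have hpred : κ + m ≤ tauHat G κ + 1 := by
    have h1 : 2 * m * m ≤ κ := by
      refine le_trans ?_ hκ2
      have e1 : 4 * (m * m) ^ 3 = 2 * m * m * (2 * (m * m) ^ 2) := by ring
      rw [e1]
      exact Nat.le_mul_of_pos_right _ (by positivity)
    have h2 := lower_pred (G := G) (m := m) (κ := κ) (by omega) h1 hκe hnf
    rw [← le_tauHat_iff hκpos] at h2
    omega
  refine ⟨hcrit, ⟨hpred, hno⟩, ?_, ?_, ?_, ?_⟩
  · rintro ⟨q, hq, hmq, hqm, hq3⟩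
    have hmpos : 0 < m := by omega
    have hdm := Nat.div_add_mod q m
    have hmτ : κ + m ≤ tauHat G κ := by
      have h2 := lower_self (G := G) (m := m) (κ := κ) (by omega) hκe hnf hq hmq hqm hq3
      rwa [← le_tauHat_iff hκpos] at h2
    set u := q / m with hu
    set v := q % m with hv
    have hvm : v < m := Nat.mod_lt _ hmpos
    have hu1 : 1 ≤ u := by
      rw [hu, Nat.one_le_div_iff hmpos]
      omega
    -- `Good G m m`
    have hgm : Good G m m := by
      obtain ⟨π, hπ⟩ := exists_surj (G := G) (q := q) (by rw [← hκe]; exact hq)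
      have hmu : m * (u + 1) = m * u + m := by ring
      have hum : u ≤ m * u := Nat.le_mul_of_pos_left _ hmpos
      refine good_of_surj π hπ (w := u + 1) (by omega) (by omega) ?_ (by omega)
      rw [Nat.add_sub_cancel]
      omega
    have hbdd : BddAbove {t | Good G m t} := ⟨2 * m, by
      intro t ht
      by_cases htm : t ≤ m
      · omega
      · have := good_bounds (by omega) ht
        omega⟩
    have hmem : Good G m (sSup {t | Good G m t}) := Nat.sSup_mem ⟨m, hgm⟩ hbdd
    have hms : m ≤ sSup {t | Good G m t} := le_csSup hbdd hgm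
    set s := sSup {t | Good G m t} with hs
    apply le_antisymm
    · have hT : tauHat G κ - κ ≤ s := by
        by_cases hTm : m < tauHat G κ - κ
        · have h1 := (hcrit _ hTm).1 (by omega)
          exact le_csSup hbdd h1
        · omega
      omega
    · rcases Nat.eq_or_lt_of_le hms with h | h
      · omega
      · exact (hcrit s h).2 hmem
  · rintro K P t hP ⟨y, hy⟩ h1 h2 h3
    exact lower_quotient hn hP hy h1 h2 h3
  · intro q hq hq2 hq3 hmax
    have hlow : κ + (q - 2) ≤ tauHat G κ := by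
      refine hcyc q 2 (q - 2) hq (by omega) (le_refl _) (by omega) (by omega) ?_
      refine le_trans ?_ hκ2
      apply Nat.mul_le_mul_left
      apply Nat.pow_le_pow_left
      nlinarith
    have hupp : ¬ κ + (q - 1) ≤ tauHat G κ := by
      intro hle
      have h1 := (hcrit (q - 1) (by omega)).1 hle
      obtain ⟨K, P, hP, -, h2, h3⟩ := h1
      have hw := two_le_card_of_spans hP (by omega)
      rcases Nat.lt_or_ge P.card 3 with hw3 | hw3
      · have hw2 : P.card = 2 := by omega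
        have h4 := dvd_exponent_of_spans hP hw2
        rw [hw2] at h2 h3
        have h5 := hmax (Nat.card (G ⧸ K)) (by rw [hκe]; exact h4) (by omega)
        omega
      · obtain ⟨s, hs⟩ : ∃ s, P.card = s + 3 := ⟨P.card - 3, by omega⟩
        rw [hs] at h2 h3
        have e1 : s + 3 - 1 = s + 2 := by omega
        rw [e1] at h2
        have e2 : (q - 1) * (s + 2) + 2 < m * (s + 3) := lt_of_le_of_lt h2 h3
        obtain ⟨p, hp⟩ : ∃ p, q = p + 1 := ⟨q - 1, by omega⟩
        rw [hp, Nat.add_sub_cancel] at e2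
        rw [hp] at hq3
        nlinarith
    omega
  · intro hmp t ht
    constructor
    · intro hle
      obtain ⟨K, P, hP, -, h2, h3⟩ := (hcrit t ht).1 hle
      have hw := two_le_card_of_spans hP (by omega)
      refine ⟨Nat.card (G ⧸ K), P.card, ?_, hw, h2, h3⟩
      rw [hκe]
      exact dvd_exponent_of_prime hmp (by omega) (by rw [← hκe]; exact hn) hw h2 h3
    · rintro ⟨q, w, hq, hw, h1, h2⟩
      have h3 := good_arith (by omega) hw h1 h2
      refine hcyc q w t hq (by omega) hw h1 h2 ?_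
      refine le_trans ?_ hκ2
      exact Nat.mul_le_mul_left _ (Nat.pow_le_pow_left h3.2.le 3)

end


section

/-- **Sharp upper bound** in a wider range. -/
theorem sharp_upper {m : ℕ} (hm : 4 ≤ m) (G : Type u)
    [AddCommGroup G] [Finite G] (κ : ℕ) (hκe : κ = AddMonoid.exponent G)
    (hκ : 640000 * m ^ 4 ≤ κ) (hn : Nat.card G = m * κ) :
    κ + (m - 1) ≤ tauHat G κ ∧ tauHat G κ + 3 ≤ κ + 2 * m ∧
      (tauHat G κ + 3 = κ + 2 * m ↔ 2 * m - 1 ∣ κ) := by
  classical
  have := Fintype.ofFinite G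
  have hnf : Fintype.card G = m * κ := by rw [← Nat.card_eq_fintype_card]; exact hn
  have hκpos : 0 < κ := by
    have : 0 < m ^ 4 := by positivity
    omega
  have hlow : κ + (m - 1) ≤ tauHat G κ := by
    have h1 : 2 * m * m ≤ κ := by
      have e1 : m ^ 2 ≤ m ^ 4 := pow_bound (by omega) 2 4 (by norm_num)
      have e2 : 2 * m * m = 2 * m ^ 2 := by ring
      omega
    have h2 := lower_pred (G := G) (m := m) (κ := κ) (by omega) h1 hκe hnf
    rw [← le_tauHat_iff hκpos] at h2
    omega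
  have hcr1 : κ + (m + (m - 2)) ≤ tauHat G κ ↔ Good G m (m + (m - 2)) := by
    apply criterion (by omega) (by omega) (by omega) G κ hκe _ hn
    have e1 : m ^ 2 ≤ 4 * (m - 2) ^ 2 := by
      obtain ⟨a, rfl⟩ : ∃ a, m = a + 4 := ⟨m - 4, by omega⟩
      have : a + 4 - 2 = a + 2 := by omega
      rw [this]
      nlinarith
    calc 40000 * m ^ 6 = 40000 * m ^ 4 * m ^ 2 := by ring
      _ ≤ 40000 * m ^ 4 * (4 * (m - 2) ^ 2) := Nat.mul_le_mul_left _ e1
      _ = 160000 * m ^ 4 * (m - 2) ^ 2 := by ring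
      _ ≤ κ * (m - 2) ^ 2 := Nat.mul_le_mul_right _ (by omega)
  have hcr2 : κ + (m + (m - 3)) ≤ tauHat G κ ↔ Good G m (m + (m - 3)) := by
    apply criterion (by omega) (by omega) (by omega) G κ hκe _ hn
    have e1 : m ^ 2 ≤ 16 * (m - 3) ^ 2 := by
      obtain ⟨a, rfl⟩ : ∃ a, m = a + 4 := ⟨m - 4, by omega⟩
      have : a + 4 - 3 = a + 1 := by omega
      rw [this]
      nlinarith
    calc 40000 * m ^ 6 = 40000 * m ^ 4 * m ^ 2 := by ring
      _ ≤ 40000 * m ^ 4 * (16 * (m - 3) ^ 2) := Nat.mul_le_mul_left _ e1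
      _ = 640000 * m ^ 4 * (m - 3) ^ 2 := by ring
      _ ≤ κ * (m - 3) ^ 2 := Nat.mul_le_mul_right _ hκ
  have hno : tauHat G κ + 3 ≤ κ + 2 * m := by
    by_contra hcon
    have h1 := hcr1.1 (by omega)
    have h2 := good_bounds (by omega) h1
    omega
  refine ⟨hlow, hno, ?_⟩
  have e3 : m + (m - 3) = 2 * m - 3 := by omega
  rw [e3] at hcr2
  constructor
  · intro heq
    obtain ⟨K, P, hP, -, h1, h2⟩ := hcr2.1 (by omega)
    have hw := two_le_card_of_spans hP (by omega)
    have hw2 : P.card = 2 := by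
      by_contra hne
      obtain ⟨v, hv⟩ : ∃ v, P.card = v + 3 := ⟨P.card - 3, by omega⟩
      obtain ⟨a, ha⟩ : ∃ a, m = a + 4 := ⟨m - 4, by omega⟩
      rw [hv, ha] at h1 h2
      have e4 : v + 3 - 1 = v + 2 := by omega
      have e5 : 2 * (a + 4) - 3 = 2 * a + 5 := by omega
      rw [e4, e5] at h1
      nlinarith
    have h3 := dvd_exponent_of_spans hP hw2
    rw [hw2] at h1 h2
    have h4 : Nat.card (G ⧸ K) = 2 * m - 1 := by omega
    rw [← h4, hκe]
    exact h3
  · intro hdvd
    obtain ⟨π, hπ⟩ := exists_surj (G := G) (q := 2 * m - 1) (by rw [← hκe]; exact hdvd)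
    have h1 := hcr2.2 (good_of_surj π hπ (w := 2) (by omega) (by omega) (by omega) (by omega))
    omega

end

end Pool.Agent.Lib.MPa7239a
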