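import Pool.Agent.Lib.MP_a7239a_co.Removal

/-!
# Iterated popular sums
-/

open scoped Pointwise
open Finset

set_option linter.unusedSectionVars false

namespace Pool.Agent.Lib.MPa7239a

universe u

variable {G : Type u} [AddCommGroup G] [Fintype G] [DecidableEq G]

/-- `k`-fold sumset -/
def ms (F : Finset G) : ℕ → Finset G
  | 0 => {0}
  | (k + 1) => ms F k + F

theorem ms_one (F : Finset G) : ms F 1 = F := by
  ext x
  simp only [ms]
  rw [Finset.mem_add]
  constructor
  · rintro ⟨a, ha, b, hb, rfl⟩
    rw [mem_singleton] at ha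
    subst ha
    rwa [zero_add]
  · intro hx
    exact ⟨0, mem_singleton_self 0, x, hx, zero_add x⟩

/-- iterated popular sums: `Sq δ A i` consists of popular `(i+1)`-fold sums -/
noncomputable def Sq (δ : ℝ) (A : Finset G) : ℕ → Finset G
  | 0 => A
  | (i + 1) => pop δ (Sq δ A i) A

/-- `x` is a sum of `t` distinct elements of `A` -/
def DS (A : Finset G) (t : ℕ) (x : G) : Prop := ∃ T ⊆ A, T.card = t ∧ ∑ a ∈ T, a = x

theorem card_double_le {g₂ : ℕ} (h2 : ∀ z : G, (univ.filter (fun b : G => b + b = z)).card ≤ g₂)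
    (U : Finset G) (z : G) : (U.filter (fun b => b + b = z)).card ≤ g₂ := by
  refine le_trans (card_le_card ?_) (h2 z)
  intro b hb
  rw [mem_filter] at hb ⊢
  exact ⟨mem_univ _, hb.2⟩

/-- Popular sums are sums of distinct elements avoiding a small set. -/
theorem ds_of_mem_Sq {g₂ : ℕ} (h2 : ∀ z : G, (univ.filter (fun b : G => b + b = z)).card ≤ g₂)
    {δ : ℝ} {A : Finset G} : ∀ (i : ℕ) (E : Finset G) (z : G),
    ((2 * (E.card + i) + g₂ : ℕ) : ℝ) < δ * Fintype.card G → z ∈ Sq δ A (i + 1) →
    DS (A \ E) (i + 2) z := by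
  intro i
  induction i with
  | zero =>
    intro E z hn hz
    simp only [Sq] at hz
    rw [mem_pop] at hz
    set U := A.filter (fun x => z - x ∈ A) with hU
    have hlt : (2 * (E.card + 0) + g₂ : ℕ) < U.card := by
      have := lt_of_lt_of_le hn hz
      exact_mod_cast this
    -- bad elements
    set B := (U.filter (fun s => s ∈ E)) ∪ (U.filter (fun s => z - s ∈ E))
      ∪ (U.filter (fun s => s + s = z)) with hB
    have hb1 : (U.filter (fun s => s ∈ E)).card ≤ E.card := by
      apply card_le_card
      intro s hs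
      exact (mem_filter.1 hs).2
    have hb2 : (U.filter (fun s => z - s ∈ E)).card ≤ E.card := by
      apply card_le_card_of_injOn (fun s => z - s)
      · intro s hs
        have hs' : s ∈ U.filter (fun s => z - s ∈ E) := hs
        exact (mem_filter.1 hs').2
      · intro s _ s' _ h
        exact sub_right_injective h
    have hb3 := card_double_le h2 U z
    have hBcard : B.card ≤ 2 * E.card + g₂ := by
      have e1 := card_union_le ((U.filter (fun s => s ∈ E)) ∪ (U.filter (fun s => z - s ∈ E)))
        (U.filter (fun s => s + s = z))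
      have e2 := card_union_le (U.filter (fun s => s ∈ E)) (U.filter (fun s => z - s ∈ E))
      rw [← hB] at e1
      omega
    obtain ⟨s, hs, hsB⟩ : ∃ s ∈ U, s ∉ B := by
      apply exists_mem_notMem_of_card_lt_card
      omega
    have hs1 : s ∈ A ∧ z - s ∈ A := by
      rw [hU, mem_filter] at hs
      exact hs
    have hne1 : s ∉ E := by
      intro h
      apply hsB
      rw [hB, mem_union, mem_union]
      exact Or.inl (Or.inl (mem_filter.2 ⟨hs, h⟩))
    have hne2 : z - s ∉ E := by
      intro h
      apply hsB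
      rw [hB, mem_union, mem_union]
      exact Or.inl (Or.inr (mem_filter.2 ⟨hs, h⟩))
    have hne3 : s ≠ z - s := by
      intro h
      apply hsB
      rw [hB, mem_union, mem_union]
      refine Or.inr (mem_filter.2 ⟨hs, ?_⟩)
      nth_rewrite 2 [h]
      abel
    refine ⟨{s, z - s}, ?_, ?_, ?_⟩
    · intro w hw
      rw [mem_insert, mem_singleton] at hw
      rw [mem_sdiff]
      rcases hw with rfl | rfl
      · exact ⟨hs1.1, hne1⟩
      · exact ⟨hs1.2, hne2⟩
    · rw [card_pair hne3]
    · rw [sum_pair hne3]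
      abel
  | succ i ih =>
    intro E z hn hz
    have hz' : z ∈ pop δ (Sq δ A (i + 1)) A := hz
    rw [mem_pop] at hz'
    set U := (Sq δ A (i + 1)).filter (fun x => z - x ∈ A) with hU
    have hlt : (2 * (E.card + (i + 1)) + g₂ : ℕ) < U.card := by
      have := lt_of_lt_of_le hn hz'
      exact_mod_cast this
    have hb2 : (U.filter (fun s => z - s ∈ E)).card ≤ E.card := by
      apply card_le_card_of_injOn (fun s => z - s)
      · intro s hs
        have hs' : s ∈ U.filter (fun s => z - s ∈ E) := hs
        exact (mem_filter.1 hs').2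
      · intro s _ s' _ h
        exact sub_right_injective h
    obtain ⟨s, hs, hsB⟩ : ∃ s ∈ U, s ∉ U.filter (fun s => z - s ∈ E) := by
      apply exists_mem_notMem_of_card_lt_card
      omega
    have hne : z - s ∉ E := by
      intro h
      exact hsB (mem_filter.2 ⟨hs, h⟩)
    rw [hU, mem_filter] at hs
    obtain ⟨T, hT, hTc, hTs⟩ := ih (insert (z - s) E) s (by
      refine lt_of_le_of_lt ?_ hn
      have : (insert (z - s) E).card ≤ E.card + 1 := card_insert_le _ _
      exact_mod_cast (by omega : 2 * ((insert (z - s) E).card + i) + g₂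
        ≤ 2 * (E.card + (i + 1)) + g₂)) hs.1
    have hnotT : z - s ∉ T := by
      intro h
      have := hT h
      rw [mem_sdiff, mem_insert] at this
      exact this.2 (Or.inl rfl)
    refine ⟨insert (z - s) T, ?_, ?_, ?_⟩
    · intro w hw
      rw [mem_insert] at hw
      rw [mem_sdiff]
      rcases hw with rfl | hw
      · exact ⟨hs.2, hne⟩
      · have := hT hw
        rw [mem_sdiff, mem_insert] at this
        exact ⟨this.1, fun h => this.2 (Or.inr h)⟩
    · rw [card_insert_of_notMem hnotT, hTc]
    · rw [sum_insert hnotT, hTs]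
      abel

/-- union of the popular cosets of `K` -/
noncomputable def pc (η : ℝ) (K : AddSubgroup G) (A : Finset G) : Finset G :=
  univ.filter (fun g => η * (Fintype.card G : ℝ) ≤ ((A ∩ cs K g).card : ℝ))

theorem mem_pc {η : ℝ} {K : AddSubgroup G} {A : Finset G} {g : G} : g ∈ pc η K A ↔
    η * (Fintype.card G : ℝ) ≤ ((A ∩ cs K g).card : ℝ) := by
  simp [pc]

theorem cs_eq {K : AddSubgroup G} {g h : G} (hk : h ∈ K) : cs K (g + h) = cs K g := by
  ext x
  rw [mem_cs, mem_cs]
  constructor
  · intro hx
    have : x - g = (x - (g + h)) + h := by abel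
    rw [this]
    exact K.add_mem hx hk
  · intro hx
    have : x - (g + h) = (x - g) - h := by abel
    rw [this]
    exact K.sub_mem hx hk

theorem per_pc (η : ℝ) (K : AddSubgroup G) (A : Finset G) : Per K (pc η K A) := by
  intro x hx h hh
  rw [mem_pc] at hx ⊢
  rw [cs_eq hh]
  exact hx

theorem self_mem_cs (K : AddSubgroup G) (g : G) : g ∈ cs K g := by
  rw [mem_cs, sub_self]
  exact K.zero_mem

/-- popular cosets have many popular sums -/
theorem card_Sq_inter {η δ : ℝ} (hη : 0 < η) {K : AddSubgroup G} {A : Finset G} :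
    ∀ (i : ℕ) (z : G), δ ≤ (η / 2) ^ (i + 1) → (η ≤ 2) → 0 ≤ δ → z ∈ ms (pc η K A) (i + 1) →
    (η / 2) ^ (i + 1) * (Fintype.card G : ℝ) ≤ ((Sq δ A i ∩ cs K z).card : ℝ) := by
  intro i
  have hn : (0 : ℝ) < Fintype.card G := by
    have : 0 < Fintype.card G := Fintype.card_pos
    exact_mod_cast this
  induction i with
  | zero =>
    intro z _ _ _ hz
    have hz' : z ∈ pc η K A := by
      rw [zero_add, ms_one] at hz
      exact hz
    rw [mem_pc] at hz'
    simp only [Sq]
    refine le_trans ?_ hz'
    rw [zero_add, pow_one]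
    apply mul_le_mul_of_nonneg_right _ hn.le
    linarith
  | succ i ih =>
    intro z hδ hη2 hδ0 hz
    have hz' : z ∈ ms (pc η K A) (i + 1) + pc η K A := hz
    rw [Finset.mem_add] at hz'
    obtain ⟨z', hz1, g, hg, rfl⟩ := hz'
    have hδ' : δ ≤ (η / 2) ^ (i + 1) := by
      refine hδ.trans ?_
      rw [pow_succ]
      have : (0 : ℝ) ≤ (η / 2) ^ (i + 1) := by positivity
      nlinarith
    have hU := ih z' hδ' hη2 hδ0 hz1
    rw [mem_pc] at hg
    set U := Sq δ A i ∩ cs K z' with hUdef
    set V := A ∩ cs K g with hVdef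
    set W := Sq δ A (i + 1) ∩ cs K (z' + g) with hWdef
    set Pb := ((Sq δ A i) ×ˢ A).filter (fun p => p.1 + p.2 ∈ univ \ pop δ (Sq δ A i) A) with hPb
    have h1 : U ×ˢ V ⊆ Pb ∪ (U ×ˢ V).filter (fun p => p.1 + p.2 ∈ W) := by
      intro p hp
      rw [mem_union]
      have hp0 := hp
      rw [mem_product, hUdef, hVdef, mem_inter, mem_inter] at hp
      by_cases hpp : p.1 + p.2 ∈ pop δ (Sq δ A i) A
      · right
        rw [mem_filter]
        refine ⟨hp0, ?_⟩
        rw [hWdef, mem_inter]
        refine ⟨hpp, ?_⟩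
        rw [mem_cs]
        have e1 := mem_cs.1 hp.1.2
        have e2 := mem_cs.1 hp.2.2
        have : p.1 + p.2 - (z' + g) = (p.1 - z') + (p.2 - g) := by abel
        rw [this]
        exact K.add_mem e1 e2
      · left
        rw [hPb, mem_filter, mem_product, mem_sdiff]
        exact ⟨⟨hp.1.1, hp.2.1⟩, mem_univ _, hpp⟩
    have h2 : ((U ×ˢ V).filter (fun p => p.1 + p.2 ∈ W)).card ≤ W.card * Fintype.card G := by
      have h3 : ((U ×ˢ V).filter (fun p => p.1 + p.2 ∈ W)).card ≤ (W ×ˢ (univ : Finset G)).card := by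
        apply card_le_card_of_injOn (fun p => (p.1 + p.2, p.1))
        · intro p hp
          have hp' : p ∈ (U ×ˢ V).filter (fun p => p.1 + p.2 ∈ W) := hp
          have : (p.1 + p.2, p.1) ∈ W ×ˢ (univ : Finset G) := by
            rw [mem_product]
            exact ⟨(mem_filter.1 hp').2, mem_univ _⟩
          exact this
        · intro p _ q _ hpq
          simp only [Prod.mk.injEq] at hpq
          obtain ⟨e1, e2⟩ := hpq
          rw [e2] at e1
          exact Prod.ext e2 (add_left_cancel e1)
      rwa [card_product, card_univ] at h3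
    have h4 := card_le_card h1
    have h5 := card_union_le Pb ((U ×ˢ V).filter (fun p => p.1 + p.2 ∈ W))
    have h6 := card_unpop hδ0 (Sq δ A i) A
    rw [← hPb] at h6
    have h7 : ((U ×ˢ V).card : ℝ) ≤ δ * (Fintype.card G : ℝ) ^ 2 + W.card * Fintype.card G := by
      have e1 : ((U ×ˢ V).card : ℝ) ≤ (Pb.card : ℝ)
          + (((U ×ˢ V).filter (fun p => p.1 + p.2 ∈ W)).card : ℝ) := by
        exact_mod_cast h4.trans h5
      have e2 : (((U ×ˢ V).filter (fun p => p.1 + p.2 ∈ W)).card : ℝ)
          ≤ W.card * Fintype.card G := by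
        exact_mod_cast h2
      linarith
    rw [card_product] at h7
    push_cast at h7
    have h8 : (η / 2) ^ (i + 1) * (Fintype.card G : ℝ) * (η * (Fintype.card G : ℝ))
        ≤ (U.card : ℝ) * (V.card : ℝ) := by
      apply mul_le_mul hU hg (by positivity) (by positivity)
    have h9 : (η / 2) ^ (i + 1) * (Fintype.card G : ℝ) * (η * (Fintype.card G : ℝ))
        = 2 * (η / 2) ^ (i + 1 + 1) * (Fintype.card G : ℝ) * (Fintype.card G : ℝ) := by
      rw [pow_succ (η / 2) (i + 1)]
      ring
    have h10 : δ * (Fintype.card G : ℝ) ^ 2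
        ≤ (η / 2) ^ (i + 1 + 1) * (Fintype.card G : ℝ) * (Fintype.card G : ℝ) := by
      have : δ * (Fintype.card G : ℝ) ^ 2 = δ * ((Fintype.card G : ℝ) * (Fintype.card G : ℝ)) := by
        ring
      rw [this, mul_assoc]
      apply mul_le_mul_of_nonneg_right hδ (by positivity)
    have h11 : (η / 2) ^ (i + 1 + 1) * (Fintype.card G : ℝ) * (Fintype.card G : ℝ)
        ≤ (W.card : ℝ) * (Fintype.card G : ℝ) := by linarith
    exact le_of_mul_le_mul_right h11 hn

/-- **Phase 1.** -/
theorem phase1 {g₂ : ℕ} (h2 : ∀ z : G, (univ.filter (fun b : G => b + b = z)).card ≤ g₂)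
    {η δ ε : ℝ} (hη : 0 < η) (hη2 : η ≤ 1) (hδ0 : 0 < δ) {t j : ℕ} (hjt : j + 3 ≤ t)
    (hδ : δ ≤ (η / 2) ^ t) (hε : ε < (η / 2) ^ t)
    (hn : ((2 * (1 + t) + g₂ : ℕ) : ℝ) < δ * Fintype.card G)
    {A X' Y' : Finset G} {K : AddSubgroup G}
    (hXc : ((Sq δ A j \ X').card : ℝ) ≤ ε * Fintype.card G)
    (hYc : ((A \ Y').card : ℝ) ≤ ε * Fintype.card G)
    (hXY : (((X' + Y') \ Sq δ A (j + 1)).card : ℝ) ≤ ε * Fintype.card G)
    (hK : Per K (X' + Y')) {x : G} (hx : ¬ DS A t x) : x ∉ ms (pc η K A) t := by
  have hnpos : (0 : ℝ) < Fintype.card G := by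
    have : 0 < Fintype.card G := Fintype.card_pos
    exact_mod_cast this
  have hη1 : η / 2 ≤ 1 := by linarith
  have hη0 : 0 ≤ η / 2 := by positivity
  set F := pc η K A with hF
  have hpow : ∀ i, i ≤ t → (η / 2) ^ t ≤ (η / 2) ^ i := by
    intro i hi
    exact pow_le_pow_of_le_one hη0 hη1 hi
  have hεη : ε < η := by
    have h1 : (η / 2) ^ t ≤ (η / 2) ^ 1 := hpow 1 (by omega)
    rw [pow_one] at h1
    linarith
  have hδη : δ ≤ η - ε := by
    have h1 : (η / 2) ^ t ≤ (η / 2) ^ 1 := hpow 1 (by omega)
    rw [pow_one] at h1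
    linarith
  -- popular cosets meet `Y'`
  have hmeetY : ∀ g ∈ F, ∃ y ∈ Y', y ∈ cs K g := by
    intro g hg
    rw [hF, mem_pc] at hg
    by_contra hcon
    push Not at hcon
    have h1 : A ∩ cs K g ⊆ A \ Y' := by
      intro y hy
      rw [mem_inter] at hy
      rw [mem_sdiff]
      exact ⟨hy.1, fun h => hcon y h hy.2⟩
    have h3 : ((A ∩ cs K g).card : ℝ) ≤ ((A \ Y').card : ℝ) := by
      exact_mod_cast card_le_card h1
    nlinarith
  have hmeetX : ∀ z ∈ ms F (j + 1), ∃ y ∈ X', y ∈ cs K z := by
    intro z hz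
    have h0 := card_Sq_inter (δ := δ) hη (K := K) (A := A) j z (hδ.trans (hpow _ (by omega)))
      (by linarith) hδ0.le hz
    by_contra hcon
    push Not at hcon
    have h1 : Sq δ A j ∩ cs K z ⊆ Sq δ A j \ X' := by
      intro y hy
      rw [mem_inter] at hy
      rw [mem_sdiff]
      exact ⟨hy.1, fun h => hcon y h hy.2⟩
    have h3 : ((Sq δ A j ∩ cs K z).card : ℝ) ≤ ((Sq δ A j \ X').card : ℝ) := by
      exact_mod_cast card_le_card h1
    have h4 := hpow (j + 1) (by omega)
    have h5 : ε * (Fintype.card G : ℝ) < (η / 2) ^ (j + 1) * Fintype.card G :=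
      mul_lt_mul_of_pos_right (lt_of_lt_of_le hε h4) hnpos
    linarith
  -- `(j+2)F` is contained in `X' + Y'`
  have hsub : ms F (j + 2) ⊆ X' + Y' := by
    intro z hz
    have hz' : z ∈ ms F (j + 1) + F := hz
    rw [Finset.mem_add] at hz'
    obtain ⟨z1, hz1, g, hg, rfl⟩ := hz'
    obtain ⟨x', hx', hx'c⟩ := hmeetX z1 hz1
    obtain ⟨y', hy', hy'c⟩ := hmeetY g hg
    rw [mem_cs] at hx'c hy'c
    have h1 : x' + y' ∈ X' + Y' := add_mem_add hx' hy'
    have h3 := hK _ h1 ((z1 + g) - (x' + y')) (by
      have : (z1 + g) - (x' + y') = -((x' - z1) + (y' - g)) := by abel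
      rw [this]
      exact K.neg_mem (K.add_mem hx'c hy'c))
    have : x' + y' + (z1 + g - (x' + y')) = z1 + g := by abel
    rwa [this] at h3
  -- one more popular summand is enough to be in the popular sumset
  have hstep1 : ms F (j + 3) ⊆ Sq δ A (j + 2) := by
    intro z hz
    have hz' : z ∈ ms F (j + 2) + F := hz
    rw [Finset.mem_add] at hz'
    obtain ⟨z1, hz1, g, hg, rfl⟩ := hz'
    rw [hF, mem_pc] at hg
    show z1 + g ∈ pop δ (Sq δ A (j + 1)) A
    rw [mem_pop]
    -- elements `a ∈ A ∩ cs K g` with `z - a ∈ Sq (j+1)`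
    have h1 : (A ∩ cs K g).card ≤ ((X' + Y') \ Sq δ A (j + 1)).card
        + ((Sq δ A (j + 1)).filter (fun w => z1 + g - w ∈ A)).card := by
      have h3 : (A ∩ cs K g).image (fun a => z1 + g - a) ⊆ ((X' + Y') \ Sq δ A (j + 1))
          ∪ ((Sq δ A (j + 1)).filter (fun w => z1 + g - w ∈ A)) := by
        intro w hw
        rw [mem_image] at hw
        obtain ⟨a, ha, rfl⟩ := hw
        rw [mem_inter, mem_cs] at ha
        rw [mem_union]
        by_cases hin : z1 + g - a ∈ Sq δ A (j + 1)
        · right
          rw [mem_filter]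
          refine ⟨hin, ?_⟩
          have : z1 + g - (z1 + g - a) = a := by abel
          rw [this]
          exact ha.1
        · left
          rw [mem_sdiff]
          refine ⟨?_, hin⟩
          have h4 := hK z1 (hsub hz1) (g - a) (by
            have : g - a = -(a - g) := by abel
            rw [this]
            exact K.neg_mem ha.2)
          have : z1 + g - a = z1 + (g - a) := by abel
          rw [this]
          exact h4
      have h4 := card_le_card h3
      rw [card_image_of_injective _ (sub_right_injective)] at h4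
      exact h4.trans (card_union_le _ _)
    have h5 : ((A ∩ cs K g).card : ℝ) ≤ (((X' + Y') \ Sq δ A (j + 1)).card : ℝ)
        + (((Sq δ A (j + 1)).filter (fun w => z1 + g - w ∈ A)).card : ℝ) := by
      exact_mod_cast h1
    nlinarith
  have hstep2 : ∀ i, j + 2 ≤ i → ms F (i + 1) ⊆ Sq δ A i := by
    intro i hi
    induction i, hi using Nat.le_induction with
    | base => exact hstep1
    | succ i hi ih =>
      intro z hz
      have hz' : z ∈ ms F (i + 1) + F := hz
      rw [Finset.mem_add] at hz'
      obtain ⟨z1, hz1, g, hg, rfl⟩ := hz'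
      rw [hF, mem_pc] at hg
      show z1 + g ∈ pop δ (Sq δ A i) A
      rw [mem_pop]
      have hper : Per K (ms F (i + 1)) := by
        show Per K (ms F i + F)
        exact (per_pc η K A).add_left _
      have h3 : (A ∩ cs K g).image (fun a => z1 + g - a) ⊆
          (Sq δ A i).filter (fun w => z1 + g - w ∈ A) := by
        intro w hw
        rw [mem_image] at hw
        obtain ⟨a, ha, rfl⟩ := hw
        rw [mem_inter, mem_cs] at ha
        rw [mem_filter]
        constructor
        · apply ih
          have h4 := hper z1 hz1 (g - a) (by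
            have : g - a = -(a - g) := by abel
            rw [this]
            exact K.neg_mem ha.2)
          have : z1 + g - a = z1 + (g - a) := by abel
          rw [this]
          exact h4
        · have : z1 + g - (z1 + g - a) = a := by abel
          rw [this]
          exact ha.1
      have h4 := card_le_card h3
      rw [card_image_of_injective _ (sub_right_injective)] at h4
      have h5 : ((A ∩ cs K g).card : ℝ)
          ≤ (((Sq δ A i).filter (fun w => z1 + g - w ∈ A)).card : ℝ) := by
        exact_mod_cast h4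
      nlinarith [hXc, (Nat.cast_nonneg ((A \ Y').card) : (0 : ℝ) ≤ _)]
  -- no element `x - a` is a popular `(t-1)`-fold sum
  obtain ⟨s, rfl⟩ : ∃ s, t = s + 3 := ⟨t - 3, by omega⟩
  have hno : ∀ a ∈ A, x - a ∉ Sq δ A (s + 1) := by
    intro a ha hmem
    obtain ⟨T, hT, hTc, hTs⟩ := ds_of_mem_Sq h2 s {a} (x - a) (by
      refine lt_of_le_of_lt ?_ hn
      rw [card_singleton]
      exact_mod_cast (by omega : 2 * (1 + s) + g₂ ≤ 2 * (1 + (s + 3)) + g₂)) hmem
    apply hx
    have hnotT : a ∉ T := by
      intro h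
      have := hT h
      rw [mem_sdiff] at this
      exact this.2 (mem_singleton_self a)
    refine ⟨insert a T, ?_, ?_, ?_⟩
    · intro w hw
      rw [mem_insert] at hw
      rcases hw with rfl | hw
      · exact ha
      · exact (mem_sdiff.1 (hT hw)).1
    · rw [card_insert_of_notMem hnotT, hTc]
    · rw [sum_insert hnotT, hTs]
      abel
  -- conclusion
  intro hxin
  have hx' : x ∈ ms F (s + 2) + F := hxin
  rw [Finset.mem_add] at hx'
  obtain ⟨z1, hz1, g, hg, rfl⟩ := hx'
  rcases lt_or_eq_of_le (show j ≤ s by omega) with hlt | heq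
  · obtain ⟨a, ha⟩ : ∃ a, a ∈ A ∩ cs K g := by
      have hg' := hg
      rw [hF, mem_pc] at hg'
      by_contra hcon
      push Not at hcon
      have : A ∩ cs K g = ∅ := by
        rw [eq_empty_iff_forall_notMem]
        exact hcon
      rw [this] at hg'
      simp only [card_empty, Nat.cast_zero] at hg'
      have : 0 < η * (Fintype.card G : ℝ) := by positivity
      linarith
    rw [mem_inter, mem_cs] at ha
    apply hno a ha.1
    apply hstep2 (s + 1) (by omega)
    have hper : Per K (ms F (s + 2)) := by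
      show Per K (ms F (s + 1) + F)
      exact (per_pc η K A).add_left _
    have h4 := hper z1 hz1 (g - a) (by
      have : g - a = -(a - g) := by abel
      rw [this]
      exact K.neg_mem ha.2)
    have : z1 + g - a = z1 + (g - a) := by abel
    rw [this]
    exact h4
  · subst heq
    have hg' := hg
    rw [hF, mem_pc] at hg'
    have h3 : (A ∩ cs K g).image (fun a => z1 + g - a) ⊆ (X' + Y') \ Sq δ A (j + 1) := by
      intro w hw
      rw [mem_image] at hw
      obtain ⟨a, ha, rfl⟩ := hw
      rw [mem_inter, mem_cs] at ha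
      rw [mem_sdiff]
      refine ⟨?_, hno a ha.1⟩
      have h4 := hK z1 (hsub hz1) (g - a) (by
        have : g - a = -(a - g) := by abel
        rw [this]
        exact K.neg_mem ha.2)
      have : z1 + g - a = z1 + (g - a) := by abel
      rw [this]
      exact h4
    have h4 := card_le_card h3
    rw [card_image_of_injective _ (sub_right_injective)] at h4
    have h5 : ((A ∩ cs K g).card : ℝ) ≤ (((X' + Y') \ Sq δ A (j + 1)).card : ℝ) := by
      exact_mod_cast h4
    nlinarith

end Pool.Agent.Lib.MPa7239a
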