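import Pool.Agent.Lib.MP_a7239a_co.Kneser

/-!
# Removal lemma for `x + y = z` in finite abelian groups, and popular sums
-/

open scoped Pointwise
open Finset SimpleGraph TripartiteFromTriangles

set_option linter.unusedSectionVars false

namespace Pool.Agent.Lib.MPa7239a

universe u

variable {G : Type u} [AddCommGroup G] [Fintype G] [DecidableEq G]

/-- A family of solutions with distinct coordinates. -/
def Matching (M : Finset (G × G)) : Prop :=
  ∀ p ∈ M, ∀ q ∈ M, (p.1 = q.1 ∨ p.2 = q.2 ∨ p.1 + p.2 = q.1 + q.2) → p = q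

/-- The triangle indices. -/
def tri (M : Finset (G × G)) : Finset (G × G × G) :=
  (univ ×ˢ M).image (fun q : G × (G × G) => (q.1, q.1 + q.2.1, q.1 + q.2.1 + q.2.2))

theorem mem_tri {M : Finset (G × G)} {a b c : G} :
    (a, b, c) ∈ tri M ↔ ∃ p ∈ M, b = a + p.1 ∧ c = a + p.1 + p.2 := by
  unfold tri
  rw [mem_image]
  constructor
  · rintro ⟨⟨u, p⟩, hp, h⟩
    rw [mem_product] at hp
    simp only [Prod.mk.injEq] at h
    obtain ⟨rfl, rfl, rfl⟩ := h
    exact ⟨p, hp.2, rfl, rfl⟩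
  · rintro ⟨p, hp, rfl, rfl⟩
    exact ⟨(a, p), by simp [hp], rfl⟩

theorem card_tri (M : Finset (G × G)) : (tri M).card = Fintype.card G * M.card := by
  unfold tri
  rw [card_image_of_injective, card_product, card_univ]
  rintro ⟨a, p⟩ ⟨b, q⟩ h
  simp only [Prod.mk.injEq] at h
  obtain ⟨h1, h2, h3⟩ := h
  subst h1
  have h4 : p.1 = q.1 := add_left_cancel h2
  rw [h4] at h3
  have h5 : p.2 = q.2 := add_left_cancel h3
  rw [Prod.mk.injEq]
  exact ⟨rfl, Prod.ext h4 h5⟩

theorem explicitDisjoint {M : Finset (G × G)} (hM : Matching M) : ExplicitDisjoint (tri M) := by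
  refine ⟨?_, ?_, ?_⟩
  · intro a b c a' h h'
    rw [mem_tri] at h h'
    obtain ⟨p, hp, h1, h2⟩ := h
    obtain ⟨q, hq, h3, h4⟩ := h'
    have hpq : p = q := by
      apply hM p hp q hq
      right; left
      rw [← h1] at h2
      rw [← h3] at h4
      exact add_left_cancel (h2.symm.trans h4)
    subst hpq
    exact add_right_cancel (h1.symm.trans h3)
  · intro a b c b' h h'
    rw [mem_tri] at h h'
    obtain ⟨p, hp, h1, h2⟩ := h
    obtain ⟨q, hq, h3, h4⟩ := h'
    have hpq : p = q := by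
      apply hM p hp q hq
      right; right
      rw [add_assoc] at h2 h4
      exact add_left_cancel (h2.symm.trans h4)
    subst hpq
    rw [h1, h3]
  · intro a b c c' h h'
    rw [mem_tri] at h h'
    obtain ⟨p, hp, h1, h2⟩ := h
    obtain ⟨q, hq, h3, h4⟩ := h'
    have hpq : p = q := by
      apply hM p hp q hq
      left
      exact add_left_cancel (h1.symm.trans h3)
    subst hpq
    rw [h2, h4]

theorem card_clique_le (M : Finset (G × G)) (S : Finset (G × G))
    (hS : ∀ x y : G, (∃ p ∈ M, p.1 = x) → (∃ p ∈ M, p.2 = y) → (∃ p ∈ M, p.1 + p.2 = x + y) →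
      (x, y) ∈ S) :
    ((graph (tri M)).cliqueFinset 3).card ≤ Fintype.card G * S.card := by
  have h1 : (graph (tri M)).cliqueFinset 3 ⊆
      ((univ : Finset G) ×ˢ S).image (fun q : G × (G × G) =>
        toTriangle (q.1, q.1 + q.2.1, q.1 + q.2.1 + q.2.2)) := by
    intro s hs
    rw [mem_cliqueFinset_iff, is3Clique_iff] at hs
    obtain ⟨x, y, z, hxy, hxz, hyz, rfl⟩ := hs
    obtain ⟨a, b, c, habc, hab, hac, hbc⟩ := graph_triple hxy hxz hyz
    rw [Graph.in₀₁_iff] at hab
    rw [Graph.in₀₂_iff] at hac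
    rw [Graph.in₁₂_iff] at hbc
    obtain ⟨c', hc'⟩ := hab
    obtain ⟨b', hb'⟩ := hac
    obtain ⟨a', ha'⟩ := hbc
    rw [mem_tri] at hc' hb' ha'
    obtain ⟨p, hp, hp1, hp2⟩ := hc'
    obtain ⟨q, hq, hq1, hq2⟩ := hb'
    obtain ⟨r, hr, hr1, hr2⟩ := ha'
    rw [mem_image]
    refine ⟨(a, (b - a, c - b)), ?_, ?_⟩
    · rw [mem_product]
      refine ⟨mem_univ _, ?_⟩
      apply hS
      · exact ⟨p, hp, by rw [hp1]; abel⟩
      · exact ⟨r, hr, by rw [← hr1] at hr2; rw [hr2]; abel⟩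
      · exact ⟨q, hq, by rw [hq2]; abel⟩
    · rw [← habc, toTriangle_apply]
      simp only
      have e1 : a + (b - a) = b := by abel
      have e2 : a + (b - a) + (c - b) = c := by abel
      rw [e2, e1]
  calc ((graph (tri M)).cliqueFinset 3).card ≤ _ := card_le_card h1
    _ ≤ _ := card_image_le
    _ = _ := by rw [card_product, card_univ]

theorem exists_max_matching (S : Finset (G × G)) : ∃ M : Finset (G × G), M ⊆ S ∧ Matching M ∧
    ∀ M' : Finset (G × G), M' ⊆ S → Matching M' → M'.card ≤ M.card := by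
  classical
  obtain ⟨M, hM, hmax⟩ := exists_max_image (S.powerset.filter (fun M => Matching M))
    (fun M => M.card) ⟨∅, by
      rw [mem_filter]
      refine ⟨by simp, ?_⟩
      intro p hp
      simp at hp⟩
  rw [mem_filter, mem_powerset] at hM
  refine ⟨M, hM.1, hM.2, ?_⟩
  intro M' h1 h2
  apply hmax
  rw [mem_filter, mem_powerset]
  exact ⟨h1, h2⟩

theorem matching_card_le {ε : ℝ} (hε : 0 < ε) {S M : Finset (G × G)} (hMM : Matching M)
    (hS : ∀ x y : G, (∃ p ∈ M, p.1 = x) → (∃ p ∈ M, p.2 = y) → (∃ p ∈ M, p.1 + p.2 = x + y) →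
      (x, y) ∈ S)
    (hcard : (S.card : ℝ) ≤ triangleRemovalBound (ε / 9) * (Fintype.card G : ℝ) ^ 2) :
    (M.card : ℝ) ≤ ε * Fintype.card G := by
  have hb0 : 0 < triangleRemovalBound (ε / 9) :=
    triangleRemovalBound_pos (div_pos hε (by norm_num))
  have hpos : (0 : ℝ) < Fintype.card G := by
    have : 0 < Fintype.card G := Fintype.card_pos
    exact_mod_cast this
  by_contra hcon
  push Not at hcon
  have := explicitDisjoint hMM
  have hfar : (graph (tri M)).FarFromTriangleFree (ε / 9) := by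
    apply farFromTriangleFree
    rw [card_tri]
    push_cast
    have : ε / 9 * ((Fintype.card G : ℝ) + Fintype.card G + Fintype.card G) ^ 2
        = Fintype.card G * (ε * Fintype.card G) := by ring
    rw [this]
    exact mul_le_mul_of_nonneg_left hcon.le hpos.le
  have h1 := hfar.le_card_cliqueFinset
  have h2 := card_clique_le M S hS
  have h3 : (((graph (tri M)).cliqueFinset 3).card : ℝ) ≤ Fintype.card G * S.card := by
    exact_mod_cast h2
  have hc : (Fintype.card (G ⊕ G ⊕ G) : ℝ) = 3 * Fintype.card G := by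
    simp only [Fintype.card_sum]
    push_cast
    ring
  rw [hc] at h1
  have h4 : triangleRemovalBound (ε / 9) * (3 * (Fintype.card G : ℝ)) ^ 3
      ≤ Fintype.card G * (triangleRemovalBound (ε / 9) * (Fintype.card G : ℝ) ^ 2) :=
    (h1.trans h3).trans (mul_le_mul_of_nonneg_left hcard hpos.le)
  have h5 : 0 < triangleRemovalBound (ε / 9) * (Fintype.card G : ℝ) ^ 3 :=
    mul_pos hb0 (pow_pos hpos 3)
  have h6 : triangleRemovalBound (ε / 9) * (3 * (Fintype.card G : ℝ)) ^ 3
      = 27 * (triangleRemovalBound (ε / 9) * (Fintype.card G : ℝ) ^ 3) := by ring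
  have h7 : (Fintype.card G : ℝ) * (triangleRemovalBound (ε / 9) * (Fintype.card G : ℝ) ^ 2)
      = triangleRemovalBound (ε / 9) * (Fintype.card G : ℝ) ^ 3 := by ring
  linarith

theorem matching_insert {M : Finset (G × G)} (hM : Matching M) {x y : G}
    (h1 : x ∉ M.image Prod.fst) (h2 : y ∉ M.image Prod.snd)
    (h3 : x + y ∉ M.image (fun p => p.1 + p.2)) : Matching (insert (x, y) M) := by
  have key : ∀ q ∈ M, ¬ (x = q.1 ∨ y = q.2 ∨ x + y = q.1 + q.2) := by
    intro q hq h
    rcases h with h | h | h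
    · exact h1 (mem_image.2 ⟨q, hq, h.symm⟩)
    · exact h2 (mem_image.2 ⟨q, hq, h.symm⟩)
    · exact h3 (mem_image.2 ⟨q, hq, h.symm⟩)
  intro p hp q hq h
  rw [mem_insert] at hp hq
  rcases hp with rfl | hp
  · rcases hq with rfl | hq
    · rfl
    · exact absurd h (key q hq)
  · rcases hq with rfl | hq
    · exfalso
      apply key p hp
      rcases h with h | h | h
      · exact Or.inl h.symm
      · exact Or.inr (Or.inl h.symm)
      · exact Or.inr (Or.inr h.symm)
    · exact hM p hp q hq h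

theorem sdiff_sdiff_card_le (U V : Finset G) : (U \ (U \ V)).card ≤ V.card := by
  apply card_le_card
  intro x hx
  rw [mem_sdiff, mem_sdiff] at hx
  by_contra hxV
  exact hx.2 ⟨hx.1, hxV⟩

/-- The removal lemma for the equation `x + y = z`. -/
theorem removal (ε : ℝ) (hε : 0 < ε) : ∃ δ : ℝ, 0 < δ ∧ ∀ (G : Type u) [AddCommGroup G]
    [Fintype G] [DecidableEq G] (X Y N : Finset G),
    (((X ×ˢ Y).filter (fun p => p.1 + p.2 ∈ N)).card : ℝ) ≤ δ * (Fintype.card G : ℝ) ^ 2 →
    ∃ X' Y' N' : Finset G, X' ⊆ X ∧ Y' ⊆ Y ∧ N' ⊆ N ∧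
      ((X \ X').card : ℝ) ≤ ε * Fintype.card G ∧ ((Y \ Y').card : ℝ) ≤ ε * Fintype.card G ∧
      ((N \ N').card : ℝ) ≤ ε * Fintype.card G ∧ ∀ x ∈ X', ∀ y ∈ Y', x + y ∉ N' := by
  have hb0 : 0 < triangleRemovalBound (ε / 9) :=
    triangleRemovalBound_pos (div_pos hε (by norm_num))
  generalize hb : triangleRemovalBound (ε / 9) = b at hb0
  refine ⟨b, hb0, ?_⟩
  intro G _ _ _ X Y N hcard
  obtain ⟨M, hMS, hMM, hmax⟩ := exists_max_matching ((X ×ˢ Y).filter (fun p => p.1 + p.2 ∈ N))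
  have hMcard : (M.card : ℝ) ≤ ε * Fintype.card G := by
    apply matching_card_le hε hMM (S := (X ×ˢ Y).filter (fun p => p.1 + p.2 ∈ N))
    · intro x y hx hy hxy
      obtain ⟨p, hp, hpx⟩ := hx
      obtain ⟨q, hq, hqy⟩ := hy
      obtain ⟨r, hr, hrxy⟩ := hxy
      rw [mem_filter, mem_product]
      have hp' := hMS hp
      have hq' := hMS hq
      have hr' := hMS hr
      rw [mem_filter, mem_product] at hp' hq' hr'
      refine ⟨⟨?_, ?_⟩, ?_⟩
      · simp only; rw [← hpx]; exact hp'.1.1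
      · simp only; rw [← hqy]; exact hq'.1.2
      · simp only; rw [← hrxy]; exact hr'.2
    · rw [hb]
      exact hcard
  have i1 : ((M.image Prod.fst).card : ℝ) ≤ (M.card : ℝ) := by exact_mod_cast card_image_le
  have i2 : ((M.image Prod.snd).card : ℝ) ≤ (M.card : ℝ) := by exact_mod_cast card_image_le
  have i3 : ((M.image (fun p => p.1 + p.2)).card : ℝ) ≤ (M.card : ℝ) := by
    exact_mod_cast card_image_le
  have j1 : ((X \ (X \ M.image Prod.fst)).card : ℝ) ≤ ((M.image Prod.fst).card : ℝ) := by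
    exact_mod_cast sdiff_sdiff_card_le _ _
  have j2 : ((Y \ (Y \ M.image Prod.snd)).card : ℝ) ≤ ((M.image Prod.snd).card : ℝ) := by
    exact_mod_cast sdiff_sdiff_card_le _ _
  have j3 : ((N \ (N \ M.image (fun p => p.1 + p.2))).card : ℝ)
      ≤ ((M.image (fun p => p.1 + p.2)).card : ℝ) := by
    exact_mod_cast sdiff_sdiff_card_le _ _
  refine ⟨X \ M.image Prod.fst, Y \ M.image Prod.snd, N \ M.image (fun p => p.1 + p.2),
    sdiff_subset, sdiff_subset, sdiff_subset, by linarith, by linarith, by linarith, ?_⟩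
  intro x hx y hy hxy
  rw [mem_sdiff] at hx hy hxy
  have hnew : (x, y) ∈ (X ×ˢ Y).filter (fun p => p.1 + p.2 ∈ N) := by
    rw [mem_filter, mem_product]
    exact ⟨⟨hx.1, hy.1⟩, hxy.1⟩
  have hnotin : (x, y) ∉ M := by
    intro h
    exact hx.2 (mem_image.2 ⟨(x, y), h, rfl⟩)
  have h2 := hmax _ (insert_subset hnew hMS) (matching_insert hMM hx.2 hy.2 hxy.2)
  rw [card_insert_of_notMem hnotin] at h2
  omega

/-- Popular sums. -/
noncomputable def pop (δ : ℝ) (X Y : Finset G) : Finset G :=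
  univ.filter (fun z => δ * (Fintype.card G : ℝ) ≤ ((X.filter (fun x => z - x ∈ Y)).card : ℝ))

theorem mem_pop {δ : ℝ} {X Y : Finset G} {z : G} : z ∈ pop δ X Y ↔
    δ * (Fintype.card G : ℝ) ≤ ((X.filter (fun x => z - x ∈ Y)).card : ℝ) := by
  simp [pop]

/-- The number of pairs whose sum is not popular is small. -/
theorem card_unpop {δ : ℝ} (hδ : 0 ≤ δ) (X Y : Finset G) :
    (((X ×ˢ Y).filter (fun p => p.1 + p.2 ∈ univ \ pop δ X Y)).card : ℝ)
      ≤ δ * (Fintype.card G : ℝ) ^ 2 := by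
  classical
  set S := (X ×ˢ Y).filter (fun p => p.1 + p.2 ∈ univ \ pop δ X Y) with hS
  have h1 : S.card = ∑ z ∈ univ \ pop δ X Y, (S.filter (fun p => p.1 + p.2 = z)).card := by
    apply card_eq_sum_card_fiberwise
    intro p hp
    have hp' : p ∈ S := hp
    rw [hS, mem_filter] at hp'
    exact hp'.2
  have h2 : ∀ z ∈ univ \ pop δ X Y, ((S.filter (fun p => p.1 + p.2 = z)).card : ℝ)
      ≤ δ * Fintype.card G := by
    intro z hz
    have hz' : z ∉ pop δ X Y := (mem_sdiff.1 hz).2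
    rw [mem_pop] at hz'
    push Not at hz'
    refine le_trans ?_ hz'.le
    have : (S.filter (fun p => p.1 + p.2 = z)).card ≤ (X.filter (fun x => z - x ∈ Y)).card := by
      apply card_le_card_of_injOn Prod.fst
      · intro p hp
        have hp' : p ∈ S.filter (fun p => p.1 + p.2 = z) := hp
        rw [mem_filter, hS, mem_filter, mem_product] at hp'
        have : p.1 ∈ X.filter (fun x => z - x ∈ Y) := by
          rw [mem_filter]
          refine ⟨hp'.1.1.1, ?_⟩
          rw [← hp'.2]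
          have : p.1 + p.2 - p.1 = p.2 := by abel
          rw [this]
          exact hp'.1.1.2
        exact this
      · intro p hp q hq hpq
        have hp' : p ∈ S.filter (fun p => p.1 + p.2 = z) := hp
        have hq' : q ∈ S.filter (fun p => p.1 + p.2 = z) := hq
        rw [mem_filter] at hp' hq'
        have e : p.1 + p.2 = q.1 + q.2 := hp'.2.trans hq'.2.symm
        rw [hpq] at e
        exact Prod.ext hpq (add_left_cancel e)
    exact_mod_cast this
  have h3 : (S.card : ℝ) ≤ ∑ _z ∈ univ \ pop δ X Y, δ * (Fintype.card G : ℝ) := by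
    rw [h1]
    push_cast
    exact sum_le_sum h2
  rw [sum_const, nsmul_eq_mul] at h3
  have h4 : ((univ \ pop δ X Y).card : ℝ) ≤ Fintype.card G := by
    exact_mod_cast card_le_univ _
  have h5 : ((univ \ pop δ X Y).card : ℝ) * (δ * (Fintype.card G : ℝ))
      ≤ Fintype.card G * (δ * (Fintype.card G : ℝ)) := by
    gcongr
  nlinarith

/-- After removing few elements all sums are popular, up to few exceptions. -/
theorem popular (ε : ℝ) (hε : 0 < ε) : ∃ δ₀ : ℝ, 0 < δ₀ ∧ ∀ δ : ℝ, 0 ≤ δ → δ ≤ δ₀ →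
    ∀ (G : Type u) [AddCommGroup G] [Fintype G] [DecidableEq G] (X Y : Finset G),
    ∃ X' Y' : Finset G, X' ⊆ X ∧ Y' ⊆ Y ∧
      ((X \ X').card : ℝ) ≤ ε * Fintype.card G ∧ ((Y \ Y').card : ℝ) ≤ ε * Fintype.card G ∧
      (((X' + Y') \ pop δ X Y).card : ℝ) ≤ ε * Fintype.card G := by
  obtain ⟨δ₀, hδ₀, H⟩ := removal.{u} ε hε
  refine ⟨δ₀, hδ₀, ?_⟩
  intro δ hδ hle G _ _ _ X Y
  obtain ⟨X', Y', N', hX, hY, hN, h1, h2, h3, h4⟩ := H G X Y (univ \ pop δ X Y) (by
    refine (card_unpop hδ X Y).trans ?_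
    gcongr)
  refine ⟨X', Y', hX, hY, h1, h2, ?_⟩
  refine le_trans ?_ h3
  have : (X' + Y') \ pop δ X Y ⊆ (univ \ pop δ X Y) \ N' := by
    intro z hz
    rw [mem_sdiff, Finset.mem_add] at hz
    obtain ⟨⟨x, hx, y, hy, rfl⟩, hz2⟩ := hz
    rw [mem_sdiff, mem_sdiff]
    exact ⟨⟨mem_univ _, hz2⟩, h4 x hx y hy⟩
  exact_mod_cast card_le_card this

end Pool.Agent.Lib.MPa7239a
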