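import Pool.Agent.Lib.MP_a7239a_co.PolyK

/-!
# Further lower bounds: prescribed classes, `m = 3`, and even `m`
-/

open scoped Pointwise
open Finset

set_option linter.unusedSectionVars false

namespace Pool.Agent.Lib.MPa7239a

universe u v

section classes

variable {G : Type u} [AddCommGroup G] [Fintype G] [DecidableEq G]
variable {Q : Type v} [AddCommGroup Q] [Fintype Q] [DecidableEq Q]

/-- if no `t` distinct elements have the same sum as `A`, then `A` is weakly zero-sum-free -/
theorem WZF_of_not_DS {h t : ℕ} {A : Finset G} (hA : A.card = h + t)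
    (hD : ∀ T ⊆ A, T.card = t → ∑ a ∈ T, a ≠ ∑ a ∈ A, a) : WZF h A := by
  intro T hT hTc hTs
  have h1 : (A \ T).card = t := by
    have := card_sdiff_add_card_eq_card hT
    omega
  apply hD (A \ T) sdiff_subset h1
  have h2 := sum_sdiff hT (f := fun a => a)
  rw [hTs, add_zero] at h2
  exact h2

/-- prescribed numbers of elements in the classes of a set `P` -/
theorem lower_classes {κ t c : ℕ} {π : G →+ Q} (hπ : Function.Surjective π)
    (hc : c * Fintype.card Q = Fintype.card G) {P : Finset Q} {y : Q} (hy : Misses P t y)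
    (C : Q → ℕ) (hC : ∀ p ∈ P, C p ≤ c) (hsum : ∑ p ∈ P, C p = κ + t)
    (hmod : ∑ p ∈ P, C p • p = y) : ∃ A : Finset G, A.card = κ + t ∧ WZF κ A := by
  classical
  have hqpos : 0 < Fintype.card Q := Fintype.card_pos
  have hcp : ∀ p : Q, (fib π p).card = c := by
    intro p
    have h2 := card_fib hπ p
    rw [← hc] at h2
    exact Nat.eq_of_mul_eq_mul_right hqpos h2
  have hex : ∀ p, ∃ S : Finset G, p ∈ P → (S ⊆ fib π p ∧ S.card = C p) := by
    intro p
    by_cases hp : p ∈ P
    · obtain ⟨S, hS, hSc⟩ := exists_subset_card_eq (s := fib π p) (n := C p) (by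
        rw [hcp]
        exact hC p hp)
      exact ⟨S, fun _ => ⟨hS, hSc⟩⟩
    · exact ⟨∅, fun h => absurd h hp⟩
  choose S hS using hex
  have hpd : ∀ i ∈ P, ∀ j ∈ P, i ≠ j → Disjoint (S i) (S j) := by
    intro i hi j hj hij
    rw [Finset.disjoint_left]
    intro x hx hx'
    have h1 := (hS i hi).1 hx
    have h2 := (hS j hj).1 hx'
    rw [mem_fib] at h1 h2
    exact hij (h1.symm.trans h2)
  set A := P.biUnion S with hA
  have hAc : A.card = κ + t := by
    rw [hA, card_biUnion hpd, sum_congr rfl (fun j hj => (hS j hj).2), hsum]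
  refine ⟨A, hAc, ?_⟩
  apply WZF_of_misses (π := π) (P := P) (t := t) hAc
  · intro a ha
    rw [hA, mem_biUnion] at ha
    obtain ⟨j, hj, haj⟩ := ha
    have := (hS j hj).1 haj
    rw [mem_fib] at this
    rw [this]
    exact hj
  · have h2 : π (∑ a ∈ A, a) = y := by
      rw [map_sum, hA, sum_biUnion hpd, ← hmod]
      apply sum_congr rfl
      intro j hj
      have e1 : ∀ x ∈ S j, π x = j := by
        intro x hx
        have := (hS j hj).1 hx
        rwa [mem_fib] at this
      rw [sum_congr rfl e1, sum_const, (hS j hj).2]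
    rw [h2]
    exact hy

end classes

section sixteen

variable {G : Type u} [AddCommGroup G] [Fintype G] [DecidableEq G]

/-- `k = 16` -/
theorem lower_sixteen (he : AddMonoid.exponent G = 3 * 16) (hn : Fintype.card G = 9 * 16) :
    ∃ A : Finset G, A.card = 3 * 16 + 3 ∧ WZF (3 * 16) A := by
  obtain ⟨π, hπ⟩ := exists_surj (G := G) (q := 8) (by rw [he]; exact ⟨6, by norm_num⟩)
  apply lower_classes (c := 18) (κ := 3 * 16) (t := 3) hπ (by rw [hn, ZMod.card])
    (P := ({1, 4, 5} : Finset (ZMod 8))) (y := 0) ?_ (fun p => if p = 4 then 15 else 18) ?_ ?_ ?_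
  · intro f hf hs
    rw [Fin.sum_univ_three] at hs
    have h0 := hf 0
    have h1 := hf 1
    have h2 := hf 2
    revert hs h0 h1 h2
    generalize f 0 = a
    generalize f 1 = b
    generalize f 2 = c
    revert a b c
    decide
  · intro p _
    split_ifs <;> omega
  · decide
  · decide

/-- prescribed numbers of elements in classes given by natural numbers -/
theorem lower_nat {κ t c q : ℕ} [NeZero q] {π : G →+ ZMod q} (hπ : Function.Surjective π)
    (hc : c * q = Fintype.card G) (S : Finset ℕ) (hS : ∀ j ∈ S, j < q) (C : ℕ → ℕ)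
    (hC : ∀ j ∈ S, C j ≤ c) (hsum : ∑ j ∈ S, C j = κ + t) {y : ZMod q}
    (hmod : ((∑ j ∈ S, C j * j : ℕ) : ZMod q) = y)
    (hmiss : ∀ f : Fin t → ℕ, (∀ i, f i ∈ S) → ((∑ i, f i : ℕ) : ZMod q) ≠ y) :
    ∃ A : Finset G, A.card = κ + t ∧ WZF κ A := by
  classical
  have hinj : Set.InjOn (fun j : ℕ => (j : ZMod q)) S := by
    intro i hi j hj hij
    exact cast_inj_of_lt (hS i hi) (hS j hj) hij
  have hval : ∀ j ∈ S, ((j : ZMod q)).val = j := fun j hj => ZMod.val_cast_of_lt (hS j hj)
  apply lower_classes (c := c) (κ := κ) (t := t) hπ (by rw [ZMod.card, hc])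
    (P := S.image (fun j : ℕ => (j : ZMod q))) (y := y) ?_ (fun p => C p.val) ?_ ?_ ?_
  · intro f hf hs
    have h1 : ∀ i, ∃ j ∈ S, (j : ZMod q) = f i := fun i => by
      have := hf i
      rwa [mem_image] at this
    choose g hg1 hg2 using h1
    apply hmiss g hg1
    rw [← hs]
    push_cast
    exact sum_congr rfl (fun i _ => hg2 i)
  · intro p hp
    rw [mem_image] at hp
    obtain ⟨j, hj, rfl⟩ := hp
    rw [hval j hj]
    exact hC j hj
  · rw [sum_image hinj, ← hsum]
    exact sum_congr rfl (fun j hj => by rw [hval j hj])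
  · rw [sum_image hinj, ← hmod]
    push_cast
    apply sum_congr rfl
    intro j hj
    rw [hval j hj, nsmul_eq_mul]

/-- `k = 4 p` with `p = 3 l + 7` -/
theorem lower_fourp {p l : ℕ} (hp : p = 3 * l + 7) (he : AddMonoid.exponent G = 3 * (4 * p))
    (hn : Fintype.card G = 9 * (4 * p)) :
    ∃ A : Finset G, A.card = 3 * (4 * p) + 3 ∧ WZF (3 * (4 * p)) A := by
  classical
  have : NeZero (2 * p) := ⟨by omega⟩
  obtain ⟨π, hπ⟩ := exists_surj (G := G) (q := 2 * p) (by rw [he]; exact ⟨6, by ring⟩)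
  have hdis : Disjoint (Ico 1 (l + 3)) (Ico p (p + l + 3)) := by
    rw [Finset.disjoint_left]
    intro j hj hj'
    rw [mem_Ico] at hj hj'
    omega
  set N : ℕ → ℕ := fun j => (if j = l + 1 then 2 else 0) + (if j = p + l + 1 then 1 else 0) with hN
  have hN2 : ∀ j, N j ≤ 18 := by
    intro j
    simp only [hN]
    split_ifs <;> omega
  have hCN : ∀ j, (18 - N j) + N j = 18 := fun j => Nat.sub_add_cancel (hN2 j)
  have hsN : ∑ j ∈ Ico 1 (l + 3) ∪ Ico p (p + l + 3), N j = 3 := by
    rw [sum_union hdis]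
    simp only [hN, sum_add_distrib, sum_ite_eq', mem_Ico]
    rw [if_pos (by omega), if_neg (by omega), if_neg (by omega), if_pos (by omega)]
    rfl
  have hsNj : ∑ j ∈ Ico 1 (l + 3) ∪ Ico p (p + l + 3), N j * j = 2 * (l + 1) + (p + l + 1) := by
    have e0 : ∀ j, N j * j = (if j = l + 1 then 2 * (l + 1) else 0) +
        (if j = p + l + 1 then p + l + 1 else 0) := by
      intro j
      simp only [hN]
      split_ifs <;> first | omega | (subst_vars; ring)
    rw [sum_union hdis, sum_congr rfl (fun j _ => e0 j), sum_congr rfl (fun j _ => e0 j)]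
    simp only [sum_add_distrib, sum_ite_eq', mem_Ico]
    rw [if_pos (by omega), if_neg (by omega), if_neg (by omega), if_pos (by omega)]
    ring
  have hcard : ∑ _j ∈ Ico 1 (l + 3) ∪ Ico p (p + l + 3), 18 = 18 * (2 * l + 5) := by
    rw [sum_const, card_union_of_disjoint hdis, Nat.card_Ico, Nat.card_Ico, smul_eq_mul]
    have : (l + 3 - 1) + (p + l + 3 - p) = 2 * l + 5 := by omega
    rw [this]
    ring
  have hr : (∑ j ∈ range (l + 3), j) * 2 = (l + 2) * (l + 3) := by
    have h1 := Finset.sum_range_id_mul_two (l + 3)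
    rw [h1]
    have : l + 3 - 1 = l + 2 := by omega
    rw [this]
    ring
  have hid1 : (∑ j ∈ Ico 1 (l + 3), j) * 2 = (l + 2) * (l + 3) := by
    have h2 : ∑ j ∈ Ico 1 (l + 3), j = ∑ j ∈ range (l + 3), j := by
      rw [range_eq_Ico, Finset.sum_eq_sum_Ico_succ_bot (by omega : 0 < l + 3), zero_add, zero_add]
    rw [h2, hr]
  have hid2 : (∑ j ∈ Ico p (p + l + 3), j) * 2 = 2 * p * (l + 3) + (l + 2) * (l + 3) := by
    have h2 : ∑ j ∈ Ico p (p + l + 3), j = p * (l + 3) + ∑ j ∈ range (l + 3), j := by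
      rw [Finset.sum_Ico_eq_sum_range]
      have h3 : p + l + 3 - p = l + 3 := by omega
      rw [h3, sum_add_distrib, sum_const, card_range, smul_eq_mul, mul_comm p]
    rw [h2, add_mul, hr]
    ring
  have hid : (∑ j ∈ Ico 1 (l + 3) ∪ Ico p (p + l + 3), j) = (l + 2) * (l + 3) + p * (l + 3) := by
    rw [sum_union hdis]
    have e1 : 2 * p * (l + 3) = 2 * (p * (l + 3)) := by ring
    omega
  apply lower_nat (c := 18) (κ := 3 * (4 * p)) (t := 3) (q := 2 * p) hπ (by rw [hn]; ring)
    (Ico 1 (l + 3) ∪ Ico p (p + l + 3)) ?_ (fun j => 18 - N j) (fun j _ => Nat.sub_le _ _) ?_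
    (y := 0) ?_ ?_
  · intro j hj
    rw [mem_union, mem_Ico, mem_Ico] at hj
    omega
  · have h2 : ∑ j ∈ Ico 1 (l + 3) ∪ Ico p (p + l + 3), (18 - N j) +
        ∑ j ∈ Ico 1 (l + 3) ∪ Ico p (p + l + 3), N j = 18 * (2 * l + 5) := by
      rw [← sum_add_distrib, sum_congr rfl (fun j _ => hCN j), hcard]
    rw [hsN] at h2
    omega
  · have h2 : ∑ j ∈ Ico 1 (l + 3) ∪ Ico p (p + l + 3), (18 - N j) * j +
        ∑ j ∈ Ico 1 (l + 3) ∪ Ico p (p + l + 3), N j * j =
        18 * ((l + 2) * (l + 3) + p * (l + 3)) := by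
      rw [← sum_add_distrib, ← hid, mul_sum]
      apply sum_congr rfl
      intro j _
      rw [← add_mul, hCN]
    rw [hsNj] at h2
    have h3 : ∑ j ∈ Ico 1 (l + 3) ∪ Ico p (p + l + 3), (18 - N j) * j =
        2 * p * (12 * l + 34) := by
      have h4 : 2 * p * (12 * l + 34) + (2 * (l + 1) + (p + l + 1)) =
          18 * ((l + 2) * (l + 3) + p * (l + 3)) := by
        rw [hp]
        ring
      omega
    rw [h3, Nat.cast_mul, ZMod.natCast_self, zero_mul]
  · intro f hf hs
    rw [ZMod.natCast_eq_zero_iff, Fin.sum_univ_three] at hs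
    obtain ⟨s, hs⟩ := hs
    have h0 := hf 0
    have h1 := hf 1
    have h2 := hf 2
    rw [mem_union, mem_Ico, mem_Ico] at h0 h1 h2
    have hs2 : s < 2 := by
      by_contra hcon
      have : 2 * p * 2 ≤ 2 * p * s := Nat.mul_le_mul_left _ (by omega)
      omega
    interval_cases s
    · omega
    · omega

end sixteen

section nine

/-- the points of the construction for `ZMod 3 × ZMod (9 u)` -/
def pt (u : ℕ) (p : ℕ × ℕ × ℕ) : ZMod 3 × ZMod (9 * u) :=
  ((p.1 : ZMod 3), ((p.2.2 + 3 * u * p.2.1 : ℕ) : ZMod (9 * u)))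

/-- the index set of the construction -/
def ix (u : ℕ) : Finset (ℕ × ℕ × ℕ) :=
  range 3 ×ˢ (range 3 ×ˢ Ico 1 u) ∪ range 2 ×ˢ (range 3 ×ˢ {0, u})

theorem mem_ix {u : ℕ} {p : ℕ × ℕ × ℕ} : p ∈ ix u ↔
    (p.1 < 3 ∧ p.2.1 < 3 ∧ 1 ≤ p.2.2 ∧ p.2.2 < u) ∨
      (p.1 < 2 ∧ p.2.1 < 3 ∧ (p.2.2 = 0 ∨ p.2.2 = u)) := by
  simp [ix]

theorem pt_inj {u : ℕ} (hu : 0 < u) {p q : ℕ × ℕ × ℕ} (hp : p ∈ ix u) (hq : q ∈ ix u)
    (h : pt u p = pt u q) : p = q := by
  obtain ⟨x, i, j⟩ := p
  obtain ⟨x', i', j'⟩ := q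
  rw [mem_ix] at hp hq
  simp only at hp hq
  simp only [pt, Prod.mk.injEq] at h
  obtain ⟨h1, h2⟩ := h
  have hx : x = x' := cast_inj_of_lt (q := 3) (by omega) (by omega) h1
  have hi : i < 3 := by omega
  have hi' : i' < 3 := by omega
  have hy : j + 3 * u * i = j' + 3 * u * i' := by
    refine cast_inj_of_lt (q := 9 * u) ?_ ?_ h2
    · have : 3 * u * i ≤ 3 * u * 2 := Nat.mul_le_mul_left _ (by omega)
      omega
    · have : 3 * u * i' ≤ 3 * u * 2 := Nat.mul_le_mul_left _ (by omega)
      omega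
  have hii : i = i' ∧ j = j' := by
    interval_cases i <;> interval_cases i' <;> omega
  rw [hx, hii.1, hii.2]

theorem card_ix {u : ℕ} (hu : 0 < u) : (ix u).card = 9 * u + 3 := by
  rw [ix, card_union_of_disjoint]
  · rw [card_product, card_product, card_product, card_product, card_range, card_range,
      Nat.card_Ico, card_pair (by omega)]
    omega
  · rw [Finset.disjoint_left]
    rintro ⟨x, i, j⟩ h1 h2
    simp only [mem_product, mem_range, mem_Ico, mem_insert, mem_singleton] at h1 h2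
    omega

theorem sum_pt (u : ℕ) (I : Finset (ℕ × ℕ × ℕ)) : ∑ p ∈ I, pt u p =
    (((∑ p ∈ I, p.1 : ℕ) : ZMod 3), ((∑ p ∈ I, (p.2.2 + 3 * u * p.2.1) : ℕ) : ZMod (9 * u))) := by
  rw [Prod.ext_iff, Prod.fst_sum, Prod.snd_sum]
  constructor
  · simp only [pt]
    push_cast
    rfl
  · simp only [pt]
    push_cast
    rfl

theorem sum_ix {s : ℕ} : ∑ p ∈ ix (2 * s + 1), pt (2 * s + 1) p =
    (0, ((6 * (2 * s + 1) : ℕ) : ZMod (9 * (2 * s + 1)))) := by
  set u := 2 * s + 1 with hu
  have hdis : Disjoint (range 3 ×ˢ (range 3 ×ˢ Ico 1 u)) (range 2 ×ˢ (range 3 ×ˢ {0, u})) := by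
    rw [Finset.disjoint_left]
    rintro ⟨x, i, j⟩ h1 h2
    simp only [mem_product, mem_range, mem_Ico, mem_insert, mem_singleton] at h1 h2
    omega
  have h0u : 0 ≠ u := by omega
  have hr : (∑ j ∈ range u, j) * 2 = u * (2 * s) := by
    have h1 := Finset.sum_range_id_mul_two u
    rw [h1]
    have : u - 1 = 2 * s := by omega
    rw [this]
  have hid1 : ∑ j ∈ Ico 1 u, j = u * s := by
    have h2 : ∑ j ∈ Ico 1 u, j = ∑ j ∈ range u, j := by
      rw [range_eq_Ico, Finset.sum_eq_sum_Ico_succ_bot (by omega : 0 < u), zero_add, zero_add]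
    rw [h2]
    have h3 : u * (2 * s) = 2 * (u * s) := by ring
    omega
  have hus : u - 1 = 2 * s := by omega
  have hx : ∑ p ∈ ix u, p.1 = 3 * (6 * s + 2) := by
    rw [ix, sum_union hdis]
    simp only [sum_product, sum_const, card_range, Nat.card_Ico, smul_eq_mul, sum_range_succ,
      sum_range_zero, card_pair h0u, hus, card_product]
    ring
  have hy : ∑ p ∈ ix u, (p.2.2 + 3 * u * p.2.1) = 9 * u * (7 * s + 4) + 6 * u := by
    rw [ix, sum_union hdis]
    simp only [sum_product, sum_const, card_range, Nat.card_Ico, smul_eq_mul, sum_range_succ,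
      sum_range_zero, card_pair h0u, sum_add_distrib, hid1, sum_pair h0u, hus]
    ring
  rw [sum_pt, hx, hy, Prod.mk.injEq]
  constructor
  · rw [Nat.cast_mul]
    have : ((3 : ℕ) : ZMod 3) = 0 := ZMod.natCast_self 3
    rw [this, zero_mul]
  · rw [Nat.cast_add, Nat.cast_mul, ZMod.natCast_self, zero_mul, zero_add]

theorem lower_nine {s : ℕ} : ∃ A : Finset (ZMod 3 × ZMod (9 * (2 * s + 1))),
    A.card = 9 * (2 * s + 1) + 3 ∧ WZF (9 * (2 * s + 1)) A := by
  classical
  set u := 2 * s + 1 with hu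
  have hu0 : 0 < u := by omega
  have : NeZero (9 * u) := ⟨by omega⟩
  have hinj : Set.InjOn (pt u) (ix u) := fun p hp q hq h => pt_inj hu0 hp hq h
  have hAc : ((ix u).image (pt u)).card = 9 * u + 3 := by
    rw [card_image_of_injOn hinj, card_ix hu0]
  refine ⟨(ix u).image (pt u), hAc, ?_⟩
  apply WZF_of_not_DS hAc
  intro T hT hTc hTs
  rw [sum_image (fun a ha b hb => hinj ha hb), sum_ix] at hTs
  obtain ⟨a, b, c, hab, hac, hbc, rfl⟩ := card_eq_three.1 hTc
  have h0 := hT (mem_insert_self a _)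
  have h1 := hT (mem_insert_of_mem (mem_insert_self b _))
  have h2 := hT (mem_insert_of_mem (mem_insert_of_mem (mem_singleton_self c)))
  rw [mem_image] at h0 h1 h2
  obtain ⟨⟨x0, i0, j0⟩, g0, rfl⟩ := h0
  obtain ⟨⟨x1, i1, j1⟩, g1, rfl⟩ := h1
  obtain ⟨⟨x2, i2, j2⟩, g2, rfl⟩ := h2
  rw [sum_insert (by simp [hab, hac]), sum_insert (by simp [hbc]), sum_singleton] at hTs
  have n01 : ¬ (x0 = x1 ∧ i0 = i1 ∧ j0 = j1) := by
    rintro ⟨rfl, rfl, rfl⟩
    exact hab rfl
  have n02 : ¬ (x0 = x2 ∧ i0 = i2 ∧ j0 = j2) := by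
    rintro ⟨rfl, rfl, rfl⟩
    exact hac rfl
  have n12 : ¬ (x1 = x2 ∧ i1 = i2 ∧ j1 = j2) := by
    rintro ⟨rfl, rfl, rfl⟩
    exact hbc rfl
  rw [mem_ix] at g0 g1 g2
  simp only at g0 g1 g2
  simp only [pt, Prod.mk_add_mk, Prod.mk.injEq] at hTs
  obtain ⟨e1, e2⟩ := hTs
  have e1' : ((x0 + (x1 + x2) : ℕ) : ZMod 3) = 0 := by
    push_cast
    exact e1
  rw [ZMod.natCast_eq_zero_iff] at e1'
  have e2' : ((j0 + 3 * u * i0 + (j1 + 3 * u * i1 + (j2 + 3 * u * i2)) + 3 * u : ℕ) :
      ZMod (9 * u)) = 0 := by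
    rw [Nat.cast_add _ (3 * u), Nat.cast_add (j0 + 3 * u * i0) _, Nat.cast_add (j1 + 3 * u * i1) _,
      e2, ← Nat.cast_add]
    have : 6 * (2 * s + 1) + 3 * u = 9 * u := by omega
    rw [this, ZMod.natCast_self]
  rw [ZMod.natCast_eq_zero_iff] at e2'
  obtain ⟨r, hr⟩ := e2'
  have hi0 : i0 < 3 := by omega
  have hi1 : i1 < 3 := by omega
  have hi2 : i2 < 3 := by omega
  have hI : j0 + 3 * u * i0 + (j1 + 3 * u * i1 + (j2 + 3 * u * i2)) + 3 * u =
      (j0 + j1 + j2) + 3 * (u * (i0 + i1 + i2 + 1)) := by ring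
  have hrI : 9 * u * r = 3 * (u * (3 * r)) := by ring
  rw [hI, hrI] at hr
  obtain ⟨I, hII⟩ : ∃ I, I = i0 + i1 + i2 := ⟨_, rfl⟩
  rw [← hII] at hr
  have hj : (j0 + j1 + j2 = 0 ∧ I + 1 = 3 * r) ∨ (j0 + j1 + j2 = 3 * u ∧ I + 2 = 3 * r) := by
    have hle : I + 1 ≤ 3 * r := by
      by_contra hcon
      have h3 : u * (3 * r + 1) ≤ u * (I + 1) := Nat.mul_le_mul_left _ (by omega)
      have h4 : u * (3 * r + 1) = u * (3 * r) + u := by ring
      omega
    have hle2 : 3 * r ≤ I + 2 := by
      by_contra hcon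
      have h3 : u * (I + 3) ≤ u * (3 * r) := Nat.mul_le_mul_left _ (by omega)
      have h4 : u * (I + 3) = u * (I + 1) + 2 * u := by ring
      omega
    rcases Nat.lt_or_ge (3 * r) (I + 2) with h | h
    · left
      have h5 : 3 * r = I + 1 := by omega
      rw [h5] at hr
      omega
    · right
      have h5 : 3 * r = I + 2 := by omega
      have h6 : u * (I + 2) = u * (I + 1) + u := by ring
      rw [h5, h6] at hr
      omega
  clear hr hI hrI e1 e2 hab hac hbc hT hTc
  -- the three elements are on one level, which has only two values of the first coordinate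
  have hx : x0 < 2 ∧ x1 < 2 ∧ x2 < 2 ∧ j0 = j1 ∧ j1 = j2 := by
    rcases hj with ⟨h, -⟩ | ⟨h, -⟩
    · have a0 : j0 = 0 := by omega
      have a1 : j1 = 0 := by omega
      have a2 : j2 = 0 := by omega
      subst a0 a1 a2
      refine ⟨?_, ?_, ?_, rfl, rfl⟩
      · rcases g0 with g | g <;> omega
      · rcases g1 with g | g <;> omega
      · rcases g2 with g | g <;> omega
    · have b0 : j0 ≤ u := by rcases g0 with g | g <;> omega
      have b1 : j1 ≤ u := by rcases g1 with g | g <;> omega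
      have b2 : j2 ≤ u := by rcases g2 with g | g <;> omega
      have a0 : j0 = u := by omega
      have a1 : j1 = u := by omega
      have a2 : j2 = u := by omega
      refine ⟨?_, ?_, ?_, by omega, by omega⟩
      · rcases g0 with g | g <;> omega
      · rcases g1 with g | g <;> omega
      · rcases g2 with g | g <;> omega
  obtain ⟨c0, c1, c2, d1, d2⟩ := hx
  have f1 : x0 = x1 := by omega
  have f2 : x1 = x2 := by omega
  have k01 : i0 ≠ i1 := fun h => n01 ⟨f1, h, d1⟩
  have k12 : i1 ≠ i2 := fun h => n12 ⟨f2, h, d2⟩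
  have k02 : i0 ≠ i2 := fun h => n02 ⟨f1.trans f2, h, d1.trans d2⟩
  have hI3 : I = 3 := by
    rw [hII]
    clear hj n01 n02 n12 g0 g1 g2 hII
    omega
  omega

end nine

section even

theorem sum_univ_add_self (K : Type u) [AddCommGroup K] [Fintype K] :
    ∑ x : K, x + ∑ x : K, x = 0 := by
  have h1 : ∑ x : K, x = ∑ x : K, -x := (Equiv.sum_comp (Equiv.neg K) (fun x => x)).symm
  nth_rewrite 2 [h1]
  rw [← sum_add_distrib]
  simp

/-- `m` even: all elements of `k + 1` consecutive cosets of `K` -/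
theorem lower_even {K : Type u} [AddCommGroup K] [Fintype K] [DecidableEq K] {m k : ℕ}
    (hm : Fintype.card K = m) (hσ : ∑ x : K, x ≠ 0) (hk : Odd k) :
    ∃ A : Finset (K × ZMod (m * k)), A.card = m * k + m ∧ WZF (m * k) A := by
  classical
  have hm2 : 2 ≤ m := by
    by_contra hcon
    have h1 : Fintype.card K ≤ 1 := by omega
    rw [Fintype.card_le_one_iff_subsingleton] at h1
    apply hσ
    exact Subsingleton.elim _ _
  obtain ⟨s, hs⟩ := hk
  have hkpos : 0 < k := by omega
  have hlt : k < m * k := by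
    have : 2 * k ≤ m * k := Nat.mul_le_mul_right _ hm2
    omega
  have : NeZero (m * k) := ⟨by omega⟩
  have hinj : Set.InjOn (fun j : ℕ => (j : ZMod (m * k))) (range (k + 1)) := by
    intro i hi j hj hij
    have hi' := mem_range.1 (mem_coe.1 hi)
    have hj' := mem_range.1 (mem_coe.1 hj)
    exact cast_inj_of_lt (by omega) (by omega) hij
  set A : Finset (K × ZMod (m * k)) :=
    univ ×ˢ (range (k + 1)).image (fun j : ℕ => (j : ZMod (m * k))) with hA
  have hAc : A.card = m * k + m := by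
    rw [hA, card_product, card_univ, hm, card_image_of_injOn hinj, card_range]
    ring
  have hAs : ∑ a ∈ A, a = 0 := by
    rw [Prod.ext_iff, Prod.fst_sum, Prod.snd_sum]
    constructor
    · rw [hA, sum_product_right]
      simp only [sum_const, Prod.fst_zero]
      rw [card_image_of_injOn hinj, card_range, hs]
      have h2 : 2 * s + 1 + 1 = (s + 1) * 2 := by ring
      rw [h2, mul_nsmul, two_nsmul, ← nsmul_add, sum_univ_add_self, nsmul_zero]
    · rw [hA, sum_product]
      simp only [sum_const, Prod.snd_zero, card_univ, hm]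
      rw [sum_image hinj, ← Nat.cast_sum, nsmul_eq_mul, ← Nat.cast_mul,
        ZMod.natCast_eq_zero_iff]
      have h1 := Finset.sum_range_id_mul_two (k + 1)
      have h2 : ∑ j ∈ range (k + 1), j = k * (s + 1) := by
        have h3 : (k + 1) * (k + 1 - 1) = 2 * (k * (s + 1)) := by
          have : k + 1 - 1 = k := by omega
          rw [this, hs]
          ring
        omega
      rw [h2]
      exact ⟨s + 1, by ring⟩
  refine ⟨A, hAc, ?_⟩
  apply WZF_of_not_DS hAc
  intro T hT hTc hTs
  rw [hAs] at hTs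
  have hlev : ∀ a ∈ T, a.2.val ≤ k := by
    intro a ha
    have := hT ha
    rw [hA, mem_product, mem_image] at this
    obtain ⟨-, j, hj, hja⟩ := this
    rw [mem_range] at hj
    rw [← hja, ZMod.val_cast_of_lt (by omega)]
    omega
  have hsum0 : ((∑ a ∈ T, a.2.val : ℕ) : ZMod (m * k)) = 0 := by
    have h1 := congrArg Prod.snd hTs
    rw [Prod.snd_sum, Prod.snd_zero] at h1
    rw [← h1]
    push_cast
    apply sum_congr rfl
    intro a _
    exact ZMod.natCast_zmod_val a.2
  rw [ZMod.natCast_eq_zero_iff] at hsum0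
  have hle : ∑ a ∈ T, a.2.val ≤ m * k := by
    calc ∑ a ∈ T, a.2.val ≤ ∑ _a ∈ T, k := sum_le_sum hlev
      _ = m * k := by rw [sum_const, hTc, smul_eq_mul]
  -- all elements are in one coset of `K`
  have hc : ∃ c : ZMod (m * k), ∀ a ∈ T, a.2 = c := by
    rcases Nat.eq_zero_or_pos (∑ a ∈ T, a.2.val) with h | h
    · refine ⟨0, fun a ha => ?_⟩
      have h2 := (sum_eq_zero_iff.1 h) a ha
      rw [ZMod.val_eq_zero] at h2
      exact h2
    · have h1 : ∑ a ∈ T, a.2.val = m * k := le_antisymm hle (Nat.le_of_dvd h hsum0)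
      have h2 : ∑ a ∈ T, (k - a.2.val) = 0 := by
        have h3 : ∑ a ∈ T, (k - a.2.val) + ∑ a ∈ T, a.2.val = m * k := by
          rw [← sum_add_distrib, sum_congr rfl (fun a ha => Nat.sub_add_cancel (hlev a ha)),
            sum_const, hTc, smul_eq_mul]
        omega
      refine ⟨(k : ZMod (m * k)), fun a ha => ?_⟩
      have h3 := (sum_eq_zero_iff.1 h2) a ha
      have h4 := hlev a ha
      have h5 : a.2.val = k := by omega
      have h6 := ZMod.natCast_zmod_val a.2
      rw [h5] at h6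
      exact h6.symm
  obtain ⟨c, hc⟩ := hc
  have hTsub : T ⊆ (univ : Finset K) ×ˢ {c} := by
    intro a ha
    rw [mem_product, mem_singleton]
    exact ⟨mem_univ _, hc a ha⟩
  have hTeq : T = (univ : Finset K) ×ˢ {c} := by
    apply eq_of_subset_of_card_le hTsub
    rw [card_product, card_univ, hm, card_singleton, hTc]
    omega
  have h1 := congrArg Prod.fst hTs
  rw [Prod.fst_sum, hTeq, sum_product] at h1
  simp only [sum_singleton, Prod.fst_zero] at h1
  exact hσ h1

end even

section classify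

theorem classify (k : ℕ) (hk : 0 < k) (h1 : ∃ p, p.Prime ∧ p ∣ k ∧ p % 3 ≠ 1)
    (h2 : ∀ p, p.Prime → k ≠ 2 * p) (h3 : ∀ a, k ≠ 2 * 3 ^ a ∧ k ≠ 4 * 3 ^ a) (h4 : k ≠ 8) :
    (∃ q, q ∣ k ∧ q % 3 = 2 ∧ 5 ≤ q ∧ 3 * q ≤ k) ∨ (k % 2 = 1 ∧ k % 3 = 2) ∨
      (k % 2 = 1 ∧ k % 3 = 0) ∨ (∃ l, k = 4 * (3 * l + 7)) ∨ k = 16 := by
  have hp3 : ∀ p : ℕ, p.Prime → p % 3 = 0 → p = 3 := by
    intro p hp h
    exact ((Nat.prime_dvd_prime_iff_eq Nat.prime_three hp).1 (Nat.dvd_of_mod_eq_zero h)).symm
  have hp2 : ∀ p : ℕ, p.Prime → p % 2 = 0 → p = 2 := by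
    intro p hp h
    exact ((Nat.prime_dvd_prime_iff_eq Nat.prime_two hp).1 (Nat.dvd_of_mod_eq_zero h)).symm
  by_cases h3k : 3 ∣ k
  · by_cases hodd : k % 2 = 1
    · right; right; left
      exact ⟨hodd, Nat.mod_eq_zero_of_dvd h3k⟩
    · left
      obtain ⟨a, k₀, hk₀, hka⟩ := Nat.exists_eq_pow_mul_and_not_dvd hk.ne' 3 (by norm_num)
      have ha : a ≠ 0 := by
        rintro rfl
        rw [pow_zero, one_mul] at hka
        rw [hka] at h3k
        exact hk₀ h3k
      obtain ⟨b, rfl⟩ : ∃ b, a = b + 1 := ⟨a - 1, by omega⟩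
      have hodd3 : (3 ^ (b + 1)) % 2 = 1 := by
        rw [Nat.pow_mod]
        norm_num
      have hk0e : k₀ % 2 = 0 := by
        have h5 : k % 2 = 0 := by omega
        rw [hka, Nat.mul_mod, hodd3, one_mul, Nat.mod_mod] at h5
        exact h5
      have hk1 : k = 3 * (3 ^ b * k₀) := by
        rw [hka]
        ring
      have hpos : 0 < 3 ^ b := by positivity
      have hdvd : k₀ ∣ k := ⟨3 ^ (b + 1), by rw [hka, mul_comm]⟩
      have hle : 3 * k₀ ≤ k := by
        rw [hk1]
        exact Nat.mul_le_mul_left _ (Nat.le_mul_of_pos_left _ hpos)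
      have hm := h3 (b + 1)
      have hne2 : k₀ ≠ 2 := by
        rintro rfl
        exact hm.1 (by rw [hka, mul_comm])
      have hne4 : k₀ ≠ 4 := by
        rintro rfl
        exact hm.2 (by rw [hka, mul_comm])
      have hmod : k₀ % 3 = 1 ∨ k₀ % 3 = 2 := by omega
      rcases hmod with h | h
      · obtain ⟨j, rfl⟩ : ∃ j, k₀ = 2 * j := ⟨k₀ / 2, by omega⟩
        exact ⟨j, (Dvd.intro_left 2 rfl).trans hdvd, by omega, by omega, by omega⟩
      · exact ⟨k₀, hdvd, h, by omega, hle⟩
  · by_cases hodd : k % 2 = 1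
    · by_cases hk2 : k % 3 = 2
      · right; left
        exact ⟨hodd, hk2⟩
      · left
        obtain ⟨p, hp, hpk, hpm⟩ := h1
        obtain ⟨f, hf⟩ := hpk
        have hp0 : p % 3 ≠ 0 := by
          intro h
          have := hp3 p hp h
          subst this
          exact h3k ⟨f, hf⟩
        have hp2' : p % 3 = 2 := by omega
        have hk1 : k % 3 = 1 := by omega
        have hf2 : f % 3 = 2 := by
          rw [hf, Nat.mul_mod, hp2'] at hk1
          have : f % 3 < 3 := Nat.mod_lt _ (by norm_num)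
          interval_cases hff : f % 3
          · omega
          · omega
          · rfl
        have hpo : p % 2 = 1 := by
          rcases Nat.mod_two_eq_zero_or_one p with h | h
          · rw [hf, Nat.mul_mod, h] at hodd
            omega
          · exact h
        have hfo : f % 2 = 1 := by
          rcases Nat.mod_two_eq_zero_or_one f with h | h
          · rw [hf, Nat.mul_mod, h] at hodd
            omega
          · exact h
        refine ⟨p, ⟨f, hf⟩, hp2', by omega, ?_⟩
        rw [hf, mul_comm 3 p]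
        exact Nat.mul_le_mul_left _ (by omega)
    · obtain ⟨j, rfl⟩ : ∃ j, k = 2 * j := ⟨k / 2, by omega⟩
      have hjnp : ¬ j.Prime := fun h => h2 j h rfl
      have h3j : ¬ 3 ∣ j := fun h => h3k (h.mul_left 2)
      have hj1 : j ≠ 1 := by
        rintro rfl
        exact (h3 0).1 (by norm_num)
      have hj0 : 0 < j := by omega
      by_cases h5 : ∃ p, p.Prime ∧ p ∣ j ∧ p % 3 = 2 ∧ 5 ≤ p
      · left
        obtain ⟨p, hp, ⟨f, hf⟩, hpm, hp5⟩ := h5
        have hf1 : f ≠ 1 := by
          rintro rfl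
          rw [mul_one] at hf
          rw [hf] at hjnp
          exact hjnp hp
        have hf0 : f ≠ 0 := by
          rintro rfl
          omega
        refine ⟨p, ⟨2 * f, by rw [hf]; ring⟩, hpm, hp5, ?_⟩
        have : p * 2 ≤ p * f := Nat.mul_le_mul_left _ (by omega)
        rw [hf]
        omega
      · have hprim : ∀ p, p.Prime → p ∣ j → p % 2 = 1 → p % 3 = 1 ∧ 7 ≤ p := by
          intro p hp hpj hpo
          have ha : p % 3 ≠ 0 := by
            intro h
            have := hp3 p hp h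
            subst this
            exact h3j hpj
          have hb : ¬ (p % 3 = 2 ∧ 5 ≤ p) := fun h => h5 ⟨p, hp, hpj, h⟩
          have hc := hp.two_le
          have hd : p % 3 < 3 := Nat.mod_lt _ (by norm_num)
          omega
        rcases Nat.mod_two_eq_zero_or_one j with hj | hj
        · obtain ⟨i, rfl⟩ : ∃ i, j = 2 * i := ⟨j / 2, by omega⟩
          have hi1 : i ≠ 1 := by
            rintro rfl
            exact (h3 0).2 (by norm_num)
          rcases Nat.mod_two_eq_zero_or_one i with hi | hi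
          · obtain ⟨h, rfl⟩ : ∃ h, i = 2 * h := ⟨i / 2, by omega⟩
            have hh : h ≠ 1 := by
              rintro rfl
              exact h4 (by norm_num)
            by_cases hh2 : h = 2
            · right; right; right; right
              rw [hh2]
            · left
              exact ⟨8, ⟨h, by ring⟩, by norm_num, by norm_num, by omega⟩
          · have hpp := Nat.minFac_prime hi1
            obtain ⟨r, hr⟩ := Nat.minFac_dvd i
            set p := i.minFac with hp
            have hpo : p % 2 = 1 := by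
              rcases Nat.mod_two_eq_zero_or_one p with h | h
              · rw [hr, Nat.mul_mod, h] at hi
                omega
              · exact h
            have hro : r % 2 = 1 := by
              rcases Nat.mod_two_eq_zero_or_one r with h | h
              · rw [hr, Nat.mul_mod, h] at hi
                omega
              · exact h
            obtain ⟨hq1, hq2⟩ := hprim p hpp (Dvd.dvd.mul_left ⟨r, hr⟩ 2) hpo
            by_cases hr1 : r = 1
            · right; right; right; left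
              refine ⟨(p - 7) / 3, ?_⟩
              rw [hr1, mul_one] at hr
              rw [hr]
              omega
            · left
              refine ⟨2 * p, ⟨2 * r, by rw [hr]; ring⟩, by omega, by omega, ?_⟩
              have : p * 3 ≤ p * r := Nat.mul_le_mul_left _ (by omega)
              rw [hr]
              omega
        · have hpp := Nat.minFac_prime hj1
          obtain ⟨r, hr⟩ := Nat.minFac_dvd j
          set p := j.minFac with hp
          have hpo : p % 2 = 1 := by
            rcases Nat.mod_two_eq_zero_or_one p with h | h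
            · rw [hr, Nat.mul_mod, h] at hj
              omega
            · exact h
          have hro : r % 2 = 1 := by
            rcases Nat.mod_two_eq_zero_or_one r with h | h
            · rw [hr, Nat.mul_mod, h] at hj
              omega
            · exact h
          obtain ⟨hq1, hq2⟩ := hprim p hpp ⟨r, hr⟩ hpo
          have hr1 : r ≠ 1 := by
            rintro rfl
            rw [mul_one] at hr
            rw [hr] at hjnp
            exact hjnp hpp
          left
          refine ⟨2 * p, ⟨r, by rw [hr]; ring⟩, by omega, by omega, ?_⟩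
          have : p * 3 ≤ p * r := Nat.mul_le_mul_left _ (by omega)
          rw [hr]
          omega

end classify

section final

theorem exponent_three (k : ℕ) : AddMonoid.exponent (ZMod 3 × ZMod (3 * k)) = 3 * k := by
  rw [AddMonoid.exponent_prod, ZMod.exponent, ZMod.exponent]
  have : Nat.lcm 3 (3 * k) = 3 * k := Nat.lcm_eq_right ⟨k, rfl⟩
  exact this

theorem three_column (k : ℕ) (hk : 0 < k) (h1 : ∃ p, p.Prime ∧ p ∣ k ∧ p % 3 ≠ 1)
    (h2 : ∀ p, p.Prime → k ≠ 2 * p) (h3 : ∀ a, k ≠ 2 * 3 ^ a ∧ k ≠ 4 * 3 ^ a) (h4 : k ≠ 8) :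
    3 * k + 3 ≤ tauHat (ZMod 3 × ZMod (3 * k)) (3 * k) := by
  classical
  have : NeZero (3 * k) := ⟨by omega⟩
  have hpos : 0 < 3 * k := by omega
  have he := exponent_three k
  have hc : Fintype.card (ZMod 3 × ZMod (3 * k)) = 3 * (3 * k) := by
    rw [Fintype.card_prod, ZMod.card, ZMod.card]
  rw [le_tauHat_iff hpos]
  rcases classify k hk h1 h2 h3 h4 with ⟨q, hq, hqm, hq5, hqk⟩ | ⟨hk2, hk3⟩ | ⟨hk2, hk3⟩ | ⟨l, hl⟩ | hk16
  · exact lower_self (G := ZMod 3 × ZMod (3 * k)) (m := 3) (κ := 3 * k) (by norm_num) he.symm hc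
      (hq.mul_left 3) (by omega) (by omega) (by omega)
  · obtain ⟨v, hv⟩ : ∃ v, k = 2 * (2 * 1 + 1) * v - 1 := ⟨(k + 1) / 6, by omega⟩
    have hv1 : 1 ≤ v := by omega
    have h5 := lower_family (G := ZMod 3 × ZMod (3 * k)) (μ := 1) (v := v) (le_refl _) hv1
      (by rw [he, ← hv]) (by rw [hc, ← hv])
    rw [← hv] at h5
    exact h5
  · obtain ⟨s, hs⟩ : ∃ s, k = 3 * (2 * s + 1) := ⟨(k / 3 - 1) / 2, by omega⟩
    subst hs
    have h5 := lower_nine (s := s)
    have e1 : 3 * (3 * (2 * s + 1)) = 9 * (2 * s + 1) := by ring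
    rw [e1]
    exact h5
  · have h5 := lower_fourp (G := ZMod 3 × ZMod (3 * k)) (p := 3 * l + 7) (l := l) rfl
      (by rw [he, hl]) (by rw [hc, hl]; ring)
    rw [← hl] at h5
    exact h5
  · subst hk16
    exact lower_sixteen (by rw [he]) (by rw [hc])

end final

end Pool.Agent.Lib.MPa7239a
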