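import Pool.Agent.Lib.MP_a7239a_co.MainLemma

/-!
# Auxiliary facts for the upper bound
-/

open scoped Pointwise
open Finset

set_option linter.unusedSectionVars false

namespace Pool.Agent.Lib.MPa7239a

universe u

variable {G : Type u} [AddCommGroup G] [Fintype G] [DecidableEq G]

/-- no `h` distinct elements of `A` sum to zero -/
def WZF {G : Type*} [AddCommGroup G] (h : ℕ) (A : Finset G) : Prop :=
  ∀ T ⊆ A, T.card = h → ∑ x ∈ T, x ≠ 0

theorem not_DS_of_WZF {h t : ℕ} {A : Finset G} (hA : A.card = h + t) (hw : WZF h A) :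
    ¬ DS A t (∑ a ∈ A, a) := by
  rintro ⟨T, hT, hTc, hTs⟩
  have h1 : (A \ T).card = h := by
    have := card_sdiff_add_card_eq_card hT
    omega
  apply hw (A \ T) sdiff_subset h1
  have h2 := sum_sdiff hT (f := fun a => a)
  rw [hTs] at h2
  simpa using h2

theorem WZF_translate {h : ℕ} {A : Finset G} (g : G) (hg : h • g = 0) (hw : WZF h A) :
    WZF h (A.image (fun a => a + g)) := by
  intro T hT hTc hTs
  set T' := T.image (fun a => a - g) with hT'
  have hinj : Function.Injective (fun a : G => a - g) := sub_left_injective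
  have h1 : T' ⊆ A := by
    intro w hw
    rw [hT', mem_image] at hw
    obtain ⟨a, ha, rfl⟩ := hw
    have := hT ha
    rw [mem_image] at this
    obtain ⟨b, hb, rfl⟩ := this
    simpa using hb
  have h2 : T'.card = h := by
    rw [hT', card_image_of_injective _ hinj, hTc]
  apply hw T' h1 h2
  rw [hT', sum_image (fun a _ b _ hab => hinj hab)]
  rw [sum_sub_distrib, hTs, sum_const, hTc, hg, sub_zero]

theorem card_translate {A : Finset G} (g : G) : (A.image (fun a => a + g)).card = A.card :=
  card_image_of_injective _ (add_left_injective g)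

/-- A set with at least `[G : K]` elements has a nonempty subset whose sum is in `K`. -/
theorem exists_subset_sum_mem {K : AddSubgroup G} {q : ℕ} (hq : q * (hs K).card = Fintype.card G)
    {S : Finset G} (hS : q ≤ S.card) : ∃ U ⊆ S, U.Nonempty ∧ ∑ u ∈ U, u ∈ K := by
  classical
  -- partial sums of a list
  set l := S.toList with hl
  have hlen : l.length = S.card := length_toList S
  have hnd : l.Nodup := nodup_toList S
  -- the quotient has `q` elements
  have hcardq : Fintype.card (G ⧸ K) = q := by
    have h1 := AddSubgroup.card_eq_card_quotient_mul_card_addSubgroup K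
    have h2 : Nat.card K = (hs K).card := by
      rw [Nat.card_eq_fintype_card]
      rw [Fintype.card_subtype]
      unfold hs
      congr 1
    rw [h2, Nat.card_eq_fintype_card, ← hq] at h1
    have h3 := card_hs_pos K
    have h4 : Nat.card (G ⧸ K) = q := Nat.eq_of_mul_eq_mul_right h3 h1.symm
    rw [← h4, Nat.card_eq_fintype_card]
  have hpig : ∃ i ∈ range (q + 1), ∃ j ∈ range (q + 1), i ≠ j ∧
      (QuotientAddGroup.mk (l.take i).sum : G ⧸ K) = QuotientAddGroup.mk (l.take j).sum := by
    apply exists_ne_map_eq_of_card_lt_of_maps_to (t := (univ : Finset (G ⧸ K)))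
    · rw [card_univ, hcardq, card_range]
      omega
    · intro i _
      exact mem_coe.2 (mem_univ _)
  have key : ∀ i j : ℕ, i < j → j ≤ q →
      (QuotientAddGroup.mk (l.take i).sum : G ⧸ K) = QuotientAddGroup.mk (l.take j).sum →
      ∃ U ⊆ S, U.Nonempty ∧ ∑ u ∈ U, u ∈ K := by
    intro i j hij hj heq
    refine ⟨((l.take j).drop i).toFinset, ?_, ?_, ?_⟩
    · intro u hu
      rw [List.mem_toFinset] at hu
      have := List.mem_of_mem_take (List.mem_of_mem_drop hu)
      rwa [hl, mem_toList] at this
    · rw [List.toFinset_nonempty_iff]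
      intro hnil
      have := congrArg List.length hnil
      rw [List.length_drop, List.length_take, List.length_nil] at this
      omega
    · have hnd' : ((l.take j).drop i).Nodup :=
        (hnd.sublist (List.take_sublist _ _)).sublist (List.drop_sublist _ _)
      rw [List.sum_toFinset _ hnd', List.map_id']
      have h1 : (l.take j).sum = (l.take i).sum + ((l.take j).drop i).sum := by
        have h2 := List.sum_take_add_sum_drop (l.take j) i
        rw [List.take_take, min_eq_left hij.le] at h2
        exact h2.symm
      rw [QuotientAddGroup.eq] at heq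
      have h3 : -(l.take i).sum + (l.take j).sum = ((l.take j).drop i).sum := by
        rw [h1]
        abel
      rwa [h3] at heq
  obtain ⟨i, hi, j, hj, hij, heq⟩ := hpig
  rw [mem_range] at hi hj
  rcases lt_or_gt_of_ne hij with h | h
  · exact key i j h (by omega) heq
  · exact key j i h (by omega) heq.symm

/-- Every finite set `B` has a subset `S` with fewer than `[G : K]` elements and the same sum
modulo `K`. -/
theorem exists_small_subset {K : AddSubgroup G} {q : ℕ} (hq : q * (hs K).card = Fintype.card G)
    (B : Finset G) : ∃ S ⊆ B, S.card < q ∧ ∑ b ∈ B, b - ∑ s ∈ S, s ∈ K := by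
  classical
  obtain ⟨S, hS, hmin⟩ := exists_min_image
    (B.powerset.filter (fun S => ∑ b ∈ B, b - ∑ s ∈ S, s ∈ K)) (fun S => S.card)
    ⟨B, by
      rw [mem_filter]
      refine ⟨mem_powerset_self B, ?_⟩
      rw [sub_self]
      exact K.zero_mem⟩
  rw [mem_filter, mem_powerset] at hS
  refine ⟨S, hS.1, ?_, hS.2⟩
  by_contra hcon
  push Not at hcon
  obtain ⟨U, hU, hUn, hUs⟩ := exists_subset_sum_mem hq hcon
  have h1 := hmin (S \ U) (by
    rw [mem_filter, mem_powerset]
    refine ⟨sdiff_subset.trans hS.1, ?_⟩
    have h2 := sum_sdiff hU (f := fun a => a)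
    have h3 : ∑ b ∈ B, b - ∑ s ∈ S \ U, s = (∑ b ∈ B, b - ∑ s ∈ S, s) + ∑ u ∈ U, u := by
      rw [← h2]
      abel
    rw [h3]
    exact K.add_mem hS.2 hUs)
  have h2 := card_sdiff_add_card_eq_card hU
  have h3 := card_pos.2 hUn
  omega

theorem natCard_hs (K : AddSubgroup G) : Nat.card K = (hs K).card := by
  classical
  rw [Nat.card_eq_fintype_card, Fintype.card_subtype]
  unfold hs
  congr 1

/-- the index -/
theorem exists_index (K : AddSubgroup G) : ∃ q, q * (hs K).card = Fintype.card G := by
  refine ⟨Nat.card (G ⧸ K), ?_⟩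
  rw [← natCard_hs, ← Nat.card_eq_fintype_card (α := G)]
  exact (AddSubgroup.card_eq_card_quotient_mul_card_addSubgroup K).symm

/-- The number of solutions of `b + b = z`. -/
theorem card_double {m : ℕ} (hm : Fintype.card G = m * AddMonoid.exponent G) (z : G) :
    (univ.filter (fun b : G => b + b = z)).card ≤ 2 * m := by
  classical
  set κ := AddMonoid.exponent G with hκ
  have hκpos : 0 < κ := AddMonoid.exponent_pos.2 (AddMonoid.ExponentExists.of_finite)
  obtain ⟨g, hg⟩ := AddMonoid.exists_addOrderOf_eq_exponent
    (AddMonoid.ExponentExists.of_finite (G := G))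
  -- the doubling map
  let f : G →+ G := { toFun := fun b => b + b, map_zero' := by simp, map_add' := by intro a b; abel }
  have h1 : Nat.card f.ker * Nat.card f.range = Fintype.card G := by
    have e1 := AddSubgroup.card_mul_index f.ker
    rw [AddSubgroup.index_ker, Nat.card_eq_fintype_card (α := G)] at e1
    exact e1
  have h2 : κ ≤ 2 * Nat.card f.range := by
    have e1 : addOrderOf (2 • g) ∣ Nat.card f.range := by
      have hmem : (2 • g) ∈ f.range := ⟨g, by
        show g + g = 2 • g
        rw [two_nsmul]⟩
      exact f.range.addOrderOf_dvd_natCard hmem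
    have e2 : addOrderOf (2 • g) * Nat.gcd κ 2 = κ := by
      rw [addOrderOf_nsmul' g (by norm_num), hg]
      exact Nat.div_mul_cancel (Nat.gcd_dvd_left _ _)
    have e3 : Nat.gcd κ 2 ≤ 2 := Nat.le_of_dvd (by norm_num) (Nat.gcd_dvd_right _ _)
    have e4 := Nat.le_of_dvd (Nat.card_pos) e1
    calc κ = addOrderOf (2 • g) * Nat.gcd κ 2 := e2.symm
      _ ≤ addOrderOf (2 • g) * 2 := Nat.mul_le_mul_left _ e3
      _ ≤ Nat.card f.range * 2 := Nat.mul_le_mul_right _ e4
      _ = 2 * Nat.card f.range := by ring
  have h3 : Nat.card f.ker ≤ 2 * m := by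
    have hr : 0 < Nat.card f.range := Nat.card_pos
    apply Nat.le_of_mul_le_mul_right _ hr
    calc Nat.card f.ker * Nat.card f.range = m * κ := by rw [h1, hm]
      _ ≤ m * (2 * Nat.card f.range) := Nat.mul_le_mul_left _ h2
      _ = 2 * m * Nat.card f.range := by ring
  rcases (univ.filter (fun b : G => b + b = z)).eq_empty_or_nonempty with h | ⟨b₀, hb₀⟩
  · rw [h]
    simp
  · rw [mem_filter] at hb₀
    refine le_trans ?_ h3
    have h4 : Nat.card f.ker = (univ.filter (fun b : G => b + b = 0)).card := by
      rw [natCard_hs]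
      unfold hs
      congr 1
      ext x
      simp only [mem_filter, mem_univ, true_and]
      rw [AddMonoidHom.mem_ker]
      exact Iff.rfl
    rw [h4]
    apply card_le_card_of_injOn (fun b => b - b₀)
    · intro b hb
      have hb' : b ∈ univ.filter (fun b : G => b + b = z) := hb
      rw [mem_filter] at hb'
      have : b - b₀ ∈ univ.filter (fun b : G => b + b = 0) := by
        rw [mem_filter]
        refine ⟨mem_univ _, ?_⟩
        have : b - b₀ + (b - b₀) = (b + b) - (b₀ + b₀) := by abel
        rw [this, hb'.2, hb₀.2, sub_self]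
      exact this
    · intro a _ b _ hab
      exact sub_left_injective hab

end Pool.Agent.Lib.MPa7239a
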